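import Mathlib
import Pool.Agent.H54.AM.Defs
import Pool.Agent.H54.AM.LemN
import Pool.Agent.H54.G.W237.RK.KS1
import Pool.Agent.H54.G.Q246.FD.Kum
import Pool.Agent.H54.RX.F11

set_option autoImplicit false
set_option linter.unusedVariables false

/-!
# Small heights in the division field: statements

Main theorem `S_MAINV`: for `K` a number field, `Γ ⊆ K*` finitely generated and `ε > 0` there is
`c > 0` with `ht (α / γ) ≥ c / [K(μ_∞)(α) : K(μ_∞)] ^ ε` for all `α ∈ K(Γ_div)*` outside the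
division group and all `γ` in the division group.
-/

namespace Pool.Agent.H54.AV

open Pool.Agent.W237.RK
open Pool.Agent.H58P (Qb ht)
open Pool.Agent.H54.AD (pt)
open Pool.Agent.H54.AM
open Pool.Agent.Q246.FD (divF)

/-! ### local part -/

/-- AV-PADM. The monomials at a point (chordally) close to one of the points `x l`, `l ∈ Y`, all
coordinates at once.  (Compare `AM/Padn.lean`.  `U` is the sum over `s : Fin n → Bool` and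
`r : Fin n → Fin T` of the images of `span (rowN N (x l) : l ∈ Y)` under the diagonal maps with
entries `∏ i, (k i).choose (r i)` or `(N i - 1 - k i).choose (r i)` according to `s i`:
if `‖x‖ ≤ 1` then `z ^ k = ∑ r, k.choose r * x ^ (k - r) * (z - x) ^ r`; if `‖x‖ > 1` then
`‖z‖ > 1`, `‖z⁻¹ - x⁻¹‖ ≤ ρ`, and one expands `z ^ k = z ^ (N - 1) * (z⁻¹) ^ (N - 1 - k)`.) -/
def S_PADM : Prop := ∀ (p : ℕ) [Fact p.Prime] (ι : Type) (n T : ℕ) (N : Fin n → ℕ)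
  (Y : Finset ι) (x : ι → Fin n → PadicAlgCl p) (ρ : ℝ), 0 < ρ → ρ ≤ 1 →
  (∀ l ∈ Y, ∀ i, x l i ≠ 0) →
  ∃ U : Submodule (PadicAlgCl p) ((∀ i, Fin (N i)) → PadicAlgCl p),
    Module.finrank (PadicAlgCl p) U ≤ (2 * T) ^ n * rkN N x (Y : Set ι) ∧
    ∀ z : Fin n → PadicAlgCl p, (∀ i, z i ≠ 0) →
      (∃ l ∈ Y, ∀ i, ‖z i - x l i‖ ≤ ρ * (max 1 ‖z i‖ * max 1 ‖x l i‖)) →
      ∃ w ∈ U, ∀ k, ‖rowN N z k - w k‖ ≤ ρ ^ T * ∏ i, (max 1 ‖z i‖) ^ N i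

/-- AV-CLM. Different levels are close, all coordinates at once.  `q = p ^ a`,
`pt σ q e y j = ((σ ^ (e - j)) y) ^ (q ^ j)`.  For `j ≥ h` take
`y' = σ ^ (-(e - h)) (Φ ^ (j - h) (σ ^ (e - j) y))`, for `j ≤ h` take
`y' = σ ^ (-(e - h)) (Φ ^ (-(h - j)) (σ ^ (e - j) y))`; on `E` these automorphisms are trivial.
`Φ ^ m x ≡ x ^ (q ^ m)` (chordally, up to `p ^ (-1 / n₁)`) for `x ∈ M₀`, then raise to the power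
`q ^ h` resp. `q ^ j` (power lemma: `‖x - y‖ ^ n₁ ≤ p⁻¹ * (max 1 ‖x‖ * max 1 ‖y‖) ^ n₁` and
`n₁ + N ≤ m` give `‖x ^ (p ^ m) - y ^ (p ^ m)‖ ≤ (p ^ N)⁻¹ * (max 1 ‖x‖ * max 1 ‖y‖) ^ (p ^ m)`,
compare `AD/Gam.lean`, `AD/Clo.lean`). -/
def S_CLM : Prop := ∀ (p : ℕ) [Fact p.Prime] (ψ : Qb →+* PadicAlgCl p) (E M₀ : GF)
  (σ Φ : Aut) (a n₁ : ℕ), 0 < a → a ≤ n₁ → E ≤ M₀ →
  (∀ x ∈ M₀, σ x ∈ M₀ ∧ σ⁻¹ x ∈ M₀ ∧ Φ x ∈ M₀ ∧ Φ⁻¹ x ∈ M₀) →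
  (∀ x ∈ E, σ x ∈ E ∧ σ⁻¹ x ∈ E ∧ Φ x = σ x) →
  (∀ ρ : Aut, Fix E ρ → ∀ x ∈ M₀, ρ x ∈ M₀) →
  (∀ x ∈ M₀, ‖ψ x‖ ≤ 1 → ‖ψ (Φ x - x ^ (p ^ a))‖ ^ n₁ ≤ (p : ℝ)⁻¹) →
  ∀ (n : ℕ) (u : Fin n → Qb), (∀ i, u i ∈ M₀) → ∀ (e N j h : ℕ) (y : Fin n → Qb),
  y ∈ orbN E u → n₁ + N ≤ j → n₁ + N ≤ h → j ≤ e → h ≤ e →
  ∃ y' ∈ orbN E u, ∀ i,
    ‖ψ (ptN σ (p ^ a) e y j i) - ψ (ptN σ (p ^ a) e y' h i)‖ ≤ ((p : ℝ) ^ N)⁻¹ *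
      (max 1 ‖ψ (ptN σ (p ^ a) e y j i)‖ * max 1 ‖ψ (ptN σ (p ^ a) e y' h i)‖)

/-- AV-LOCM. The local estimate of the determinant (compare `AM/Locdn.lean`).
`theorem locm : S_PADM → AD.S_DETL → S_CLM → AM.S_EMBN → S_LOCM` -/
def S_LOCM : Prop := ∀ (p : ℕ) [Fact p.Prime] (ψ : Qb →+* PadicAlgCl p) (E M₀ : GF)
  (σ Φ : Aut) (a n₁ : ℕ), 0 < a → a ≤ n₁ → FiniteDimensional ℚ M₀ → E ≤ M₀ →
  (∀ x ∈ M₀, σ x ∈ M₀ ∧ σ⁻¹ x ∈ M₀ ∧ Φ x ∈ M₀ ∧ Φ⁻¹ x ∈ M₀) →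
  (∀ x ∈ E, σ x ∈ E ∧ σ⁻¹ x ∈ E ∧ Φ x = σ x) →
  (∀ ρ : Aut, Fix E ρ → ∀ x ∈ M₀, ρ x ∈ M₀) →
  (∀ x ∈ M₀, ‖ψ x‖ ≤ 1 → ‖ψ (Φ x - x ^ (p ^ a))‖ ^ n₁ ≤ (p : ℝ)⁻¹) →
  ∀ (n : ℕ) (u : Fin n → Qb), (∀ i, u i ≠ 0) → (∀ i, u i ∈ M₀) →
  ∀ (e M T : ℕ) (N : Fin n → ℕ) (h : ℕ), n₁ + M ≤ h → h ≤ e →
  ∀ (ι : Type) [Fintype ι] [DecidableEq ι] (j : ι → ℕ) (y : ι → Fin n → Qb)
    (c : ι → ∀ i, Fin (N i)), (∀ i, n₁ + M ≤ j i ∧ j i ≤ e) → (∀ i, y i ∈ orbN E u) →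
  ‖ψ (Matrix.of (fun i l => rowN N (ptN σ (p ^ a) e (y i) (j i)) (c l))).det‖ ≤
    (((p : ℝ) ^ M)⁻¹) ^ (T * (Fintype.card ι - (2 * T) ^ n * rkN N
      (fun y : Fin n → Qb => ptN σ (p ^ a) e y h) (orbN E u))) *
    ∏ i, ∏ l, (max 1 ‖ψ (ptN σ (p ^ a) e (y i) (j i) l)‖) ^ N l

/-- AV-ADM (helper54). The product of the heights of independent elements of `M₀`.
`theorem adm : S_LOCM → AM.S_ZEN → AM.S_GEN → AD.S_MIN → S_ADM` -/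
def S_ADM : Prop := ∀ (p : ℕ) [Fact p.Prime] (φ : Qb →+* PadicAlgCl p) (κ n₁ n : ℕ) (ε : ℝ),
  0 < ε → ∃ c : ℝ, 0 < c ∧ ∀ (K E M₀ : GF) (σ : Aut) (a : ℕ) (u : Fin n → Qb),
    FiniteDimensional ℚ K → Module.finrank ℚ K ≤ κ → FiniteDimensional ℚ M₀ → K ≤ E →
    E ≤ M₀ → NormalOver K E → NormalOver K M₀ → Fix K σ →
    (∀ τ : Aut, Fix K τ → ∀ x ∈ E, τ (σ x) = σ (τ x)) → 0 < a → a ≤ n₁ →
    (∀ x ∈ M₀, ‖φ x‖ ≤ 1 → ‖φ (σ x - x ^ (p ^ a))‖ ^ n₁ ≤ (p : ℝ)⁻¹) →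
    (∀ i, u i ≠ 0) → (∀ i, u i ∈ M₀) → IndepN u →
    c / ((orbN E u).ncard : ℝ) ^ (1 + ε) ≤ ∏ i, ht (u i)

/-- AV-FROBG. Frobenius elements on fields of radicals of `p`-adic units (compare
`G/W327/RK/FROB.lean`, copy its proof).  Let `k0`, `T`, `k`, `N` be as there, `M₀` the maximal
order of the roots of unity (prime to `p`) in `k0` (`exists_order T`).  Use `ζ'` primitive of order
`M' * M * M₀`, `L = k0(ζ')`, and `M''` the maximal order for `L`.  For `y ^ M = g ∈ Γ`: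
`φ y` is close to a root of unity `c` of order prime to `p` (`S_RES`); `c ^ M` is close to
`φ g ∈ k0`, so `c ^ M ∈ k0` (`mem_of_close`) and `c ^ (M * M₀) = 1`, `c ∈ L`;
`(φ y / c) ^ M ∈ L` and `φ y / c` is close to `1`, so `φ y / c ∈ L` (a `τ` over `L` multiplies it
by an `M`-th root of unity close to `1`, `norm_sub_root`).  Hence
`lev K Γ M'' M ≤ comapF φ L`, the rest is as there.
`theorem frobg : S_RES → S_STRUCT → S_REST → S_FROBG` (and `frobg'` without hypotheses, see how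
`frob` is obtained in `AM/Lib.lean` or `RX`) -/
def S_FROBG : Prop := ∀ (p : ℕ) [Fact p.Prime] (φ : Qb →+* PadicAlgCl p) (K : GF)
  (Γ : Subgroup Qbˣ), FiniteDimensional ℚ K → (∀ g ∈ Γ, (g : Qb) ∈ K) →
  (∀ g ∈ Γ, ‖φ (g : Qb)‖ = 1) → ∃ n₁ : ℕ, ∀ M' M : ℕ, ¬ p ∣ M' → ¬ p ∣ M →
    ∃ (M'' : ℕ) (σ : Aut) (a : ℕ), ¬ p ∣ M'' ∧ M' ∣ M'' ∧ Fix K σ ∧ 0 < a ∧ a ≤ n₁ ∧
      (∀ x ∈ lev K Γ M'' M, ‖φ x‖ ≤ 1 → ‖φ (σ x - x ^ (p ^ a))‖ ^ n₁ ≤ (p : ℝ)⁻¹)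

/-! ### descent -/

/-- AV-DIVL. An element of `K(Γ_div)` has a level (adjoin over a directed union). -/
def S_DIVL : Prop := ∀ (K : GF) (Γ : Subgroup Qbˣ) (α : Qb), α ∈ divF K Γ →
  ∃ R : ℕ, 0 < R ∧ α ∈ levInf K Γ R

/-- AV-REDA. Kummer descent at `p` inside the division field: iterate `RX.descend3` (with `D = 1`,
`ε = 1`, `Finf = levInf K Γ (p ^ n * M)` fixed, where `α ∈ Finf`, so `orb Finf α = {α}`, `Good` and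
`Rigid` hold trivially and `Rigid Finf F β` with `β ∈ Finf` says `β ∈ F`, `mem_of_fix`) until the
level is `p ^ n₀ * M`.
`theorem reda : RX.S_CS3 → RX.S_KS3 → S_DIVL → S_REDA` -/
def S_REDA : Prop := ∀ (p : ℕ) (K : GF) (Γ : Subgroup Qbˣ), p.Prime → FiniteDimensional ℚ K →
  Γ.FG → (∀ g ∈ Γ, (g : Qb) ∈ K) → ∃ (n₀ : ℕ) (c : ℝ), 0 < c ∧
  ∀ α ∈ divF K Γ, α ≠ 0 → (∀ σ : Aut, Fix K σ → ht (σ α / α) ≤ c) →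
    ∃ (γ : Qb) (M : ℕ), γ ≠ 0 ∧ DivG Γ γ ∧ ¬ p ∣ M ∧ α / γ ∈ levInf K Γ (p ^ n₀ * M)

/-- AV-REDB. Cyclotomic descent at `p` inside the division field: the part `hdown` of the proof of
`RX.descend3` (from `S_CS3` with `D = 1`, `ε = 1`, `Finf = levInf K Γ (p ^ n₀ * M)`).
`theorem redb : RX.S_CS3 → S_REDB` -/
def S_REDB : Prop := ∀ (p : ℕ) (K : GF) (Γ : Subgroup Qbˣ), p.Prime → FiniteDimensional ℚ K →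
  Γ.FG → (∀ g ∈ Γ, (g : Qb) ∈ K) → ∀ n₀ : ℕ, ∃ (i₀ : ℕ) (c : ℝ), 0 < c ∧ n₀ ≤ i₀ ∧
  ∀ (M : ℕ) (β : Qb), ¬ p ∣ M → β ∈ levInf K Γ (p ^ n₀ * M) → β ≠ 0 →
    (∀ σ : Aut, Fix K σ → ht (σ β / β) ≤ c) →
    ∃ (γ : Qb) (M' : ℕ), Tor γ ∧ ¬ p ∣ M' ∧ β / γ ∈ lev K Γ (p ^ i₀ * M') (p ^ n₀ * M)

/-! ### the ratios -/

/-- AV-GEO. Short independent vectors in the group generated by `R`.  (Take `r j ∈ R` with
maximal determinant: in these coordinates `R ⊆ [-1, 1] ^ ρ`, so each coset of `Λ₀ = ⊕ ℤ r j` in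
`Λ = closure R` contains at most `3 ^ ρ` elements of `R`, hence `[Λ : Λ₀] ≥ R.card / 3 ^ ρ`; apply
`S_MKN` to a basis of `Λ` in these coordinates, its determinant is `1 / [Λ : Λ₀]`.)
`theorem geo : AM.S_MKN → S_GEO` -/
def S_GEO : Prop := ∀ ρ : ℕ, ∃ C : ℝ, 0 < C ∧ ∀ R : Finset (Fin ρ → ℚ),
  Submodule.span ℚ (R : Set (Fin ρ → ℚ)) = ⊤ →
  ∃ (r : Fin ρ → Fin ρ → ℚ) (w : Fin ρ → Fin ρ → ℚ), (∀ j, r j ∈ R) ∧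
    (∀ i, ∑ j, w i j • r j ∈ AddSubgroup.closure (R : Set (Fin ρ → ℚ))) ∧
    LinearIndependent ℚ (fun i => ∑ j, w i j • r j) ∧
    (∏ i, ∑ j, |(w i j : ℝ)|) * R.card ≤ C

/-- AV-VEC. Coordinates of a finitely generated group (`v x = k / m` where
`x ^ m = ∏ g l ^ k l`, `S_FGB`).  `theorem vec : AM.S_FGB → S_VEC` -/
def S_VEC : Prop := ∀ G : Subgroup Qbˣ, G.FG → ∃ (ρ : ℕ) (v : Qbˣ → Fin ρ → ℚ),
  (∀ x ∈ G, ∀ y ∈ G, v (x * y) = v x + v y) ∧ (∀ x ∈ G, v x = 0 ↔ Tor (x : Qb)) ∧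
  Submodule.span ℚ (v '' (G : Set Qbˣ)) = ⊤

/-- the ratios `τ β / β` -/
def ratS (F : GF) (β : Qb) : Set Qbˣ := {x : Qbˣ | ∃ τ : Aut, Fix F τ ∧ (x : Qb) = τ β / β}

/-- AV-RAT. Counting conjugates.  (If `v (τ β / β) = v (τ' β / β)` then `τ β = ζ * τ' β` with `ζ`
a root of unity, and `τ` and `τ'` agree on all the ratios `κ β / β`, since
`τ (κ β / β) = κ (τ β) / τ β`.  And `v (τ β / β)` depends only on the class of `τ α / α` modulo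
torsion, so only on `τ α`.) -/
def S_RAT : Prop := ∀ (F : GF) (α β : Qb), (∀ x : Qb, Tor x → x ∈ F) → α ≠ 0 → β ≠ 0 →
  (∀ τ : Aut, Fix F τ → Tor ((τ β / β) / (τ α / α))) →
  (∀ τ τ' : Aut, Fix F τ → Fix F τ' → τ (τ' β) = τ' (τ β)) →
  ∀ (V : Type) (v : Qbˣ → V),
  (∀ x ∈ ratS F β, ∀ y ∈ ratS F β, v x = v y ↔ Tor ((x / y : Qbˣ) : Qb)) →
  (ratS F β).Finite ∧ (v '' ratS F β).ncard ≤ (orb F α).ncard ∧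
  ∀ (n : ℕ) (u : Fin n → Qbˣ), (∀ i, u i ∈ Subgroup.closure (ratS F β)) →
    (orbN F (fun i => (u i : Qb))).Finite ∧
    (orbN F (fun i => (u i : Qb))).ncard ≤ (v '' ratS F β).ncard

/-- AV-HTL. Heights and independence in coordinates. -/
def S_HTL : Prop := ∀ (G : Subgroup Qbˣ) (ρ : ℕ) (v : Qbˣ → Fin ρ → ℚ),
  (∀ x ∈ G, ∀ y ∈ G, v (x * y) = v x + v y) → (∀ x ∈ G, v x = 0 ↔ Tor (x : Qb)) →
  (∀ (m : ℕ) (x : Fin m → Qbˣ) (w : Fin m → ℚ) (u : Qbˣ) (H : ℝ), (∀ j, x j ∈ G) → u ∈ G →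
    (∀ j, ht (x j : Qb) ≤ H) → v u = ∑ j, w j • v (x j) →
    ht (u : Qb) ≤ (∑ j, |(w j : ℝ)|) * H) ∧
  (∀ (m : ℕ) (x : Fin m → Qbˣ), (∀ j, x j ∈ G) → LinearIndependent ℚ (fun j => v (x j)) →
    IndepN (fun j => (x j : Qb)))

/-- AV-RNK. From products of heights to the ratios.  Let `G = closure (ratS F β)`, `ρ`, `v` from
`S_VEC`, `R = v '' ratS F β` (spans).  `ρ ≥ 1`.  If `ρ ≤ k`: `S_GEO` gives `u i ∈ G` with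
`∏ ht (u i) ≤ H ^ ρ * C / R.card`, and the hypothesis with `n = ρ` gives
`∏ ht (u i) ≥ c / R.card ^ (1 + ε)`, so `H ^ ρ ≥ c / C / R.card ^ ε`, and `H ≥ min 1 (…)`.
If `ρ > k`: take `k` independent ratios: `H ^ k ≥ c / R.card ^ (1 + ε)`.
`theorem rnk : S_GEO → S_VEC → S_RAT → S_HTL → S_RNK` -/
def S_RNK : Prop := ∀ (k : ℕ) (ε c : ℝ), 0 < k → 0 < ε → 0 < c → ∃ c' : ℝ, 0 < c' ∧
  ∀ (F : GF) (α β : Qb) (H : ℝ), (∀ x : Qb, Tor x → x ∈ F) → α ≠ 0 → β ≠ 0 →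
  (∀ τ : Aut, Fix F τ → Tor ((τ β / β) / (τ α / α))) →
  (∀ τ τ' : Aut, Fix F τ → Fix F τ' → τ (τ' β) = τ' (τ β)) →
  (∀ τ : Aut, Fix F τ → ht (τ β / β) ≤ H) →
  (∃ τ : Aut, Fix F τ ∧ ¬ Tor (τ β / β)) →
  (∀ (n : ℕ) (u : Fin n → Qbˣ), n ≤ k → (∀ i, u i ∈ Subgroup.closure (ratS F β)) →
    IndepN (fun i => (u i : Qb)) →
    c / ((orbN F (fun i => (u i : Qb))).ncard : ℝ) ^ (1 + ε) ≤ ∏ i, ht (u i : Qb)) →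
  c' / ((orb F α).ncard : ℝ) ^ (max ε ((1 + ε) / k)) ≤ H

/-- AV-KUM. If all the ratios `τ α / α` are torsion: Kummer duality `S_KDB` with `L = F`,
`S = radS Γ R`, `N` a multiple of `R` and of the orders of the (finitely many) ratios,
`c τ = τ α / α` (multiplicative since torsion is in `F`; trivial if `τ` fixes `S`, because then `τ`
fixes `levInf K Γ R`); the finiteness condition: `Γ` is finitely generated (`exists_gens`,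
`exists_roots` in `G/W237/RK/LevFin.lean`).  `theorem kum : S_KDB → S_KUM` -/
def S_KUM : Prop := ∀ (K F : GF) (Γ : Subgroup Qbˣ) (R : ℕ) (α : Qb), Γ.FG → 0 < R → K ≤ F →
  (∀ g ∈ Γ, (g : Qb) ∈ K) → (∀ x : Qb, Tor x → x ∈ F) → α ≠ 0 → α ∈ levInf K Γ R →
  (∀ τ : Aut, Fix F τ → Tor (τ α / α)) → ∃ γ : Qb, γ ≠ 0 ∧ DivG Γ γ ∧ α / γ ∈ F

/-! ### fields -/

/-- AV-FLD. The two descriptions of the top level. -/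
def S_FLD : Prop := ∀ (p : ℕ) (K : GF) (Γ : Subgroup Qbˣ) (i₀ n₀ M M' M'' : ℕ), p.Prime →
  (∀ g ∈ Γ, (g : Qb) ∈ K) → ¬ p ∣ M → ¬ p ∣ M'' → M' ∣ M'' →
  lev K Γ (p ^ i₀ * M') (p ^ n₀ * M) ≤
    lev (lev K Γ (p ^ i₀) (p ^ n₀)) (radS Γ (p ^ n₀)) M'' M ∧
  lev (lev K Γ (p ^ i₀) (p ^ n₀)) (radS Γ (p ^ n₀)) M'' M ≤
    lev K Γ (p ^ i₀ * M'') (p ^ n₀ * M)

/-- AV-GLU. Galois theory of a compositum: a primitive element `y` of `M₀` has the same conjugates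
over `M₀ ⊓ F` and over `F` (the product of `X - z` over `orb F y` has coefficients in
`M₀ ⊓ F`). -/
def S_GLU : Prop := ∀ F M₀ : GF, FiniteDimensional ℚ M₀ →
  (∀ ρ : Aut, Fix F ρ → ∀ x ∈ M₀, ρ x ∈ M₀) →
  ∀ ρ : Aut, Fix (M₀ ⊓ F) ρ → ∃ ρ' : Aut, Fix F ρ' ∧ AgreeOn M₀ ρ ρ'

/-- AV-COM. Commuting automorphisms (`eqField` in `G/W237/RK/Act.lean` is useful). -/
def S_COM : Prop := (∀ (K : GF) (Γ : Subgroup Qbˣ) (N R : ℕ) (F : GF), 0 < N → 0 < R →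
    (∀ g ∈ Γ, (g : Qb) ∈ K) → K ≤ F → (∀ x : Qb, Tor x → x ∈ F) →
    ∀ τ τ' : Aut, Fix F τ → Fix F τ' → ∀ x ∈ lev K Γ N R, τ (τ' x) = τ' (τ x)) ∧
  (∀ (K : GF) (σ τ : Aut), Fix K σ → Fix K τ → ∀ x ∈ kinf K, τ (σ x) = σ (τ x))

/-! ### the main theorem -/

/-- the main theorem (helper54):
`S_ADM → S_FROBG → S_REDA → S_REDB → S_DIVL → S_RNK → S_KUM → S_FLD → S_GLU → S_COM →
AM.S_STARN → S_MAINV` -/
def S_MAINV : Prop := ∀ (K : GF) (Γ : Subgroup Qbˣ), FiniteDimensional ℚ K → Γ.FG →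
  (∀ g ∈ Γ, (g : Qb) ∈ K) → ∀ ε : ℝ, 0 < ε → ∃ c : ℝ, 0 < c ∧
  ∀ α ∈ divF K Γ, α ≠ 0 → ¬ DivG Γ α → ∀ γ : Qb, DivG Γ γ →
    c / ((orb (kinf K) α).ncard : ℝ) ^ ε ≤ ht (α / γ)

end Pool.Agent.H54.AV
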