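import Mathlib
import Pool.Agent.H54.AV.Adm
import Pool.Agent.H54.AM.Starn

set_option autoImplicit false
set_option linter.unusedVariables false

/-!
# Small heights in the division field: the assembly
-/

namespace Pool.Agent.H54.AV

open Pool.Agent.W237.RK
open Pool.Agent.H58P (Qb ht)
open Pool.Agent.H58R (ht_nonneg ht_mul_le ht_inv)
open Pool.Agent.H58B (ht_conj)
open Pool.Agent.H54.RX
open Pool.Agent.H54.AD (pt exists_emb)
open Pool.Agent.H54.AM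
open Pool.Agent.Q246.FD (divF)

lemma norm_prod_zpow {p : ℕ} [Fact p.Prime] (φ : Qb →+* PadicAlgCl p) {r : ℕ} (g : Fin r → Qbˣ)
    (h : ∀ i, ‖φ (g i : Qb)‖ = 1) (e : Fin r → ℤ) : ‖φ ((∏ j, g j ^ e j : Qbˣ) : Qb)‖ = 1 := by
  rw [Units.coe_prod, map_prod, norm_prod]
  refine Finset.prod_eq_one fun l _ => ?_
  rw [Units.val_zpow_eq_zpow_val, map_zpow₀, norm_zpow, h, one_zpow]

lemma orb_of_mem {F : GF} {x : Qb} (h : x ∈ F) : orb F x = {x} := by
  ext y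
  constructor
  · rintro ⟨σ, hσ, rfl⟩
    exact hσ x h
  · intro hy
    rw [Set.mem_singleton_iff] at hy
    exact ⟨1, fix_one F, hy.symm⟩

lemma kinf_mono {K K' : GF} (h : K ≤ K') : kinf K ≤ kinf K' := by
  refine sup_le (h.trans (le_kinf K')) ?_
  rw [IntermediateField.adjoin_le_iff]
  exact fun x hx => tor_mem_kinf K' hx

lemma closure_mem {F M₀ : GF} {β : Qb} (hβ : β ∈ M₀) (hM : ∀ τ : Aut, Fix F τ → τ β ∈ M₀)
    {u : Qbˣ} (hu : u ∈ Subgroup.closure (ratS F β)) : (u : Qb) ∈ M₀ := by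
  induction hu using Subgroup.closure_induction with
  | mem x hx =>
    obtain ⟨τ, hτ, h⟩ := hx
    rw [h]
    exact div_mem (hM τ hτ) hβ
  | one => exact one_mem _
  | mul x y _ _ hx hy =>
    rw [Units.val_mul]
    exact mul_mem hx hy
  | inv x _ hx =>
    rw [Units.val_inv_eq_inv_val]
    exact inv_mem hx

theorem mainv : S_ADM → S_FROBG → S_REDA → S_REDB → S_DIVL → S_RNK → S_KUM → S_FLD → S_GLU →
    S_COM → S_STARN → S_MAINV := by
  classical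
  intro hADM hFROB hREDA hREDB hDIVL hRNK hKUM hFLD hGLU hCOM hSTAR K Γ hK hΓfg hΓ ε hε
  -- the prime
  obtain ⟨r, gg, hgΓ, hgen⟩ := exists_gens Γ hΓfg
  obtain ⟨p, hpf, hφ⟩ := exists_unit_prime' (fun i => (gg i : Qb)) (fun i => (gg i).ne_zero)
  have hp : p.Prime := hpf.out
  obtain ⟨φ⟩ := exists_emb p
  have hφΓ : ∀ x ∈ Γ, ‖φ (x : Qb)‖ = 1 := by
    intro x hx
    obtain ⟨e, rfl⟩ := hgen x hx
    exact norm_prod_zpow φ gg (hφ φ) e
  obtain ⟨n₀, cA, hcA, hA⟩ := hREDA p K Γ hp hK hΓfg hΓ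
  obtain ⟨i₀, cB, hcB, hni, hB⟩ := hREDB p K Γ hp hK hΓfg hΓ n₀
  set K' := lev K Γ (p ^ i₀) (p ^ n₀) with hK'
  have hK'fd : FiniteDimensional ℚ K' :=
    finiteDimensional_lev K hK Γ hΓfg _ _ (pow_pos hp.pos _) (pow_pos hp.pos _)
  have hKK' : K ≤ K' := le_lev K Γ _ _
  set Γ' := radS Γ (p ^ n₀) with hΓ'def
  have hΓ' : ∀ g ∈ Γ', (g : Qb) ∈ K' := fun g hg => rad_mem_lev K Γ ((radS_iff g).mp hg)
  have hφΓ' : ∀ g ∈ Γ', ‖φ (g : Qb)‖ = 1 := by
    intro g hg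
    obtain ⟨x, hx, h⟩ := (radS_iff g).mp hg
    have h1 := hφΓ x hx
    rw [← h, map_pow, norm_pow] at h1
    exact (pow_eq_one_iff_of_nonneg (norm_nonneg _) (pow_pos hp.pos _).ne').mp h1
  obtain ⟨n₁, hF⟩ := hFROB p φ K' Γ' hK'fd hΓ' hφΓ'
  -- the constants
  set ε' : ℝ := min ε 1 with hε'
  have hε'0 : 0 < ε' := lt_min hε one_pos
  have hε'1 : ε' ≤ 1 := min_le_right _ _
  have hε'ε : ε' ≤ ε := min_le_left _ _
  obtain ⟨k, hk⟩ := exists_nat_gt (2 / ε)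
  have hkR : (0 : ℝ) < k := lt_trans (by positivity) hk
  have hk0 : 0 < k := by exact_mod_cast hkR
  choose cn hcn hcn' using fun n => hADM p φ (Module.finrank ℚ K') n₁ n ε' hε'0
  set cM : ℝ := (1 + ∑ n ∈ Finset.range (k + 1), (cn n)⁻¹)⁻¹ with hcM
  have hsum0 : 0 ≤ ∑ n ∈ Finset.range (k + 1), (cn n)⁻¹ :=
    Finset.sum_nonneg fun n _ => (inv_pos.mpr (hcn n)).le
  have hcMpos : 0 < cM := by
    rw [hcM]
    positivity
  have hcMle : ∀ n ≤ k, cM ≤ cn n := by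
    intro n hn
    have h1 : (cn n)⁻¹ ≤ ∑ n ∈ Finset.range (k + 1), (cn n)⁻¹ :=
      Finset.single_le_sum (f := fun n => (cn n)⁻¹) (fun n _ => (inv_pos.mpr (hcn n)).le)
        (Finset.mem_range.mpr (by omega))
    rw [hcM, ← inv_inv (cn n)]
    apply inv_anti₀ (inv_pos.mpr (hcn n))
    linarith
  obtain ⟨cR, hcR, hR⟩ := hRNK k ε' cM hk0 hε'0 hcMpos
  obtain ⟨cS, hcS, hSt⟩ := hSTAR K' Γ hK'fd hΓfg (fun g hg => hKK' (hΓ g hg)) 1 one_pos
  set C : ℝ := min (min (cA / 4) (cB / 4)) (min (cR / 4) (cS / 2)) with hC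
  have hCpos : 0 < C := lt_min (lt_min (by positivity) (by positivity))
    (lt_min (by positivity) (by positivity))
  have hC1 : C ≤ cA / 4 := (min_le_left _ _).trans (min_le_left _ _)
  have hC2 : C ≤ cB / 4 := (min_le_left _ _).trans (min_le_right _ _)
  have hC3 : C ≤ cR / 4 := (min_le_right _ _).trans (min_le_left _ _)
  have hC4 : C ≤ cS / 2 := (min_le_right _ _).trans (min_le_right _ _)
  refine ⟨C, hCpos, fun α hα hα0 hαd γ hγ => ?_⟩
  by_contra hlt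
  push Not at hlt
  have hγ0 : γ ≠ 0 := Pool.Agent.TH53.RP.DivG.ne_zero hγ
  set D : ℕ := (orb (kinf K) α).ncard with hD
  have hDpos : 0 < D := orb_ncard_pos _ _
  have hDR : (1 : ℝ) ≤ D := by exact_mod_cast hDpos
  have hD0 : (0 : ℝ) < D := by linarith
  have hDε : (1 : ℝ) ≤ (D : ℝ) ^ ε := Real.one_le_rpow hDR hε.le
  set η : ℝ := ht (α / γ) with hη
  have hη0 : 0 ≤ η := ht_nonneg _
  have hηC : η < C := hlt.trans_le (div_le_self hCpos.le hDε)
  have hq0 : α / γ ≠ 0 := div_ne_zero hα0 hγ0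
  have hhσ : ∀ σ : Aut, Fix K σ → ht (σ α / α) ≤ 2 * η := by
    intro σ hσ
    rw [← ht_div hγ0 (tor_ratio hΓ hγ0 hγ hσ)]
    have h1 := ht_mul_le (σ (α / γ)) (α / γ)⁻¹
    rw [ht_inv _ hq0, ht_conj, ← div_eq_mul_inv] at h1
    linarith
  -- the descent
  obtain ⟨γ₁, M, hγ₁0, hγ₁d, hM, hmem1⟩ := hA α hα hα0 (fun σ hσ => (hhσ σ hσ).trans (by linarith))
  obtain ⟨ω, M', hω, hM', hmem2⟩ := hB M (α / γ₁) hM hmem1 (div_ne_zero hα0 hγ₁0) (by
    intro σ hσ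
    rw [ht_div hγ₁0 (tor_ratio hΓ hγ₁0 hγ₁d hσ)]
    exact (hhσ σ hσ).trans (by linarith))
  rw [div_div] at hmem2
  set γ₂ : Qb := γ₁ * ω with hγ₂
  have hγ₂0 : γ₂ ≠ 0 := mul_ne_zero hγ₁0 hω.ne_zero
  have hγ₂d : DivG Γ γ₂ := hγ₁d.mul (divG_tor Γ hω)
  set β : Qb := α / γ₂ with hβ
  have hβ0 : β ≠ 0 := div_ne_zero hα0 hγ₂0
  -- the fields
  obtain ⟨M'', σ, a, hM'', hdvd, hσ, ha0, ha1, hfrob⟩ := hF M' M hM' hM
  obtain ⟨hle1, hle2⟩ := hFLD p K Γ i₀ n₀ M M' M'' hp hΓ hM hM'' hdvd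
  have hMpos : 0 < M := Nat.pos_of_ne_zero (by rintro rfl; exact hM (dvd_zero p))
  have hM''pos : 0 < M'' := Nat.pos_of_ne_zero (by rintro rfl; exact hM'' (dvd_zero p))
  set M₀ : GF := lev K' Γ' M'' M with hM₀
  set F : GF := kinf K' with hFdef
  have htop : FiniteDimensional ℚ (lev K Γ (p ^ i₀ * M'') (p ^ n₀ * M)) :=
    finiteDimensional_lev K hK Γ hΓfg _ _ (Nat.mul_pos (pow_pos hp.pos _) hM''pos)
      (Nat.mul_pos (pow_pos hp.pos _) hMpos)
  have hM₀fd : FiniteDimensional ℚ M₀ :=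
    Module.Finite.of_injective (IntermediateField.inclusion hle2).toLinearMap
      (IntermediateField.inclusion hle2).injective
  have hβM : β ∈ M₀ := hle1 hmem2
  have hnM : NormalOver K' M₀ := normal_lev K' Γ' hΓ' M'' M
  have hnF : NormalOver K' F := normal_kinf K'
  have hK'E : K' ≤ M₀ ⊓ F := le_inf (le_lev K' Γ' _ _) (le_kinf K')
  have hnE : NormalOver K' (M₀ ⊓ F) := fun τ hτ x hx => ⟨hnM τ hτ x hx.1, hnF τ hτ x hx.2⟩
  have hK'F : K' ≤ F := le_kinf K'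
  have hKF : K ≤ F := hKK'.trans hK'F
  have htorF : ∀ x : Qb, Tor x → x ∈ F := fun x hx => tor_mem_kinf K' hx
  have hkF : kinf K ≤ F := kinf_mono hKK'
  have hcomm : ∀ τ : Aut, Fix K' τ → ∀ x ∈ M₀ ⊓ F, τ (σ x) = σ (τ x) := fun τ hτ x hx =>
    hCOM.2 K' σ τ hσ hτ x hx.2
  have hFM : ∀ ρ : Aut, Fix F ρ → ∀ x ∈ M₀, ρ x ∈ M₀ := fun ρ hρ x hx =>
    hnM ρ (fix_mono hK'F hρ) x hx
  -- the ratios
  have hratio : ∀ τ : Aut, Fix F τ → Tor ((τ β / β) / (τ α / α)) := by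
    intro τ hτ
    have h1 : Tor (τ γ₂ / γ₂) := tor_ratio hΓ hγ₂0 hγ₂d (fix_mono hKF hτ)
    have e1 : (τ β / β) / (τ α / α) = (τ γ₂ / γ₂)⁻¹ := by
      have h2 : τ γ₂ ≠ 0 := (map_ne_zero τ).mpr hγ₂0
      have h3 : τ α ≠ 0 := (map_ne_zero τ).mpr hα0
      rw [hβ, map_div₀]
      field_simp
    rw [e1]
    exact h1.inv
  by_cases hex : ∃ τ : Aut, Fix F τ ∧ ¬ Tor (τ β / β)
  · -- some ratio is not torsion
    have hmain := hR F α β (2 * η) htorF hα0 hβ0 hratio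
      (fun τ τ' hτ hτ' => hCOM.1 K' Γ' M'' M F hM''pos hMpos hΓ' hK'F htorF τ τ' hτ hτ' β hβM)
      (by
        intro τ hτ
        rw [hβ, ht_div hγ₂0 (tor_ratio hΓ hγ₂0 hγ₂d (fix_mono hKF hτ))]
        exact hhσ τ (fix_mono hKF hτ))
      hex
      (by
        intro n u hn hu hind
        have huM : ∀ i, (u i : Qb) ∈ M₀ := fun i =>
          closure_mem hβM (fun τ hτ => hFM τ hτ β hβM) (hu i)
        have h1 := hcn' n K' (M₀ ⊓ F) M₀ σ a (fun i => (u i : Qb)) hK'fd le_rfl hM₀fd hK'E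
          inf_le_left hnE hnM hσ hcomm ha0 ha1 hfrob (fun i => (u i).ne_zero) huM hind
        refine le_trans ?_ h1
        have hsub : orbN (M₀ ⊓ F) (fun i => (u i : Qb)) ⊆ orbN F (fun i => (u i : Qb)) := by
          rintro _ ⟨ρ, hρ, rfl⟩
          obtain ⟨ρ', hρ', hag⟩ := hGLU F M₀ hM₀fd hFM ρ hρ
          refine ⟨ρ', hρ', ?_⟩
          funext i
          exact (hag _ (huM i)).symm
        have hle : ((orbN (M₀ ⊓ F) (fun i => (u i : Qb))).ncard : ℝ) ≤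
            ((orbN F (fun i => (u i : Qb))).ncard : ℝ) := by
          exact_mod_cast Set.ncard_le_ncard hsub (orbN_finite' F _)
        have hpos : (0 : ℝ) < ((orbN (M₀ ⊓ F) (fun i => (u i : Qb))).ncard : ℝ) := by
          exact_mod_cast orbN_pos _ _
        calc cM / ((orbN F (fun i => (u i : Qb))).ncard : ℝ) ^ (1 + ε')
            ≤ cM / ((orbN (M₀ ⊓ F) (fun i => (u i : Qb))).ncard : ℝ) ^ (1 + ε') := by
              apply div_le_div_of_nonneg_left hcMpos.le (by positivity)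
              exact Real.rpow_le_rpow hpos.le hle (by linarith)
          _ ≤ cn n / ((orbN (M₀ ⊓ F) (fun i => (u i : Qb))).ncard : ℝ) ^ (1 + ε') :=
              div_le_div_of_nonneg_right (hcMle n hn) (by positivity))
    have hDα : ((orb F α).ncard : ℝ) ≤ D := by
      exact_mod_cast Set.ncard_le_ncard (orb_mono hkF α) (orb_finite _ _)
    have hDα1 : (1 : ℝ) ≤ ((orb F α).ncard : ℝ) := by exact_mod_cast orb_ncard_pos F α
    have hexp : max ε' ((1 + ε') / k) ≤ ε := by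
      refine max_le hε'ε ?_
      rw [div_le_iff₀ hkR]
      have h1 : 2 < k * ε := by rwa [div_lt_iff₀ hε] at hk
      linarith
    have h2 : ((orb F α).ncard : ℝ) ^ (max ε' ((1 + ε') / k)) ≤ (D : ℝ) ^ ε := by
      calc ((orb F α).ncard : ℝ) ^ (max ε' ((1 + ε') / k))
          ≤ ((orb F α).ncard : ℝ) ^ ε := Real.rpow_le_rpow_of_exponent_le hDα1 hexp
        _ ≤ (D : ℝ) ^ ε := Real.rpow_le_rpow (by linarith) hDα hε.le
    have h3 : cR / (D : ℝ) ^ ε ≤ 2 * η := by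
      refine le_trans ?_ hmain
      apply div_le_div_of_nonneg_left hcR.le _ h2
      exact Real.rpow_pos_of_pos (by linarith) _
    have h4 : C / (D : ℝ) ^ ε ≤ (cR / 4) / (D : ℝ) ^ ε :=
      div_le_div_of_nonneg_right hC3 (by positivity)
    have h5 : (cR / 4) / (D : ℝ) ^ ε = (cR / (D : ℝ) ^ ε) / 4 := by ring
    have h6 : 0 < cR / (D : ℝ) ^ ε := by positivity
    linarith
  · -- all the ratios are torsion
    push Not at hex
    have hαtor : ∀ τ : Aut, Fix F τ → Tor (τ α / α) := by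
      intro τ hτ
      have h1 := hex τ hτ
      have h2 := hratio τ hτ
      have e1 : τ α / α = (τ β / β) / ((τ β / β) / (τ α / α)) := by
        have h3 : τ α ≠ 0 := (map_ne_zero τ).mpr hα0
        have h4 : τ β ≠ 0 := (map_ne_zero τ).mpr hβ0
        field_simp
      rw [e1]
      exact h1.div h2
    obtain ⟨R, hR0, hαR⟩ := hDIVL K Γ α hα
    obtain ⟨γ₃, hγ₃0, hγ₃d, hmem3⟩ := hKUM K F Γ R α hΓfg hR0 hKF hΓ htorF hα0 hαR hαtor
    have h1 := hSt 1 one_pos (α / γ₃) (γ / γ₃) (div_ne_zero hα0 hγ₃0)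
      (by rw [orb_of_mem hmem3, Set.ncard_singleton])
      (by
        rw [div_eq_mul_inv]
        exact hγ.mul (divG_inv hγ₃d))
      (by
        intro h
        apply hαd
        have e1 : α = (α / γ₃) * γ₃ := by rw [div_mul_cancel₀ _ hγ₃0]
        rw [e1]
        exact h.mul hγ₃d)
    have e1 : α / γ₃ / (γ / γ₃) = α / γ := by field_simp
    rw [e1] at h1
    simp only [Nat.cast_one, Real.one_rpow, div_one] at h1
    linarith

end Pool.Agent.H54.AV
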