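import Mathlib
import Pool.Agent.H54.AV.Stm

set_option autoImplicit false
set_option linter.unusedVariables false

/-!
# Small heights in the division field, with degrees over the smooth root field: statements

Main theorem `S_MAINW`: for `K` a number field, `Γ ⊆ K*` finitely generated, `P` a finite set of
primes and `ε > 0` there is `c > 0` with
`ht (α / γ) ≥ c / (D_Γ(α) * [F_P(α) : F_P] ^ ε)`, `F_P = K(μ_∞, Γ^(1/n) : n smooth)`, for all `α`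
whose norm to `K(Γ_div)` is not in the division group and all `γ` in the division group.
-/

namespace Pool.Agent.H54.AV

open Pool.Agent.W237.RK
open Pool.Agent.H58P (Qb ht)
open Pool.Agent.H54.AD (pt)
open Pool.Agent.H54.AM
open Pool.Agent.Q246.FD (divF)

/-- AV-REDP. Descent at all the primes of `P` inside the division field (as in the proof of
`RX.main3`: take the least `R` such that `α / γ ∈ levInf K Γ R` for some `γ ≠ 0` in the division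
group; if `p ∈ P` and `p ^ n` divides `R` exactly, with `n ≥ n₀ p`, then `RX.descend3` with
`D = 1`, `ε = 1`, `Finf = levInf K Γ R` gives a smaller level, compare `AV/Reda.lean`; so
`R = R₁ * M` with `R₁ ∣ ∏ p ∈ P, p ^ n₀ p =: R₀`).
`theorem redp : Pool.Agent.H54.RX.S_CS3 → Pool.Agent.H54.RX.S_KS3 → S_DIVL → S_REDP` -/
def S_REDP : Prop := ∀ (K : GF) (Γ : Subgroup Qbˣ) (P : Finset ℕ), FiniteDimensional ℚ K →
  Γ.FG → (∀ g ∈ Γ, (g : Qb) ∈ K) → (∀ p ∈ P, p.Prime) →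
  ∃ (R₀ : ℕ) (c : ℝ), Smooth P R₀ ∧ 0 < c ∧
  ∀ α ∈ divF K Γ, α ≠ 0 → (∀ σ : Aut, Fix K σ → ht (σ α / α) ≤ c) →
    ∃ (γ : Qb) (M : ℕ), γ ≠ 0 ∧ DivG Γ γ ∧ 0 < M ∧ (∀ p ∈ P, ¬ p ∣ M) ∧
      α / γ ∈ levInf K Γ (R₀ * M)

/-- AV-INT. Radicals of order prime to `P` and of `P`-smooth order. (If `x` is in both fields
and `τ` is trivial on `kinf K'`, then `τ ^ M` fixes `x`, and `τ ^ n` fixes `x` for some `P`-smooth
`n` (`x ∈ levInf K Γ n`), so `τ x = x`; then `mem_of_fix`.) -/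
def S_INT : Prop := ∀ (K K' : GF) (Γ Γ' : Subgroup Qbˣ) (P : Finset ℕ) (M : ℕ), K ≤ K' →
  (∀ g ∈ Γ, (g : Qb) ∈ K) → (∀ g ∈ Γ', (g : Qb) ∈ K') → (∀ p ∈ P, p.Prime) → 0 < M →
  (∀ p ∈ P, ¬ p ∣ M) → levInf K' Γ' M ⊓ fullField K Γ P ≤ kinf K'

/-- AV-FLDB. The two descriptions of the top level (variant of `S_FLD`). -/
def S_FLDB : Prop := ∀ (K : GF) (Γ : Subgroup Qbˣ) (A R₀ M M' M'' : ℕ),
  (∀ g ∈ Γ, (g : Qb) ∈ K) → 0 < A → 0 < R₀ → 0 < M → 0 < M'' → Nat.Coprime A M' → M' ∣ M'' →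
  lev K Γ (A * M') (R₀ * M) ≤ lev (lev K Γ A R₀) (radS Γ R₀) M'' M ∧
  lev (lev K Γ A R₀) (radS Γ R₀) M'' M ≤ lev K Γ (A * M'') (R₀ * M)

/-- AV-NRM. The norm to `F₀`, up to sign the constant coefficient of the minimal polynomial
(`minpoly_map_eq_oprod`): the norm of `τ α` is `τ` of the norm of `α` for `τ` over `F`, so it is
determined by `τ α`. -/
def S_NRM : Prop := ∀ (F F₀ : GF) (α : Qb), F ≤ F₀ → NormalOver F F₀ → α ≠ 0 →
  (((minpoly F₀ α).coeff 0 : F₀) : Qb) ≠ 0 ∧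
  (orb F (((minpoly F₀ α).coeff 0 : F₀) : Qb)).ncard ≤ (orb F α).ncard ∧
  ∀ γ ∈ F₀, γ ≠ 0 → ht ((((minpoly F₀ α).coeff 0 : F₀) : Qb) / γ ^ (orb F₀ α).ncard) ≤
    (orb F₀ α).ncard * ht (α / γ)

/-- AV-LVL. Degrees of the elements of a level over the smooth root field: if `y ^ (m * n) ∈ Γ`
with `n` smooth then `y ^ m ∈ F_P`, so `τ y / y` is an `m`-th root of unity for `τ` over `F_P`
(`exists_gens`, `exists_roots` in `G/W237/RK/LevFin.lean`; `τ α` is determined by the `s` roots of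
unity `τ z_j / z_j`). -/
def S_LVL : Prop := ∀ (K : GF) (Γ : Subgroup Qbˣ), Γ.FG → (∀ g ∈ Γ, (g : Qb) ∈ K) →
  ∃ s : ℕ, ∀ (P : Finset ℕ) (m n : ℕ), 0 < m → Smooth P n → ∀ α ∈ levInf K Γ (m * n),
    (orb (fullField K Γ P) α).ncard ≤ m ^ s

/-- degree one, with degrees over the smooth root field (helper54) -/
def S_MAINP : Prop := ∀ (K : GF) (Γ : Subgroup Qbˣ), FiniteDimensional ℚ K → Γ.FG →
  (∀ g ∈ Γ, (g : Qb) ∈ K) → ∀ (P : Finset ℕ), (∀ p ∈ P, p.Prime) → ∀ ε : ℝ, 0 < ε →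
  ∃ c : ℝ, 0 < c ∧
  ∀ α ∈ divF K Γ, α ≠ 0 → ¬ DivG Γ α → ∀ γ : Qb, DivG Γ γ →
    c / ((orb (fullField K Γ P) α).ncard : ℝ) ^ ε ≤ ht (α / γ)

/-- the main theorem with the norm (helper54) -/
def S_MAINW : Prop := ∀ (K : GF) (Γ : Subgroup Qbˣ), FiniteDimensional ℚ K → Γ.FG →
  (∀ g ∈ Γ, (g : Qb) ∈ K) → ∀ (P : Finset ℕ), (∀ p ∈ P, p.Prime) → ∀ ε : ℝ, 0 < ε →
  ∃ c : ℝ, 0 < c ∧
  ∀ α : Qb, α ≠ 0 → ¬ DivG Γ (((minpoly (divF K Γ) α).coeff 0 : divF K Γ) : Qb) →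
    ∀ γ : Qb, DivG Γ γ →
    c / ((orb (divF K Γ) α).ncard * ((orb (fullField K Γ P) α).ncard : ℝ) ^ ε) ≤ ht (α / γ)

end Pool.Agent.H54.AV
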