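import Mathlib
import Pool.Agent.H54.AV.Mainv
import Pool.Agent.H54.AV.Stm2
import Pool.Agent.H54.AM.Main5

set_option autoImplicit false
set_option linter.unusedVariables false

/-!
# Small heights in the division field: the assembly
-/

namespace Pool.Agent.H54.AV

open Pool.Agent.W237.RK
open Pool.Agent.H58P (Qb ht)
open Pool.Agent.H58R (ht_nonneg ht_mul_le ht_inv)
open Pool.Agent.H58B (ht_conj)
open Pool.Agent.H54.RX
open Pool.Agent.H54.AD (pt exists_emb)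
open Pool.Agent.H54.AM
open Pool.Agent.Q246.FD (divF)

lemma fullField_mono (K : GF) (Γ : Subgroup Qbˣ) {P P' : Finset ℕ} (h : P ⊆ P') :
    fullField K Γ P ≤ fullField K Γ P' := by
  unfold fullField
  refine sup_le_sup_left ?_ K
  refine IntermediateField.adjoin.mono _ _ _ ?_
  rintro x (hx | ⟨n, hn, g, hg, hx⟩)
  · exact Or.inl hx
  · exact Or.inr ⟨n, ⟨hn.1, fun q hq hd => h (hn.2 q hq hd)⟩, g, hg, hx⟩

lemma fullField_le_divF (K : GF) (Γ : Subgroup Qbˣ) (P : Finset ℕ) :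
    fullField K Γ P ≤ divF K Γ := by
  unfold fullField divF
  refine sup_le (fun x hx => IntermediateField.subset_adjoin _ _ (Or.inl hx)) ?_
  refine IntermediateField.adjoin.mono _ _ _ ?_
  rintro x (hx | ⟨n, hn, g, hg, hx⟩)
  · exact Or.inr (divG_tor Γ hx)
  · exact Or.inr ⟨n, hn.1, g, hg, hx⟩

lemma normal_divF (K : GF) (Γ : Subgroup Qbˣ) (hΓ : ∀ g ∈ Γ, (g : Qb) ∈ K) :
    NormalOver K (divF K Γ) := by
  unfold divF
  intro σ hσ x hx
  induction hx using IntermediateField.adjoin_induction with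
  | mem x hx =>
    apply IntermediateField.subset_adjoin
    rcases hx with hx | ⟨n, hn, g, hg, h⟩
    · left
      rw [SetLike.mem_coe] at hx
      rw [SetLike.mem_coe, hσ x hx]
      exact hx
    · right
      exact ⟨n, hn, g, hg, by rw [← map_pow, h, hσ _ (hΓ g hg)]⟩
  | algebraMap x => rw [AlgEquiv.commutes]; exact IntermediateField.algebraMap_mem _ x
  | add x y _ _ hx hy => rw [map_add]; exact add_mem hx hy
  | inv x _ hx => rw [map_inv₀]; exact inv_mem hx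
  | mul x y _ _ hx hy => rw [map_mul]; exact mul_mem hx hy

theorem mainp : S_ADM → S_FROBG → S_REDP → S_REDB → S_DIVL → S_RNK → S_KUM → S_FLDB → S_INT →
    S_GLU → S_COM → S_MAIN5 → S_MAINP := by
  classical
  intro hADM hFROB hREDP hREDB hDIVL hRNK hKUM hFLD hINT hGLU hCOM hM5 K Γ hK hΓfg hΓ P₀ hP₀ ε hε
  -- the prime
  obtain ⟨r, gg, hgΓ, hgen⟩ := exists_gens Γ hΓfg
  obtain ⟨p, hpf, hφ⟩ := exists_unit_prime' (fun i => (gg i : Qb)) (fun i => (gg i).ne_zero)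
  have hp : p.Prime := hpf.out
  obtain ⟨φ⟩ := exists_emb p
  have hφΓ : ∀ x ∈ Γ, ‖φ (x : Qb)‖ = 1 := by
    intro x hx
    obtain ⟨e, rfl⟩ := hgen x hx
    exact norm_prod_zpow φ gg (hφ φ) e
  set P : Finset ℕ := insert p P₀ with hPdef
  have hP : ∀ q ∈ P, q.Prime := by
    intro q hq
    rw [hPdef, Finset.mem_insert] at hq
    rcases hq with rfl | hq
    · exact hp
    · exact hP₀ q hq
  have hpP : p ∈ P := Finset.mem_insert_self _ _
  obtain ⟨R₀, cA, hR₀s, hcA, hA⟩ := hREDP K Γ P hK hΓfg hΓ hP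
  have hR₀pos : 0 < R₀ := hR₀s.1
  obtain ⟨n₀, R₁, hR₁, hR₀eq⟩ := Nat.exists_eq_pow_mul_and_not_dvd hR₀pos.ne' p hp.ne_one
  obtain ⟨i₀, cB, hcB, hni, hB⟩ := hREDB p K Γ hp hK hΓfg hΓ n₀
  set K' := lev K Γ (p ^ i₀) R₀ with hK'
  have hK'fd : FiniteDimensional ℚ K' :=
    finiteDimensional_lev K hK Γ hΓfg _ _ (pow_pos hp.pos _) hR₀pos
  have hKK' : K ≤ K' := le_lev K Γ _ _
  set Γ' := radS Γ R₀ with hΓ'def
  have hΓ' : ∀ g ∈ Γ', (g : Qb) ∈ K' := fun g hg => rad_mem_lev K Γ ((radS_iff g).mp hg)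
  have hφΓ' : ∀ g ∈ Γ', ‖φ (g : Qb)‖ = 1 := by
    intro g hg
    obtain ⟨x, hx, h⟩ := (radS_iff g).mp hg
    have h1 := hφΓ x hx
    rw [← h, map_pow, norm_pow] at h1
    exact (pow_eq_one_iff_of_nonneg (norm_nonneg _) hR₀pos.ne').mp h1
  obtain ⟨n₁, hF⟩ := hFROB p φ K' Γ' hK'fd hΓ' hφΓ'
  -- the constants
  set ε' : ℝ := min ε 1 with hε'
  have hε'0 : 0 < ε' := lt_min hε one_pos
  have hε'1 : ε' ≤ 1 := min_le_right _ _
  have hε'ε : ε' ≤ ε := min_le_left _ _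
  obtain ⟨k, hk⟩ := exists_nat_gt (2 / ε)
  have hkR : (0 : ℝ) < k := lt_trans (by positivity) hk
  have hk0 : 0 < k := by exact_mod_cast hkR
  choose cn hcn hcn' using fun n => hADM p φ (Module.finrank ℚ K') n₁ n ε' hε'0
  set cM : ℝ := (1 + ∑ n ∈ Finset.range (k + 1), (cn n)⁻¹)⁻¹ with hcM
  have hsum0 : 0 ≤ ∑ n ∈ Finset.range (k + 1), (cn n)⁻¹ :=
    Finset.sum_nonneg fun n _ => (inv_pos.mpr (hcn n)).le
  have hcMpos : 0 < cM := by
    rw [hcM]
    positivity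
  have hcMle : ∀ n ≤ k, cM ≤ cn n := by
    intro n hn
    have h1 : (cn n)⁻¹ ≤ ∑ n ∈ Finset.range (k + 1), (cn n)⁻¹ :=
      Finset.single_le_sum (f := fun n => (cn n)⁻¹) (fun n _ => (inv_pos.mpr (hcn n)).le)
        (Finset.mem_range.mpr (by omega))
    rw [hcM, ← inv_inv (cn n)]
    apply inv_anti₀ (inv_pos.mpr (hcn n))
    linarith
  obtain ⟨cR, hcR, hR⟩ := hRNK k ε' cM hk0 hε'0 hcMpos
  obtain ⟨cS, hcS, hSt⟩ := hM5 K Γ hK hΓfg hΓ P hP 1 one_pos
  set C : ℝ := min (min (cA / 4) (cB / 4)) (min (cR / 4) (cS / 2)) with hC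
  have hCpos : 0 < C := lt_min (lt_min (by positivity) (by positivity))
    (lt_min (by positivity) (by positivity))
  have hC1 : C ≤ cA / 4 := (min_le_left _ _).trans (min_le_left _ _)
  have hC2 : C ≤ cB / 4 := (min_le_left _ _).trans (min_le_right _ _)
  have hC3 : C ≤ cR / 4 := (min_le_right _ _).trans (min_le_left _ _)
  have hC4 : C ≤ cS / 2 := (min_le_right _ _).trans (min_le_right _ _)
  refine ⟨C, hCpos, fun α hα hα0 hαd γ hγ => ?_⟩
  by_contra hlt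
  push Not at hlt
  have hγ0 : γ ≠ 0 := Pool.Agent.TH53.RP.DivG.ne_zero hγ
  set F : GF := fullField K Γ P with hFdef
  have hF₀F : fullField K Γ P₀ ≤ F := fullField_mono K Γ (Finset.subset_insert p P₀)
  set D : ℕ := (orb (fullField K Γ P₀) α).ncard with hD
  have hDpos : 0 < D := orb_ncard_pos _ _
  have hDR : (1 : ℝ) ≤ D := by exact_mod_cast hDpos
  have hD0 : (0 : ℝ) < D := by linarith
  have hDε : (1 : ℝ) ≤ (D : ℝ) ^ ε := Real.one_le_rpow hDR hε.le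
  set η : ℝ := ht (α / γ) with hη
  have hη0 : 0 ≤ η := ht_nonneg _
  have hηC : η < C := hlt.trans_le (div_le_self hCpos.le hDε)
  have hq0 : α / γ ≠ 0 := div_ne_zero hα0 hγ0
  have hhσ : ∀ σ : Aut, Fix K σ → ht (σ α / α) ≤ 2 * η := by
    intro σ hσ
    rw [← ht_div hγ0 (tor_ratio hΓ hγ0 hγ hσ)]
    have h1 := ht_mul_le (σ (α / γ)) (α / γ)⁻¹
    rw [ht_inv _ hq0, ht_conj, ← div_eq_mul_inv] at h1
    linarith
  -- the descent
  obtain ⟨γ₁, M, hγ₁0, hγ₁d, hMpos, hMP, hmem1⟩ :=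
    hA α hα hα0 (fun σ hσ => (hhσ σ hσ).trans (by linarith))
  have hMp : ¬ p ∣ M := hMP p hpP
  have e0 : R₀ * M = p ^ n₀ * (R₁ * M) := by rw [hR₀eq, mul_assoc]
  rw [e0] at hmem1
  obtain ⟨ω, M', hω, hM', hmem2⟩ := hB (R₁ * M) (α / γ₁)
    (fun h => (hp.dvd_mul.mp h).elim hR₁ hMp) hmem1 (div_ne_zero hα0 hγ₁0) (by
    intro σ hσ
    rw [ht_div hγ₁0 (tor_ratio hΓ hγ₁0 hγ₁d hσ)]
    exact (hhσ σ hσ).trans (by linarith))
  rw [← e0, div_div] at hmem2
  set γ₂ : Qb := γ₁ * ω with hγ₂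
  have hγ₂0 : γ₂ ≠ 0 := mul_ne_zero hγ₁0 hω.ne_zero
  have hγ₂d : DivG Γ γ₂ := hγ₁d.mul (divG_tor Γ hω)
  set β : Qb := α / γ₂ with hβ
  have hβ0 : β ≠ 0 := div_ne_zero hα0 hγ₂0
  -- the fields
  obtain ⟨M'', σ, a, hM'', hdvd, hσ, ha0, ha1, hfrob⟩ := hF M' M hM' hMp
  have hM''pos : 0 < M'' := Nat.pos_of_ne_zero (by rintro rfl; exact hM'' (dvd_zero p))
  obtain ⟨hle1, hle2⟩ := hFLD K Γ (p ^ i₀) R₀ M M' M'' hΓ (pow_pos hp.pos _) hR₀pos hMpos hM''pos
    (Nat.Coprime.pow_left _ ((Nat.Prime.coprime_iff_not_dvd hp).mpr hM')) hdvd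
  set M₀ : GF := lev K' Γ' M'' M with hM₀
  have htop : FiniteDimensional ℚ (lev K Γ (p ^ i₀ * M'') (R₀ * M)) :=
    finiteDimensional_lev K hK Γ hΓfg _ _ (Nat.mul_pos (pow_pos hp.pos _) hM''pos)
      (Nat.mul_pos hR₀pos hMpos)
  have hM₀fd : FiniteDimensional ℚ M₀ :=
    Module.Finite.of_injective (IntermediateField.inclusion hle2).toLinearMap
      (IntermediateField.inclusion hle2).injective
  have hβM : β ∈ M₀ := hle1 hmem2
  have hkinfF : kinf K ≤ F := kinf_le_fullField K Γ P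
  have htorF : ∀ x : Qb, Tor x → x ∈ F := fun x hx => hkinfF (tor_mem_kinf K hx)
  have hKF : K ≤ F := le_fullField K Γ P
  have hK'F : K' ≤ F := by
    refine (lev_le_levInf K Γ (pow_pos hp.pos _)).trans ?_
    exact levInf_le_fullField K Γ hR₀s
  have hnM : NormalOver K' M₀ := normal_lev K' Γ' hΓ' M'' M
  have hnF : NormalOver K' F := fun τ hτ x hx =>
    normal_fullField K Γ hΓ P τ (fix_mono hKK' hτ) x hx
  have hK'E : K' ≤ M₀ ⊓ F := le_inf (le_lev K' Γ' _ _) hK'F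
  have hnE : NormalOver K' (M₀ ⊓ F) := fun τ hτ x hx => ⟨hnM τ hτ x hx.1, hnF τ hτ x hx.2⟩
  have hEk : M₀ ⊓ F ≤ kinf K' := by
    refine le_trans ?_ (hINT K K' Γ Γ' P M hKK' hΓ hΓ' hP hMpos hMP)
    exact inf_le_inf_right _ (lev_le_levInf K' Γ' hM''pos)
  have hcomm : ∀ τ : Aut, Fix K' τ → ∀ x ∈ M₀ ⊓ F, τ (σ x) = σ (τ x) := fun τ hτ x hx =>
    hCOM.2 K' σ τ hσ hτ x (hEk hx)
  have hFM : ∀ ρ : Aut, Fix F ρ → ∀ x ∈ M₀, ρ x ∈ M₀ := fun ρ hρ x hx =>
    hnM ρ (fix_mono hK'F hρ) x hx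
  -- the ratios
  have hratio : ∀ τ : Aut, Fix F τ → Tor ((τ β / β) / (τ α / α)) := by
    intro τ hτ
    have h1 : Tor (τ γ₂ / γ₂) := tor_ratio hΓ hγ₂0 hγ₂d (fix_mono hKF hτ)
    have e1 : (τ β / β) / (τ α / α) = (τ γ₂ / γ₂)⁻¹ := by
      have h2 : τ γ₂ ≠ 0 := (map_ne_zero τ).mpr hγ₂0
      have h3 : τ α ≠ 0 := (map_ne_zero τ).mpr hα0
      rw [hβ, map_div₀]
      field_simp
    rw [e1]
    exact h1.inv
  by_cases hex : ∃ τ : Aut, Fix F τ ∧ ¬ Tor (τ β / β)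
  · -- some ratio is not torsion
    have hmain := hR F α β (2 * η) htorF hα0 hβ0 hratio
      (fun τ τ' hτ hτ' => hCOM.1 K' Γ' M'' M F hM''pos hMpos hΓ' hK'F htorF τ τ' hτ hτ' β hβM)
      (by
        intro τ hτ
        rw [hβ, ht_div hγ₂0 (tor_ratio hΓ hγ₂0 hγ₂d (fix_mono hKF hτ))]
        exact hhσ τ (fix_mono hKF hτ))
      hex
      (by
        intro n u hn hu hind
        have huM : ∀ i, (u i : Qb) ∈ M₀ := fun i =>
          closure_mem hβM (fun τ hτ => hFM τ hτ β hβM) (hu i)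
        have h1 := hcn' n K' (M₀ ⊓ F) M₀ σ a (fun i => (u i : Qb)) hK'fd le_rfl hM₀fd hK'E
          inf_le_left hnE hnM hσ hcomm ha0 ha1 hfrob (fun i => (u i).ne_zero) huM hind
        refine le_trans ?_ h1
        have hsub : orbN (M₀ ⊓ F) (fun i => (u i : Qb)) ⊆ orbN F (fun i => (u i : Qb)) := by
          rintro _ ⟨ρ, hρ, rfl⟩
          obtain ⟨ρ', hρ', hag⟩ := hGLU F M₀ hM₀fd hFM ρ hρ
          refine ⟨ρ', hρ', ?_⟩
          funext i
          exact (hag _ (huM i)).symm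
        have hle : ((orbN (M₀ ⊓ F) (fun i => (u i : Qb))).ncard : ℝ) ≤
            ((orbN F (fun i => (u i : Qb))).ncard : ℝ) := by
          exact_mod_cast Set.ncard_le_ncard hsub (orbN_finite' F _)
        have hpos : (0 : ℝ) < ((orbN (M₀ ⊓ F) (fun i => (u i : Qb))).ncard : ℝ) := by
          exact_mod_cast orbN_pos _ _
        calc cM / ((orbN F (fun i => (u i : Qb))).ncard : ℝ) ^ (1 + ε')
            ≤ cM / ((orbN (M₀ ⊓ F) (fun i => (u i : Qb))).ncard : ℝ) ^ (1 + ε') := by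
              apply div_le_div_of_nonneg_left hcMpos.le (by positivity)
              exact Real.rpow_le_rpow hpos.le hle (by linarith)
          _ ≤ cn n / ((orbN (M₀ ⊓ F) (fun i => (u i : Qb))).ncard : ℝ) ^ (1 + ε') :=
              div_le_div_of_nonneg_right (hcMle n hn) (by positivity))
    have hDα : ((orb F α).ncard : ℝ) ≤ D := by
      exact_mod_cast Set.ncard_le_ncard (orb_mono hF₀F α) (orb_finite _ _)
    have hDα1 : (1 : ℝ) ≤ ((orb F α).ncard : ℝ) := by exact_mod_cast orb_ncard_pos F α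
    have hexp : max ε' ((1 + ε') / k) ≤ ε := by
      refine max_le hε'ε ?_
      rw [div_le_iff₀ hkR]
      have h1 : 2 < k * ε := by rwa [div_lt_iff₀ hε] at hk
      linarith
    have h2 : ((orb F α).ncard : ℝ) ^ (max ε' ((1 + ε') / k)) ≤ (D : ℝ) ^ ε := by
      calc ((orb F α).ncard : ℝ) ^ (max ε' ((1 + ε') / k))
          ≤ ((orb F α).ncard : ℝ) ^ ε := Real.rpow_le_rpow_of_exponent_le hDα1 hexp
        _ ≤ (D : ℝ) ^ ε := Real.rpow_le_rpow (by linarith) hDα hε.le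
    have h3 : cR / (D : ℝ) ^ ε ≤ 2 * η := by
      refine le_trans ?_ hmain
      apply div_le_div_of_nonneg_left hcR.le _ h2
      exact Real.rpow_pos_of_pos (by linarith) _
    have h4 : C / (D : ℝ) ^ ε ≤ (cR / 4) / (D : ℝ) ^ ε :=
      div_le_div_of_nonneg_right hC3 (by positivity)
    have h5 : (cR / 4) / (D : ℝ) ^ ε = (cR / (D : ℝ) ^ ε) / 4 := by ring
    have h6 : 0 < cR / (D : ℝ) ^ ε := by positivity
    linarith
  · -- all the ratios are torsion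
    push Not at hex
    have hαtor : ∀ τ : Aut, Fix F τ → Tor (τ α / α) := by
      intro τ hτ
      have h1 := hex τ hτ
      have h2 := hratio τ hτ
      have e1 : τ α / α = (τ β / β) / ((τ β / β) / (τ α / α)) := by
        have h3 : τ α ≠ 0 := (map_ne_zero τ).mpr hα0
        have h4 : τ β ≠ 0 := (map_ne_zero τ).mpr hβ0
        field_simp
      rw [e1]
      exact h1.div h2
    obtain ⟨R, hR0, hαR⟩ := hDIVL K Γ α hα
    obtain ⟨γ₃, hγ₃0, hγ₃d, hmem3⟩ := hKUM K F Γ R α hΓfg hR0 hKF hΓ htorF hα0 hαR hαtor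
    have horb1 : (orb F (α / γ₃)).ncard ≤ 1 := by
      rw [orb_of_mem hmem3, Set.ncard_singleton]
    have h1 := hSt 1 1 1 one_pos one_pos one_pos (α / γ₃) (div_ne_zero hα0 hγ₃0) horb1
      (by rw [pow_one]; exact horb1)
      (by
        intro h
        apply hαd
        have e1 : α = (α / γ₃) * γ₃ := by rw [div_mul_cancel₀ _ hγ₃0]
        rw [e1]
        exact h.mul hγ₃d)
      (γ / γ₃)
      (by
        rw [div_eq_mul_inv]
        exact hγ.mul (divG_inv hγ₃d))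
    have e1 : α / γ₃ / (γ / γ₃) = α / γ := by field_simp
    rw [e1] at h1
    simp only [Nat.cast_one, Real.one_rpow, mul_one, div_one] at h1
    linarith

/-- the theorem with the norm -/
theorem mainw : S_MAINP → S_NRM → S_MAINW := by
  intro hP hNRM K Γ hK hΓfg hΓ P hPp ε hε
  obtain ⟨c, hc, h⟩ := hP K Γ hK hΓfg hΓ P hPp ε hε
  refine ⟨c, hc, fun α hα0 hN γ hγ => ?_⟩
  have hγ0 : γ ≠ 0 := Pool.Agent.TH53.RP.DivG.ne_zero hγ
  have hFd : fullField K Γ P ≤ divF K Γ := Pool.Agent.H54.AV.fullField_le_divF K Γ P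
  have hγF : γ ∈ divF K Γ := IntermediateField.subset_adjoin _ _ (Or.inr hγ)
  obtain ⟨h0, h1, h2⟩ := hNRM (fullField K Γ P) (divF K Γ) α hFd
    (fun τ hτ x hx => normal_divF K Γ hΓ τ (fix_mono (le_fullField K Γ P) hτ) x hx) hα0
  set d : ℕ := (orb (divF K Γ) α).ncard with hd
  have hdpos : (0 : ℝ) < d := by exact_mod_cast orb_ncard_pos _ _
  set N : Qb := (((minpoly (divF K Γ) α).coeff 0 : divF K Γ) : Qb) with hNdef
  have h3 := h N (SetLike.coe_mem _) h0 hN (γ ^ d) (divG_pow hγ d)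
  have h4 := h2 γ hγF hγ0
  have hD1 : (1 : ℝ) ≤ ((orb (fullField K Γ P) N).ncard : ℝ) := by
    exact_mod_cast orb_ncard_pos _ _
  have hDle : ((orb (fullField K Γ P) N).ncard : ℝ) ≤ ((orb (fullField K Γ P) α).ncard : ℝ) := by
    exact_mod_cast h1
  have h5 : ((orb (fullField K Γ P) N).ncard : ℝ) ^ ε ≤
      ((orb (fullField K Γ P) α).ncard : ℝ) ^ ε := Real.rpow_le_rpow (by linarith) hDle hε.le
  have h6 : (0 : ℝ) < ((orb (fullField K Γ P) N).ncard : ℝ) ^ ε :=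
    Real.rpow_pos_of_pos (by linarith) _
  have h7 : c / ((orb (fullField K Γ P) α).ncard : ℝ) ^ ε ≤ d * ht (α / γ) :=
    (div_le_div_of_nonneg_left hc.le h6 h5).trans (h3.trans h4)
  rw [mul_comm, ← div_div, div_le_iff₀ hdpos, mul_comm]
  exact h7

end Pool.Agent.H54.AV
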