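import Mathlib
import Pool.Agent.H54.AV.Stm2
import Pool.Agent.H54.AV.Mainp
import Pool.Agent.H54.G.W327.RK.FROB

set_option autoImplicit false
set_option linter.unusedVariables false

/-!
# Small heights in bounded extensions of the division field: statements

Main theorem `S_MAIND`: for `K` a number field, `Γ ⊆ K*` finitely generated, `P` a finite set of
primes, `D` and `ε > 0` there is `c > 0` with `ht (α / γ) ≥ c / [F_P(α) : F_P] ^ ε` for all `α`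
outside the division group which have degree at most `D` over `K(Γ_div)`.
(`lemma fullField_le_divF`, `lemma normal_divF` are in `AV/Mainp.lean`.)
-/

namespace Pool.Agent.H54.AV

open Pool.Agent.W237.RK
open Pool.Agent.H58P (Qb ht)
open Pool.Agent.H54.AD (pt)
open Pool.Agent.H54.AM
open Pool.Agent.Q246.FD (divF)

/-- AV-DSC. Descent at all the primes of `P` (model: `AV/Redp.lean`, with `Rigid (divF K Γ) …`
instead of membership and `RX.descend3` for `D` and `Finf = divF K Γ`, as in `RX.main3`; for the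
existence of a level adapt `RX.exists_rigid_levInf` to `divF K Γ`, using `S_DIVL` for the finitely
many coefficients of the minimal polynomial).
`theorem dsc : Pool.Agent.H54.RX.S_CS3 → Pool.Agent.H54.RX.S_KS3 → S_DIVL → S_DSC` -/
def S_DSC : Prop := ∀ (K : GF) (Γ : Subgroup Qbˣ) (P : Finset ℕ) (D : ℕ),
  FiniteDimensional ℚ K → Γ.FG → (∀ g ∈ Γ, (g : Qb) ∈ K) → (∀ p ∈ P, p.Prime) →
  ∃ (R₀ : ℕ) (c : ℝ), Smooth P R₀ ∧ 0 < c ∧
  ∀ α : Qb, α ≠ 0 → (orb (divF K Γ) α).ncard ≤ D → TorRigid (divF K Γ) α →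
    (∀ σ : Aut, Fix K σ → ht (σ α / α) ≤ c) →
    ∃ (γ : Qb) (M : ℕ), γ ≠ 0 ∧ DivG Γ γ ∧ 0 < M ∧ (∀ p ∈ P, ¬ p ∣ M) ∧
      Rigid (divF K Γ) (levInf K Γ (R₀ * M)) (α / γ)

/-- AV-REDC. Cyclotomic descent at `p` (model: `AV/Redb.lean`, the part `hdown` of
`RX.descend3`, now with `D`, `Rigid (divF K Γ) …`; `exists_rigid_lev`).
`theorem redc : Pool.Agent.H54.RX.S_CS3 → S_REDC` -/
def S_REDC : Prop := ∀ (p : ℕ) (K : GF) (Γ : Subgroup Qbˣ) (D : ℕ), p.Prime →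
  FiniteDimensional ℚ K → Γ.FG → (∀ g ∈ Γ, (g : Qb) ∈ K) →
  ∀ n₀ : ℕ, ∃ (i₀ : ℕ) (c : ℝ), 0 < c ∧ n₀ ≤ i₀ ∧
  ∀ (M : ℕ) (β : Qb), ¬ p ∣ M → β ≠ 0 → (orb (divF K Γ) β).ncard ≤ D →
    TorRigid (divF K Γ) β → Rigid (divF K Γ) (levInf K Γ (p ^ n₀ * M)) β →
    (∀ σ : Aut, Fix K σ → ht (σ β / β) ≤ c) →
    ∃ (γ : Qb) (M' : ℕ), Tor γ ∧ ¬ p ∣ M' ∧
      Rigid (divF K Γ) (lev K Γ (p ^ i₀ * M') (p ^ n₀ * M)) (β / γ)

/-- AV-TAME. Extensions of degree at most `D < p` of `k` (finite over `kur p`) are tame.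
Take `π` a uniformizer of `k`, `Λ = D !`, `k₁ = k(ϖ)`, `ϖ ^ Λ = π`; `‖π‖ ^ N = p⁻¹` for some `N`
and `m = N * Λ`.
* `z ∈ k₁` is `∑ i < Λ, c i * ϖ ^ i` with `c i ∈ k`; the norms of the nonzero terms are different,
  so `‖z‖` is an integral power of `‖ϖ‖`.
* If `s` preserves `k` then `s π = u * π` with `u ∈ k` a unit, which has a `Λ`-th root in `k`
  (see below), and the roots of unity of order prime to `p` are in `kur`.
* Units: if `k'` is finite over `kur`, `u ∈ k'`, `‖u‖ = 1`, `p ∤ d` then `u = v ^ d` with `v ∈ k'`: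
  by `S_RES` `u` is close to a root of unity `c` of order prime to `p`, `c = c' ^ d` with
  `c' ∈ kur`; exactly one root `v` of `X ^ d = u` is close to `c'`, so it is fixed by the
  automorphisms over `k'` (`mem_of_fixed`, `norm_sub_root`).
* If `x` has `d' ≤ D` conjugates over `k`: let `π'` be a uniformizer of `k' = k(x)`, so
  `‖π'‖ ^ d' = ‖π‖` (`S_STRUCT`), `π' ^ d' = u * π`, `u = v ^ d'`, `ϖ' = π' / v ∈ k'` is a root of
  `X ^ d' = π`; it has `d'` conjugates, so `k' = k(ϖ') ≤ k₁`.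
`theorem tame : <the local library statements you need, S_RES, S_STRUCT …> → S_TAME`, and
`tame'` without hypotheses (they are all proved, see `AV/Frobg.lean` for `frobg'`). -/
def S_TAME : Prop := ∀ (p : ℕ) [Fact p.Prime] (k : LF p) (D : ℕ), FinOver (kur p) k → D < p →
  ∃ (k₁ : LF p) (m : ℕ), k ≤ k₁ ∧ (∀ x : Om p, (lorb k x).ncard ≤ D → x ∈ k₁) ∧
    (∀ z ∈ k₁, ‖z‖ < 1 → ‖z‖ ^ m ≤ (p : ℝ)⁻¹) ∧
    ∀ s : LAut p, (∀ x ∈ k, s x ∈ k) → ∀ x ∈ k₁, s x ∈ k₁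

/-- AV-FROBD. Frobenius elements on fields of radicals of `p`-adic units and elements of degree at
most `D < p` over them (model: `AV/Frobg.lean`; `n₁ = max m (nres T)` with `m` from `S_TAME` for
`k = kur p ⊔ k0` and `D`).  `L` is now generated by `T`, `ζ'` and `φ b`, `b ∈ B₀`; `L ≤ k₁` because
`φ b` has at most `D` conjugates over `k` (a local automorphism over `k` is the restriction of an
automorphism of `Qb` over `lev K Γ M' M` by `S_REST`, `φ (lev K Γ M' M) ⊆ k`); the automorphism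
`Φ ^ a` fixes `k0` and preserves `kur p`, so it preserves `k` and `k₁`.
`theorem frobd : <hypotheses of frobg> → S_TAME → S_FROBD` and
`frobd' : S_TAME → S_FROBD` (library hypotheses discharged). -/
def S_FROBD : Prop := ∀ (p : ℕ) [Fact p.Prime] (φ : Qb →+* PadicAlgCl p) (K : GF)
  (Γ : Subgroup Qbˣ) (D : ℕ), FiniteDimensional ℚ K → (∀ g ∈ Γ, (g : Qb) ∈ K) →
  (∀ g ∈ Γ, ‖φ (g : Qb)‖ = 1) → D < p → ∃ n₁ : ℕ, ∀ M' M : ℕ, ¬ p ∣ M' → ¬ p ∣ M →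
    ∀ B₀ : Finset Qb, (∀ b ∈ B₀, (orb (lev K Γ M' M) b).ncard ≤ D) →
    ∃ (M'' : ℕ) (σ : Aut) (a : ℕ), ¬ p ∣ M'' ∧ M' ∣ M'' ∧ Fix K σ ∧ 0 < a ∧ a ≤ n₁ ∧
      (∀ x ∈ lev K Γ M'' M ⊔ IntermediateField.adjoin ℚ (B₀ : Set Qb), ‖φ x‖ ≤ 1 →
        ‖φ (σ x - x ^ (p ^ a))‖ ^ n₁ ≤ (p : ℝ)⁻¹)

/-- AV-RATD. Counting conjugates, bounded degree.  Key facts (`F₁ / F` normal and abelian):
(1) if `κ ∈ Fix F`, `κ β = ζ β`, `ζ` torsion, and `τ ∈ Fix F` then `κ (τ β) = ζ * c (τ β)` for some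
`c ∈ Fix F₁` (write `κ τ = τ κ c₀` with `c₀ = κ⁻¹ τ⁻¹ κ τ ∈ Fix F₁`; `κ c₀ κ⁻¹ ∈ Fix F₁`,
`τ c' τ⁻¹ ∈ Fix F₁`).  So `κ (τ β / β)` is one of the at most `D` numbers `c (τ β) / β`.
(2) Elements `τ'` of `Fix F` with the same class `v (τ' β / β)` as `τ''` are `τ'' κ` with `κ` as in
(1).  This gives the bound for `r`.
(3) If `λ` is as in (1), fixes all the `r j`, and the `v (r j)` span, then `λ x / x` is torsion for
`x ∈ closure (ratS F β)`, so `λ (τ β) / τ β` is torsion, so with `c` from (1) `c (τ β) / (τ β)` is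
torsion, so `c (τ β) = τ β` (`TorRigid F₁ (τ β)`), so `λ` fixes `τ β / β`.  Hence `κ u` is
determined by `κ r`. -/
def S_RATD : Prop := ∀ (F F₁ : GF) (D : ℕ) (β : Qb), (∀ x : Qb, Tor x → x ∈ F) → F ≤ F₁ →
  NormalOver F F₁ →
  (∀ τ τ' : Aut, Fix F τ → Fix F τ' → ∀ x ∈ F₁, τ (τ' x) = τ' (τ x)) → β ≠ 0 →
  TorRigid F₁ β → (orb F₁ β).ncard ≤ D →
  ∀ (ρ : ℕ) (v : Qbˣ → Fin ρ → ℚ),
  (∀ x ∈ Subgroup.closure (ratS F β), ∀ y ∈ Subgroup.closure (ratS F β), v (x * y) = v x + v y) →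
  (∀ x ∈ Subgroup.closure (ratS F β), v x = 0 ↔ Tor (x : Qb)) →
  (ratS F β).Finite ∧ ∀ (m : ℕ) (r : Fin m → Qbˣ), (∀ j, r j ∈ ratS F β) →
    (orbN F (fun j => (r j : Qb))).ncard ≤ D ^ m * (v '' ratS F β).ncard ∧
    (Submodule.span ℚ (Set.range fun j => v (r j)) = ⊤ → ∀ (n : ℕ) (u : Fin n → Qbˣ),
      (∀ i, u i ∈ Subgroup.closure (ratS F β)) →
      (orbN F (fun i => (u i : Qb))).ncard ≤ D ^ m * (v '' ratS F β).ncard)

/-- AV-RNKD. From products of heights to the ratios, bounded degree (model: `AV/Rnk.lean`, with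
`S_RATD` instead of `S_RAT`; the number of classes `v '' ratS F β` is at most `B` by the covering
by `S`).  If `ρ ≤ k`: `∏ ht (u i) ≥ c / (D ^ ρ * R.card) ^ (1 + ε)`; if `ρ > k`: `k` independent
ratios.  `theorem rnkd : S_GEO → S_VEC → S_RATD → S_HTL → S_RNKD` -/
def S_RNKD : Prop := ∀ (k D : ℕ) (ε c : ℝ), 0 < k → 0 < ε → 0 < c → ∃ c' : ℝ, 0 < c' ∧
  ∀ (F F₁ : GF) (β : Qb) (H : ℝ) (B : ℕ) (S : Finset Qbˣ), (∀ x : Qb, Tor x → x ∈ F) →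
  F ≤ F₁ → NormalOver F F₁ →
  (∀ τ τ' : Aut, Fix F τ → Fix F τ' → ∀ x ∈ F₁, τ (τ' x) = τ' (τ x)) → β ≠ 0 →
  TorRigid F₁ β → (orb F₁ β).ncard ≤ D →
  S.card ≤ B → (∀ x ∈ ratS F β, ∃ y ∈ S, Tor ((x / y : Qbˣ) : Qb)) →
  (∀ τ : Aut, Fix F τ → ht (τ β / β) ≤ H) →
  (∃ τ : Aut, Fix F τ ∧ ¬ Tor (τ β / β)) →
  (∀ (n : ℕ) (u : Fin n → Qbˣ), n ≤ k → (∀ i, u i ∈ Subgroup.closure (ratS F β)) →
    IndepN (fun i => (u i : Qb)) →
    c / ((orbN F (fun i => (u i : Qb))).ncard : ℝ) ^ (1 + ε) ≤ ∏ i, ht (u i : Qb)) →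
  c' / (B : ℝ) ^ (max ε ((1 + ε) / k)) ≤ H

/-- AV-COMD. The division field is abelian over `K(μ_∞)`. -/
def S_COMD : Prop := ∀ (K : GF) (Γ : Subgroup Qbˣ), (∀ g ∈ Γ, (g : Qb) ∈ K) →
  ∀ τ τ' : Aut, Fix (kinf K) τ → Fix (kinf K) τ' → ∀ x ∈ divF K Γ, τ (τ' x) = τ' (τ x)

/-- AV-UNITP. A prime `p > D` at which finitely many numbers are units (apply
`AM.exists_unit_prime'` to these numbers and `D !`). -/
def S_UNITP : Prop := ∀ (D r : ℕ) (g : Fin r → Qb), (∀ i, g i ≠ 0) →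
  ∃ (p : ℕ) (_ : Fact p.Prime), D < p ∧ ∀ φ : Qb →+* PadicAlgCl p, ∀ i, ‖φ (g i)‖ = 1

/-- the main theorem for bounded degree over the division field (helper54) -/
def S_MAIND : Prop := ∀ (K : GF) (Γ : Subgroup Qbˣ), FiniteDimensional ℚ K → Γ.FG →
  (∀ g ∈ Γ, (g : Qb) ∈ K) → ∀ (P : Finset ℕ), (∀ p ∈ P, p.Prime) → ∀ (D : ℕ) (ε : ℝ), 0 < ε →
  ∃ c : ℝ, 0 < c ∧
  ∀ α : Qb, α ≠ 0 → (orb (divF K Γ) α).ncard ≤ D → ¬ DivG Γ α → ∀ γ : Qb, DivG Γ γ →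
    c / ((orb (fullField K Γ P) α).ncard : ℝ) ^ ε ≤ ht (α / γ)

end Pool.Agent.H54.AV
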