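import Mathlib
import Pool.Agent.H54.AV.Stm3

set_option autoImplicit false
set_option linter.unusedVariables false

/-!
# Small heights, all algebraic numbers, polynomial dependence on the degree: statements

Main theorem `S_MAINE`: for `K` a number field, `Γ ⊆ K*` finitely generated, `P` a finite set of
primes and `ε > 0` there are `c > 0` and `A` with
`ht (α / γ) ≥ c / (D_Γ(α) ^ A * [F_P(α) : F_P] ^ ε)` for ALL `α` outside the division group.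
-/

namespace Pool.Agent.H54.AV

open Pool.Agent.W237.RK
open Pool.Agent.H58P (Qb ht)
open Pool.Agent.H54.AD (pt)
open Pool.Agent.H54.AM
open Pool.Agent.Q246.FD (divF)

/-- AV-CLME. Variant of `S_CLM` (`AV/Clm.lean`): the congruence is only known for the elements of a
set `𝒰`, with an exponent `n₂ ≤ p ^ ℓ`, and the levels are at least `ℓ + N`.  (Power lemma:
`‖x - y‖ ^ n₂ ≤ p⁻¹ * (max 1 ‖x‖ * max 1 ‖y‖) ^ n₂`, `n₂ ≤ p ^ ℓ` and `ℓ + N ≤ m` give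
`‖x ^ (p ^ m) - y ^ (p ^ m)‖ ≤ (p ^ N)⁻¹ * (max 1 ‖x‖ * max 1 ‖y‖) ^ (p ^ m)`: in each step the
exponent `t` of `p ^ (-t)` becomes at least `min (p * t) (1 + t)`, so after `ℓ` steps it is at
least `1`.) -/
def S_CLME : Prop := ∀ (p : ℕ) [Fact p.Prime] (ψ : Qb →+* PadicAlgCl p) (E : GF) (𝒰 : Set Qb)
  (σ Φ : Aut) (a n₂ ℓ : ℕ), 0 < a → 0 < n₂ → n₂ ≤ p ^ ℓ → (∀ x ∈ 𝒰, x⁻¹ ∈ 𝒰) →
  (∀ x ∈ 𝒰, σ x ∈ 𝒰 ∧ σ⁻¹ x ∈ 𝒰 ∧ Φ x ∈ 𝒰 ∧ Φ⁻¹ x ∈ 𝒰) →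
  (∀ x ∈ E, σ x ∈ E ∧ σ⁻¹ x ∈ E ∧ Φ x = σ x) →
  (∀ ρ : Aut, Fix E ρ → ∀ x ∈ 𝒰, ρ x ∈ 𝒰) →
  (∀ x ∈ 𝒰, ‖ψ x‖ ≤ 1 → ‖ψ (Φ x - x ^ (p ^ a))‖ ^ n₂ ≤ (p : ℝ)⁻¹) →
  ∀ (n : ℕ) (u : Fin n → Qb), (∀ i, u i ∈ 𝒰) → ∀ (e N j h : ℕ) (y : Fin n → Qb),
  y ∈ orbN E u → ℓ + N ≤ j → ℓ + N ≤ h → j ≤ e → h ≤ e →
  ∃ y' ∈ orbN E u, ∀ i,
    ‖ψ (ptN σ (p ^ a) e y j i) - ψ (ptN σ (p ^ a) e y' h i)‖ ≤ ((p : ℝ) ^ N)⁻¹ *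
      (max 1 ‖ψ (ptN σ (p ^ a) e y j i)‖ * max 1 ‖ψ (ptN σ (p ^ a) e y' h i)‖)

/-- AV-LOCME. Variant of `S_LOCM` (`AV/Locm.lean`).
`theorem locme : S_PADM → Pool.Agent.H54.AD.S_DETL → S_CLME → S_EMBN → S_LOCME` -/
def S_LOCME : Prop := ∀ (p : ℕ) [Fact p.Prime] (ψ : Qb →+* PadicAlgCl p) (E : GF) (𝒰 : Set Qb)
  (σ Φ : Aut) (a n₂ ℓ : ℕ), 0 < a → 0 < n₂ → n₂ ≤ p ^ ℓ → (∀ x ∈ 𝒰, x⁻¹ ∈ 𝒰) →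
  (∀ x ∈ 𝒰, σ x ∈ 𝒰 ∧ σ⁻¹ x ∈ 𝒰 ∧ Φ x ∈ 𝒰 ∧ Φ⁻¹ x ∈ 𝒰) →
  (∀ x ∈ E, σ x ∈ E ∧ σ⁻¹ x ∈ E ∧ Φ x = σ x) →
  (∀ ρ : Aut, Fix E ρ → ∀ x ∈ 𝒰, ρ x ∈ 𝒰) →
  (∀ x ∈ 𝒰, ‖ψ x‖ ≤ 1 → ‖ψ (Φ x - x ^ (p ^ a))‖ ^ n₂ ≤ (p : ℝ)⁻¹) →
  ∀ (n : ℕ) (u : Fin n → Qb), (∀ i, u i ≠ 0) → (∀ i, u i ∈ 𝒰) →
  ∀ (e M T : ℕ) (N : Fin n → ℕ) (h : ℕ), ℓ + M ≤ h → h ≤ e →
  ∀ (ι : Type) [Fintype ι] [DecidableEq ι] (j : ι → ℕ) (y : ι → Fin n → Qb)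
    (c : ι → ∀ i, Fin (N i)), (∀ i, ℓ + M ≤ j i ∧ j i ≤ e) → (∀ i, y i ∈ orbN E u) →
  ‖ψ (Matrix.of (fun i l => rowN N (ptN σ (p ^ a) e (y i) (j i)) (c l))).det‖ ≤
    (((p : ℝ) ^ M)⁻¹) ^ (T * (Fintype.card ι - (2 * T) ^ n * rkN N
      (fun y : Fin n → Qb => ptN σ (p ^ a) e y h) (orbN E u))) *
    ∏ i, ∏ l, (max 1 ‖ψ (ptN σ (p ^ a) e (y i) (j i) l)‖) ^ N l

/-- AV-ADME (helper54). Variant of `S_ADM` with the dependence on `n₂`. -/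
def S_ADME : Prop := ∀ (p : ℕ) [Fact p.Prime] (φ : Qb →+* PadicAlgCl p) (κ n₁ n : ℕ) (ε : ℝ),
  0 < ε → ∃ (c : ℝ) (A : ℕ), 0 < c ∧ ∀ (K E : GF) (𝒰 : Set Qb) (σ : Aut) (a n₂ : ℕ)
    (u : Fin n → Qb),
    FiniteDimensional ℚ K → Module.finrank ℚ K ≤ κ → FiniteDimensional ℚ E → K ≤ E →
    NormalOver K E → Fix K σ →
    (∀ τ : Aut, Fix K τ → ∀ x ∈ E, τ (σ x) = σ (τ x)) → 0 < a → a ≤ n₁ → 0 < n₂ →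
    (∀ x ∈ 𝒰, x⁻¹ ∈ 𝒰) → (∀ τ : Aut, Fix K τ → ∀ x ∈ 𝒰, τ x ∈ 𝒰) →
    (∀ x ∈ 𝒰, ‖φ x‖ ≤ 1 → ‖φ (σ x - x ^ (p ^ a))‖ ^ n₂ ≤ (p : ℝ)⁻¹) →
    (∀ i, u i ≠ 0) → (∀ i, u i ∈ 𝒰) → IndepN u →
    c / ((n₂ : ℝ) ^ A * ((orbN E u).ncard : ℝ) ^ (1 + ε)) ≤ ∏ i, ht (u i)

/-- AV-FROBE. Frobenius elements with the degree (model `AV/Frobg.lean`, `AV/Frobd.lean`; no tame
theory).  `L` is generated by `T`, `ζ'` and `φ b`, `b ∈ B₀`; then, as there,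
`z = φ (σ x - x ^ (p ^ a))` has norm `< 1` for integral `x`.  Let `k = kur p ⊔ k0`
(so `φ (lev K Γ M'' M) ⊆ k`), and `‖w‖ ^ N ≤ p⁻¹` for `w ∈ k`, `‖w‖ < 1`.  The number `z` has at
most `D₂ ^ 2` conjugates over `k` (`φ (σ x)` and `φ x` have at most `D₂` each: local automorphisms
over `k` restrict by `S_REST`; `orb_conj_ncard`), and the product `w` of these conjugates is in `k`,
`‖w‖ = ‖z‖ ^ d`, `d ≤ D₂ ^ 2`.  `n₁ = max N (nres T)`.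
`theorem frobe : <hypotheses of frobg> → S_FROBE` and `theorem frobe' : S_FROBE` -/
def S_FROBE : Prop := ∀ (p : ℕ) [Fact p.Prime] (φ : Qb →+* PadicAlgCl p) (K : GF)
  (Γ : Subgroup Qbˣ), FiniteDimensional ℚ K → (∀ g ∈ Γ, (g : Qb) ∈ K) →
  (∀ g ∈ Γ, ‖φ (g : Qb)‖ = 1) → ∃ n₁ : ℕ, 0 < n₁ ∧ ∀ M' M : ℕ, ¬ p ∣ M' → ¬ p ∣ M →
    ∀ B₀ : Finset Qb,
    ∃ (M'' : ℕ) (σ : Aut) (a : ℕ), ¬ p ∣ M'' ∧ M' ∣ M'' ∧ Fix K σ ∧ 0 < a ∧ a ≤ n₁ ∧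
      (∀ x ∈ lev K Γ M'' M ⊔ IntermediateField.adjoin ℚ (B₀ : Set Qb), ∀ D₂ : ℕ,
        (orb (lev K Γ M'' M) x).ncard ≤ D₂ → ‖φ x‖ ≤ 1 →
        ‖φ (σ x - x ^ (p ^ a))‖ ^ (n₁ * D₂ ^ 2) ≤ (p : ℝ)⁻¹)

/-- AV-RATE. Degrees over `M₀` of the elements of the group generated by the ratios.
`TorRigid M₀ (τ β)` and `(orb M₀ (τ β)).ncard ≤ D` for `τ ∈ Fix F` because `M₀` is stable.
`r j = τ_j β / β`.  For `κ ∈ Fix M₀`, `κ x` is determined by `κ β` and the `κ (τ_j β)`: if `λ` fixes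
these then `λ` fixes the `r j`, some power of `x` is a product of powers of the `r j` up to torsion
(the `v (r j)` span), so `λ x / x` is torsion for `x` in the closure, so `λ (τ β) / τ β` is torsion,
so `λ (τ β) = τ β`, so `λ` fixes all the ratios and `x`. -/
def S_RATE : Prop := ∀ (F M₀ : GF) (D : ℕ) (β : Qb), NormalOver F M₀ → β ≠ 0 →
  TorRigid M₀ β → (orb M₀ β).ncard ≤ D →
  ∀ (ρ : ℕ) (v : Qbˣ → Fin ρ → ℚ),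
  (∀ x ∈ Subgroup.closure (ratS F β), ∀ y ∈ Subgroup.closure (ratS F β), v (x * y) = v x + v y) →
  (∀ x ∈ Subgroup.closure (ratS F β), v x = 0 ↔ Tor (x : Qb)) →
  ∀ (m : ℕ) (r : Fin m → Qbˣ), (∀ j, r j ∈ ratS F β) →
    (∀ j, (orb M₀ (r j : Qb)).ncard ≤ D ^ 2) ∧
    (Submodule.span ℚ (Set.range fun j => v (r j)) = ⊤ →
      ∀ x ∈ Subgroup.closure (ratS F β), (orb M₀ (x : Qb)).ncard ≤ D ^ (m + 1))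

/-- AV-RNKE. From products of heights to the ratios, polynomial dependence on `D` (model
`AV/Rnkd.lean`, `AV/Rnk.lean`; `D ≥ 1` as orbits are not empty).
`theorem rnke : S_GEO → S_VEC → S_RATD → S_RATE → S_HTL → S_RNKE` -/
def S_RNKE : Prop := ∀ (k A : ℕ) (ε c : ℝ), 0 < k → 0 < ε → 0 < c →
  ∃ (c' : ℝ) (A' : ℕ), 0 < c' ∧
  ∀ (D : ℕ) (F F₁ M₀ : GF) (β : Qb) (H : ℝ) (B : ℕ) (S : Finset Qbˣ),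
  (∀ x : Qb, Tor x → x ∈ F) → F ≤ F₁ → NormalOver F F₁ →
  (∀ τ τ' : Aut, Fix F τ → Fix F τ' → ∀ x ∈ F₁, τ (τ' x) = τ' (τ x)) → β ≠ 0 →
  TorRigid F₁ β → (orb F₁ β).ncard ≤ D →
  NormalOver F M₀ → TorRigid M₀ β → (orb M₀ β).ncard ≤ D →
  S.card ≤ B → (∀ x ∈ ratS F β, ∃ y ∈ S, Tor ((x / y : Qbˣ) : Qb)) →
  (∀ τ : Aut, Fix F τ → ht (τ β / β) ≤ H) →
  (∃ τ : Aut, Fix F τ ∧ ¬ Tor (τ β / β)) →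
  (∀ (n : ℕ) (u : Fin n → Qbˣ), n ≤ k → (∀ i, u i ∈ Subgroup.closure (ratS F β)) →
    IndepN (fun i => (u i : Qb)) → (∀ i, (orb M₀ (u i : Qb)).ncard ≤ D ^ (k + 2)) →
    c / ((D : ℝ) ^ A * ((orbN F (fun i => (u i : Qb))).ncard : ℝ) ^ (1 + ε)) ≤
      ∏ i, ht (u i : Qb)) →
  c' / ((D : ℝ) ^ A' * (B : ℝ) ^ (max ε ((1 + ε) / k))) ≤ H

/-- AV-DSCU. `S_DSC` uniform in `D` (`AV/Dsc.lean`: in `RX.descend3` with `ε = 1` the level `n₀`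
and the constant `c` do not depend on `D`, `lowr c 1 D = c / D ^ 2`).
`theorem dscu : Pool.Agent.H54.RX.S_CS3 → Pool.Agent.H54.RX.S_KS3 → S_DIVL → S_DSCU` -/
def S_DSCU : Prop := ∀ (K : GF) (Γ : Subgroup Qbˣ) (P : Finset ℕ),
  FiniteDimensional ℚ K → Γ.FG → (∀ g ∈ Γ, (g : Qb) ∈ K) → (∀ p ∈ P, p.Prime) →
  ∃ (R₀ : ℕ) (c : ℝ), Smooth P R₀ ∧ 0 < c ∧
  ∀ (D : ℕ) (α : Qb), α ≠ 0 → (orb (divF K Γ) α).ncard ≤ D → TorRigid (divF K Γ) α →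
    (∀ σ : Aut, Fix K σ → ht (σ α / α) ≤ c / (D : ℝ) ^ 2) →
    ∃ (γ : Qb) (M : ℕ), γ ≠ 0 ∧ DivG Γ γ ∧ 0 < M ∧ (∀ p ∈ P, ¬ p ∣ M) ∧
      Rigid (divF K Γ) (levInf K Γ (R₀ * M)) (α / γ)

/-- AV-REDU. `S_REDC` uniform in `D` (`AV/Redc.lean`; in `S_CS3` with `ε = 1` the number `B` and
the constant do not depend on `D`).  `theorem redu : Pool.Agent.H54.RX.S_CS3 → S_REDU` -/
def S_REDU : Prop := ∀ (p : ℕ) (K : GF) (Γ : Subgroup Qbˣ), p.Prime →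
  FiniteDimensional ℚ K → Γ.FG → (∀ g ∈ Γ, (g : Qb) ∈ K) →
  ∀ n₀ : ℕ, ∃ (i₀ : ℕ) (c : ℝ), 0 < c ∧ n₀ ≤ i₀ ∧
  ∀ (D M : ℕ) (β : Qb), ¬ p ∣ M → β ≠ 0 → (orb (divF K Γ) β).ncard ≤ D →
    TorRigid (divF K Γ) β → Rigid (divF K Γ) (levInf K Γ (p ^ n₀ * M)) β →
    (∀ σ : Aut, Fix K σ → ht (σ β / β) ≤ c / (D : ℝ) ^ 2) →
    ∃ (γ : Qb) (M' : ℕ), Tor γ ∧ ¬ p ∣ M' ∧
      Rigid (divF K Γ) (lev K Γ (p ^ i₀ * M') (p ^ n₀ * M)) (β / γ)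

/-- the main theorem for all algebraic numbers (helper54) -/
def S_MAINE : Prop := ∀ (K : GF) (Γ : Subgroup Qbˣ), FiniteDimensional ℚ K → Γ.FG →
  (∀ g ∈ Γ, (g : Qb) ∈ K) → ∀ (P : Finset ℕ), (∀ p ∈ P, p.Prime) → ∀ ε : ℝ, 0 < ε →
  ∃ (c : ℝ) (A : ℕ), 0 < c ∧
  ∀ α : Qb, α ≠ 0 → ¬ DivG Γ α → ∀ γ : Qb, DivG Γ γ →
    c / (((orb (divF K Γ) α).ncard : ℝ) ^ A * ((orb (fullField K Γ P) α).ncard : ℝ) ^ ε) ≤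
      ht (α / γ)

end Pool.Agent.H54.AV
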