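import Pool.Agent.H54.AV.Stm4
import Pool.Agent.H54.RX.F2
import Pool.Agent.H54.RX.F6

set_option autoImplicit false
set_option linter.unusedVariables false

/-!
# AV-CLME: different levels are close, congruence on a set, exponent at most a power of `p`
-/

namespace Pool.Agent.H54.AV

open Pool.Agent.W237.RK
open Pool.Agent.H58P (Qb ht)
open Pool.Agent.H54.AD (pt)
open Pool.Agent.H54.AM

namespace Clme

open Pool.Agent.W402.RK (sub_le_max p_pos two_le_p sub_eq_max norm_natCast_le norm_p)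
open Pool.Agent.H54.RX (nd nd_nonneg nd_le_one)

/-- iterates of a Frobenius automorphism at one place, on a set -/
lemma frob_iter (p : ℕ) [hp : Fact p.Prime] (ψ : Qb →+* PadicAlgCl p) (E : Set Qb) (σ : Aut)
    (a n₁ : ℕ) (hn₁ : 0 < n₁) (hσE : ∀ x ∈ E, σ x ∈ E)
    (h : ∀ x ∈ E, ‖ψ x‖ ≤ 1 → ‖ψ (σ x - x ^ (p ^ a))‖ ^ n₁ ≤ (p : ℝ)⁻¹) (m : ℕ) :
    ∀ x ∈ E, ‖ψ x‖ ≤ 1 → (σ ^ m) x ∈ E ∧ ‖ψ ((σ ^ m) x)‖ ≤ 1 ∧
      ‖ψ ((σ ^ m) x - x ^ (p ^ (a * m)))‖ ^ n₁ ≤ (p : ℝ)⁻¹ := by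
  have hp2 := Pool.Agent.W402.RK.two_le_p (p := p)
  have hinv0 : (0 : ℝ) < (p : ℝ)⁻¹ := by positivity
  have hinv1 : (p : ℝ)⁻¹ < 1 := inv_lt_one_of_one_lt₀ (by linarith)
  have hle1 : ∀ r : ℝ, r ^ n₁ ≤ (p : ℝ)⁻¹ → r ≤ 1 := by
    intro r hr
    by_contra hcon
    push Not at hcon
    have := one_le_pow₀ (n := n₁) hcon.le
    linarith
  induction m with
  | zero =>
    intro x hx hx1
    refine ⟨hx, hx1, ?_⟩
    rw [pow_zero, AlgEquiv.one_apply, Nat.mul_zero, pow_zero, pow_one, sub_self, map_zero,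
      norm_zero, zero_pow hn₁.ne']
    exact hinv0.le
  | succ m ih =>
    intro x hx hx1
    obtain ⟨h1, h2, h3⟩ := ih x hx hx1
    set y := (σ ^ m) x with hy
    have hsucc : (σ ^ (m + 1)) x = σ y := by rw [pow_succ', AlgEquiv.mul_apply]
    have h4 := h y h1 h2
    have h5 : ‖ψ (σ y)‖ ≤ 1 := by
      have e : ψ (σ y) = ψ (σ y - y ^ (p ^ a)) + ψ y ^ (p ^ a) := by
        rw [map_sub, map_pow]; ring
      rw [e]
      refine (IsUltrametricDist.norm_add_le_max _ _).trans (max_le (hle1 _ h4) ?_)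
      rw [norm_pow]
      exact pow_le_one₀ (norm_nonneg _) h2
    refine ⟨by rw [hsucc]; exact hσE y h1, by rw [hsucc]; exact h5, ?_⟩
    rw [hsucc]
    have hQ : 0 < p ^ a := pow_pos hp.out.pos _
    have e1 : x ^ (p ^ (a * (m + 1))) = (x ^ (p ^ (a * m))) ^ (p ^ a) := by
      rw [← pow_mul, ← pow_add]
      congr 2
    have hx2 : ‖ψ (x ^ (p ^ (a * m)))‖ ≤ 1 := by
      rw [map_pow, norm_pow]
      exact pow_le_one₀ (norm_nonneg _) hx1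
    have h6 : ‖ψ y ^ (p ^ a) - ψ (x ^ (p ^ (a * m))) ^ (p ^ a)‖ ≤
        ‖ψ (y - x ^ (p ^ (a * m)))‖ := by
      have h7 := Pool.Agent.W669.RK.norm_pow_sub_pow (ψ y) (ψ (x ^ (p ^ (a * m))))
        zero_le_one h2 hx2 (p ^ a - 1)
      rw [Nat.sub_add_cancel hQ, one_pow, mul_one, ← map_sub] at h7
      exact h7
    have e2 : ψ (σ y - x ^ (p ^ (a * (m + 1)))) = ψ (σ y - y ^ (p ^ a)) +
        (ψ y ^ (p ^ a) - ψ (x ^ (p ^ (a * m))) ^ (p ^ a)) := by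
      rw [e1, map_sub, map_sub, map_pow, map_pow ψ y]
      ring
    rw [e2]
    have h8 : ‖ψ (σ y - y ^ (p ^ a)) + (ψ y ^ (p ^ a) - ψ (x ^ (p ^ (a * m))) ^ (p ^ a))‖ ≤
        max ‖ψ (σ y - y ^ (p ^ a))‖ ‖ψ (y - x ^ (p ^ (a * m)))‖ :=
      (IsUltrametricDist.norm_add_le_max _ _).trans (max_le_max le_rfl h6)
    calc _ ≤ (max ‖ψ (σ y - y ^ (p ^ a))‖ ‖ψ (y - x ^ (p ^ (a * m)))‖) ^ n₁ :=
          pow_le_pow_left₀ (norm_nonneg _) h8 _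
      _ ≤ (p : ℝ)⁻¹ := by
          rcases max_choice ‖ψ (σ y - y ^ (p ^ a))‖ ‖ψ (y - x ^ (p ^ (a * m)))‖ with e | e <;>
            rw [e]
          · exact h4
          · exact h3

section powers

variable {p : ℕ} [hp : Fact p.Prime]

lemma step {X Y : PadicAlgCl p} (hX : ‖X‖ ≤ 1) (hY : ‖Y‖ ≤ 1) :
    ‖X ^ p - Y ^ p‖ ≤ max (‖X - Y‖ * (p : ℝ)⁻¹) (‖X - Y‖ ^ p) := by
  set w := X - Y with hw
  have hw1 : ‖w‖ ≤ 1 := by
    rw [hw]
    exact (sub_le_max _ _).trans (max_le hX hY)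
  have e : X ^ p - Y ^ p = ∑ m ∈ Finset.range p, w ^ (m + 1) * Y ^ (p - (m + 1)) *
      (p.choose (m + 1) : PadicAlgCl p) := by
    have hX' : X = w + Y := by rw [hw]; ring
    rw [hX', add_pow, Finset.sum_range_succ']
    simp
  rw [e]
  apply IsUltrametricDist.norm_sum_le_of_forall_le_of_nonneg (le_max_of_le_left (by positivity))
  intro m hm
  rw [Finset.mem_range] at hm
  rw [norm_mul, norm_mul, norm_pow, norm_pow]
  have h1 : ‖Y‖ ^ (p - (m + 1)) ≤ 1 := pow_le_one₀ (norm_nonneg _) hY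
  by_cases h : m + 1 = p
  · apply le_max_of_le_right
    calc ‖w‖ ^ (m + 1) * ‖Y‖ ^ (p - (m + 1)) * ‖(p.choose (m + 1) : PadicAlgCl p)‖
        ≤ ‖w‖ ^ (m + 1) * 1 * 1 := by
          gcongr
          exact norm_natCast_le _
      _ = ‖w‖ ^ p := by rw [h]; ring
  · apply le_max_of_le_left
    obtain ⟨c, hc⟩ := hp.out.dvd_choose_self (Nat.succ_ne_zero m) (by omega)
    have h3 : ‖(p.choose (m + 1) : PadicAlgCl p)‖ ≤ (p : ℝ)⁻¹ := by
      rw [hc, Nat.cast_mul, norm_mul, Pool.Agent.W402.RK.norm_p]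
      have := norm_natCast_le (p := p) c
      have hp0 : (0 : ℝ) ≤ (p : ℝ)⁻¹ := by positivity
      nlinarith
    have h4 : ‖w‖ ^ (m + 1) ≤ ‖w‖ := by
      calc ‖w‖ ^ (m + 1) ≤ ‖w‖ ^ 1 := pow_le_pow_of_le_one (norm_nonneg _) hw1 (by omega)
        _ = ‖w‖ := pow_one _
    calc ‖w‖ ^ (m + 1) * ‖Y‖ ^ (p - (m + 1)) * ‖(p.choose (m + 1) : PadicAlgCl p)‖
        ≤ ‖w‖ * 1 * (p : ℝ)⁻¹ := by gcongr
      _ = ‖w‖ * (p : ℝ)⁻¹ := by ring

lemma nd_step (U V : PadicAlgCl p) :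
    nd (U ^ p) (V ^ p) ≤ max (nd U V * (p : ℝ)⁻¹) (nd U V ^ p) := by
  have hp2 := two_le_p (p := p)
  have hp1 : 1 ≤ p := hp.out.one_le
  by_cases hx : ‖U‖ ≤ 1
  · by_cases hy : ‖V‖ ≤ 1
    · have h1 : nd U V = ‖U - V‖ := by
        unfold nd
        rw [max_eq_left hx, max_eq_left hy, one_mul, div_one]
      have h2 : nd (U ^ p) (V ^ p) = ‖U ^ p - V ^ p‖ := by
        unfold nd
        rw [max_eq_left (by rw [norm_pow]; exact pow_le_one₀ (norm_nonneg _) hx),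
          max_eq_left (by rw [norm_pow]; exact pow_le_one₀ (norm_nonneg _) hy), one_mul, div_one]
      rw [h1, h2]
      exact step hx hy
    · push Not at hy
      have h1 : nd U V = 1 := by
        unfold nd
        rw [sub_eq_max (by linarith), max_eq_left hx, max_eq_right hy.le, one_mul,
          max_eq_right (by linarith), div_self (by linarith)]
      rw [h1]
      exact (nd_le_one _ _).trans (le_max_of_le_right (by rw [one_pow]))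
  · push Not at hx
    by_cases hy : ‖V‖ ≤ 1
    · have h1 : nd U V = 1 := by
        unfold nd
        rw [sub_eq_max (by linarith), max_eq_right hx.le, max_eq_left hy, mul_one,
          max_eq_left (by linarith), div_self (by linarith)]
      rw [h1]
      exact (nd_le_one _ _).trans (le_max_of_le_right (by rw [one_pow]))
    · push Not at hy
      have key : ∀ X Y : PadicAlgCl p, 1 < ‖X‖ → 1 < ‖Y‖ → nd X Y = ‖X⁻¹ - Y⁻¹‖ := by
        intro X Y hX hY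
        have hX0 : X ≠ 0 := by
          rintro rfl; rw [norm_zero] at hX; linarith
        have hY0 : Y ≠ 0 := by
          rintro rfl; rw [norm_zero] at hY; linarith
        unfold nd
        have : X⁻¹ - Y⁻¹ = -((X - Y) / (X * Y)) := by field_simp; ring
        rw [this, norm_neg, norm_div, norm_mul, max_eq_right hX.le, max_eq_right hY.le]
      have hxp : 1 < ‖U ^ p‖ := by rw [norm_pow]; exact one_lt_pow₀ hx (by omega)
      have hyp : 1 < ‖V ^ p‖ := by rw [norm_pow]; exact one_lt_pow₀ hy (by omega)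
      rw [key U V hx hy, key _ _ hxp hyp, ← inv_pow, ← inv_pow]
      apply step
      · rw [_root_.norm_inv]; exact inv_le_one_of_one_le₀ hx.le
      · rw [_root_.norm_inv]; exact inv_le_one_of_one_le₀ hy.le

lemma seq_bound (d : ℕ → ℝ) (hd0 : ∀ j, 0 ≤ d j)
    (hstep : ∀ j, d (j + 1) ≤ max (d j * (p : ℝ)⁻¹) (d j ^ p))
    (B C : ℕ) (hBC : B ≤ p ^ C) (h : d 0 ^ B ≤ (p : ℝ)⁻¹) (i : ℕ) :
    d (C + i) ≤ ((p : ℝ)⁻¹) ^ (i + 1) := by
  have hp0 := p_pos (p := p)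
  have hp2 := two_le_p (p := p)
  have hp2' := hp.out.two_le
  have hinv : (0 : ℝ) < (p : ℝ)⁻¹ := by positivity
  have hinv1 : (p : ℝ)⁻¹ < 1 := inv_lt_one_of_one_lt₀ (by linarith)
  have hB : B ≠ 0 := by
    rintro rfl
    rw [pow_zero] at h
    linarith
  have hpow : ∀ x : ℝ, 0 ≤ x → x ≤ (p : ℝ)⁻¹ → x ^ p ≤ x * (p : ℝ)⁻¹ := by
    intro x hx0 hx
    calc x ^ p ≤ x ^ 2 := pow_le_pow_of_le_one hx0 (by linarith) hp2'
      _ = x * x := pow_two x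
      _ ≤ x * (p : ℝ)⁻¹ := mul_le_mul_of_nonneg_left hx hx0
  have claim : ∀ j, d j ≤ (p : ℝ)⁻¹ ∨ d j ^ B ≤ ((p : ℝ)⁻¹) ^ (p ^ j) := by
    intro j
    induction j with
    | zero =>
      right
      simp only [pow_zero, pow_one]
      exact h
    | succ j ih =>
      have hs := hstep j
      by_cases hle : d j ≤ (p : ℝ)⁻¹
      · left
        refine hs.trans (max_le ?_ ((hpow _ (hd0 j) hle).trans ?_))
        · nlinarith [hd0 j]
        · nlinarith [hd0 j]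
      · have ih' := ih.resolve_left hle
        push Not at hle
        by_cases hd1 : d j ≤ 1
        · rcases max_choice (d j * (p : ℝ)⁻¹) (d j ^ p) with e | e
          · left
            rw [e] at hs
            refine hs.trans ?_
            nlinarith [hd0 j]
          · right
            rw [e] at hs
            calc d (j + 1) ^ B ≤ (d j ^ p) ^ B := pow_le_pow_left₀ (hd0 _) hs _
              _ = (d j ^ B) ^ p := by rw [← pow_mul, ← pow_mul, mul_comm]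
              _ ≤ (((p : ℝ)⁻¹) ^ (p ^ j)) ^ p :=
                pow_le_pow_left₀ (by have := hd0 j; positivity) ih' _
              _ = ((p : ℝ)⁻¹) ^ (p ^ (j + 1)) := by rw [← pow_mul, pow_succ]
        · exfalso
          push Not at hd1
          have h1 := one_le_pow₀ (n := B) hd1.le
          have h2 : ((p : ℝ)⁻¹) ^ (p ^ j) < 1 :=
            pow_lt_one₀ hinv.le hinv1 (pow_ne_zero _ (by omega))
          linarith
  have hdC : d C ≤ (p : ℝ)⁻¹ := by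
    rcases claim C with h1 | h1
    · exact h1
    · by_contra hcon
      push Not at hcon
      have h2 : ((p : ℝ)⁻¹) ^ B < d C ^ B := pow_lt_pow_left₀ hcon hinv.le hB
      have h3 : ((p : ℝ)⁻¹) ^ (p ^ C) ≤ ((p : ℝ)⁻¹) ^ B :=
        pow_le_pow_of_le_one hinv.le hinv1.le hBC
      linarith
  induction i with
  | zero => simpa using hdC
  | succ i ih =>
    have hs := hstep (C + i)
    have h1 : d (C + i) ≤ (p : ℝ)⁻¹ := by
      refine ih.trans ?_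
      calc ((p : ℝ)⁻¹) ^ (i + 1) ≤ ((p : ℝ)⁻¹) ^ 1 :=
            pow_le_pow_of_le_one hinv.le hinv1.le (by omega)
        _ = _ := pow_one _
    have h2 : d (C + i + 1) ≤ d (C + i) * (p : ℝ)⁻¹ :=
      hs.trans (max_le le_rfl (hpow _ (hd0 _) h1))
    calc d (C + (i + 1)) = d (C + i + 1) := rfl
      _ ≤ d (C + i) * (p : ℝ)⁻¹ := h2
      _ ≤ ((p : ℝ)⁻¹) ^ (i + 1) * (p : ℝ)⁻¹ := mul_le_mul_of_nonneg_right ih hinv.le
      _ = ((p : ℝ)⁻¹) ^ (i + 1 + 1) := (pow_succ _ _).symm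

/-- the power lemma -/
lemma pair_pow (U V : PadicAlgCl p) (B C : ℕ) (hBC : B ≤ p ^ C) (ρ : ℝ) (hρ0 : 0 < ρ)
    (hρ : ρ ^ B = (p : ℝ)⁻¹) (h : ‖U - V‖ ≤ ρ * (max 1 ‖U‖ * max 1 ‖V‖)) (N : ℕ) :
    ‖U ^ (p ^ (C + N)) - V ^ (p ^ (C + N))‖ ≤ ((p : ℝ) ^ N)⁻¹ *
      (max 1 ‖U ^ (p ^ (C + N))‖ * max 1 ‖V ^ (p ^ (C + N))‖) := by
  have hp0 := p_pos (p := p)
  have hp2 := two_le_p (p := p)
  have hinv : (0 : ℝ) < (p : ℝ)⁻¹ := by positivity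
  have hinv1 : (p : ℝ)⁻¹ ≤ 1 := inv_le_one_of_one_le₀ (by linarith)
  have hnd : ∀ a b : PadicAlgCl p, ‖a - b‖ = nd a b * (max 1 ‖a‖ * max 1 ‖b‖) := by
    intro a b
    unfold nd
    rw [div_mul_cancel₀]
    positivity
  have hstep : ∀ j, nd (U ^ (p ^ (j + 1))) (V ^ (p ^ (j + 1))) ≤
      max (nd (U ^ (p ^ j)) (V ^ (p ^ j)) * (p : ℝ)⁻¹) (nd (U ^ (p ^ j)) (V ^ (p ^ j)) ^ p) := by
    intro j
    have := nd_step (U ^ (p ^ j)) (V ^ (p ^ j))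
    rw [← pow_mul, ← pow_mul, ← pow_succ] at this
    exact this
  have h0 : nd (U ^ (p ^ 0)) (V ^ (p ^ 0)) ^ B ≤ (p : ℝ)⁻¹ := by
    rw [← hρ]
    apply pow_le_pow_left₀ (nd_nonneg _ _)
    simp only [pow_zero, pow_one]
    unfold nd
    rw [div_le_iff₀ (by positivity)]
    exact h
  have hk := seq_bound (fun j => nd (U ^ (p ^ j)) (V ^ (p ^ j))) (fun j => nd_nonneg _ _) hstep
    B C hBC h0 N
  rw [hnd]
  apply mul_le_mul_of_nonneg_right _ (by positivity)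
  refine hk.trans ?_
  rw [← inv_pow]
  exact pow_le_pow_of_le_one hinv.le hinv1 (by omega)

end powers

theorem chord (p : ℕ) [hp : Fact p.Prime] (ψ : Qb →+* PadicAlgCl p) (M₀ : Set Qb) (Φ : Aut)
    (a n₁ : ℕ) (hn₁ : 0 < n₁) (hinv : ∀ x ∈ M₀, x⁻¹ ∈ M₀) (hM : ∀ x ∈ M₀, Φ x ∈ M₀)
    (h : ∀ x ∈ M₀, ‖ψ x‖ ≤ 1 → ‖ψ (Φ x - x ^ (p ^ a))‖ ^ n₁ ≤ (p : ℝ)⁻¹)
    (ρ : ℝ) (hρ0 : 0 < ρ) (hρ : ρ ^ n₁ = (p : ℝ)⁻¹) (m : ℕ) (x : Qb) (hx : x ∈ M₀) :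
    ‖ψ x ^ (p ^ (a * m)) - ψ ((Φ ^ m) x)‖ ≤
      ρ * (max 1 ‖ψ x ^ (p ^ (a * m))‖ * max 1 ‖ψ ((Φ ^ m) x)‖) := by
  have key : ∀ z ∈ M₀, ‖ψ z‖ ≤ 1 → ‖ψ ((Φ ^ m) z) - ψ z ^ (p ^ (a * m))‖ ≤ ρ := by
    intro z hz hz1
    have h1 := (frob_iter p ψ M₀ Φ a n₁ hn₁ hM h m z hz hz1).2.2
    rw [map_sub, map_pow, ← hρ] at h1
    exact le_of_pow_le_pow_left₀ hn₁.ne' hρ0.le h1
  rcases le_or_gt ‖ψ x‖ 1 with hx1 | hx1
  · rw [norm_sub_rev]
    refine (key x hx hx1).trans ?_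
    have h1 : (1 : ℝ) ≤ max 1 ‖ψ x ^ (p ^ (a * m))‖ := le_max_left _ _
    have h2 : (1 : ℝ) ≤ max 1 ‖ψ ((Φ ^ m) x)‖ := le_max_left _ _
    have h3 : (1 : ℝ) ≤ max 1 ‖ψ x ^ (p ^ (a * m))‖ * max 1 ‖ψ ((Φ ^ m) x)‖ := by nlinarith
    nlinarith
  · have hx0 : x ≠ 0 := by
      rintro rfl
      rw [map_zero, norm_zero] at hx1
      linarith
    have hU0 : ψ x ^ (p ^ (a * m)) ≠ 0 := pow_ne_zero _ ((map_ne_zero ψ).2 hx0)
    have hV0 : ψ ((Φ ^ m) x) ≠ 0 := (map_ne_zero ψ).2 ((map_ne_zero (Φ ^ m)).2 hx0)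
    have h1 := key x⁻¹ (hinv x hx) (by
      rw [map_inv₀, _root_.norm_inv]
      exact inv_le_one_of_one_le₀ hx1.le)
    rw [map_inv₀, map_inv₀, map_inv₀, inv_pow] at h1
    have h2 : ψ x ^ (p ^ (a * m)) - ψ ((Φ ^ m) x) = ψ x ^ (p ^ (a * m)) * ψ ((Φ ^ m) x) *
        ((ψ ((Φ ^ m) x))⁻¹ - (ψ x ^ (p ^ (a * m)))⁻¹) := by
      field_simp
    rw [h2, norm_mul, norm_mul, mul_comm ρ]
    exact mul_le_mul (mul_le_mul (le_max_right _ _) (le_max_right _ _) (norm_nonneg _)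
      (by positivity)) h1 (norm_nonneg _) (by positivity)

theorem level (p : ℕ) [hp : Fact p.Prime] (ψ : Qb →+* PadicAlgCl p) (M₀ : Set Qb) (Φ : Aut)
    (a n₁ ℓ : ℕ) (hn₁ : 0 < n₁) (hℓ : n₁ ≤ p ^ ℓ) (hinv : ∀ x ∈ M₀, x⁻¹ ∈ M₀)
    (hM : ∀ x ∈ M₀, Φ x ∈ M₀)
    (h : ∀ x ∈ M₀, ‖ψ x‖ ≤ 1 → ‖ψ (Φ x - x ^ (p ^ a))‖ ^ n₁ ≤ (p : ℝ)⁻¹)
    (m N k : ℕ) (hk : ℓ + N ≤ k) (x : Qb) (hx : x ∈ M₀) :
    ‖(ψ x ^ (p ^ (a * m))) ^ (p ^ k) - ψ ((Φ ^ m) x) ^ (p ^ k)‖ ≤ ((p : ℝ) ^ N)⁻¹ *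
      (max 1 ‖(ψ x ^ (p ^ (a * m))) ^ (p ^ k)‖ * max 1 ‖ψ ((Φ ^ m) x) ^ (p ^ k)‖) := by
  have hp2 := Pool.Agent.W402.RK.two_le_p (p := p)
  obtain ⟨ρ, hρ0, hρ⟩ : ∃ ρ : ℝ, 0 < ρ ∧ ρ ^ n₁ = (p : ℝ)⁻¹ := by
    refine ⟨((p : ℝ)⁻¹) ^ ((n₁ : ℝ)⁻¹), by positivity, ?_⟩
    rw [← Real.rpow_natCast, ← Real.rpow_mul (by positivity), inv_mul_cancel₀ (by positivity),
      Real.rpow_one]
  have h1 := chord p ψ M₀ Φ a n₁ hn₁ hinv hM h ρ hρ0 hρ m x hx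
  obtain ⟨N', rfl⟩ := Nat.exists_eq_add_of_le hk
  have h2 := pair_pow (ψ x ^ (p ^ (a * m))) (ψ ((Φ ^ m) x)) n₁ ℓ hℓ ρ hρ0 hρ h1 (N + N')
  rw [← add_assoc] at h2
  refine h2.trans ?_
  apply mul_le_mul_of_nonneg_right _ (by positivity)
  apply inv_anti₀ (by positivity)
  exact pow_le_pow_right₀ (by linarith) (by omega)

end Clme

open Clme in
/-- AV-CLME -/
theorem clme : S_CLME := by
  intro p _ ψ E M₀ σ Φ a n₁ ℓ ha hn₁ hℓ hinvU hM₀ hE hρM h n u hu e N j h' y hy hj hh hje hhe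
  have hMpow : ∀ (τ : Aut), (∀ x ∈ M₀, τ x ∈ M₀) → ∀ k : ℕ, ∀ x ∈ M₀, (τ ^ k) x ∈ M₀ := by
    intro τ hτ k
    induction k with
    | zero => intro x hx; simpa using hx
    | succ k ih =>
      intro x hx
      rw [pow_succ', AlgEquiv.mul_apply]
      exact hτ _ (ih x hx)
  have hEpow : ∀ k : ℕ, ∀ x ∈ E, (σ ^ k) x ∈ E ∧ (Φ ^ k) x = (σ ^ k) x := by
    intro k
    induction k with
    | zero => intro x hx; simpa using hx
    | succ k ih =>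
      intro x hx
      rw [pow_succ', pow_succ', AlgEquiv.mul_apply, AlgEquiv.mul_apply, (ih x hx).2]
      exact ⟨(hE _ (ih x hx).1).1, (hE _ (ih x hx).1).2.2⟩
  have hq : ∀ k : ℕ, (p ^ a) ^ k = p ^ (a * k) := fun k => (pow_mul _ _ _).symm
  obtain ⟨r, hr, hry⟩ := hy
  have hyM : ∀ i, y i ∈ M₀ := by
    intro i
    rw [← hry]
    exact hρM r hr _ (hu i)
  have hinvapp : ∀ (τ : Aut) (z : Qb), τ (τ⁻¹ z) = z := by
    intro τ z
    rw [← AlgEquiv.mul_apply, mul_inv_cancel, AlgEquiv.one_apply]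
  have hinvapp' : ∀ (τ : Aut) (z : Qb), τ⁻¹ (τ z) = z := by
    intro τ z
    rw [← AlgEquiv.mul_apply, inv_mul_cancel, AlgEquiv.one_apply]
  rcases le_total h' j with hjh | hjh
  · obtain ⟨m, rfl⟩ := Nat.exists_eq_add_of_le hjh
    obtain ⟨τ, hτ⟩ : ∃ τ : Aut, τ = (σ ^ (e - h'))⁻¹ * (Φ ^ m * σ ^ (e - (h' + m))) := ⟨_, rfl⟩
    have hτE : Fix E τ := by
      intro x hx
      have h2 : (σ ^ m) ((σ ^ (e - (h' + m))) x) = (σ ^ (e - h')) x := by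
        rw [← AlgEquiv.mul_apply, ← pow_add]
        congr 2
        omega
      rw [hτ, AlgEquiv.mul_apply, AlgEquiv.mul_apply,
        (hEpow m _ (hEpow (e - (h' + m)) x hx).1).2, h2]
      exact hinvapp' _ x
    refine ⟨fun i => τ (y i), ⟨τ * r, ?_, ?_⟩, fun i => ?_⟩
    · intro x hx
      rw [AlgEquiv.mul_apply, hr x hx, hτE x hx]
    · funext i
      rw [AlgEquiv.mul_apply, ← hry]
    · have h1 := level p ψ M₀ Φ a n₁ ℓ hn₁ hℓ hinvU (fun x hx => (hM₀ x hx).2.2.1) h m N (a * h')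
        (hh.trans (Nat.le_mul_of_pos_left h' ha)) ((σ ^ (e - (h' + m))) (y i))
        (hMpow σ (fun x hx => (hM₀ x hx).1) _ _ (hyM i))
      have e1 : ψ (ptN σ (p ^ a) e y (h' + m) i) =
          (ψ ((σ ^ (e - (h' + m))) (y i)) ^ (p ^ (a * m))) ^ (p ^ (a * h')) := by
        show ψ (((σ ^ (e - (h' + m))) (y i)) ^ ((p ^ a) ^ (h' + m))) = _
        rw [map_pow, hq, ← pow_mul, ← pow_add]
        congr 2
        ring
      have e2 : ψ (ptN σ (p ^ a) e (fun i => τ (y i)) h' i) =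
          ψ ((Φ ^ m) ((σ ^ (e - (h' + m))) (y i))) ^ (p ^ (a * h')) := by
        show ψ (((σ ^ (e - h')) (τ (y i))) ^ ((p ^ a) ^ h')) = _
        rw [map_pow, hq, hτ, AlgEquiv.mul_apply, AlgEquiv.mul_apply, hinvapp]
      rw [e1, e2]
      exact h1
  · obtain ⟨m, rfl⟩ := Nat.exists_eq_add_of_le hjh
    obtain ⟨τ, hτ⟩ : ∃ τ : Aut, τ = (σ ^ (e - (j + m)))⁻¹ * ((Φ ^ m)⁻¹ * σ ^ (e - j)) := ⟨_, rfl⟩
    have hτE : Fix E τ := by
      intro x hx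
      have h2 : e - j = m + (e - (j + m)) := by omega
      rw [hτ, AlgEquiv.mul_apply, AlgEquiv.mul_apply, h2, pow_add, AlgEquiv.mul_apply,
        ← (hEpow m _ (hEpow (e - (j + m)) x hx).1).2, hinvapp', hinvapp']
    have hinvM : ∀ x ∈ M₀, ((Φ ^ m)⁻¹ : Aut) x ∈ M₀ := by
      intro x hx
      rw [← inv_pow]
      exact hMpow Φ⁻¹ (fun x hx => (hM₀ x hx).2.2.2) m x hx
    refine ⟨fun i => τ (y i), ⟨τ * r, ?_, ?_⟩, fun i => ?_⟩
    · intro x hx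
      rw [AlgEquiv.mul_apply, hr x hx, hτE x hx]
    · funext i
      rw [AlgEquiv.mul_apply, ← hry]
    · have h1 := level p ψ M₀ Φ a n₁ ℓ hn₁ hℓ hinvU (fun x hx => (hM₀ x hx).2.2.1) h m N (a * j)
        (hj.trans (Nat.le_mul_of_pos_left j ha)) (((Φ ^ m)⁻¹ : Aut) ((σ ^ (e - j)) (y i)))
        (hinvM _ (hMpow σ (fun x hx => (hM₀ x hx).1) _ _ (hyM i)))
      rw [hinvapp] at h1
      have e1 : ψ (ptN σ (p ^ a) e y j i) = ψ ((σ ^ (e - j)) (y i)) ^ (p ^ (a * j)) := by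
        show ψ (((σ ^ (e - j)) (y i)) ^ ((p ^ a) ^ j)) = _
        rw [map_pow, hq]
      have e2 : ψ (ptN σ (p ^ a) e (fun i => τ (y i)) (j + m) i) =
          (ψ (((Φ ^ m)⁻¹ : Aut) ((σ ^ (e - j)) (y i))) ^ (p ^ (a * m))) ^ (p ^ (a * j)) := by
        show ψ (((σ ^ (e - (j + m))) (τ (y i))) ^ ((p ^ a) ^ (j + m))) = _
        rw [map_pow, hq, hτ, AlgEquiv.mul_apply, AlgEquiv.mul_apply, hinvapp, ← pow_mul, ← pow_add]
        congr 2
        ring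
      rw [e1, e2, norm_sub_rev, mul_comm (max 1 ‖ψ ((σ ^ (e - j)) (y i)) ^ (p ^ (a * j))‖)]
      exact h1

end Pool.Agent.H54.AV
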