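import Mathlib
import Pool.Agent.H54.AV.Stm4
import Pool.Agent.H54.AV.Clme
import Pool.Agent.H54.AV.Adme

set_option autoImplicit false
set_option linter.unusedVariables false

/-!
# Products of heights: explicit dependence on the exponent of the congruence

The theorem for the exponent `1` is applied to the powers `u i ^ (p ^ (ℓ + 1))`, `n₂ ≤ p ^ ℓ`.
-/

namespace Pool.Agent.H54.AV

open Pool.Agent.W237.RK
open Pool.Agent.H58P (Qb ht)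
open Pool.Agent.H58R (ht_nonneg)
open Pool.Agent.H58B (ht_conj ht_pow)
open Pool.Agent.H54.AM

/-- `S_ADME` with the exponent `n` of `n₂` -/
def S_ADMF : Prop := ∀ (p : ℕ) [Fact p.Prime] (φ : Qb →+* PadicAlgCl p) (κ n₁ n : ℕ) (ε : ℝ),
  0 < ε → ∃ c : ℝ, 0 < c ∧ ∀ (K E : GF) (𝒰 : Set Qb) (σ : Aut) (a n₂ : ℕ)
    (u : Fin n → Qb),
    FiniteDimensional ℚ K → Module.finrank ℚ K ≤ κ → FiniteDimensional ℚ E → K ≤ E →
    NormalOver K E → Fix K σ →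
    (∀ τ : Aut, Fix K τ → ∀ x ∈ E, τ (σ x) = σ (τ x)) → 0 < a → a ≤ n₁ → 0 < n₂ →
    (∀ x ∈ 𝒰, x⁻¹ ∈ 𝒰) → (∀ τ : Aut, Fix K τ → ∀ x ∈ 𝒰, τ x ∈ 𝒰) →
    (∀ x ∈ 𝒰, ‖φ x‖ ≤ 1 → ‖φ (σ x - x ^ (p ^ a))‖ ^ n₂ ≤ (p : ℝ)⁻¹) →
    (∀ i, u i ≠ 0) → (∀ i, u i ∈ 𝒰) → IndepN u →
    c / ((n₂ : ℝ) ^ n * ((orbN E u).ncard : ℝ) ^ (1 + ε)) ≤ ∏ i, ht (u i)

open Clme in
theorem admf : S_ADME → S_ADMF := by
  classical
  intro hADME p hp φ κ n₁ n ε hε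
  obtain ⟨c₀, A, hc₀, h⟩ := hADME p φ κ n₁ n ε hε
  have hpp : p.Prime := hp.out
  have hp1 : (1 : ℝ) < p := by exact_mod_cast hpp.one_lt
  have hp0 : (0 : ℝ) < p := by linarith
  refine ⟨c₀ / ((p : ℝ) ^ 2) ^ n, by positivity, ?_⟩
  intro K E 𝒰 σ a n₂ u hKfd hKκ hEfd hKE hnE hσ hcomm ha0 ha1 hn₂ hinv hst hfrob hu0 hu𝒰 hind
  obtain ⟨ℓ, hℓ1, hℓ2⟩ : ∃ ℓ : ℕ, n₂ ≤ p ^ ℓ ∧ p ^ ℓ ≤ p * n₂ := by
    refine ⟨Nat.clog p n₂, Nat.le_pow_clog hpp.one_lt n₂, ?_⟩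
    rcases Nat.eq_zero_or_pos (Nat.clog p n₂) with h | h
    · rw [h, pow_zero]
      exact Nat.mul_pos hpp.pos hn₂
    · have h1 : p ^ (Nat.clog p n₂).pred < n₂ := by
        apply Nat.pow_pred_clog_lt_self hpp.one_lt
        by_contra hcon
        push Not at hcon
        have h2 : Nat.clog p n₂ = 0 := Nat.clog_of_right_le_one hcon p
        omega
      calc p ^ (Nat.clog p n₂) = p * p ^ (Nat.clog p n₂).pred := by
            conv_lhs => rw [← Nat.succ_pred_eq_of_pos h]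
            rw [pow_succ, mul_comm]
        _ ≤ p * n₂ := Nat.mul_le_mul_left _ h1.le
  obtain ⟨q, hq⟩ : ∃ q : ℕ, q = p ^ (ℓ + 1) := ⟨_, rfl⟩
  have hq0 : 0 < q := by rw [hq]; exact pow_pos hpp.pos _
  have hqR : (0 : ℝ) < q := by exact_mod_cast hq0
  have hqle : (q : ℝ) ≤ (p : ℝ) ^ 2 * n₂ := by
    have h1 : q ≤ p ^ 2 * n₂ := by
      rw [hq, pow_succ]
      calc p ^ ℓ * p ≤ (p * n₂) * p := Nat.mul_le_mul_right _ hℓ2
        _ = p ^ 2 * n₂ := by ring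
    exact_mod_cast h1
  obtain ⟨ρ, hρ0, hρ⟩ : ∃ ρ : ℝ, 0 < ρ ∧ ρ ^ n₂ = (p : ℝ)⁻¹ := by
    refine ⟨((p : ℝ)⁻¹) ^ ((n₂ : ℝ)⁻¹), by positivity, ?_⟩
    rw [← Real.rpow_natCast, ← Real.rpow_mul (by positivity), inv_mul_cancel₀ (by positivity),
      Real.rpow_one]
  have h1 := h K E {x | ∃ y ∈ 𝒰, y ^ q = x} σ a 1 (fun i => u i ^ q) hKfd hKκ hEfd hKE hnE hσ
    hcomm ha0 ha1 one_pos
    (by
      rintro _ ⟨y, hy, rfl⟩
      exact ⟨y⁻¹, hinv y hy, by rw [inv_pow]⟩)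
    (by
      rintro τ hτ _ ⟨y, hy, rfl⟩
      exact ⟨τ y, hst τ hτ y hy, by rw [map_pow]⟩)
    (by
      rintro _ ⟨y, hy, rfl⟩ hx1
      rw [map_pow, norm_pow] at hx1
      have hy1 : ‖φ y‖ ≤ 1 := (pow_le_one_iff_of_nonneg (norm_nonneg _) hq0.ne').mp hx1
      have h2 := hfrob y hy hy1
      rw [map_sub, map_pow] at h2
      have h3 : ‖φ (σ y) - φ y ^ (p ^ a)‖ ≤ ρ := by
        rw [← hρ] at h2
        exact le_of_pow_le_pow_left₀ hn₂.ne' hρ0.le h2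
      have hρ1 : ρ ≤ 1 := by
        by_contra hcon
        push Not at hcon
        have h4 : 1 < ρ ^ n₂ := one_lt_pow₀ hcon hn₂.ne'
        rw [hρ] at h4
        have h5 : (p : ℝ)⁻¹ < 1 := inv_lt_one_of_one_lt₀ hp1
        linarith
      have hV : ‖φ y ^ (p ^ a)‖ ≤ 1 := by
        rw [norm_pow]
        exact pow_le_one₀ (norm_nonneg _) hy1
      have hU : ‖φ (σ y)‖ ≤ 1 := by
        have e1 : φ (σ y) = (φ (σ y) - φ y ^ (p ^ a)) - (-(φ y ^ (p ^ a))) := by ring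
        rw [e1]
        refine (Pool.Agent.W402.RK.sub_le_max _ _).trans (max_le (h3.trans hρ1) ?_)
        rw [norm_neg]
        exact hV
      have h6 := pair_pow (φ (σ y)) (φ y ^ (p ^ a)) n₂ ℓ hℓ1 ρ hρ0 hρ (by
        rw [max_eq_left hU, max_eq_left hV, one_mul, mul_one]
        exact h3) 1
      rw [← hq, pow_one] at h6
      have hU2 : ‖φ (σ y) ^ q‖ ≤ 1 := by
        rw [norm_pow]; exact pow_le_one₀ (norm_nonneg _) hU
      have hV2 : ‖(φ y ^ (p ^ a)) ^ q‖ ≤ 1 := by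
        rw [norm_pow]; exact pow_le_one₀ (norm_nonneg _) hV
      rw [max_eq_left hU2, max_eq_left hV2, one_mul, mul_one] at h6
      rw [pow_one]
      have e2 : φ (σ (y ^ q) - (y ^ q) ^ (p ^ a)) = φ (σ y) ^ q - (φ y ^ (p ^ a)) ^ q := by
        rw [map_sub, map_pow, map_pow, map_pow, map_pow, ← pow_mul, ← pow_mul, mul_comm]
      rw [e2]
      exact h6)
    (fun i => pow_ne_zero _ (hu0 i)) (fun i => ⟨u i, hu𝒰 i, rfl⟩)
    (by
      intro m hm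
      have h2 := hind (fun i => (q : ℤ) * m i) (by
        have e1 : ∏ i, u i ^ ((q : ℤ) * m i) = ∏ i, (u i ^ q) ^ m i := by
          apply Finset.prod_congr rfl
          intro i _
          rw [zpow_mul, zpow_natCast]
        rw [e1]
        exact hm)
      funext i
      have h3 := congrFun h2 i
      simp only [Pi.zero_apply, mul_eq_zero] at h3
      rcases h3 with h3 | h3
      · exfalso
        have : (q : ℤ) ≠ 0 := by exact_mod_cast hq0.ne'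
        exact this h3
      · exact h3)
  simp only [Nat.cast_one, one_pow, one_mul] at h1
  have hcard : ((orbN E (fun i => u i ^ q)).ncard : ℝ) ≤ ((orbN E u).ncard : ℝ) := by
    have hsub : orbN E (fun i => u i ^ q) ⊆ (fun y : Fin n → Qb => fun i => y i ^ q) '' orbN E u := by
      rintro _ ⟨τ, hτ, rfl⟩
      refine ⟨fun i => τ (u i), ⟨τ, hτ, rfl⟩, ?_⟩
      funext i
      exact (map_pow τ _ _).symm
    exact_mod_cast (Set.ncard_le_ncard hsub ((orbN_finite' E u).image _)).trans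
      (Set.ncard_image_le (orbN_finite' E u))
  have hpos1 : (0 : ℝ) < ((orbN E (fun i => u i ^ q)).ncard : ℝ) := by
    exact_mod_cast orbN_pos E _
  have hpos2 : (0 : ℝ) < ((orbN E u).ncard : ℝ) := by exact_mod_cast orbN_pos E _
  have hr : ((orbN E (fun i => u i ^ q)).ncard : ℝ) ^ (1 + ε) ≤
      ((orbN E u).ncard : ℝ) ^ (1 + ε) := Real.rpow_le_rpow hpos1.le hcard (by linarith)
  have hr1 : 0 < ((orbN E (fun i => u i ^ q)).ncard : ℝ) ^ (1 + ε) := Real.rpow_pos_of_pos hpos1 _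
  have hr2 : 0 < ((orbN E u).ncard : ℝ) ^ (1 + ε) := Real.rpow_pos_of_pos hpos2 _
  have hprod : ∏ i, ht (u i ^ q) = (q : ℝ) ^ n * ∏ i, ht (u i) := by
    simp_rw [ht_pow]
    rw [Finset.prod_mul_distrib, Finset.prod_const, Finset.card_univ, Fintype.card_fin]
  rw [hprod] at h1
  have hn₂R : (0 : ℝ) < n₂ := by exact_mod_cast hn₂
  have h2 : c₀ / ((orbN E u).ncard : ℝ) ^ (1 + ε) ≤ (q : ℝ) ^ n * ∏ i, ht (u i) :=
    (div_le_div_of_nonneg_left hc₀.le hr1 hr).trans h1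
  have h3 : (q : ℝ) ^ n ≤ ((p : ℝ) ^ 2) ^ n * (n₂ : ℝ) ^ n := by
    rw [← mul_pow]
    exact pow_le_pow_left₀ hqR.le hqle n
  have hP : 0 ≤ ∏ i, ht (u i) := Finset.prod_nonneg fun i _ => ht_nonneg _
  have h4 : c₀ / ((orbN E u).ncard : ℝ) ^ (1 + ε) ≤
      ((p : ℝ) ^ 2) ^ n * (n₂ : ℝ) ^ n * ∏ i, ht (u i) :=
    h2.trans (mul_le_mul_of_nonneg_right h3 hP)
  have e5 : c₀ / ((p : ℝ) ^ 2) ^ n / ((n₂ : ℝ) ^ n * ((orbN E u).ncard : ℝ) ^ (1 + ε)) =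
      (c₀ / ((orbN E u).ncard : ℝ) ^ (1 + ε)) / (((p : ℝ) ^ 2) ^ n * (n₂ : ℝ) ^ n) := by
    rw [div_div, div_div]
    congr 1
    ring
  rw [e5, div_le_iff₀ (by positivity)]
  calc c₀ / ((orbN E u).ncard : ℝ) ^ (1 + ε)
      ≤ ((p : ℝ) ^ 2) ^ n * (n₂ : ℝ) ^ n * ∏ i, ht (u i) := h4
    _ = (∏ i, ht (u i)) * (((p : ℝ) ^ 2) ^ n * (n₂ : ℝ) ^ n) := by ring

end Pool.Agent.H54.AV
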