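import Pool.Agent.H54.AV.Stm

set_option autoImplicit false
set_option linter.unusedVariables false

/-! # AV-COM: commuting automorphisms -/

namespace Pool.Agent.H54.AV

open Pool.Agent.W237.RK
open Pool.Agent.H58P (Qb ht)

theorem com : S_COM := by
  constructor
  · intro K Γ N R F hN hR hΓ hKF hTor τ τ' hτ hτ' x hx
    have key : AgreeOn (lev K Γ N R) (τ * τ') (τ' * τ) := by
      refine agree_lev (fun x hx => ?_) (fun x hx => ?_) (fun y hy => ?_)
      · rw [AlgEquiv.mul_apply, AlgEquiv.mul_apply, hτ' x (hKF hx), hτ x (hKF hx), hτ' x (hKF hx)]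
      · have hxF := hTor x ⟨N, hN, hx⟩
        rw [AlgEquiv.mul_apply, AlgEquiv.mul_apply, hτ' x hxF, hτ x hxF, hτ' x hxF]
      · obtain ⟨g, hg, hy⟩ := hy
        have hy0 : y ≠ 0 := by
          rintro rfl
          rw [zero_pow hR.ne'] at hy
          exact Units.ne_zero g hy.symm
        have hg0 : (g : Qb) ≠ 0 := Units.ne_zero g
        have h1 : ∀ σ : Aut, Fix F σ → ∃ ζ : Qb, Tor ζ ∧ σ y = ζ * y := by
          intro σ hσ
          refine ⟨σ y / y, ⟨R, hR, ?_⟩, by field_simp⟩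
          rw [div_pow, ← map_pow, hy, hσ _ (hKF (hΓ g hg)), div_self hg0]
        obtain ⟨ζ, hζ, h2⟩ := h1 τ hτ
        obtain ⟨ξ, hξ, h3⟩ := h1 τ' hτ'
        rw [AlgEquiv.mul_apply, AlgEquiv.mul_apply, h3, map_mul, h2, map_mul, h3,
          hτ ξ (hTor ξ hξ), hτ' ζ (hTor ζ hζ)]
        ring
    exact key x hx
  · intro K σ τ hσ hτ x hx
    have h : kinf K ≤ eqField (τ * σ) (σ * τ) := by
      refine sup_le (fun y hy => ?_) ?_
      · show τ (σ y) = σ (τ y)
        rw [hσ y hy, hτ y hy, hσ y hy]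
      · rw [IntermediateField.adjoin_le_iff]
        intro y hy
        exact tor_comm hy τ σ
    exact h hx

end Pool.Agent.H54.AV
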