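import Pool.Agent.H54.AV.Stm
import Pool.Agent.H54.RX.F2
import Pool.Agent.H54.RX.F6

set_option autoImplicit false
set_option linter.unusedVariables false

/-!
# AV-CLM: different levels are close, all coordinates at once
-/

namespace Pool.Agent.H54.AV

open Pool.Agent.W237.RK
open Pool.Agent.H58P (Qb ht)
open Pool.Agent.H54.AD (pt)
open Pool.Agent.H54.AM

namespace Clm

theorem chord (p : ℕ) [hp : Fact p.Prime] (ψ : Qb →+* PadicAlgCl p) (M₀ : GF) (Φ : Aut)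
    (a n₁ : ℕ) (hn₁ : 0 < n₁) (hM : ∀ x ∈ M₀, Φ x ∈ M₀)
    (h : ∀ x ∈ M₀, ‖ψ x‖ ≤ 1 → ‖ψ (Φ x - x ^ (p ^ a))‖ ^ n₁ ≤ (p : ℝ)⁻¹)
    (ρ : ℝ) (hρ0 : 0 < ρ) (hρ : ρ ^ n₁ = (p : ℝ)⁻¹) (m : ℕ) (x : Qb) (hx : x ∈ M₀) :
    ‖ψ x ^ (p ^ (a * m)) - ψ ((Φ ^ m) x)‖ ≤
      ρ * (max 1 ‖ψ x ^ (p ^ (a * m))‖ * max 1 ‖ψ ((Φ ^ m) x)‖) := by
  have key : ∀ z ∈ M₀, ‖ψ z‖ ≤ 1 → ‖ψ ((Φ ^ m) z) - ψ z ^ (p ^ (a * m))‖ ≤ ρ := by
    intro z hz hz1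
    have h1 := (Pool.Agent.H54.RX.frob_iter p ψ M₀ Φ a n₁ hn₁ hM h m z hz hz1).2.2
    rw [map_sub, map_pow, ← hρ] at h1
    exact le_of_pow_le_pow_left₀ hn₁.ne' hρ0.le h1
  rcases le_or_gt ‖ψ x‖ 1 with hx1 | hx1
  · rw [norm_sub_rev]
    refine (key x hx hx1).trans ?_
    have h1 : (1 : ℝ) ≤ max 1 ‖ψ x ^ (p ^ (a * m))‖ := le_max_left _ _
    have h2 : (1 : ℝ) ≤ max 1 ‖ψ ((Φ ^ m) x)‖ := le_max_left _ _
    have h3 : (1 : ℝ) ≤ max 1 ‖ψ x ^ (p ^ (a * m))‖ * max 1 ‖ψ ((Φ ^ m) x)‖ := by nlinarith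
    nlinarith
  · have hx0 : x ≠ 0 := by
      rintro rfl
      rw [map_zero, norm_zero] at hx1
      linarith
    have hU0 : ψ x ^ (p ^ (a * m)) ≠ 0 := pow_ne_zero _ ((map_ne_zero ψ).2 hx0)
    have hV0 : ψ ((Φ ^ m) x) ≠ 0 := (map_ne_zero ψ).2 ((map_ne_zero (Φ ^ m)).2 hx0)
    have h1 := key x⁻¹ (M₀.inv_mem hx) (by
      rw [map_inv₀, _root_.norm_inv]
      exact inv_le_one_of_one_le₀ hx1.le)
    rw [map_inv₀, map_inv₀, map_inv₀, inv_pow] at h1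
    have h2 : ψ x ^ (p ^ (a * m)) - ψ ((Φ ^ m) x) = ψ x ^ (p ^ (a * m)) * ψ ((Φ ^ m) x) *
        ((ψ ((Φ ^ m) x))⁻¹ - (ψ x ^ (p ^ (a * m)))⁻¹) := by
      field_simp
    rw [h2, norm_mul, norm_mul, mul_comm ρ]
    exact mul_le_mul (mul_le_mul (le_max_right _ _) (le_max_right _ _) (norm_nonneg _)
      (by positivity)) h1 (norm_nonneg _) (by positivity)

theorem level (p : ℕ) [hp : Fact p.Prime] (ψ : Qb →+* PadicAlgCl p) (M₀ : GF) (Φ : Aut)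
    (a n₁ : ℕ) (hn₁ : 0 < n₁) (hM : ∀ x ∈ M₀, Φ x ∈ M₀)
    (h : ∀ x ∈ M₀, ‖ψ x‖ ≤ 1 → ‖ψ (Φ x - x ^ (p ^ a))‖ ^ n₁ ≤ (p : ℝ)⁻¹)
    (m N k : ℕ) (hk : n₁ + N ≤ k) (x : Qb) (hx : x ∈ M₀) :
    ‖(ψ x ^ (p ^ (a * m))) ^ (p ^ k) - ψ ((Φ ^ m) x) ^ (p ^ k)‖ ≤ ((p : ℝ) ^ N)⁻¹ *
      (max 1 ‖(ψ x ^ (p ^ (a * m))) ^ (p ^ k)‖ * max 1 ‖ψ ((Φ ^ m) x) ^ (p ^ k)‖) := by
  have hp2 := Pool.Agent.W402.RK.two_le_p (p := p)
  obtain ⟨ρ, hρ0, hρ⟩ : ∃ ρ : ℝ, 0 < ρ ∧ ρ ^ n₁ = (p : ℝ)⁻¹ := by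
    refine ⟨((p : ℝ)⁻¹) ^ ((n₁ : ℝ)⁻¹), by positivity, ?_⟩
    rw [← Real.rpow_natCast, ← Real.rpow_mul (by positivity), inv_mul_cancel₀ (by positivity),
      Real.rpow_one]
  have h1 := chord p ψ M₀ Φ a n₁ hn₁ hM h ρ hρ0 hρ m x hx
  obtain ⟨N', rfl⟩ := Nat.exists_eq_add_of_le hk
  have h2 := Pool.Agent.H54.RX.block_pow ({()} : Finset Unit) (ψ x ^ (p ^ (a * m)))
    (fun _ => ψ ((Φ ^ m) x)) n₁ n₁ Nat.lt_two_pow_self.le ρ hρ0 hρ (by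
      rw [Finset.prod_singleton, Finset.prod_singleton]; exact h1) (N + N')
  rw [Finset.prod_singleton, Finset.prod_singleton, ← add_assoc] at h2
  refine h2.trans ?_
  apply mul_le_mul_of_nonneg_right _ (by positivity)
  apply inv_anti₀ (by positivity)
  exact pow_le_pow_right₀ (by linarith) (by omega)

end Clm

open Clm in
theorem clm : S_CLM := by
  intro p _ ψ E M₀ σ Φ a n₁ ha han hEM hM₀ hE hρM h n u hu e N j h' y hy hj hh hje hhe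
  have hn₁ : 0 < n₁ := by omega
  have hMpow : ∀ (τ : Aut), (∀ x ∈ M₀, τ x ∈ M₀) → ∀ k : ℕ, ∀ x ∈ M₀, (τ ^ k) x ∈ M₀ := by
    intro τ hτ k
    induction k with
    | zero => intro x hx; simpa using hx
    | succ k ih =>
      intro x hx
      rw [pow_succ', AlgEquiv.mul_apply]
      exact hτ _ (ih x hx)
  have hEpow : ∀ k : ℕ, ∀ x ∈ E, (σ ^ k) x ∈ E ∧ (Φ ^ k) x = (σ ^ k) x := by
    intro k
    induction k with
    | zero => intro x hx; simpa using hx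
    | succ k ih =>
      intro x hx
      rw [pow_succ', pow_succ', AlgEquiv.mul_apply, AlgEquiv.mul_apply, (ih x hx).2]
      exact ⟨(hE _ (ih x hx).1).1, (hE _ (ih x hx).1).2.2⟩
  have hq : ∀ k : ℕ, (p ^ a) ^ k = p ^ (a * k) := fun k => (pow_mul _ _ _).symm
  obtain ⟨r, hr, hry⟩ := hy
  have hyM : ∀ i, y i ∈ M₀ := by
    intro i
    rw [← hry]
    exact hρM r hr _ (hu i)
  have hinvapp : ∀ (τ : Aut) (z : Qb), τ (τ⁻¹ z) = z := by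
    intro τ z
    rw [← AlgEquiv.mul_apply, mul_inv_cancel, AlgEquiv.one_apply]
  have hinvapp' : ∀ (τ : Aut) (z : Qb), τ⁻¹ (τ z) = z := by
    intro τ z
    rw [← AlgEquiv.mul_apply, inv_mul_cancel, AlgEquiv.one_apply]
  rcases le_total h' j with hjh | hjh
  · obtain ⟨m, rfl⟩ := Nat.exists_eq_add_of_le hjh
    obtain ⟨τ, hτ⟩ : ∃ τ : Aut, τ = (σ ^ (e - h'))⁻¹ * (Φ ^ m * σ ^ (e - (h' + m))) := ⟨_, rfl⟩
    have hτE : Fix E τ := by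
      intro x hx
      have h2 : (σ ^ m) ((σ ^ (e - (h' + m))) x) = (σ ^ (e - h')) x := by
        rw [← AlgEquiv.mul_apply, ← pow_add]
        congr 2
        omega
      rw [hτ, AlgEquiv.mul_apply, AlgEquiv.mul_apply,
        (hEpow m _ (hEpow (e - (h' + m)) x hx).1).2, h2]
      exact hinvapp' _ x
    refine ⟨fun i => τ (y i), ⟨τ * r, ?_, ?_⟩, fun i => ?_⟩
    · intro x hx
      rw [AlgEquiv.mul_apply, hr x hx, hτE x hx]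
    · funext i
      rw [AlgEquiv.mul_apply, ← hry]
    · have h1 := level p ψ M₀ Φ a n₁ hn₁ (fun x hx => (hM₀ x hx).2.2.1) h m N (a * h')
        (hh.trans (Nat.le_mul_of_pos_left h' ha)) ((σ ^ (e - (h' + m))) (y i))
        (hMpow σ (fun x hx => (hM₀ x hx).1) _ _ (hyM i))
      have e1 : ψ (ptN σ (p ^ a) e y (h' + m) i) =
          (ψ ((σ ^ (e - (h' + m))) (y i)) ^ (p ^ (a * m))) ^ (p ^ (a * h')) := by
        show ψ (((σ ^ (e - (h' + m))) (y i)) ^ ((p ^ a) ^ (h' + m))) = _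
        rw [map_pow, hq, ← pow_mul, ← pow_add]
        congr 2
        ring
      have e2 : ψ (ptN σ (p ^ a) e (fun i => τ (y i)) h' i) =
          ψ ((Φ ^ m) ((σ ^ (e - (h' + m))) (y i))) ^ (p ^ (a * h')) := by
        show ψ (((σ ^ (e - h')) (τ (y i))) ^ ((p ^ a) ^ h')) = _
        rw [map_pow, hq, hτ, AlgEquiv.mul_apply, AlgEquiv.mul_apply, hinvapp]
      rw [e1, e2]
      exact h1
  · obtain ⟨m, rfl⟩ := Nat.exists_eq_add_of_le hjh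
    obtain ⟨τ, hτ⟩ : ∃ τ : Aut, τ = (σ ^ (e - (j + m)))⁻¹ * ((Φ ^ m)⁻¹ * σ ^ (e - j)) := ⟨_, rfl⟩
    have hτE : Fix E τ := by
      intro x hx
      have h2 : e - j = m + (e - (j + m)) := by omega
      rw [hτ, AlgEquiv.mul_apply, AlgEquiv.mul_apply, h2, pow_add, AlgEquiv.mul_apply,
        ← (hEpow m _ (hEpow (e - (j + m)) x hx).1).2, hinvapp', hinvapp']
    have hinvM : ∀ x ∈ M₀, ((Φ ^ m)⁻¹ : Aut) x ∈ M₀ := by
      intro x hx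
      rw [← inv_pow]
      exact hMpow Φ⁻¹ (fun x hx => (hM₀ x hx).2.2.2) m x hx
    refine ⟨fun i => τ (y i), ⟨τ * r, ?_, ?_⟩, fun i => ?_⟩
    · intro x hx
      rw [AlgEquiv.mul_apply, hr x hx, hτE x hx]
    · funext i
      rw [AlgEquiv.mul_apply, ← hry]
    · have h1 := level p ψ M₀ Φ a n₁ hn₁ (fun x hx => (hM₀ x hx).2.2.1) h m N (a * j)
        (hj.trans (Nat.le_mul_of_pos_left j ha)) (((Φ ^ m)⁻¹ : Aut) ((σ ^ (e - j)) (y i)))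
        (hinvM _ (hMpow σ (fun x hx => (hM₀ x hx).1) _ _ (hyM i)))
      rw [hinvapp] at h1
      have e1 : ψ (ptN σ (p ^ a) e y j i) = ψ ((σ ^ (e - j)) (y i)) ^ (p ^ (a * j)) := by
        show ψ (((σ ^ (e - j)) (y i)) ^ ((p ^ a) ^ j)) = _
        rw [map_pow, hq]
      have e2 : ψ (ptN σ (p ^ a) e (fun i => τ (y i)) (j + m) i) =
          (ψ (((Φ ^ m)⁻¹ : Aut) ((σ ^ (e - j)) (y i))) ^ (p ^ (a * m))) ^ (p ^ (a * j)) := by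
        show ψ (((σ ^ (e - (j + m))) (τ (y i))) ^ ((p ^ a) ^ (j + m))) = _
        rw [map_pow, hq, hτ, AlgEquiv.mul_apply, AlgEquiv.mul_apply, hinvapp, ← pow_mul, ← pow_add]
        congr 2
        ring
      rw [e1, e2, norm_sub_rev, mul_comm (max 1 ‖ψ ((σ ^ (e - j)) (y i)) ^ (p ^ (a * j))‖)]
      exact h1

end Pool.Agent.H54.AV
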