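import Pool.Agent.H54.AV.Stm3

set_option autoImplicit false
set_option linter.unusedVariables false

/-! # AV-COMD (helper75): the division field is abelian over `K(μ_∞)` -/

namespace Pool.Agent.H54.AV

open Pool.Agent.W237.RK
open Pool.Agent.H58P (Qb ht)
open Pool.Agent.Q246.FD (divF)

theorem comd : S_COMD := by
  intro K Γ hΓ τ τ' hτ hτ' x hx
  have hK : ∀ x ∈ K, x ∈ kinf K := fun x hx => (le_sup_left : K ≤ kinf K) hx
  have hT : ∀ x : Qb, Tor x → x ∈ kinf K := fun x hx =>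
    (le_sup_right : IntermediateField.adjoin ℚ {x | Tor x} ≤ kinf K)
      (IntermediateField.subset_adjoin ℚ _ hx)
  have h : divF K Γ ≤ eqField (τ * τ') (τ' * τ) := by
    unfold divF
    rw [IntermediateField.adjoin_le_iff]
    rintro y (hy | ⟨n, hn, g, hg, hy⟩)
    · show τ (τ' y) = τ' (τ y)
      rw [hτ' y (hK y hy), hτ y (hK y hy), hτ' y (hK y hy)]
    · show τ (τ' y) = τ' (τ y)
      have hy0 : y ≠ 0 := by
        rintro rfl
        rw [zero_pow hn.ne'] at hy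
        exact Units.ne_zero g hy.symm
      have hg0 : (g : Qb) ≠ 0 := Units.ne_zero g
      have h1 : ∀ σ : Aut, Fix (kinf K) σ → ∃ ζ : Qb, Tor ζ ∧ σ y = ζ * y := by
        intro σ hσ
        refine ⟨σ y / y, ⟨n, hn, ?_⟩, by field_simp⟩
        rw [div_pow, ← map_pow, hy, hσ _ (hK _ (hΓ g hg)), div_self hg0]
      obtain ⟨ζ, hζ, h2⟩ := h1 τ hτ
      obtain ⟨ξ, hξ, h3⟩ := h1 τ' hτ'
      rw [h3, map_mul, h2, map_mul, h3, hτ ξ (hT ξ hξ), hτ' ζ (hT ζ hζ)]
      ring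
  exact h hx

end Pool.Agent.H54.AV
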