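import Mathlib
import Pool.Agent.H54.AV.Stm
import Pool.Agent.H54.G.W237.RK.Gal

set_option autoImplicit false

/-!
# An element of `K(Γ_div)` has a level (S_DIVL)
-/

namespace Pool.Agent.H54.AV

open Pool.Agent.W237.RK
open Pool.Agent.H58P (Qb ht)
open Pool.Agent.Q246.FD (divF)

theorem divl : S_DIVL := by
  intro K Γ α hα
  unfold divF at hα
  induction hα using IntermediateField.adjoin_induction with
  | mem x hx =>
    rcases hx with hx | ⟨n, hn, g, hg, hxg⟩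
    · exact ⟨1, one_pos, le_levInf K Γ 1 hx⟩
    · exact ⟨n, hn, rad_mem_levInf K Γ ⟨g, hg, hxg⟩⟩
  | algebraMap x => exact ⟨1, one_pos, (levInf K Γ 1).algebraMap_mem x⟩
  | add x y _ _ hx hy =>
    obtain ⟨R, hR, hx⟩ := hx
    obtain ⟨R', hR', hy⟩ := hy
    exact ⟨R * R', Nat.mul_pos hR hR', add_mem
      (levInf_mono K Γ (Nat.mul_pos hR hR') (Dvd.intro _ rfl) hx)
      (levInf_mono K Γ (Nat.mul_pos hR hR') (Dvd.intro_left _ rfl) hy)⟩
  | inv x _ hx =>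
    obtain ⟨R, hR, hx⟩ := hx
    exact ⟨R, hR, inv_mem hx⟩
  | mul x y _ _ hx hy =>
    obtain ⟨R, hR, hx⟩ := hx
    obtain ⟨R', hR', hy⟩ := hy
    exact ⟨R * R', Nat.mul_pos hR hR', mul_mem
      (levInf_mono K Γ (Nat.mul_pos hR hR') (Dvd.intro _ rfl) hx)
      (levInf_mono K Γ (Nat.mul_pos hR hR') (Dvd.intro_left _ rfl) hy)⟩

end Pool.Agent.H54.AV
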