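import Pool.Agent.H54.AV.Stm2

set_option autoImplicit false
set_option linter.unusedVariables false

/-! # AV-REDP: descent at all primes of `P` inside the division field (helper72) -/

namespace Pool.Agent.H54.AV

open Pool.Agent.W237.RK
open Pool.Agent.H58P (Qb ht)
open Pool.Agent.Q246.FD (divF)
open Pool.Agent.H54.RX (lowr descend3 S_CS3 S_KS3)

namespace RedpAux

lemma orb_self {F : GF} {x : Qb} (hx : x ∈ F) : orb F x = {x} := by
  ext y
  constructor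
  · rintro ⟨σ, hσ, rfl⟩
    exact hσ x hx
  · intro h
    rw [Set.mem_singleton_iff] at h
    rw [h]
    exact self_mem_orb F x

lemma good_self {K F : GF} {c : ℝ} {β : Qb} (hβ : β ≠ 0) (hF : β ∈ F)
    (h : ∀ σ : Aut, Fix K σ → ht (σ β / β) ≤ c) : Good K F 1 (lowr c 1 1) β where
  ne := hβ
  orb := by rw [orb_self hF, Set.ncard_singleton]
  tor := fun ρ hρ _ => hρ β hF
  ht := fun σ hσ => by
    have e : lowr c 1 1 = c := by
      unfold lowr
      simp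
    rw [e]
    exact h σ hσ

/-- the part of `R` which is prime to `P` -/
lemma split (P : Finset ℕ) (hP : ∀ p ∈ P, p.Prime) (R : ℕ) (hR : 0 < R) :
    ∃ R₁ M : ℕ, R = R₁ * M ∧ (∀ p ∈ P, ¬ p ∣ M) ∧ R₁ ∣ ∏ p ∈ P, p ^ R.factorization p := by
  classical
  induction P using Finset.induction_on with
  | empty =>
    exact ⟨1, R, (one_mul R).symm, by simp, by simp⟩
  | insert p P hpP ih =>
    obtain ⟨R₁, M, h1, h2, h3⟩ := ih (fun q hq => hP q (Finset.mem_insert_of_mem hq))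
    have hp : p.Prime := hP p (Finset.mem_insert_self p P)
    have hM : M ≠ 0 := by
      rintro rfl
      rw [mul_zero] at h1
      omega
    obtain ⟨n, M₂, hM₂, hMn⟩ := Nat.exists_eq_pow_mul_and_not_dvd hM p hp.ne_one
    refine ⟨R₁ * p ^ n, M₂, by rw [h1, hMn, mul_assoc], ?_, ?_⟩
    · intro q hq
      rw [Finset.mem_insert] at hq
      rcases hq with rfl | hq
      · exact hM₂
      · intro h
        exact h2 q hq (hMn ▸ h.mul_left _)
    · rw [Finset.prod_insert hpP, mul_comm]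
      apply Nat.mul_dvd_mul _ h3
      have h4 : p ^ n ∣ R := by
        rw [h1, hMn]
        exact (Nat.dvd_mul_right _ _).mul_left _
      exact pow_dvd_pow p ((hp.pow_dvd_iff_le_factorization hR.ne').mp h4)

end RedpAux

open RedpAux in
theorem redp : Pool.Agent.H54.RX.S_CS3 → Pool.Agent.H54.RX.S_KS3 → S_DIVL → S_REDP := by
  intro hCS hKS hDL K Γ P hKfd hΓfg hΓ hP
  classical
  -- constants for the primes of `P`
  have hdes : ∀ p : ℕ, ∃ (n₀ : ℕ) (c : ℝ), 0 < c ∧ 0 < n₀ ∧ (p ∈ P → ∀ D : ℕ, 0 < D →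
      ∀ (Finf : GF) (n M : ℕ)
      (β : Qb), n₀ ≤ n → ¬ p ∣ M → levInf K Γ (p ^ n * M) ≤ Finf → NormalOver K Finf →
      Good K Finf D (lowr c 1 D) β → Rigid Finf (levInf K Γ (p ^ n * M)) β →
      ∃ γ : Qb, γ ≠ 0 ∧ DivG Γ γ ∧ γ ∈ Finf ∧
        Rigid Finf (levInf K Γ (p ^ (n - 1) * M)) (β / γ)) := by
    intro p
    by_cases hpP : p ∈ P
    · obtain ⟨n₀, c, hc, hn, h⟩ := descend3 hCS hKS p (hP p hpP) K Γ 1 one_pos hKfd hΓfg hΓ
      exact ⟨n₀, c, hc, hn, fun _ => h⟩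
    · exact ⟨1, 1, one_pos, one_pos, fun h => absurd h hpP⟩
  choose n₀ Cp hCp hn₀ hstep using hdes
  set C₀ : ℝ := (1 + ∑ p ∈ P, (Cp p)⁻¹)⁻¹ with hC₀
  have hsum0 : 0 ≤ ∑ p ∈ P, (Cp p)⁻¹ := Finset.sum_nonneg fun p _ => (inv_pos.mpr (hCp p)).le
  have hC₀pos : 0 < C₀ := by
    rw [hC₀]
    positivity
  have hC₀P : ∀ p ∈ P, C₀ ≤ Cp p := by
    intro p hp
    have h1 : (Cp p)⁻¹ ≤ ∑ p ∈ P, (Cp p)⁻¹ :=
      Finset.single_le_sum (f := fun p => (Cp p)⁻¹) (fun p _ => (inv_pos.mpr (hCp p)).le) hp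
    rw [hC₀, ← inv_inv (Cp p)]
    apply inv_anti₀ (inv_pos.mpr (hCp p))
    linarith
  -- the bottom level
  set R₀ : ℕ := ∏ p ∈ P, p ^ n₀ p with hR₀
  have hR₀pos : 0 < R₀ := Finset.prod_pos fun p hp => pow_pos (hP p hp).pos _
  have hR₀s : Smooth P R₀ := by
    refine ⟨hR₀pos, fun q hq hqR => ?_⟩
    obtain ⟨p, hp, hqp⟩ := (Prime.dvd_finsetProd_iff hq.prime _).mp hqR
    have h1 := hq.dvd_of_dvd_pow hqp
    rw [(Nat.prime_dvd_prime_iff_eq hq (hP p hp)).mp h1]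
    exact hp
  refine ⟨R₀, C₀, hR₀s, hC₀pos, fun α hα hα0 hht => ?_⟩
  obtain ⟨Rt, hRt, hαR⟩ := hDL K Γ α hα
  set Finf := levInf K Γ Rt with hFinf
  have hnorm : NormalOver K Finf := normal_levInf K Γ hΓ _
  have hgood : Good K Finf 1 (lowr C₀ 1 1) α := good_self hα0 hαR hht
  -- a minimal level
  have hex : ∃ R : ℕ, (0 < R ∧ R ∣ Rt) ∧ ∃ γ : Qb, γ ≠ 0 ∧ DivG Γ γ ∧ γ ∈ Finf ∧
      α / γ ∈ levInf K Γ R :=
    ⟨Rt, ⟨hRt, dvd_rfl⟩, 1, one_ne_zero, divG_tor Γ tor_one, one_mem _, by rw [div_one]; exact hαR⟩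
  obtain ⟨⟨hRpos, hRdvd⟩, γ, hγ0, hγd, hγF, hγR⟩ := Nat.find_spec hex
  set R := Nat.find hex with hRdef
  have hval : ∀ p ∈ P, R.factorization p ≤ n₀ p := by
    intro p hpP
    by_contra hcon
    push Not at hcon
    have hp := hP p hpP
    obtain ⟨n, M, hM, hRn⟩ := Nat.exists_eq_pow_mul_and_not_dvd hRpos.ne' p hp.ne_one
    have hn : R.factorization p = n := by
      rw [hRn, Nat.factorization_mul (pow_ne_zero _ hp.ne_zero)
        (by rintro rfl; exact hM (dvd_zero p)), Finsupp.add_apply, hp.factorization_pow,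
        Finsupp.single_eq_same, Nat.factorization_eq_zero_of_not_dvd hM, Nat.add_zero]
    rw [hn] at hcon
    have hnpos : 0 < n := by omega
    have hMpos : 0 < M := Nat.pos_of_ne_zero (by rintro rfl; exact hM (dvd_zero p))
    have hle : levInf K Γ R ≤ Finf := levInf_mono K Γ hRt hRdvd
    have hg : Good K Finf 1 (lowr (Cp p) 1 1) (α / γ) := by
      refine (hgood.div hΓ hγ0 hγF hγd).mono ?_
      have e : ∀ c : ℝ, lowr c 1 1 = c := by
        intro c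
        unfold lowr
        simp
      rw [e, e]
      exact hC₀P p hpP
    obtain ⟨γ', hγ'0, hγ'd, hγ'F, hγ'r⟩ := hstep p hpP 1 one_pos Finf n M (α / γ) hcon.le hM
      (by rw [← hRn]; exact hle) hnorm hg (fun κ hκ => ⟨1, fix_one _, hκ _ (by rw [← hRn]; exact hγR)⟩)
    have hlt' : p ^ (n - 1) * M < R := by
      rw [hRn]
      apply Nat.mul_lt_mul_of_pos_right _ hMpos
      exact Nat.pow_lt_pow_right hp.one_lt (by omega)
    apply Nat.find_min hex hlt'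
    refine ⟨⟨Nat.mul_pos (pow_pos hp.pos _) hMpos, ?_⟩, γ * γ', mul_ne_zero hγ0 hγ'0,
      hγd.mul hγ'd, mul_mem hγF hγ'F, ?_⟩
    · refine dvd_trans ?_ hRdvd
      rw [hRn]
      exact Nat.mul_dvd_mul_right (pow_dvd_pow p (by omega)) M
    · rw [← div_div]
      apply mem_of_fix
      intro κ hκ
      obtain ⟨ρ, hρ, h5⟩ := hγ'r κ hκ
      rw [h5]
      exact hρ _ (div_mem (hle hγR) hγ'F)
  obtain ⟨R₁, M, h1, h2, h3⟩ := split P hP R hRpos
  have hMpos : 0 < M := Nat.pos_of_ne_zero (by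
    rintro rfl
    rw [mul_zero] at h1
    omega)
  have h4 : R₁ ∣ R₀ := h3.trans (Finset.prod_dvd_prod_of_dvd _ _ fun p hp =>
    pow_dvd_pow p (hval p hp))
  refine ⟨γ, M, hγ0, hγd, hMpos, h2, ?_⟩
  refine levInf_mono K Γ (Nat.mul_pos hR₀pos hMpos) ?_ hγR
  rw [h1]
  exact Nat.mul_dvd_mul_right h4 M

end Pool.Agent.H54.AV
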