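import Mathlib
import Pool.Agent.H54.AV.Stm4
import Pool.Agent.H54.AV.Redp

set_option autoImplicit false
set_option linter.unusedVariables false

/-! # AV-DSCU: descent at all primes of `P`, uniformly in the degree over the division field
(helper44, adapted from `Dsc.lean` of helper67) -/

namespace Pool.Agent.H54.AV

open Pool.Agent.W237.RK
open Pool.Agent.H58P (Qb ht)
open Pool.Agent.Q246.FD (divF le_divF)
open Pool.Agent.H54.RX (lowr lowr_mono lowr_pos descend3 S_CS3 S_KS3)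

namespace DscuAux

lemma levInf_le_divF (K : GF) (Γ : Subgroup Qbˣ) {R : ℕ} (hR : 0 < R) :
    levInf K Γ R ≤ divF K Γ := by
  refine levInf_le (le_divF K Γ) (fun x hx => ?_) (fun y hy => ?_)
  · exact IntermediateField.subset_adjoin _ _ (Or.inr (divG_tor Γ hx))
  · exact IntermediateField.subset_adjoin _ _ (Or.inr ⟨R, hR, hy⟩)

lemma exists_levInf_finite (hDL : S_DIVL) (K : GF) (Γ : Subgroup Qbˣ) (s : Set Qb)
    (hs : s.Finite) (h : ∀ x ∈ s, x ∈ divF K Γ) :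
    ∃ R : ℕ, 0 < R ∧ ∀ x ∈ s, x ∈ levInf K Γ R := by
  induction s, hs using Set.Finite.induction_on with
  | empty => exact ⟨1, one_pos, fun x hx => absurd hx (Set.notMem_empty x)⟩
  | @insert a s _ _ ih =>
    obtain ⟨N, hN, h1⟩ := ih fun x hx => h x (Set.mem_insert_of_mem _ hx)
    obtain ⟨N', hN', h2⟩ := hDL K Γ a (h a (Set.mem_insert _ _))
    refine ⟨N * N', Nat.mul_pos hN hN', ?_⟩
    intro x hx
    rcases Set.mem_insert_iff.mp hx with rfl | hx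
    · exact levInf_mono K Γ (Nat.mul_pos hN hN') (Nat.dvd_mul_left N' N) h2
    · exact levInf_mono K Γ (Nat.mul_pos hN hN') (Nat.dvd_mul_right N N') (h1 x hx)

lemma exists_rigid_div (hDL : S_DIVL) (K : GF) (Γ : Subgroup Qbˣ) (β : Qb) :
    ∃ R : ℕ, 0 < R ∧ Rigid (divF K Γ) (levInf K Γ R) β := by
  set F := divF K Γ with hF
  obtain ⟨R, hR, h1⟩ := exists_levInf_finite hDL K Γ
    (Set.range fun j : Fin ((minpoly F β).natDegree + 1) => ((minpoly F β).coeff j : Qb))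
    (Set.finite_range _) (by rintro _ ⟨j, rfl⟩; exact ((minpoly F β).coeff j).2)
  refine ⟨R, hR, rigid_of_coeff F F _ β ?_ (fun κ hκ => ⟨κ, hκ, rfl⟩)⟩
  intro j
  by_cases hj : j < (minpoly F β).natDegree + 1
  · exact h1 _ ⟨⟨j, hj⟩, rfl⟩
  · rw [Polynomial.coeff_eq_zero_of_natDegree_lt (by omega)]
    simp

end DscuAux

open RedpAux DscuAux in
theorem dscu : Pool.Agent.H54.RX.S_CS3 → Pool.Agent.H54.RX.S_KS3 → S_DIVL → S_DSCU := by
  intro hCS hKS hDL K Γ P hKfd hΓfg hΓ hP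
  classical
  -- constants for the primes of `P`
  have hdes : ∀ p : ℕ, ∃ (n₀ : ℕ) (c : ℝ), 0 < c ∧ 0 < n₀ ∧ (p ∈ P → ∀ D : ℕ, 0 < D →
      ∀ (Finf : GF) (n M : ℕ)
      (β : Qb), n₀ ≤ n → ¬ p ∣ M → levInf K Γ (p ^ n * M) ≤ Finf → NormalOver K Finf →
      Good K Finf D (lowr c 1 D) β → Rigid Finf (levInf K Γ (p ^ n * M)) β →
      ∃ γ : Qb, γ ≠ 0 ∧ DivG Γ γ ∧ γ ∈ Finf ∧
        Rigid Finf (levInf K Γ (p ^ (n - 1) * M)) (β / γ)) := by
    intro p
    by_cases hpP : p ∈ P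
    · obtain ⟨n₀, c, hc, hn, h⟩ := descend3 hCS hKS p (hP p hpP) K Γ 1 one_pos hKfd hΓfg hΓ
      exact ⟨n₀, c, hc, hn, fun _ => h⟩
    · exact ⟨1, 1, one_pos, one_pos, fun h => absurd h hpP⟩
  choose n₀ Cp hCp hn₀ hstep using hdes
  set C₀ : ℝ := (1 + ∑ p ∈ P, (Cp p)⁻¹)⁻¹ with hC₀
  have hsum0 : 0 ≤ ∑ p ∈ P, (Cp p)⁻¹ := Finset.sum_nonneg fun p _ => (inv_pos.mpr (hCp p)).le
  have hC₀pos : 0 < C₀ := by
    rw [hC₀]
    positivity
  have hC₀P : ∀ p ∈ P, C₀ ≤ Cp p := by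
    intro p hp
    have h1 : (Cp p)⁻¹ ≤ ∑ p ∈ P, (Cp p)⁻¹ :=
      Finset.single_le_sum (f := fun p => (Cp p)⁻¹) (fun p _ => (inv_pos.mpr (hCp p)).le) hp
    rw [hC₀, ← inv_inv (Cp p)]
    apply inv_anti₀ (inv_pos.mpr (hCp p))
    linarith
  -- the bottom level
  set R₀ : ℕ := ∏ p ∈ P, p ^ n₀ p with hR₀
  have hR₀pos : 0 < R₀ := Finset.prod_pos fun p hp => pow_pos (hP p hp).pos _
  have hR₀s : Smooth P R₀ := by
    refine ⟨hR₀pos, fun q hq hqR => ?_⟩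
    obtain ⟨p, hp, hqp⟩ := (Prime.dvd_finsetProd_iff hq.prime _).mp hqR
    have h1 := hq.dvd_of_dvd_pow hqp
    rw [(Nat.prime_dvd_prime_iff_eq hq (hP p hp)).mp h1]
    exact hp
  refine ⟨R₀, C₀, hR₀s, hC₀pos, fun D α hα0 hαD htor hht => ?_⟩
  have hD0 : 0 < D := (orb_ncard_pos _ _).trans_le hαD
  have hlow : C₀ / (D : ℝ) ^ 2 = lowr C₀ 1 D := by
    unfold lowr
    norm_num
  rw [hlow] at hht
  set Finf := divF K Γ with hFinf
  have hnorm : NormalOver K Finf := normal_divF K Γ hΓ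
  have hgood : Good K Finf D (lowr C₀ 1 D) α :=
    { ne := hα0
      orb := hαD
      tor := htor
      ht := hht }
  -- a minimal level
  have hex : ∃ R : ℕ, 0 < R ∧ ∃ γ : Qb, γ ≠ 0 ∧ DivG Γ γ ∧ γ ∈ Finf ∧
      Rigid Finf (levInf K Γ R) (α / γ) := by
    obtain ⟨R, hR, hr⟩ := exists_rigid_div hDL K Γ α
    exact ⟨R, hR, 1, one_ne_zero, divG_tor Γ tor_one, one_mem _, by rw [div_one]; exact hr⟩
  obtain ⟨hRpos, γ, hγ0, hγd, hγF, hγr⟩ := Nat.find_spec hex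
  set R := Nat.find hex with hRdef
  have hval : ∀ p ∈ P, R.factorization p ≤ n₀ p := by
    intro p hpP
    by_contra hcon
    push Not at hcon
    have hp := hP p hpP
    obtain ⟨n, M, hM, hRn⟩ := Nat.exists_eq_pow_mul_and_not_dvd hRpos.ne' p hp.ne_one
    have hn : R.factorization p = n := by
      rw [hRn, Nat.factorization_mul (pow_ne_zero _ hp.ne_zero)
        (by rintro rfl; exact hM (dvd_zero p)), Finsupp.add_apply, hp.factorization_pow,
        Finsupp.single_eq_same, Nat.factorization_eq_zero_of_not_dvd hM, Nat.add_zero]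
    rw [hn] at hcon
    have hnpos : 0 < n := by omega
    have hMpos : 0 < M := Nat.pos_of_ne_zero (by rintro rfl; exact hM (dvd_zero p))
    have hle : levInf K Γ (p ^ n * M) ≤ Finf :=
      levInf_le_divF K Γ (Nat.mul_pos (pow_pos hp.pos n) hMpos)
    have hg : Good K Finf D (lowr (Cp p) 1 D) (α / γ) :=
      (hgood.div hΓ hγ0 hγF hγd).mono (lowr_mono (hC₀P p hpP) D)
    obtain ⟨γ', hγ'0, hγ'd, hγ'F, hγ'r⟩ := hstep p hpP D hD0 Finf n M (α / γ)
      hcon.le hM hle hnorm hg (by rw [← hRn]; exact hγr)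
    have hlt' : p ^ (n - 1) * M < R := by
      rw [hRn]
      apply Nat.mul_lt_mul_of_pos_right _ hMpos
      exact Nat.pow_lt_pow_right hp.one_lt (by omega)
    apply Nat.find_min hex hlt'
    refine ⟨Nat.mul_pos (pow_pos hp.pos _) hMpos, γ * γ', mul_ne_zero hγ0 hγ'0,
      hγd.mul hγ'd, mul_mem hγF hγ'F, ?_⟩
    rw [← div_div]
    exact hγ'r
  obtain ⟨R₁, M, h1, h2, h3⟩ := split P hP R hRpos
  have hMpos : 0 < M := Nat.pos_of_ne_zero (by
    rintro rfl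
    rw [mul_zero] at h1
    omega)
  have h4 : R₁ ∣ R₀ := h3.trans (Finset.prod_dvd_prod_of_dvd _ _ fun p hp =>
    pow_dvd_pow p (hval p hp))
  refine ⟨γ, M, hγ0, hγd, hMpos, h2, ?_⟩
  refine rigid_mono (levInf_mono K Γ (Nat.mul_pos hR₀pos hMpos) ?_) hγr
  rw [h1]
  exact Nat.mul_dvd_mul_right h4 M

end Pool.Agent.H54.AV
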