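import Mathlib
import Pool.Agent.H54.AV.Stm2

set_option autoImplicit false
set_option linter.unusedVariables false

/-!
# AV-FLDB: the two descriptions of the top level
-/

namespace Pool.Agent.H54.AV

open Pool.Agent.W237.RK
open Pool.Agent.H58P (Qb ht)

theorem fldb : S_FLDB := by
  intro K Γ A R₀ M M' M'' hΓ hA hR₀ hM hM'' hcop hdvd
  have hM' : 0 < M' := Nat.pos_of_dvd_of_pos hdvd hM''
  constructor
  · apply lev_le
    · exact (le_lev K Γ A R₀).trans (le_lev _ _ _ _)
    · intro x hx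
      have hx0 : x ≠ 0 := by
        rintro rfl
        rw [zero_pow (Nat.mul_pos hA hM').ne'] at hx
        exact zero_ne_one hx
      obtain ⟨u, v, huv⟩ : ∃ u v : ℤ, (A : ℤ) * u + (M' : ℤ) * v = 1 := by
        refine ⟨Nat.gcdA A M', Nat.gcdB A M', ?_⟩
        rw [← Nat.gcd_eq_gcd_ab, hcop.gcd_eq_one]
        rfl
      have e : x = (x ^ A) ^ u * (x ^ M') ^ v := by
        rw [← zpow_natCast, ← zpow_natCast, ← zpow_mul, ← zpow_mul, ← zpow_add₀ hx0, huv, zpow_one]
      have h1 : x ^ A ∈ lev (lev K Γ A R₀) (radS Γ R₀) M'' M := by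
        apply root_mem_lev
        obtain ⟨k, rfl⟩ := hdvd
        rw [← pow_mul, ← mul_assoc, pow_mul, hx, one_pow]
      have h2 : x ^ M' ∈ lev (lev K Γ A R₀) (radS Γ R₀) M'' M := by
        apply le_lev
        apply root_mem_lev
        rw [← pow_mul, mul_comm, hx]
      rw [e]
      exact mul_mem (zpow_mem h1 _) (zpow_mem h2 _)
    · rintro y hy
      have hy0 : y ≠ 0 := rad_ne_zero (Nat.mul_pos hR₀ hM) hy
      obtain ⟨g, hg, hy⟩ := hy
      apply rad_mem_lev
      refine ⟨Units.mk0 (y ^ M) (pow_ne_zero _ hy0), ?_, rfl⟩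
      rw [radS_iff]
      refine ⟨g, hg, ?_⟩
      rw [Units.val_mk0, ← pow_mul, mul_comm, hy]
  · apply lev_le
    · exact lev_mono K Γ (dvd_mul_right A M'') (Nat.mul_pos hR₀ hM) (dvd_mul_right R₀ M)
    · intro x hx
      apply root_mem_lev
      rw [mul_comm, pow_mul, hx, one_pow]
    · rintro y ⟨t, ht, hy⟩
      rw [radS_iff] at ht
      obtain ⟨g, hg, h⟩ := ht
      apply rad_mem_lev
      refine ⟨g, hg, ?_⟩
      rw [mul_comm, pow_mul, hy, h]

end Pool.Agent.H54.AV
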