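import Pool.Agent.H54.AV.Stm
import Pool.Agent.H54.G.W327.RK.FROB
import Pool.Agent.H54.G.W237.RK.All

/-!
# Frobenius elements on fields of radicals of `p`-adic units
-/

set_option autoImplicit false

open Polynomial Pool.Agent.W237.RK Pool.Agent.W327.RK
open Pool.Agent.H58P (Qb ht)

namespace Pool.Agent.H54.AV

section
variable {p : ℕ} [Fact p.Prime]

/-- the level is in the preimage of a local field -/
theorem mem_lev_comap {φ : Qb →+* PadicAlgCl p} {K : GF} {Γ : Subgroup Qbˣ} {F : LF p} {N M : ℕ}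
    (hK : ∀ x ∈ K, φ x ∈ F) (hN : ∀ z : Om p, z ^ N = 1 → z ∈ F)
    (hM : ∀ (y : Qb) (g : Qbˣ), g ∈ Γ → y ^ M = (g : Qb) → φ y ∈ F) :
    ∀ x ∈ lev K Γ N M, φ x ∈ F := by
  have h1 : lev K Γ N M ≤ comapF φ F := by
    refine sup_le hK (IntermediateField.adjoin_le_iff.2 ?_)
    rintro x (hx | ⟨g, hg, hx⟩)
    · show φ x ∈ F
      refine hN _ ?_
      rw [← map_pow, show x ^ N = 1 from hx, map_one]
    · exact hM x g hg hx
  exact fun x hx => h1 hx

/-- an element close to `1` whose `M`-th power is in `L` -/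
theorem mem_of_pow_mem {L : LF p} {w : Om p} {M : ℕ} (hM : ¬ p ∣ M) (hw0 : w ≠ 0)
    (hw : w ^ M ∈ L) (hw1 : ‖w - 1‖ < 1) : w ∈ L := by
  have hM0 : M ≠ 0 := by
    rintro rfl
    exact hM (dvd_zero p)
  have hwn : ‖w‖ = 1 := by
    have h1 : ‖w‖ ≤ 1 := by
      have h2 := um_add (w - 1) 1 hw1.le (by rw [norm_one])
      rwa [sub_add_cancel] at h2
    refine le_antisymm h1 (not_lt.1 fun h2 => ?_)
    have h3 := um_sub_lt w (w - 1) h2 hw1
    rw [sub_sub_cancel, norm_one] at h3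
    exact lt_irrefl _ h3
  refine mem_of_fixed L w fun τ hτ => ?_
  by_contra hne
  set u : Om p := τ w / w with hu
  have hu1 : u ^ M = 1 := by
    rw [hu, div_pow, ← map_pow, hτ _ hw, div_self (pow_ne_zero _ hw0)]
  have hune : u ≠ 1 := fun h => hne (by
    rw [hu, div_eq_one_iff_eq hw0] at h
    exact h)
  have h1 : ‖u - 1‖ = 1 := norm_sub_root hM hu1 (one_pow M) hune
  have h2 : ‖τ w - w‖ < 1 := by
    have h3 : τ w - w = τ (w - 1) - (w - 1) := by rw [map_sub, map_one]; ring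
    rw [h3]
    exact um_sub_lt _ _ (by rw [norm_aut]; exact hw1) hw1
  have h4 : u - 1 = (τ w - w) / w := by
    rw [hu, sub_div, div_self hw0]
  rw [h4, norm_div, hwn, div_one] at h1
  exact (h1 ▸ h2).false

end

/-- Frobenius elements on fields of radicals -/
theorem frobg : S_RES → S_STRUCT → S_REST → S_FROBG := by
  classical
  intro hR hS hRest p _ φ K Γ hK hΓK hΓ
  have hp : p.Prime := Fact.out
  have hp1 : (1 : ℝ) < p := by exact_mod_cast hp.one_lt
  have hp0 : (0 : ℝ) < p := zero_lt_one.trans hp1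
  obtain ⟨T, hTK, hT⟩ := exists_finset φ K hK
  set k0 : LF p := IntermediateField.adjoin ℚ_[p] (T : Set (Om p)) with hk0
  set k : LF p := kur p ⊔ k0 with hk
  have hfin : FinOver (kur p) k := ⟨T, rfl⟩
  obtain ⟨⟨π, hπ⟩, -, h3⟩ := hS p k hfin
  obtain ⟨-, h4⟩ := h3 (kur p) le_rfl le_sup_left
  have h5 := h4 (p : Om p) π (unif_kur l2) hπ
  set N := (lorb (kur p) π).ncard with hN
  have hpn : ‖(p : Om p)‖ = (p : ℝ)⁻¹ := by
    have := norm_p_pow (p := p) 1
    rwa [pow_one, pow_one] at this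
  rw [hpn] at h5
  obtain ⟨M₀, hM₀, hM₀mem, hM₀max⟩ := exists_order T
  refine ⟨max N (nres T), fun M' R hM' hRp => ?_⟩
  have hR0 : R ≠ 0 := by
    rintro rfl
    exact hRp (dvd_zero p)
  have hMM : ¬ p ∣ M' * (R * M₀) := by
    intro h
    rcases hp.dvd_mul.1 h with h | h
    · exact hM' h
    · rcases hp.dvd_mul.1 h with h | h
      · exact hRp h
      · exact hM₀ h
  set M₁ := M' * (R * M₀) with hM₁def
  have hM₁0 : M₁ ≠ 0 := by
    intro h
    rw [h] at hMM
    exact hMM (dvd_zero p)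
  have : NeZero M₁ := ⟨hM₁0⟩
  -- the field `L'`
  obtain ⟨ζ', hζ'⟩ := HasEnoughRootsOfUnity.exists_primitiveRoot (Om p) M₁
  obtain ⟨M, hM, hMmem, hMmax⟩ := exists_order (insert ζ' T)
  set L : LF p := IntermediateField.adjoin ℚ_[p] ((insert ζ' T : Finset (Om p)) : Set (Om p))
    with hL
  have hM0 : M ≠ 0 := by
    rintro rfl
    exact hM (dvd_zero p)
  have : NeZero M := ⟨hM0⟩
  have hk0L : k0 ≤ L := by
    rw [hk0, hL]
    refine IntermediateField.adjoin.mono _ _ _ ?_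
    intro x hx
    exact Finset.mem_coe.2 (Finset.mem_insert_of_mem (Finset.mem_coe.1 hx))
  have hζ'L : ζ' ∈ L := IntermediateField.subset_adjoin _ _
    (Finset.mem_coe.2 (Finset.mem_insert_self _ _))
  have hM₁M : M₁ ∣ M := hζ'.dvd_of_pow_eq_one _ (hMmax M₁ ζ' hMM hζ'.pow_eq_one hζ'L)
  have hM'M : M' ∣ M := (Dvd.intro _ rfl).trans hM₁M
  obtain ⟨ζ, hζ⟩ := HasEnoughRootsOfUnity.exists_primitiveRoot (Om p) M
  obtain ⟨Φ, hΦ⟩ := exists_frob hM hζ.pow_eq_one
  obtain ⟨a, ha0, ha, haT⟩ := pigeon T Φ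
  have hΦζ : ∀ z : Om p, z ^ M = 1 → (Φ ^ a) z = z ^ (p ^ a) := by
    intro z hz
    obtain ⟨i, -, rfl⟩ := hζ.eq_pow_of_pow_eq_one hz
    rw [map_pow, frob_iter hΦ, ← pow_mul, ← pow_mul, mul_comm]
  have hΦk0 : LFix k0 (Φ ^ a) := by
    have h6 : k0 ≤ fixF (Φ ^ a) := IntermediateField.adjoin_le_iff.2 haT
    exact h6
  obtain ⟨σ, hσ⟩ := hRest p φ (Φ ^ a)
  -- the radicals
  have hrad : ∀ (y : Qb) (g : Qbˣ), g ∈ Γ → y ^ R = (g : Qb) → φ y ∈ L := by
    intro y g hg hy
    have hyR : (φ y) ^ R = φ (g : Qb) := by rw [← map_pow, hy]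
    have hyn : ‖φ y‖ = 1 := by
      have h6 : ‖φ y‖ ^ R = 1 := by rw [← norm_pow, hyR, hΓ g hg]
      exact (pow_eq_one_iff_of_nonneg (norm_nonneg _) hR0).1 h6
    obtain ⟨c, hc, hyc⟩ := hR p (φ y) hyn.le
    have hcn1 : ‖c‖ ≤ 1 := by
      have h7 := um_sub (φ y) (φ y - c) hyn.le hyc.le
      rwa [sub_sub_cancel] at h7
    rcases hc with rfl | ⟨N', hN', hcN'⟩
    · rw [sub_zero, hyn] at hyc
      exact absurd hyc (lt_irrefl _)
    have hN'0 : N' ≠ 0 := by
      rintro rfl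
      exact hN' (dvd_zero p)
    have hcn : ‖c‖ = 1 := norm_root hN'0 hcN'
    have hc0 : c ≠ 0 := by
      rintro rfl
      rw [norm_zero] at hcn
      exact zero_ne_one hcn
    have hcR : c ^ R ∈ k0 := by
      refine mem_of_close (x := φ (g : Qb)) (hTK _ (hΓK g hg)) hN'
        (by rw [← pow_mul, mul_comm, pow_mul, hcN', one_pow]) ?_
      rw [← hyR]
      exact (pow_sub_pow_norm _ _ _ hyn.le hcn1).trans_lt hyc
    have hcRM : (c ^ R) ^ M₀ = 1 := hM₀max N' (c ^ R) hN'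
      (by rw [← pow_mul, mul_comm, pow_mul, hcN', one_pow]) hcR
    have hcL : c ∈ L := by
      have h8 : c ^ M₁ = 1 := by
        rw [hM₁def, mul_comm M', pow_mul, pow_mul, hcRM, one_pow]
      obtain ⟨i, -, rfl⟩ := hζ'.eq_pow_of_pow_eq_one h8
      exact pow_mem hζ'L i
    have hw : φ y / c ∈ L := by
      have hy0 : φ y ≠ 0 := by
        intro h
        rw [h, norm_zero] at hyn
        exact zero_ne_one hyn
      refine mem_of_pow_mem hRp (div_ne_zero hy0 hc0) ?_ ?_
      · rw [div_pow, hyR]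
        exact div_mem (hk0L (hTK _ (hΓK g hg))) (pow_mem hcL _)
      · have h9 : φ y / c - 1 = (φ y - c) / c := by rw [sub_div, div_self hc0]
        rw [h9, norm_div, hcn, div_one]
        exact hyc
    have h10 := mul_mem hw hcL
    rwa [div_mul_cancel₀ _ hc0] at h10
  refine ⟨M, σ, a, hM, hM'M, ?_, ha0, le_max_of_le_right ha, ?_⟩
  · intro x hx
    refine φ.injective ?_
    rw [hσ]
    exact hΦk0 _ (hTK x hx)
  · intro x hx hx1
    have hxL : φ x ∈ L := mem_lev_comap (fun y hy => hk0L (hTK y hy)) hMmem hrad x hx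
    obtain ⟨c, hc, hxc⟩ := hR p (φ x) hx1
    have hc' : (Φ ^ a) c = c ^ (p ^ a) := by
      rcases hc with rfl | ⟨N', hN', hcN'⟩
      · rw [map_zero, zero_pow (pow_ne_zero _ hp.ne_zero)]
      · exact hΦζ c (hMmax N' c hN' hcN' (mem_of_close hxL hN' hcN' hxc))
    set z : Om p := φ (σ x - x ^ (p ^ a)) with hz
    have hzeq : z = (Φ ^ a) (φ x) - (φ x) ^ (p ^ a) := by
      rw [hz, map_sub, hσ, map_pow]
    have hcn : ‖c‖ ≤ 1 := by
      have h7 := um_sub (φ x) (φ x - c) hx1 hxc.le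
      rwa [sub_sub_cancel] at h7
    have hz1 : ‖z‖ < 1 := by
      have h8 : z = (Φ ^ a) (φ x - c) - ((φ x) ^ (p ^ a) - c ^ (p ^ a)) := by
        rw [hzeq, map_sub, hc']
        ring
      rw [h8]
      refine um_sub_lt _ _ ?_ ?_
      · rw [norm_aut]
        exact hxc
      · exact (pow_sub_pow_norm _ _ _ hx1 hcn).trans_lt hxc
    have hzk : z ∈ k := by
      have hLk : L ≤ k := by
        rw [hL, IntermediateField.adjoin_le_iff]
        intro y hy
        rw [Finset.mem_coe, Finset.mem_insert] at hy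
        rcases hy with rfl | hy
        · exact (le_sup_left : kur p ≤ k)
            (IntermediateField.subset_adjoin _ _ ⟨M₁, hMM, hζ'.pow_eq_one⟩)
        · exact (le_sup_right : k0 ≤ k) (IntermediateField.subset_adjoin _ _
            (Finset.mem_coe.2 hy))
      rw [hzeq]
      refine sub_mem ?_ (pow_mem (hLk hxL) _)
      have h9 : L ≤ IntermediateField.comap (Φ ^ a).toAlgHom k := by
        rw [hL, IntermediateField.adjoin_le_iff]
        intro y hy
        rw [Finset.mem_coe, Finset.mem_insert] at hy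
        show (Φ ^ a) y ∈ k
        rcases hy with rfl | hy
        · have h10 : y ^ M = 1 := hMmax M₁ y hMM hζ'.pow_eq_one hζ'L
          rw [hΦζ y h10]
          exact pow_mem (hLk hζ'L) _
        · rw [haT y hy]
          exact (le_sup_right : k0 ≤ k) (IntermediateField.subset_adjoin _ _
            (Finset.mem_coe.2 hy))
      exact h9 hxL
    have hN0 : 0 < N := (Set.ncard_pos (Pool.Agent.W327.RK.lorb_finite _ _)).2
      ⟨π, Pool.Agent.W327.RK.self_mem_lorb _ _⟩
    have hzN : ‖z‖ ^ N ≤ (p : ℝ)⁻¹ := by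
      by_cases hz0 : z = 0
      · rw [hz0, norm_zero, zero_pow hN0.ne']
        exact (inv_pos.2 hp0).le
      · obtain ⟨-, hπ0, hπ1, hπval⟩ := hπ
        obtain ⟨w, hw⟩ := hπval z hzk hz0
        have hπpos : 0 < ‖π‖ := norm_pos_iff.2 hπ0
        have hw1 : 0 < w := by
          by_contra hw0
          rw [not_lt] at hw0
          have h11 : ‖π‖ ^ (0 : ℤ) ≤ ‖π‖ ^ w :=
            zpow_le_zpow_right_of_le_one₀ hπpos hπ1.le hw0
          rw [zpow_zero, ← hw] at h11
          exact absurd hz1 (not_lt.2 h11)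
        have h12 : ‖z‖ ≤ ‖π‖ := by
          rw [hw]
          calc ‖π‖ ^ w ≤ ‖π‖ ^ (1 : ℤ) :=
                zpow_le_zpow_right_of_le_one₀ hπpos hπ1.le (by omega)
            _ = ‖π‖ := zpow_one _
        rw [← h5]
        exact pow_le_pow_left₀ (norm_nonneg _) h12 _
    calc ‖z‖ ^ (max N (nres T)) ≤ ‖z‖ ^ N :=
          pow_le_pow_of_le_one (norm_nonneg _) hz1.le (le_max_left _ _)
      _ ≤ _ := hzN

/-- Frobenius elements on fields of radicals, without hypotheses -/
theorem frobg' : S_FROBG :=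
  frobg Pool.Agent.W237.RK.res Pool.Agent.W237.RK.struct Pool.Agent.W237.RK.rest

end Pool.Agent.H54.AV
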