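import Pool.Agent.H54.AV.Stm

set_option autoImplicit false
set_option linter.unusedVariables false

/-! # AV-GLU: Galois theory of a compositum -/

namespace Pool.Agent.H54.AV

open Polynomial
open Pool.Agent.W237.RK
open Pool.Agent.H58P (Qb ht)

theorem glu : S_GLU := by
  intro F M₀ hfd hst ρ hρ
  obtain ⟨α, hα⟩ := Field.exists_primitive_element ℚ M₀
  obtain ⟨y, hy⟩ : ∃ y : Qb, y = (α : Qb) := ⟨_, rfl⟩
  have hyM : y ∈ M₀ := by rw [hy]; exact α.2
  have hc : ∀ j : ℕ, ((minpoly F y).coeff j : Qb) ∈ M₀ := by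
    intro j
    apply mem_of_fix
    intro σ hσ
    have h2 : ((minpoly F y).map (algebraMap F Qb)).map (σ : Qb →+* Qb) =
        (minpoly F y).map (algebraMap F Qb) := by
      rw [minpoly_map_eq_oprod F y, Polynomial.map_prod]
      refine Finset.prod_congr rfl fun z hz => ?_
      rw [Polynomial.map_sub, map_X, map_C]
      congr 2
      obtain ⟨τ, hτ, rfl⟩ := (Set.Finite.mem_toFinset _).1 hz
      exact hσ _ (hst τ hτ y hyM)
    have h3 := congrArg (fun f => f.coeff j) h2
    simp only [coeff_map] at h3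
    exact h3
  have h2 : ∀ j : ℕ, ρ ((minpoly F y).coeff j : Qb) = ((minpoly F y).coeff j : Qb) := fun j =>
    hρ _ ⟨hc j, ((minpoly F y).coeff j).2⟩
  have h3 : aeval (ρ y) (minpoly F y) = 0 := by
    have h4 : ρ (aeval y (minpoly F y)) = aeval (ρ y) (minpoly F y) := by
      rw [aeval_eq_sum_range, aeval_eq_sum_range, map_sum]
      apply Finset.sum_congr rfl
      intro j _
      rw [Algebra.smul_def, Algebra.smul_def, map_mul, map_pow]
      congr 1
      exact h2 j
    rw [← h4, minpoly.aeval, map_zero]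
  obtain ⟨ρ', hρ', h5⟩ := exists_fix_of_root F y (ρ y) h3
  refine ⟨ρ', hρ', ?_⟩
  have h8 : ∀ z : M₀, ρ (z : Qb) = ρ' (z : Qb) := by
    intro z
    have hz : z ∈ IntermediateField.adjoin ℚ {α} := by rw [hα]; trivial
    induction hz using IntermediateField.adjoin_induction with
    | mem z hz =>
      have hz' : z = α := hz
      subst hz'
      rw [← hy]
      exact h5.symm
    | algebraMap r =>
      have h9 : ((algebraMap ℚ M₀ r : M₀) : Qb) = algebraMap ℚ Qb r := by
        rw [eq_ratCast, eq_ratCast]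
        simp
      rw [h9, AlgEquiv.commutes, AlgEquiv.commutes]
    | add z w _ _ hz hw =>
      show ρ ((z : Qb) + w) = ρ' ((z : Qb) + w)
      rw [map_add, map_add, hz, hw]
    | inv z _ hz =>
      show ρ ((z : Qb)⁻¹) = ρ' ((z : Qb)⁻¹)
      rw [map_inv₀, map_inv₀, hz]
    | mul z w _ _ hz hw =>
      show ρ ((z : Qb) * w) = ρ' ((z : Qb) * w)
      rw [map_mul, map_mul, hz, hw]
  exact fun x hx => h8 ⟨x, hx⟩

end Pool.Agent.H54.AV
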