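import Pool.Agent.H54.AV.Stm

/-! # AV-GEO (helper51): short independent vectors in the group generated by a spanning set -/

set_option autoImplicit false

namespace Pool.Agent.H54.AV

open Module

namespace Geoaux

/-- a basis in `R` with small coordinates -/
lemma maxbasis {ρ : ℕ} (R : Finset (Fin ρ → ℚ)) (hR : Submodule.span ℚ (R : Set (Fin ρ → ℚ)) = ⊤) :
    ∃ b : Basis (Fin ρ) ℚ (Fin ρ → ℚ), (∀ j, b j ∈ R) ∧ ∀ x ∈ R, ∀ j, |b.repr x j| ≤ 1 := by
  classical
  -- some basis in R
  obtain ⟨b0, hb0⟩ : ∃ b0 : Basis (Fin ρ) ℚ (Fin ρ → ℚ), ∀ j, b0 j ∈ R := by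
    set b1 := Basis.ofSpan hR.ge with hb1
    refine ⟨b1.reindex (b1.indexEquiv (Pi.basisFun ℚ (Fin ρ))), fun j => ?_⟩
    rw [Basis.reindex_apply]
    exact Basis.ofSpan_subset hR.ge ⟨_, rfl⟩
  -- the maximal determinant
  set e : Basis (Fin ρ) ℚ (Fin ρ → ℚ) := Pi.basisFun ℚ (Fin ρ) with he
  obtain ⟨f, hf, hmax⟩ := (Fintype.piFinset fun _ : Fin ρ => R).exists_max_image
    (fun f => |e.det f|) ⟨b0, Fintype.mem_piFinset.2 hb0⟩
  rw [Fintype.mem_piFinset] at hf
  have hdet : 0 < |e.det f| := by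
    refine lt_of_lt_of_le ?_ (hmax b0 (Fintype.mem_piFinset.2 hb0))
    rw [abs_pos]
    exact (e.isUnit_det b0).ne_zero
  have hu : IsUnit (e.det f) := isUnit_iff_ne_zero.2 (abs_pos.1 hdet)
  rw [← Basis.is_basis_iff_det] at hu
  refine ⟨Basis.mk hu.1 hu.2.ge, fun j => by rw [Basis.mk_apply]; exact hf j, fun x hx j => ?_⟩
  have h1 : e.det (Function.update f j x) = (Basis.mk hu.1 hu.2.ge).repr x j * e.det f := by
    have h2 := congrArg (fun g => g x) (e.det_smul_mk_coord_eq_det_update hu.1 hu.2.ge j)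
    simp only [LinearMap.smul_apply, smul_eq_mul, Basis.coord_apply] at h2
    rw [mul_comm, h2]
    rfl
  have h2 := hmax (Function.update f j x) (by
    rw [Fintype.mem_piFinset]
    intro i
    by_cases hi : i = j
    · subst hi
      rw [Function.update_self]
      exact hx
    · rw [Function.update_of_ne hi]
      exact hf i)
  rw [h1, abs_mul] at h2
  exact le_of_mul_le_mul_right (by linarith) hdet

/-- a basis of the generated group -/
lemma zbasis {ρ : ℕ} (R : Finset (Fin ρ → ℚ)) (hR : Submodule.span ℚ (R : Set (Fin ρ → ℚ)) = ⊤) :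
    ∃ c : Basis (Fin ρ) ℚ (Fin ρ → ℚ),
      AddSubgroup.closure (R : Set (Fin ρ → ℚ)) = AddSubgroup.closure (Set.range c) := by
  classical
  set L : Submodule ℤ (Fin ρ → ℚ) := Submodule.span ℤ (R : Set (Fin ρ → ℚ)) with hL
  have hfg : Module.Finite ℤ L := Module.Finite.span_of_finite ℤ R.finite_toSet
  set b := Module.Free.chooseBasis ℤ L with hb
  set g : Module.Free.ChooseBasisIndex ℤ L → (Fin ρ → ℚ) := fun i => (b i : Fin ρ → ℚ) with hg
  have h1 : LinearIndependent ℤ g := by
    have := b.linearIndependent.map' L.subtype (Submodule.ker_subtype L)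
    exact this
  have h2 : LinearIndependent ℚ g := (LinearIndependent.iff_fractionRing ℤ ℚ).1 h1
  have h3 : Submodule.span ℤ (Set.range g) = L := by
    have : Set.range g = L.subtype '' Set.range b := by
      rw [← Set.range_comp]
      rfl
    rw [this, Submodule.span_image, b.span_eq, Submodule.map_top, Submodule.range_subtype]
  have h4 : ⊤ ≤ Submodule.span ℚ (Set.range g) := by
    rw [← hR, Submodule.span_le]
    intro x hx
    have h5 : x ∈ Submodule.span ℤ (Set.range g) := by
      rw [h3]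
      exact Submodule.subset_span hx
    exact Submodule.span_subset_span ℤ ℚ _ h5
  set c0 := Basis.mk h2 h4 with hc0
  refine ⟨c0.reindex (c0.indexEquiv (Pi.basisFun ℚ (Fin ρ))), ?_⟩
  rw [Basis.range_reindex, hc0, Basis.coe_mk]
  have h6 : (Submodule.span ℤ (R : Set (Fin ρ → ℚ))).toAddSubgroup =
      (Submodule.span ℤ (Set.range g)).toAddSubgroup := by
    rw [h3]
  rw [Submodule.span_int_eq_addSubgroupClosure, Submodule.span_int_eq_addSubgroupClosure] at h6
  simpa using h6

/-- the number of the elements of `R` -/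
lemma card_le {ρ : ℕ} (R : Finset (Fin ρ → ℚ)) (b c : Basis (Fin ρ) ℚ (Fin ρ → ℚ))
    (hbR : ∀ j, b j ∈ R) (hb1 : ∀ x ∈ R, ∀ j, |b.repr x j| ≤ 1)
    (hc : AddSubgroup.closure (R : Set (Fin ρ → ℚ)) = AddSubgroup.closure (Set.range c)) :
    (R.card : ℚ) ≤ 3 ^ ρ * |c.det b| := by
  classical
  set L1 := AddSubgroup.closure (Set.range b) with hL1
  set L2 := AddSubgroup.closure (Set.range c) with hL2
  have hle : L1 ≤ L2 := by
    rw [hL1, ← hc]
    refine AddSubgroup.closure_mono ?_
    rintro _ ⟨j, rfl⟩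
    exact hbR j
  have hidx : (L1.relIndex L2 : ℚ) = |c.det b| :=
    AddSubgroup.relIndex_eq_abs_det L1 L2 hle b c hL1 hL2
  have hidx0 : L1.relIndex L2 ≠ 0 := by
    intro h0
    rw [h0, Nat.cast_zero] at hidx
    exact (c.isUnit_det b).ne_zero (abs_eq_zero.1 hidx.symm)
  rw [← hidx]
  have hRm : ∀ x : {x // x ∈ R}, (x : Fin ρ → ℚ) ∈ L2 := by
    intro x
    rw [← hc]
    exact AddSubgroup.subset_closure x.2
  have hfin : Finite (L2 ⧸ L1.addSubgroupOf L2) := by
    apply Nat.finite_of_card_ne_zero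
    exact hidx0
  have : Fintype (L2 ⧸ L1.addSubgroupOf L2) := Fintype.ofFinite _
  set f : {x // x ∈ R} → L2 ⧸ L1.addSubgroupOf L2 :=
    fun x => QuotientAddGroup.mk (⟨(x : Fin ρ → ℚ), hRm x⟩ : L2) with hf
  have hcoord : ∀ x ∈ L1, ∀ j, ∃ n : ℤ, b.repr x j = n := by
    intro x hx j
    induction hx using AddSubgroup.closure_induction with
    | mem x hx =>
      obtain ⟨i, rfl⟩ := hx
      rw [Basis.repr_self]
      by_cases hij : i = j
      · exact ⟨1, by simp [hij]⟩
      · exact ⟨0, by simp [hij]⟩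
    | zero => exact ⟨0, by simp⟩
    | add x y _ _ h1 h2 =>
      obtain ⟨n, hn⟩ := h1
      obtain ⟨m, hm⟩ := h2
      exact ⟨n + m, by simp [hn, hm]⟩
    | neg x _ h1 =>
      obtain ⟨n, hn⟩ := h1
      exact ⟨-n, by simp [hn]⟩
  have hcard := Finset.card_le_mul_card_image (s := (Finset.univ : Finset {x // x ∈ R})) (f := f)
    (3 ^ ρ) (by
      intro a _
      have h3 : (3 : ℕ) ^ ρ = (Fintype.piFinset fun _ : Fin ρ => Finset.Icc (-1 : ℤ) 1).card := by
        rw [Fintype.card_piFinset]
        simp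
      rw [h3]
      refine Finset.card_le_card_of_injOn (fun x j => ⌊b.repr (x : Fin ρ → ℚ) j⌋) ?_ ?_
      · intro x _
        rw [Finset.mem_coe, Fintype.mem_piFinset]
        intro j
        have h4 := abs_le.1 (hb1 x x.2 j)
        rw [Finset.mem_Icc]
        constructor
        · exact Int.le_floor.2 (by push_cast; exact h4.1)
        · have h5 : (⌊b.repr (x : Fin ρ → ℚ) j⌋ : ℚ) ≤ 1 := (Int.floor_le _).trans h4.2
          exact_mod_cast h5
      · intro x hx y hy hxy
        have h4 : f x = f y := by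
          rw [Finset.mem_coe, Finset.mem_filter] at hx hy
          rw [hx.2, hy.2]
        rw [hf] at h4
        simp only at h4
        rw [QuotientAddGroup.eq, AddSubgroup.mem_addSubgroupOf] at h4
        apply Subtype.ext
        apply b.repr.injective
        ext j
        obtain ⟨n, hn⟩ := hcoord _ h4 j
        have h6 : b.repr (y : Fin ρ → ℚ) j = n + b.repr (x : Fin ρ → ℚ) j := by
          have h7 : b.repr (y : Fin ρ → ℚ) j - b.repr (x : Fin ρ → ℚ) j = n := by
            rw [← hn]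
            simp [map_add, map_neg]
            ring
          linarith
        have h8 : ⌊b.repr (x : Fin ρ → ℚ) j⌋ = ⌊b.repr (y : Fin ρ → ℚ) j⌋ := congrFun hxy j
        rw [h6, Int.floor_intCast_add] at h8
        have h9 : n = 0 := by omega
        rw [h6, h9]
        simp)
  rw [Finset.card_univ, Fintype.card_coe] at hcard
  have h10 : (Finset.univ.image f).card ≤ L1.relIndex L2 := by
    refine (Finset.card_le_univ _).trans ?_
    rw [← Nat.card_eq_fintype_card]
    rfl
  have h11 : R.card ≤ 3 ^ ρ * L1.relIndex L2 := hcard.trans (Nat.mul_le_mul_left _ h10)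
  exact_mod_cast h11

end Geoaux

open Geoaux

theorem geo : Pool.Agent.H54.AM.S_MKN → S_GEO := by
  classical
  intro hM ρ
  obtain ⟨C, hC, hmk⟩ := hM ρ
  refine ⟨C * 3 ^ ρ, by positivity, fun R hR => ?_⟩
  obtain ⟨b, hbR, hb1⟩ := maxbasis R hR
  obtain ⟨c, hc⟩ := zbasis R hR
  have hcard := card_le R b c hbR hb1 hc
  set A : Matrix (Fin ρ) (Fin ρ) ℝ := (b.toMatrix c).map (algebraMap ℚ ℝ) with hA
  have hdA : A.det = ((b.det c : ℚ) : ℝ) := by
    rw [hA, ← RingHom.mapMatrix_apply, ← RingHom.map_det, Basis.det_apply]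
    rfl
  have hbc : b.det c * c.det b = 1 := by
    rw [Basis.det_apply, Basis.det_apply, ← Matrix.det_mul, Basis.toMatrix_mul_toMatrix_flip,
      Matrix.det_one]
  have hA0 : A.det ≠ 0 := by
    rw [hdA]
    exact_mod_cast (b.isUnit_det c).ne_zero
  obtain ⟨v, hv0, hv⟩ := hmk A hA0
  set w : Fin ρ → Fin ρ → ℚ := fun i j => ∑ l, b.repr (c l) j * v i l with hw
  have hwb : ∀ i, ∑ j, w i j • b j = ∑ l, (v i l : ℚ) • c l := by
    intro i
    have h1 : ∀ l, c l = ∑ j, b.repr (c l) j • b j := fun l => (b.sum_repr (c l)).symm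
    calc ∑ j, w i j • b j = ∑ j, ∑ l, (v i l : ℚ) • b.repr (c l) j • b j := by
          refine Finset.sum_congr rfl fun j _ => ?_
          rw [hw, Finset.sum_smul]
          refine Finset.sum_congr rfl fun l _ => ?_
          rw [smul_smul, mul_comm]
      _ = ∑ l, (v i l : ℚ) • c l := by
          rw [Finset.sum_comm]
          refine Finset.sum_congr rfl fun l _ => ?_
          rw [← Finset.smul_sum, ← h1]
  refine ⟨b, w, hbR, fun i => ?_, ?_, ?_⟩
  · rw [hwb, hc]
    refine AddSubgroup.sum_mem _ fun l _ => ?_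
    have h1 : (v i l : ℚ) • c l = (v i l) • c l := by
      rw [Int.cast_smul_eq_zsmul]
    rw [h1]
    exact AddSubgroup.zsmul_mem _ (AddSubgroup.subset_closure (Set.mem_range_self l)) _
  · have h1 : IsUnit (c.det (fun i => ∑ j, w i j • b j)) := by
      rw [isUnit_iff_ne_zero, Basis.det_apply]
      have h2 : c.toMatrix (fun i => ∑ j, w i j • b j) = (v.map (Int.cast : ℤ → ℚ)).transpose := by
        ext l i
        rw [Basis.toMatrix_apply, hwb, Matrix.transpose_apply, Matrix.map_apply]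
        rw [map_sum, Finsupp.finsetSum_apply]
        simp [Finsupp.single_apply]
      rw [h2, Matrix.det_transpose]
      have h3 : (v.map (Int.cast : ℤ → ℚ)).det = ((v.det : ℤ) : ℚ) := by
        have := RingHom.map_det (Int.castRingHom ℚ) v
        rw [RingHom.mapMatrix_apply] at this
        exact this.symm
      rw [h3]
      exact_mod_cast hv0
    exact ((Basis.is_basis_iff_det c).2 h1).1
  · have h1 : (∏ i, ∑ j, |(w i j : ℝ)|) ≤ C * |A.det| := by
      refine le_trans (le_of_eq ?_) hv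
      refine Finset.prod_congr rfl fun i _ => Finset.sum_congr rfl fun j _ => ?_
      congr 1
      rw [hw]
      push_cast
      refine Finset.sum_congr rfl fun l _ => ?_
      rw [hA, Matrix.map_apply, Basis.toMatrix_apply]
      rfl
    have h2 : (R.card : ℝ) ≤ 3 ^ ρ * |((c.det b : ℚ) : ℝ)| := by exact_mod_cast hcard
    have h3 : |A.det| * |((c.det b : ℚ) : ℝ)| = 1 := by
      rw [hdA, ← abs_mul]
      have : ((b.det c : ℚ) : ℝ) * ((c.det b : ℚ) : ℝ) = 1 := by exact_mod_cast hbc
      rw [this, abs_one]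
    calc (∏ i, ∑ j, |(w i j : ℝ)|) * R.card ≤ C * |A.det| * (3 ^ ρ * |((c.det b : ℚ) : ℝ)|) :=
          mul_le_mul h1 h2 (Nat.cast_nonneg _) (by positivity)
      _ = C * 3 ^ ρ * (|A.det| * |((c.det b : ℚ) : ℝ)|) := by ring
      _ = C * 3 ^ ρ := by rw [h3, mul_one]

end Pool.Agent.H54.AV
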