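import Pool.Agent.H54.AV.Stm

set_option autoImplicit false
set_option linter.unusedVariables false

/-! # AV-HTL: heights and independence in coordinates -/

namespace Pool.Agent.H54.AV

open Pool.Agent.W237.RK
open Pool.Agent.H58P (Qb ht)
open Pool.Agent.H54.AM

namespace HtlAux

/-- the coordinates as a homomorphism -/
noncomputable def V (G : Subgroup Qbˣ) {ρ : ℕ} (v : Qbˣ → Fin ρ → ℚ)
    (hv : ∀ x ∈ G, ∀ y ∈ G, v (x * y) = v x + v y) : Additive G →+ (Fin ρ → ℚ) :=
  AddMonoidHom.mk' (fun x => v (x.toMul : Qbˣ)) fun x y => hv _ x.toMul.2 _ y.toMul.2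

lemma V_prod (G : Subgroup Qbˣ) {ρ : ℕ} (v : Qbˣ → Fin ρ → ℚ)
    (hv : ∀ x ∈ G, ∀ y ∈ G, v (x * y) = v x + v y) {m : ℕ} (x : Fin m → Qbˣ)
    (hx : ∀ j, x j ∈ G) (a : Fin m → ℤ) : v (∏ j, x j ^ a j) = ∑ j, a j • v (x j) := by
  have h1 := map_sum (V G v hv) (fun j => a j • Additive.ofMul (⟨x j, hx j⟩ : G)) Finset.univ
  simp only [map_zsmul] at h1
  have h2 : (V G v hv) (∑ j, a j • Additive.ofMul (⟨x j, hx j⟩ : G)) = v (∏ j, x j ^ a j) := by
    show v (((∑ j, a j • Additive.ofMul (⟨x j, hx j⟩ : G)).toMul : G) : Qbˣ) = _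
    congr 1
    rw [show (∑ j, a j • Additive.ofMul (⟨x j, hx j⟩ : G)).toMul = ∏ j, (⟨x j, hx j⟩ : G) ^ a j
      from rfl]
    rw [Subgroup.val_finsetProd]
    rfl
  rw [← h2, h1]
  rfl

end HtlAux

open HtlAux in
theorem htl : S_HTL := by
  intro G ρ v hv hT
  classical
  have hprod : ∀ {m : ℕ} (x : Fin m → Qbˣ) (hx : ∀ j, x j ∈ G) (a : Fin m → ℤ),
      ∏ j, x j ^ a j ∈ G := fun x hx a => prod_mem fun j _ => zpow_mem (hx j) _
  refine ⟨?_, ?_⟩
  · intro m x w u H hx hu hH hvu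
    -- common denominator
    obtain ⟨q, hq0, hq⟩ : ∃ q : ℕ, 0 < q ∧ ∀ j, ∃ a : ℤ, (q : ℚ) * w j = a := by
      refine ⟨∏ j, (w j).den, Finset.prod_pos fun j _ => (w j).den_pos, fun j => ?_⟩
      obtain ⟨c, hc⟩ : (w j).den ∣ ∏ j, (w j).den :=
        Finset.dvd_prod_of_mem (fun j => (w j).den) (Finset.mem_univ j)
      refine ⟨c * (w j).num, ?_⟩
      rw [hc]
      push_cast
      have h1 : ((w j).den : ℚ) * w j = (w j).num := by
        rw [mul_comm]
        exact Rat.mul_den_eq_num (w j)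
      calc ((w j).den : ℚ) * c * w j = c * ((w j).den * w j) := by ring
        _ = c * (w j).num := by rw [h1]
    choose a ha using hq
    have hqQ : (0 : ℚ) < q := by exact_mod_cast hq0
    have hqR : (0 : ℝ) < q := by exact_mod_cast hq0
    -- the relation
    have h1 : v (u ^ q) = ∑ j, a j • v (x j) := by
      have h2 := V_prod G v hv (m := 1) (fun _ => u) (fun _ => hu) (fun _ => (q : ℤ))
      simp only [Finset.univ_unique, Finset.prod_singleton, Finset.sum_singleton, zpow_natCast] at h2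
      rw [h2, hvu]
      funext i
      simp only [Finset.sum_apply, Pi.smul_apply, smul_eq_mul, zsmul_eq_mul, Finset.mul_sum,
        Pi.mul_apply, Pi.intCast_apply, Int.cast_natCast]
      refine Finset.sum_congr rfl fun j _ => ?_
      rw [← ha j]
      ring
    have h3 : v (u ^ q * (∏ j, x j ^ a j)⁻¹) = 0 := by
      have h4 := V_prod G v hv x hx a
      have h5 := hv (u ^ q * (∏ j, x j ^ a j)⁻¹) (mul_mem (pow_mem hu q) (inv_mem (hprod x hx a)))
        (∏ j, x j ^ a j) (hprod x hx a)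
      rw [inv_mul_cancel_right, h1, h4] at h5
      exact right_eq_add.1 h5
    have h6 : Tor ((u ^ q * (∏ j, x j ^ a j)⁻¹ : Qbˣ) : Qb) :=
      (hT _ (mul_mem (pow_mem hu q) (inv_mem (hprod x hx a)))).1 h3
    have h7 : (u : Qb) ^ q = ((u ^ q * (∏ j, x j ^ a j)⁻¹ : Qbˣ) : Qb) * ∏ j, (x j : Qb) ^ a j := by
      have h8 : (∏ j, (x j : Qb) ^ a j) = ((∏ j, x j ^ a j : Qbˣ) : Qb) := by
        rw [Units.coe_prod]
        exact Finset.prod_congr rfl fun j _ => (Units.val_zpow_eq_zpow_val _ _).symm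
      rw [h8, ← Units.val_mul, inv_mul_cancel_right, Units.val_pow_eq_pow_val]
    have h9 : (q : ℝ) * ht (u : Qb) ≤ ∑ j, |(a j : ℝ)| * H := by
      rw [← Pool.Agent.H58B.ht_pow, h7, ht_tor_mul h6]
      refine (Pool.Agent.H58R.ht_prod_le _ _).trans (Finset.sum_le_sum fun j _ => ?_)
      rw [Pool.Agent.H58R.ht_zpow _ (Units.ne_zero _)]
      exact mul_le_mul_of_nonneg_left (hH j) (abs_nonneg _)
    have h10 : ∀ j, |(a j : ℝ)| = q * |(w j : ℝ)| := by
      intro j
      have : (a j : ℝ) = q * (w j : ℝ) := by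
        have := congrArg (fun r : ℚ => (r : ℝ)) (ha j)
        push_cast at this
        exact this.symm
      rw [this, abs_mul, abs_of_pos hqR]
    have h11 : ∑ j, |(a j : ℝ)| * H = q * ((∑ j, |(w j : ℝ)|) * H) := by
      rw [Finset.sum_mul, Finset.mul_sum]
      refine Finset.sum_congr rfl fun j _ => ?_
      rw [h10]
      ring
    rw [h11] at h9
    exact le_of_mul_le_mul_left h9 hqR
  · intro m x hx hli a ha
    have h8 : (∏ j, (x j : Qb) ^ a j) = ((∏ j, x j ^ a j : Qbˣ) : Qb) := by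
      rw [Units.coe_prod]
      exact Finset.prod_congr rfl fun j _ => (Units.val_zpow_eq_zpow_val _ _).symm
    rw [h8] at ha
    have h1 := (hT _ (hprod x hx a)).2 ha
    rw [V_prod G v hv x hx a] at h1
    rw [Fintype.linearIndependent_iff] at hli
    have h2 := hli (fun j => (a j : ℚ)) (by
      rw [← h1]
      refine Finset.sum_congr rfl fun j _ => ?_
      rw [Int.cast_smul_eq_zsmul])
    funext j
    have := h2 j
    simpa using this

end Pool.Agent.H54.AV
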