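import Pool.Agent.H54.AV.Stm2

set_option autoImplicit false
set_option linter.unusedVariables false

/-! # AV-INT: radicals of order prime to `P` and of `P`-smooth order (helper72) -/

namespace Pool.Agent.H54.AV

open Pool.Agent.W237.RK
open Pool.Agent.H58P (Qb ht)
open Pool.Agent.W369.RK (pow_act)

namespace IntAux

/-- an automorphism over `kinf` has order dividing `R` on `levInf K Γ R` -/
lemma fix_pow_levInf {K : GF} {Γ : Subgroup Qbˣ} (hΓ : ∀ g ∈ Γ, (g : Qb) ∈ K) {R : ℕ} (hR : 0 < R)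
    {τ : Aut} (hK : ∀ x ∈ K, τ x = x) (ht : ∀ x : Qb, Tor x → τ x = x) :
    Fix (levInf K Γ R) (τ ^ R) := by
  have hpow : ∀ (x : Qb), τ x = x → ∀ j : ℕ, (τ ^ j) x = x := by
    intro x hx j
    have h := pow_act τ x 1 (by rw [hx, one_mul]) (map_one τ) j
    rw [h, one_pow, one_mul]
  have h : levInf K Γ R ≤ eqField (τ ^ R) 1 := by
    refine levInf_le ?_ ?_ ?_
    · intro x hx
      exact hpow x (hK x hx) R
    · intro x hx
      exact hpow x (ht x hx) R
    · rintro y ⟨g, hg, hy⟩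
      have hy0 : y ≠ 0 := by
        rintro rfl
        rw [zero_pow hR.ne'] at hy
        exact g.ne_zero hy.symm
      have h1 : (τ y / y) ^ R = 1 := by
        rw [div_pow, ← map_pow, hy, hK _ (hΓ g hg), div_self g.ne_zero]
      have h2 : Tor (τ y / y) := ⟨R, hR, h1⟩
      have h3 := pow_act τ y (τ y / y) (by rw [div_mul_cancel₀ _ hy0]) (ht _ h2) R
      show (τ ^ R) y = (1 : Aut) y
      rw [h3, h1, one_mul]
      rfl
  exact fun x hx => h hx

lemma fix_of_coprime {τ : Aut} {x : Qb} {m n : ℕ} (hm : (τ ^ m) x = x) (hn : (τ ^ n) x = x)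
    (h : Nat.Coprime m n) : τ x = x := by
  have h1 : τ ^ m ∈ MulAction.stabilizer Aut x := hm
  have h2 : τ ^ n ∈ MulAction.stabilizer Aut x := hn
  have h3 : τ = (τ ^ m) ^ (Nat.gcdA m n) * (τ ^ n) ^ (Nat.gcdB m n) := by
    have h4 := Nat.gcd_eq_gcd_ab m n
    rw [h.gcd_eq_one] at h4
    rw [← zpow_natCast, ← zpow_natCast, ← zpow_mul, ← zpow_mul, ← zpow_add, ← h4]
    simp
  have h5 : τ ∈ MulAction.stabilizer Aut x := by
    rw [h3]
    exact mul_mem (zpow_mem h1 _) (zpow_mem h2 _)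
  exact h5

end IntAux

open IntAux in
theorem intt : S_INT := by
  intro K K' Γ Γ' P M hKK' hΓ hΓ' hP hM hPM x hx
  obtain ⟨hx1, hx2⟩ := IntermediateField.mem_inf.1 hx
  apply mem_of_fix
  intro τ hτ
  have hK' : ∀ y ∈ K', τ y = y := fun y hy => hτ y (le_kinf K' hy)
  have ht : ∀ y : Qb, Tor y → τ y = y := fun y hy => hτ y (tor_mem_kinf K' hy)
  obtain ⟨n, hn, hxn⟩ := exists_levInf_of_mem K Γ P x hx2
  have h1 : (τ ^ M) x = x := fix_pow_levInf hΓ' hM hK' ht x hx1
  have h2 : (τ ^ n) x = x := fix_pow_levInf hΓ hn.1 (fun y hy => hK' y (hKK' hy)) ht x hxn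
  apply fix_of_coprime h1 h2
  by_contra hcon
  obtain ⟨q, hq, hqd⟩ := Nat.exists_prime_and_dvd hcon
  exact hPM q (hn.2 q hq (hqd.trans (Nat.gcd_dvd_right M n))) (hqd.trans (Nat.gcd_dvd_left M n))

theorem int : S_INT := intt

end Pool.Agent.H54.AV
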