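import Pool.Agent.H54.AV.Stm

set_option autoImplicit false
set_option linter.unusedVariables false

/-! # AV-KUM: Kummer duality, torsion ratios -/

namespace Pool.Agent.H54.AV

open Pool.Agent.W237.RK
open Pool.Agent.H58P (Qb ht)
open Pool.Agent.Q246.FD (divF)

theorem kum : S_KDB → S_KUM := by
  intro hKDB K F Γ R α hΓfg hR hKF hΓ htor hα hαR hrat
  classical
  obtain ⟨s, g, hgΓ, hg⟩ := exists_gens Γ hΓfg
  obtain ⟨z, hz, hzy⟩ := exists_roots Γ s g hg R hR
  -- the exponent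
  have hord : ∀ x : Qb, ∃ n : ℕ, 0 < n ∧ (Tor (x / α) → (x / α) ^ n = 1) := by
    intro x
    by_cases h : Tor (x / α)
    · obtain ⟨n, hn, h1⟩ := h
      exact ⟨n, hn, fun _ => h1⟩
    · exact ⟨1, one_pos, fun h1 => absurd h1 h⟩
  choose f hf0 hf using hord
  obtain ⟨N, hN⟩ : ∃ N : ℕ, N = R * ∏ x ∈ (orb_finite F α).toFinset, f x := ⟨_, rfl⟩
  have hNpos : 0 < N := by
    rw [hN]
    exact Nat.mul_pos hR (Finset.prod_pos fun x _ => hf0 x)
  have hcN : ∀ τ : Aut, Fix F τ → (τ α / α) ^ N = 1 := by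
    intro τ hτ
    have h1 : τ α ∈ (orb_finite F α).toFinset := by
      rw [Set.Finite.mem_toFinset]
      exact ⟨τ, hτ, rfl⟩
    obtain ⟨m, hm⟩ : f (τ α) ∣ N := by
      rw [hN]
      exact (Finset.dvd_prod_of_mem f h1).trans (Dvd.intro_left _ rfl)
    rw [hm, pow_mul, hf _ (hrat τ hτ), one_pow]
  have hyR : ∀ y : Qbˣ, y ∈ radS Γ R → (y : Qb) ^ R ∈ F := by
    intro y hy
    obtain ⟨g', hg', h⟩ := (radS_iff y).1 hy
    rw [h]
    exact hKF (hΓ g' hg')
  have hfin : ∃ T : Finset Qbˣ, ∀ y ∈ radS Γ R, ∃ t ∈ T, ((y / t : Qbˣ) : Qb) ∈ F := by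
    refine ⟨Finset.univ.image fun r : Fin s → Fin R => ∏ j, z j ^ (r j : ℕ), ?_⟩
    intro y hy
    rw [radS_iff] at hy
    obtain ⟨e, ζ, hζ, hy'⟩ := hzy y hy
    have hppos : (0 : ℤ) < R := by exact_mod_cast hR
    have hr : ∀ j, ((e j % R).toNat : ℤ) = e j % R := fun j =>
      Int.toNat_of_nonneg (Int.emod_nonneg _ hppos.ne')
    have hrlt : ∀ j, (e j % R).toNat < R := by
      intro j
      have := Int.emod_lt_of_pos (e j) hppos
      have h2 := hr j
      omega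
    refine ⟨∏ j, z j ^ (e j % R).toNat, Finset.mem_image.mpr
      ⟨fun j => ⟨(e j % R).toNat, hrlt j⟩, Finset.mem_univ _, rfl⟩, ?_⟩
    have h1 : ((y / ∏ j, z j ^ (e j % R).toNat : Qbˣ) : Qb) =
        ζ * ∏ j, ((z j : Qb) ^ R) ^ (e j / R) := by
      rw [Units.val_div_eq_div_val, hy', mul_div_assoc, Units.coe_prod, Units.coe_prod,
        ← Finset.prod_div_distrib]
      congr 1
      apply Finset.prod_congr rfl
      intro j _
      rw [Units.val_zpow_eq_zpow_val, Units.val_pow_eq_pow_val, ← zpow_natCast (z j : Qb) R,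
        ← zpow_natCast (z j : Qb) (e j % R).toNat, ← zpow_mul, hr j, ← zpow_sub₀ (Units.ne_zero _)]
      congr 1
      have := Int.emod_add_mul_ediv (e j) R
      linarith
    rw [h1]
    refine mul_mem (htor ζ ⟨R, hR, hζ⟩) (prod_mem fun j _ => ?_)
    refine zpow_mem ?_ _
    rw [← Units.val_pow_eq_pow_val, hz]
    exact hKF (hΓ _ (hgΓ j))
  obtain ⟨γ, hγS, hγ⟩ := hKDB F N (radS Γ R) hNpos (fun x hx => htor x ⟨N, hNpos, hx⟩)
    (fun y hy => by
      rw [hN, pow_mul]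
      exact pow_mem (hyR y hy) _) hfin (fun τ => τ α / α)
    (fun τ τ' hτ hτ' => by
      have h1 : τ (τ' α / α) = τ' α / α := hτ _ (htor _ (hrat τ' hτ'))
      have h2 : τ' α = (τ' α / α) * α := by field_simp
      have h3 : τ α ≠ 0 := (map_ne_zero τ).2 hα
      show τ (τ' α) / α = τ α / α * (τ' α / α)
      rw [h2, map_mul, h1]
      field_simp)
    hcN
    (fun τ hτ h => by
      have h1 : levInf K Γ R ≤ eqField τ 1 := by
        refine levInf_le (fun x hx => hτ x (hKF hx)) (fun x hx => hτ x (htor x hx)) ?_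
        intro y hy
        have hy0 : y ≠ 0 := rad_ne_zero hR hy
        exact h (Units.mk0 y hy0) ((radS_iff _).mpr hy)
      have h2 : τ α = α := h1 hαR
      show τ α / α = 1
      rw [h2, div_self hα])
  have hγ0 : (γ : Qb) ≠ 0 := Units.ne_zero γ
  refine ⟨γ, hγ0, ?_, ?_⟩
  · obtain ⟨g', hg', h⟩ := (radS_iff γ).1 hγS
    exact ⟨R, hR, g', hg', h⟩
  · apply mem_of_fix
    intro τ hτ
    have h1 : τ (γ : Qb) = τ α / α * γ := hγ τ hτ
    have h3 : τ α ≠ 0 := (map_ne_zero τ).2 hα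
    rw [map_div₀, h1]
    field_simp

end Pool.Agent.H54.AV
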