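import Mathlib
import Pool.Agent.H54.AV.Stm2

set_option autoImplicit false
set_option linter.unusedVariables false

/-!
# AV-LVL: degrees of the elements of a level
-/

namespace Pool.Agent.H54.AV

open Pool.Agent.W237.RK
open Pool.Agent.H58P (Qb ht)
open Polynomial

lemma agree_levInf {K : GF} {Γ : Subgroup Qbˣ} {R : ℕ} {σ τ : Aut} (hK : ∀ x ∈ K, σ x = τ x)
    (h1 : ∀ x : Qb, Tor x → σ x = τ x)
    (h2 : ∀ y : Qb, (∃ g ∈ Γ, y ^ R = (g : Qb)) → σ y = τ y) : AgreeOn (levInf K Γ R) σ τ := by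
  have h : levInf K Γ R ≤ eqField σ τ := levInf_le hK h1 h2
  exact fun x hx => h hx

theorem lvl : S_LVL := by
  classical
  intro K Γ hΓ hK
  obtain ⟨s, g, hgΓ, hg⟩ := exists_gens Γ hΓ
  refine ⟨s, ?_⟩
  intro P m n hm hn α hα
  have hn0 : 0 < n := hn.1
  have hR : 0 < m * n := Nat.mul_pos hm hn0
  obtain ⟨z, hz, hzy⟩ := exists_roots Γ s g hg (m * n) hR
  set F := fullField K Γ P with hF
  have hzF : ∀ j, (z j : Qb) ^ m ∈ F := by
    intro j
    apply levInf_le_fullField K Γ hn
    apply rad_mem_levInf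
    exact ⟨g j, hgΓ j, by rw [← pow_mul, ← Units.val_pow_eq_pow_val, hz]⟩
  have hratio : ∀ τ : Aut, Fix F τ → ∀ j, (τ (z j : Qb) / (z j : Qb)) ^ m = 1 := by
    intro τ hτ j
    rw [div_pow, ← map_pow, hτ _ (hzF j), div_self]
    exact pow_ne_zero _ (Units.ne_zero _)
  set W : Finset Qb := (finite_roots m hm).toFinset with hW
  have hWcard : W.card ≤ m := by
    have h1 : W ⊆ (nthRoots m (1 : Qb)).toFinset := by
      intro x hx
      rw [hW, Set.Finite.mem_toFinset] at hx
      rw [Multiset.mem_toFinset, mem_nthRoots hm]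
      exact hx
    exact (Finset.card_le_card h1).trans ((Multiset.toFinset_card_le _).trans (card_nthRoots m 1))
  set V : Finset (Fin s → Qb) := Fintype.piFinset fun _ => W with hV
  have hVcard : V.card ≤ m ^ s := by
    rw [hV, Fintype.card_piFinset_const]
    exact Nat.pow_le_pow_left hWcard s
  set Ψ : Aut → Fin s → Qb := fun τ j => τ (z j : Qb) / (z j : Qb) with hΨ
  set pick : (Fin s → Qb) → Qb := fun v =>
    if h : ∃ τ : Aut, Fix F τ ∧ Ψ τ = v then h.choose α else 0 with hpick
  have hsub : orb F α ⊆ ((V.image pick : Finset Qb) : Set Qb) := by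
    rintro _ ⟨τ, hτ, rfl⟩
    have hΨV : Ψ τ ∈ V := by
      rw [hV, Fintype.mem_piFinset]
      intro j
      rw [hW, Set.Finite.mem_toFinset]
      exact hratio τ hτ j
    rw [Finset.mem_coe, Finset.mem_image]
    refine ⟨Ψ τ, hΨV, ?_⟩
    have hex : ∃ τ' : Aut, Fix F τ' ∧ Ψ τ' = Ψ τ := ⟨τ, hτ, rfl⟩
    have hp : pick (Ψ τ) = hex.choose α := by
      simp only [hpick]
      rw [dif_pos hex]
    rw [hp]
    obtain ⟨hτ', hΨ'⟩ := hex.choose_spec
    set τ' := hex.choose with hτ'def
    have hzz : ∀ j, τ' (z j : Qb) = τ (z j : Qb) := by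
      intro j
      have h1 : τ' (z j : Qb) / (z j : Qb) = τ (z j : Qb) / (z j : Qb) := congrFun hΨ' j
      exact (div_left_inj' (Units.ne_zero _)).mp h1
    have hA : AgreeOn (levInf K Γ (m * n)) τ' τ := by
      apply agree_levInf
      · intro x hx
        have := le_fullField K Γ P hx
        rw [hτ x this, hτ' x this]
      · intro x hx
        have := kinf_le_fullField K Γ P (tor_mem_kinf K hx)
        rw [hτ x this, hτ' x this]
      · intro y hy
        obtain ⟨e, ζ, hζ, rfl⟩ := hzy y hy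
        have hζ' := kinf_le_fullField K Γ P (tor_mem_kinf K ⟨m * n, hR, hζ⟩)
        rw [map_mul, map_mul, hτ ζ hζ', hτ' ζ hζ', Units.coe_prod, map_prod, map_prod]
        congr 1
        apply Finset.prod_congr rfl
        intro j _
        rw [Units.val_zpow_eq_zpow_val, map_zpow₀, map_zpow₀, hzz j]
    exact hA α hα
  calc (orb F α).ncard ≤ ((V.image pick : Finset Qb) : Set Qb).ncard :=
        Set.ncard_le_ncard hsub (Finset.finite_toSet _)
    _ = (V.image pick).card := Set.ncard_coe_finset _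
    _ ≤ V.card := Finset.card_image_le
    _ ≤ m ^ s := hVcard

end Pool.Agent.H54.AV
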