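import Mathlib
import Pool.Agent.H54.AV.Stm2

set_option autoImplicit false
set_option linter.unusedVariables false

/-!
# AV-NRM: the norm
-/

namespace Pool.Agent.H54.AV

open Pool.Agent.W237.RK
open Pool.Agent.H58P (Qb ht)
open Polynomial

/-- the constant coefficient is a product -/
lemma coeff_prod (F : GF) (x : Qb) :
    (((minpoly F x).coeff 0 : F) : Qb) = ∏ y ∈ (orb_finite F x).toFinset, (-y) := by
  have h1 : (((minpoly F x).coeff 0 : F) : Qb) =
      ((minpoly F x).map (algebraMap F Qb)).coeff 0 := by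
    rw [coeff_map]
    rfl
  rw [h1, minpoly_map_eq_oprod, coeff_zero_eq_eval_zero, eval_prod]
  simp

lemma orb_conj_eq {F F₀ : GF} (hN : NormalOver F F₀) {τ : Aut} (hτ : Fix F τ) (x : Qb) :
    orb F₀ (τ x) = (fun y => τ y) '' orb F₀ x := by
  apply Set.Subset.antisymm
  · rintro _ ⟨ρ, hρ, rfl⟩
    refine ⟨(τ⁻¹ * ρ * τ) x, ⟨τ⁻¹ * ρ * τ, fix_conj' hN hτ hρ, rfl⟩, ?_⟩
    show τ (τ⁻¹ (ρ (τ x))) = ρ (τ x)
    rw [apply_inv_self]
  · rintro _ ⟨_, ⟨ρ, hρ, rfl⟩, rfl⟩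
    refine ⟨τ * ρ * τ⁻¹, fix_conj hN hτ hρ, ?_⟩
    show τ (ρ (τ⁻¹ (τ x))) = τ (ρ x)
    rw [inv_apply_self]

lemma coeff_conj {F F₀ : GF} (hN : NormalOver F F₀) {τ : Aut} (hτ : Fix F τ) (x : Qb) :
    τ (((minpoly F₀ x).coeff 0 : F₀) : Qb) = (((minpoly F₀ (τ x)).coeff 0 : F₀) : Qb) := by
  classical
  rw [coeff_prod, coeff_prod, map_prod]
  have h1 : (orb_finite F₀ (τ x)).toFinset = ((orb_finite F₀ x).toFinset).image (fun y => τ y) := by
    ext y
    rw [Set.Finite.mem_toFinset, orb_conj_eq hN hτ, Finset.mem_image]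
    simp only [Set.mem_image, Set.Finite.mem_toFinset]
  rw [h1, Finset.prod_image (fun a _ b _ hab => τ.injective hab)]
  exact Finset.prod_congr rfl fun y _ => map_neg τ y

theorem nrm : S_NRM := by
  classical
  intro F F₀ α hF hN hα
  have hint : IsIntegral F₀ α := (galg F₀).isAlgebraic α |>.isIntegral
  refine ⟨?_, ?_, ?_⟩
  · intro h
    exact minpoly.coeff_zero_ne_zero hint hα (Subtype.ext h)
  · set g : Qb → Qb := fun x => (((minpoly F₀ x).coeff 0 : F₀) : Qb) with hg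
    have hsub : orb F (((minpoly F₀ α).coeff 0 : F₀) : Qb) ⊆ g '' orb F α := by
      rintro _ ⟨τ, hτ, rfl⟩
      exact ⟨τ α, ⟨τ, hτ, rfl⟩, (coeff_conj hN hτ α).symm⟩
    exact (Set.ncard_le_ncard hsub ((orb_finite F α).image _)).trans
      (Set.ncard_image_le (orb_finite F α))
  · intro γ hγ hγ0
    rw [coeff_prod, Set.ncard_eq_toFinset_card _ (orb_finite F₀ α), ← Finset.prod_const,
      ← Finset.prod_div_distrib]
    refine (Pool.Agent.H58R.ht_prod_le _ _).trans ?_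
    rw [← nsmul_eq_mul]
    apply Finset.sum_le_card_nsmul
    intro y hy
    rw [Set.Finite.mem_toFinset] at hy
    obtain ⟨ρ, hρ, rfl⟩ := hy
    have e : -ρ α / γ = -1 * ρ (α / γ) := by
      rw [map_div₀, hρ γ hγ]
      ring
    rw [e, Pool.Agent.H58R.ht_unit_mul (-1) _ 2 (by norm_num) (by norm_num),
      Pool.Agent.H58B.ht_conj]

end Pool.Agent.H54.AV
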