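import Mathlib
import Pool.Agent.H54.AV.Stm

set_option autoImplicit false

/-!
# The monomials at a point close to one of finitely many points (S_PADM)
-/

namespace Pool.Agent.H54.AV.PadmA

open Finset
open Pool.Agent.H54.AM

variable {K : Type*} [NormedField K] [IsUltrametricDist K]

/-- truncated binomial expansion -/
theorem expand (T : ℕ) {x z : K} (hx0 : x ≠ 0) (hx : ‖x‖ ≤ 1) {ρ : ℝ} (hρ : 0 < ρ) (hρ1 : ρ ≤ 1)
    (hzx : ‖z - x‖ ≤ ρ) (k : ℕ) :
    ‖z ^ k - ∑ r : Fin T, (((z - x) / x) ^ (r : ℕ)) * ((k.choose r : K) * x ^ k)‖ ≤ ρ ^ T ∧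
    ‖∑ r : Fin T, (((z - x) / x) ^ (r : ℕ)) * ((k.choose r : K) * x ^ k)‖ ≤ 1 := by
  set t : ℕ → K := fun r => (((z - x) / x) ^ r) * ((k.choose r : K) * x ^ k) with ht
  have hnat : ∀ m : ℕ, ‖(m : K)‖ ≤ 1 := fun m => IsUltrametricDist.norm_natCast_le_one K m
  have htr : ∀ r, t r = if r ≤ k then (z - x) ^ r * x ^ (k - r) * (k.choose r : K) else 0 := by
    intro r
    rw [ht]
    dsimp only
    split_ifs with h
    · have : x ^ k = x ^ (k - r) * x ^ r := by
        rw [← pow_add]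
        congr 1
        omega
      rw [this, div_pow]
      have hxr : x ^ r ≠ 0 := pow_ne_zero _ hx0
      field_simp
    · rw [Nat.choose_eq_zero_of_lt (not_le.1 h)]
      simp
  have htn : ∀ r, ‖t r‖ ≤ ρ ^ r := by
    intro r
    rw [htr]
    split_ifs with h
    · rw [norm_mul, norm_mul, norm_pow, norm_pow]
      calc ‖z - x‖ ^ r * ‖x‖ ^ (k - r) * ‖(k.choose r : K)‖
          ≤ ρ ^ r * 1 * 1 := by
            gcongr
            · exact pow_le_one₀ (norm_nonneg _) hx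
            · exact hnat _
        _ = ρ ^ r := by ring
    · rw [norm_zero]
      positivity
  have hsum : z ^ k = ∑ r ∈ range (T + (k + 1)), t r := by
    have h1 : z ^ k = ∑ r ∈ range (k + 1), t r := by
      have h2 := add_pow (z - x) x k
      rw [sub_add_cancel] at h2
      rw [h2]
      refine sum_congr rfl fun r hr => ?_
      rw [htr, if_pos (by have := mem_range.1 hr; omega)]
    rw [h1]
    refine sum_subset (range_subset_range.2 (by omega)) fun r _ hr => ?_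
    rw [htr, if_neg]
    intro h
    exact hr (mem_range.2 (by omega))
  have hT : ∑ r : Fin T, (((z - x) / x) ^ (r : ℕ)) * ((k.choose r : K) * x ^ k) =
      ∑ r ∈ range T, t r := Fin.sum_univ_eq_sum_range t T
  rw [hT]
  constructor
  · rw [hsum, sum_range_add, add_sub_cancel_left]
    refine IsUltrametricDist.norm_sum_le_of_forall_le_of_nonneg (by positivity) fun r _ => ?_
    refine (htn _).trans ?_
    exact pow_le_pow_of_le_one hρ.le hρ1 (by omega)
  · refine IsUltrametricDist.norm_sum_le_of_forall_le_of_nonneg zero_le_one fun r _ => ?_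
    exact (htn r).trans (pow_le_one₀ hρ.le hρ1)

/-- the coefficients of the diagonal maps -/
def cf (N : ℕ) (s : Bool) (k r : ℕ) : ℕ := if s then k.choose r else (N - 1 - k).choose r

/-- one coordinate -/
theorem coord (T : ℕ) {x z : K} (hx0 : x ≠ 0) (hz0 : z ≠ 0) {ρ : ℝ} (hρ : 0 < ρ) (hρ1 : ρ < 1)
    (hzx : ‖z - x‖ ≤ ρ * (max 1 ‖z‖ * max 1 ‖x‖)) (N : ℕ) :
    ∃ (s : Bool) (c : Fin T → K), ∀ k : Fin N,
      ‖z ^ (k : ℕ) - ∑ r : Fin T, c r * ((cf N s k r : K) * x ^ (k : ℕ))‖ ≤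
        ρ ^ T * (max 1 ‖z‖) ^ N ∧
      ‖∑ r : Fin T, c r * ((cf N s k r : K) * x ^ (k : ℕ))‖ ≤ (max 1 ‖z‖) ^ N := by
  rcases le_or_gt ‖x‖ 1 with hx | hx
  · have hz : ‖z‖ ≤ 1 := by
      by_contra hcon
      push Not at hcon
      rw [max_eq_right hcon.le, max_eq_left hx, mul_one] at hzx
      have e4 : ‖z‖ ≠ ‖x‖ := (hx.trans_lt hcon).ne'
      rw [sub_eq_add_neg, IsUltrametricDist.norm_add_eq_max_of_norm_ne_norm (by rwa [norm_neg]),
        norm_neg, max_eq_left (hx.trans hcon.le)] at hzx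
      nlinarith
    rw [max_eq_left hz, max_eq_left hx, mul_one, mul_one] at hzx
    refine ⟨true, fun r => ((z - x) / x) ^ (r : ℕ), fun k => ?_⟩
    rw [max_eq_left hz, one_pow, mul_one]
    exact expand T hx0 hx hρ hρ1.le hzx k
  · have hz : 1 < ‖z‖ := by
      by_contra hcon
      push Not at hcon
      rw [max_eq_left hcon, max_eq_right hx.le, one_mul] at hzx
      have e4 : ‖z‖ ≠ ‖x‖ := (hcon.trans_lt hx).ne
      rw [sub_eq_add_neg, IsUltrametricDist.norm_add_eq_max_of_norm_ne_norm (by rwa [norm_neg]),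
        norm_neg, max_eq_right (hcon.trans hx.le)] at hzx
      nlinarith
    have hxp : 0 < ‖x‖ := norm_pos_iff.2 hx0
    have hzp : 0 < ‖z‖ := norm_pos_iff.2 hz0
    rw [max_eq_right hz.le, max_eq_right hx.le] at hzx
    have hd : ‖z⁻¹ - x⁻¹‖ ≤ ρ := by
      rw [inv_sub_inv hz0 hx0, norm_div, norm_mul, norm_sub_rev, div_le_iff₀ (by positivity)]
      exact hzx
    have hx1 : ‖x⁻¹‖ ≤ 1 := by
      rw [norm_inv]
      exact inv_le_one_of_one_le₀ hx.le
    refine ⟨false, fun r => (z / x) ^ (N - 1) * ((z⁻¹ - x⁻¹) / x⁻¹) ^ (r : ℕ), fun k => ?_⟩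
    obtain ⟨h1, h2⟩ := expand T (inv_ne_zero hx0) hx1 hρ hρ1.le hd (N - 1 - k)
    have hk : (k : ℕ) + (N - 1 - k) = N - 1 := by
      have := k.2
      omega
    have e1 : z ^ (k : ℕ) = z ^ (N - 1) * (z⁻¹) ^ (N - 1 - (k : ℕ)) := by
      rw [← hk, pow_add, inv_pow, hk]
      field_simp
    have e2 : ∑ r : Fin T, ((z / x) ^ (N - 1) * ((z⁻¹ - x⁻¹) / x⁻¹) ^ (r : ℕ)) *
        ((cf N false k r : K) * x ^ (k : ℕ)) = z ^ (N - 1) *
        ∑ r : Fin T, (((z⁻¹ - x⁻¹) / x⁻¹) ^ (r : ℕ)) *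
          (((N - 1 - (k : ℕ)).choose r : K) * (x⁻¹) ^ (N - 1 - (k : ℕ))) := by
      rw [Finset.mul_sum]
      refine sum_congr rfl fun r _ => ?_
      have e3 : (x⁻¹) ^ (N - 1 - (k : ℕ)) = (x ^ (N - 1))⁻¹ * x ^ (k : ℕ) := by
        rw [← hk, pow_add, inv_pow, hk]
        have hxk : x ^ (k : ℕ) ≠ 0 := pow_ne_zero _ hx0
        field_simp
      rw [e3, div_pow]
      simp only [cf, Bool.false_eq_true, if_false]
      ring
    have hb : ‖z ^ (N - 1)‖ ≤ (max 1 ‖z‖) ^ N := by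
      rw [norm_pow, max_eq_right hz.le]
      exact pow_le_pow_right₀ hz.le (by omega)
    rw [e2, e1, ← mul_sub, norm_mul, norm_mul]
    constructor
    · calc ‖z ^ (N - 1)‖ * _ ≤ (max 1 ‖z‖) ^ N * ρ ^ T := by gcongr
        _ = _ := mul_comm _ _
    · calc ‖z ^ (N - 1)‖ * _ ≤ (max 1 ‖z‖) ^ N * 1 := by gcongr
        _ = _ := mul_one _

theorem prod_close {κ : Type*} (s : Finset κ) (A B : κ → K) (M : κ → ℝ) (δ : ℝ) (hδ : 0 ≤ δ)
    (hM : ∀ i, 0 ≤ M i) (hA : ∀ i, ‖A i‖ ≤ M i) (hB : ∀ i, ‖B i‖ ≤ M i)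
    (hAB : ∀ i, ‖A i - B i‖ ≤ δ * M i) : ‖∏ i ∈ s, A i - ∏ i ∈ s, B i‖ ≤ δ * ∏ i ∈ s, M i := by
  classical
  induction s using Finset.induction_on with
  | empty => simpa using hδ
  | insert i s hi ih =>
    rw [prod_insert hi, prod_insert hi, prod_insert hi]
    have e : A i * ∏ j ∈ s, A j - B i * ∏ j ∈ s, B j =
        (A i - B i) * ∏ j ∈ s, A j + B i * (∏ j ∈ s, A j - ∏ j ∈ s, B j) := by ring
    rw [e]
    refine (IsUltrametricDist.norm_add_le_max _ _).trans (max_le ?_ ?_)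
    · rw [norm_mul, norm_prod]
      calc ‖A i - B i‖ * ∏ j ∈ s, ‖A j‖ ≤ (δ * M i) * ∏ j ∈ s, M j := by
            gcongr with j _
            · exact mul_nonneg hδ (hM i)
            · exact hAB i
            · exact hA j
        _ = _ := by ring
    · rw [norm_mul]
      calc ‖B i‖ * ‖∏ j ∈ s, A j - ∏ j ∈ s, B j‖ ≤ M i * (δ * ∏ j ∈ s, M j) := by
            gcongr
            · exact hM i
            · exact hB i
        _ = _ := by ring

theorem main {ι : Type*} (n T : ℕ) (N : Fin n → ℕ) (Y : Finset ι) (x : ι → Fin n → K) (ρ : ℝ)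
    (hρ : 0 < ρ) (hρ1 : ρ ≤ 1) (hx : ∀ l ∈ Y, ∀ i, x l i ≠ 0) :
    ∃ U : Submodule K ((∀ i, Fin (N i)) → K),
      Module.finrank K U ≤ (2 * T) ^ n * rkN N x (Y : Set ι) ∧
      ∀ z : Fin n → K, (∀ i, z i ≠ 0) →
        (∃ l ∈ Y, ∀ i, ‖z i - x l i‖ ≤ ρ * (max 1 ‖z i‖ * max 1 ‖x l i‖)) →
        ∃ w ∈ U, ∀ k, ‖rowN N z k - w k‖ ≤ ρ ^ T * ∏ i, (max 1 ‖z i‖) ^ N i := by
  classical
  set W : Submodule K ((∀ i, Fin (N i)) → K) := Submodule.span K
    ((fun l => rowN N (x l)) '' (Y : Set ι)) with hW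
  set D : (Fin n → Bool) × (Fin n → Fin T) → ((∀ i, Fin (N i)) → K) := fun j k =>
    ∏ i, (cf (N i) (j.1 i) (k i) (j.2 i) : K) with hD
  set Ψ : ((Fin n → Bool) × (Fin n → Fin T) → W) →ₗ[K] ((∀ i, Fin (N i)) → K) :=
    ∑ j, (LinearMap.mulLeft K (D j)).comp (W.subtype.comp (LinearMap.proj j)) with hΨ
  have hmem : ∀ (j : (Fin n → Bool) × (Fin n → Fin T)) (l : ι), l ∈ Y →
      D j * rowN N (x l) ∈ LinearMap.range Ψ := by
    intro j l hl
    have hl' : rowN N (x l) ∈ W := Submodule.subset_span ⟨l, hl, rfl⟩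
    refine ⟨Pi.single j ⟨_, hl'⟩, ?_⟩
    rw [hΨ, LinearMap.sum_apply, Finset.sum_eq_single j]
    · simp
    · intro j' _ hj'
      simp [Pi.single_eq_of_ne hj']
    · intro h
      exact absurd (Finset.mem_univ j) h
  refine ⟨LinearMap.range Ψ, ?_, ?_⟩
  · refine (LinearMap.finrank_range_le Ψ).trans ?_
    rw [Module.finrank_pi_fintype, Finset.sum_const, Finset.card_univ, Fintype.card_prod,
      Fintype.card_pi, Fintype.card_pi, Finset.prod_const, Finset.prod_const, Finset.card_univ,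
      Fintype.card_fin, Fintype.card_fin, Fintype.card_bool, smul_eq_mul]
    refine le_of_eq ?_
    show 2 ^ n * T ^ n * Module.finrank K W = (2 * T) ^ n * Module.finrank K W
    rw [mul_pow]
  intro z hz0 hclose
  have hzk : ∀ (i : Fin n) (k : Fin (N i)), ‖z i ^ (k : ℕ)‖ ≤ (max 1 ‖z i‖) ^ N i := by
    intro i k
    rw [norm_pow]
    calc ‖z i‖ ^ (k : ℕ) ≤ (max 1 ‖z i‖) ^ (k : ℕ) := by
          gcongr
          exact le_max_right _ _
      _ ≤ (max 1 ‖z i‖) ^ N i := pow_le_pow_right₀ (le_max_left _ _) k.2.le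
  rcases hρ1.eq_or_lt with h1 | h1
  · refine ⟨0, Submodule.zero_mem _, fun k => ?_⟩
    rw [Pi.zero_apply, sub_zero, h1, one_pow, one_mul]
    unfold rowN
    rw [norm_prod]
    exact Finset.prod_le_prod (fun i _ => norm_nonneg _) fun i _ => hzk i (k i)
  obtain ⟨l, hl, hcl⟩ := hclose
  choose s c hsc using fun i => coord T (hx l hl i) (hz0 i) hρ h1 (hcl i) (N i)
  refine ⟨∑ r : Fin n → Fin T, (∏ i, c i (r i)) • (D (s, r) * rowN N (x l)), ?_, fun k => ?_⟩
  · exact Submodule.sum_mem _ fun r _ => Submodule.smul_mem _ _ (hmem _ l hl)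
  · have e1 : (∑ r : Fin n → Fin T, (∏ i, c i (r i)) • (D (s, r) * rowN N (x l))) k =
        ∏ i, ∑ r : Fin T, c i r * ((cf (N i) (s i) (k i) r : K) * x l i ^ (k i : ℕ)) := by
      rw [Finset.prod_univ_sum, Fintype.piFinset_univ, Finset.sum_apply]
      refine sum_congr rfl fun r _ => ?_
      rw [Pi.smul_apply, Pi.mul_apply, smul_eq_mul]
      simp only [hD]
      unfold rowN
      rw [← Finset.prod_mul_distrib, ← Finset.prod_mul_distrib]
    rw [e1]
    unfold rowN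
    exact prod_close Finset.univ _ _ (fun i => (max 1 ‖z i‖) ^ N i) (ρ ^ T) (by positivity)
      (fun i => by positivity) (fun i => hzk i (k i)) (fun i => (hsc i (k i)).2)
      (fun i => (hsc i (k i)).1)

end Pool.Agent.H54.AV.PadmA

namespace Pool.Agent.H54.AV

theorem padm : S_PADM := by
  intro p _ ι n T N Y x ρ hρ hρ1 hx
  exact PadmA.main n T N Y x ρ hρ hρ1 hx

end Pool.Agent.H54.AV
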