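import Pool.Agent.H54.AV.Stm

set_option autoImplicit false
set_option linter.unusedVariables false

/-! # Stub REDB of the project AV (helper26) -/

namespace Pool.Agent.H54.AV

open Pool.Agent.W237.RK
open Pool.Agent.H58P (Qb ht)
open Pool.Agent.H54.AD (pt)
open Pool.Agent.H54.AM
open Pool.Agent.H54.RX (lowr lowr_mono lowr_pos S_CS3)
open Pool.Agent.Q246.FD (divF)

theorem redb : Pool.Agent.H54.RX.S_CS3 → S_REDB := by
  intro hCS p K Γ hp hKfd hΓfg hΓ n₀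
  have : Fact p.Prime := ⟨hp⟩
  have hex : Nonempty (Qb →+* PadicAlgCl p) := by
    have : CharZero (PadicAlgCl p) := inferInstance
    let _ : Algebra ℚ (PadicAlgCl p) := DivisionRing.toRatAlgebra
    exact ⟨((IsAlgClosed.lift : Qb →ₐ[ℚ] PadicAlgCl p) : Qb →+* PadicAlgCl p)⟩
  obtain ⟨φ⟩ := hex
  obtain ⟨B, A₁, hA₁, hB'⟩ := hCS p φ K Γ 1 one_pos hKfd hΓfg hΓ
  have hB := hB' 1 one_pos
  refine ⟨n₀ + B, lowr A₁ 1 1, lowr_pos hA₁ one_pos, by omega, ?_⟩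
  intro M β hM hβmem hβ hht
  have hMpos : 0 < M := Nat.pos_of_ne_zero (by rintro rfl; exact hM (dvd_zero p))
  have hRpos : 0 < p ^ n₀ * M := Nat.mul_pos (pow_pos hp.pos n₀) hMpos
  obtain ⟨Finf, hFinf⟩ : ∃ Finf : GF, Finf = levInf K Γ (p ^ n₀ * M) := ⟨_, rfl⟩
  have hkinf : kinf K ≤ Finf := hFinf ▸ kinf_le_levInf K Γ _
  have hnorm : NormalOver K Finf := hFinf ▸ normal_levInf K Γ hΓ _
  have hβF : β ∈ Finf := hFinf ▸ hβmem
  have hrig : Rigid Finf (levInf K Γ (p ^ n₀ * M)) β := fun κ hκ => ⟨κ, hFinf ▸ hκ, rfl⟩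
  obtain ⟨N, hN, hrigN⟩ := exists_rigid_lev Finf K Γ (p ^ n₀ * M) β hrig
  obtain ⟨v, M', hM', hNv⟩ := Nat.exists_eq_pow_mul_and_not_dvd hN.ne' p hp.ne_one
  have hM'pos : 0 < M' := Nat.pos_of_ne_zero (by rintro rfl; exact hM' (dvd_zero p))
  have hgood : Good K Finf 1 (lowr A₁ 1 1) β := by
    refine ⟨hβ, ?_, ?_, hht⟩
    · have : orb Finf β ⊆ {β} := by
        rintro _ ⟨ρ, hρ, rfl⟩
        exact hρ β hβF
      exact (Set.ncard_le_ncard this (Set.finite_singleton β)).trans (by simp)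
    · intro ρ hρ _
      exact hρ β hβF
  -- rigid at a high level
  have hhigh : Rigid Finf (lev K Γ (p ^ (n₀ + B + v) * M') (p ^ n₀ * M)) β := by
    refine rigid_mono (lev_mono K Γ ?_ hRpos dvd_rfl) hrigN
    rw [hNv]
    exact Nat.mul_dvd_mul_right (pow_dvd_pow p (by omega)) M'
  have hlevF : ∀ i, lev K Γ (p ^ i * M') (p ^ n₀ * M) ≤ Finf := fun i =>
    hFinf ▸ (lev_le_levInf K Γ (Nat.mul_pos (pow_pos hp.pos i) hM'pos))
  -- cyclotomic descent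
  have hdown : ∀ j, j ≤ v → ∃ γ : Qb, Tor γ ∧
      Rigid Finf (lev K Γ (p ^ (n₀ + B + (v - j)) * M') (p ^ n₀ * M)) (β / γ) := by
    intro j
    induction j with
    | zero =>
      intro _
      exact ⟨1, tor_one, by rw [div_one, Nat.sub_zero]; exact hhigh⟩
    | succ j ih =>
      intro hj
      obtain ⟨γ, hγ, hr⟩ := ih (by omega)
      have hg : Good K Finf 1 (lowr A₁ 1 1) (β / γ) :=
        hgood.div hΓ hγ.ne_zero (hkinf (tor_mem_kinf K hγ)) (divG_tor Γ hγ)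
      obtain ⟨γ', hγ', hr'⟩ := hB Finf (n₀ + B + (v - j)) n₀ M M' (β / γ) (by omega) hM hM' hkinf
        (hlevF _) hnorm hg.ne hg.orb hg.tor hr hg.ht
      refine ⟨γ * γ', hγ.mul hγ', ?_⟩
      rw [← div_div]
      have e : n₀ + B + (v - j) - 1 = n₀ + B + (v - (j + 1)) := by omega
      rw [e] at hr'
      exact hr'
  obtain ⟨γ, hγ, hr⟩ := hdown v le_rfl
  rw [Nat.sub_self, Nat.add_zero] at hr
  refine ⟨γ, M', hγ, hM', ?_⟩
  have hγF : γ ∈ Finf := hkinf (tor_mem_kinf K hγ)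
  have hbg : β / γ ∈ Finf := div_mem hβF hγF
  apply mem_of_fix
  intro κ hκ
  obtain ⟨ρ, hρ, h⟩ := hr κ hκ
  rw [h]
  exact hρ _ hbg

end Pool.Agent.H54.AV
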