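import Pool.Agent.H54.AV.Stm

set_option autoImplicit false
set_option linter.unusedVariables false

namespace Pool.Agent.H54.AV

open Pool.Agent.W237.RK
open Pool.Agent.H58P (Qb ht)
open Pool.Agent.H54.AM

namespace RNK

section
variable {G : Subgroup Qbˣ} {ρ : ℕ} {v : Qbˣ → Fin ρ → ℚ}

theorem v_one (hadd : ∀ x ∈ G, ∀ y ∈ G, v (x * y) = v x + v y) : v 1 = 0 := by
  have h := hadd 1 G.one_mem 1 G.one_mem
  rw [mul_one] at h
  have h2 : v 1 + 0 = v 1 + v 1 := by rw [add_zero]; exact h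
  exact (add_left_cancel h2).symm

theorem v_inv (hadd : ∀ x ∈ G, ∀ y ∈ G, v (x * y) = v x + v y) {x : Qbˣ} (hx : x ∈ G) :
    v x⁻¹ = - v x := by
  have h := hadd x hx x⁻¹ (G.inv_mem hx)
  rw [mul_inv_cancel, v_one hadd] at h
  exact (neg_eq_of_add_eq_zero_right h.symm).symm

theorem v_div (hadd : ∀ x ∈ G, ∀ y ∈ G, v (x * y) = v x + v y) {x y : Qbˣ} (hx : x ∈ G)
    (hy : y ∈ G) : v (x / y) = v x - v y := by
  rw [div_eq_mul_inv, hadd x hx _ (G.inv_mem hy), v_inv hadd hy, sub_eq_add_neg]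

end

theorem span_gen {S : Set Qbˣ} {ρ : ℕ} {v : Qbˣ → Fin ρ → ℚ}
    (hadd : ∀ x ∈ Subgroup.closure S, ∀ y ∈ Subgroup.closure S, v (x * y) = v x + v y)
    (hspan : Submodule.span ℚ (v '' (Subgroup.closure S : Set Qbˣ)) = ⊤) :
    Submodule.span ℚ (v '' S) = ⊤ := by
  rw [eq_top_iff, ← hspan, Submodule.span_le]
  rintro _ ⟨x, hx, rfl⟩
  have hx' : x ∈ Subgroup.closure S := hx
  clear hx
  show v x ∈ Submodule.span ℚ (v '' S)
  induction hx' using Subgroup.closure_induction with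
  | mem x hx => exact Submodule.subset_span ⟨x, hx, rfl⟩
  | one => rw [v_one hadd]; exact zero_mem _
  | mul x y hx hy h1 h2 =>
    rw [hadd x hx y hy]
    exact add_mem h1 h2
  | inv x hx h1 =>
    rw [v_inv hadd hx]
    exact neg_mem h1

theorem lift_gen {S : Set Qbˣ} {ρ : ℕ} {v : Qbˣ → Fin ρ → ℚ}
    (hadd : ∀ x ∈ Subgroup.closure S, ∀ y ∈ Subgroup.closure S, v (x * y) = v x + v y)
    {y : Fin ρ → ℚ} (hy : y ∈ AddSubgroup.closure (v '' S)) :
    ∃ x ∈ Subgroup.closure S, v x = y := by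
  induction hy using AddSubgroup.closure_induction with
  | mem y hy =>
    obtain ⟨x, hx, rfl⟩ := hy
    exact ⟨x, Subgroup.subset_closure hx, rfl⟩
  | zero => exact ⟨1, Subgroup.one_mem _, v_one hadd⟩
  | add y y' hy hy' h1 h2 =>
    obtain ⟨x, hx, rfl⟩ := h1
    obtain ⟨x', hx', rfl⟩ := h2
    exact ⟨x * x', Subgroup.mul_mem _ hx hx', hadd x hx x' hx'⟩
  | neg y hy h1 =>
    obtain ⟨x, hx, rfl⟩ := h1
    exact ⟨x⁻¹, Subgroup.inv_mem _ hx, v_inv hadd hx⟩

/-- `k` independent elements -/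
theorem indep_sub {ρ k : ℕ} (hk : k ≤ ρ) {R : Set (Fin ρ → ℚ)} (hR : Submodule.span ℚ R = ⊤) :
    ∃ r : Fin k → Fin ρ → ℚ, (∀ j, r j ∈ R) ∧ LinearIndependent ℚ r := by
  obtain ⟨b, hb, hs, hl⟩ := exists_linearIndependent ℚ R
  rw [hR] at hs
  have hfin : b.Finite := hl.setFinite
  have : Fintype b := hfin.fintype
  have hcard : Fintype.card b = ρ := by
    have h1 := finrank_span_set_eq_card hl
    rw [hs, finrank_top, Module.finrank_fin_fun, Set.toFinset_card] at h1
    exact h1.symm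
  let e : Fin ρ ≃ b := (finCongr hcard.symm).trans (Fintype.equivFin b).symm
  refine ⟨fun j => (e (Fin.castLE hk j) : Fin ρ → ℚ), fun j => hb (e _).2, ?_⟩
  exact hl.comp (fun j => e (Fin.castLE hk j)) (e.injective.comp (Fin.castLE_injective hk))

theorem orbN_pos {F : GF} {n : ℕ} (u : Fin n → Qb) (h : (orbN F u).Finite) :
    1 ≤ (orbN F u).ncard := by
  have hne : (orbN F u).Nonempty := ⟨u, 1, fix_one F, rfl⟩
  exact (Set.ncard_pos h).2 hne

end RNK

open RNK in
theorem rnk : S_GEO → S_VEC → S_RAT → S_HTL → S_RNK := by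
  classical
  intro hgeo hvec hrat hhtl k ε c hk hε hc
  choose Cg hCg hgeo using hgeo
  obtain ⟨C, hC⟩ : ∃ C : ℝ, C = ∑ ρ ∈ Finset.range (k + 1), Cg ρ := ⟨_, rfl⟩
  have hCle : ∀ ρ, ρ ≤ k → Cg ρ ≤ C := fun ρ hρ => by
    rw [hC]
    exact Finset.single_le_sum (f := Cg) (fun i _ => (hCg i).le) (Finset.mem_range.2 (by omega))
  have hC0 : 0 < C := lt_of_lt_of_le (hCg 0) (hCle 0 (Nat.zero_le _))
  obtain ⟨c', hc'⟩ : ∃ c' : ℝ, c' = min 1 (min c (c / C)) := ⟨_, rfl⟩
  have hc'0 : 0 < c' := by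
    rw [hc']
    exact lt_min one_pos (lt_min hc (div_pos hc hC0))
  have hc'1 : c' ≤ 1 := by rw [hc']; exact min_le_left _ _
  have hc'2 : c' ≤ c := by rw [hc']; exact (min_le_right _ _).trans (min_le_left _ _)
  have hc'3 : c' ≤ c / C := by rw [hc']; exact (min_le_right _ _).trans (min_le_right _ _)
  refine ⟨c', hc'0, ?_⟩
  intro F α β H htor hα hβ h1 hcomm hH hex hyp
  have hfin : (ratS F β).Finite := (hrat F α β htor hα hβ h1 hcomm (Subgroup.closure (ratS F β) → Prop)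
    (fun x => fun y => Tor ((x / y : Qbˣ) : Qb)) (by
      intro x hx y hy
      constructor
      · intro h
        have h2 := congrFun h ⟨y, Subgroup.subset_closure hy⟩
        simp only at h2
        rw [h2, div_self', Units.val_one]
        exact tor_one
      · intro h
        funext z
        simp only [eq_iff_iff, Units.val_div_eq_div_val] at h ⊢
        constructor
        · intro h3
          have h4 := h3.div h
          have e : (x : Qb) / (z.1 : Qb) / ((x : Qb) / (y : Qb)) = (y : Qb) / (z.1 : Qb) := by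
            have := x.ne_zero
            have := y.ne_zero
            have := z.1.ne_zero
            field_simp
          rwa [e] at h4
        · intro h3
          have h4 := h3.mul h
          have e : (y : Qb) / (z.1 : Qb) * ((x : Qb) / (y : Qb)) = (x : Qb) / (z.1 : Qb) := by
            have := y.ne_zero
            field_simp
          rwa [e] at h4)).1
  have hFG : (Subgroup.closure (ratS F β)).FG := ⟨hfin.toFinset, by rw [Set.Finite.coe_toFinset]⟩
  obtain ⟨ρ, v, hadd, hker, hspan⟩ := hvec _ hFG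
  have hsub : ∀ x ∈ ratS F β, x ∈ Subgroup.closure (ratS F β) := fun x hx => Subgroup.subset_closure hx
  obtain ⟨_, hN, horb⟩ := hrat F α β htor hα hβ h1 hcomm (Fin ρ → ℚ) v (by
    intro x hx y hy
    rw [← hker _ (Subgroup.div_mem _ (hsub x hx) (hsub y hy)), v_div hadd (hsub x hx) (hsub y hy), sub_eq_zero])
  obtain ⟨hht, hind⟩ := hhtl _ ρ v hadd hker
  have hRs := span_gen hadd hspan
  have hRf : (v '' ratS F β).Finite := hfin.image v
  obtain ⟨τ₀, hτ₀, hnt⟩ := hex
  have hH0 : 0 ≤ H := by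
    refine le_trans ?_ (hH τ₀ hτ₀)
    exact Pool.Agent.H58R.ht_nonneg _
  -- `ρ` is positive
  have hρ : 0 < ρ := by
    rcases Nat.eq_zero_or_pos ρ with h0 | h0
    · exfalso
      subst h0
      apply hnt
      have hne : τ₀ β / β ≠ 0 := div_ne_zero ((map_ne_zero τ₀).2 hβ) hβ
      exact (hker (Units.mk0 _ hne) (hsub _ ⟨τ₀, hτ₀, rfl⟩)).1 (Subsingleton.elim _ _)
    · exact h0
  obtain ⟨N, hNd⟩ : ∃ N : ℕ, N = (v '' ratS F β).ncard := ⟨_, rfl⟩
  obtain ⟨D, hDd⟩ : ∃ D : ℕ, D = (orb F α).ncard := ⟨_, rfl⟩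
  have hN1 : 1 ≤ N := by
    rw [hNd]
    refine (Set.ncard_pos hRf).2 ?_
    have hne : τ₀ β / β ≠ 0 := div_ne_zero ((map_ne_zero τ₀).2 hβ) hβ
    exact ⟨_, Units.mk0 _ hne, ⟨τ₀, hτ₀, rfl⟩, rfl⟩
  rw [← hNd, ← hDd] at hN
  have hD1 : 1 ≤ D := hN1.trans hN
  have hNr : (1 : ℝ) ≤ N := by exact_mod_cast hN1
  have hDr : (1 : ℝ) ≤ D := by exact_mod_cast hD1
  have hNDr : (N : ℝ) ≤ D := by exact_mod_cast hN
  rw [← hDd]
  have hxht : ∀ x ∈ ratS F β, ht (x : Qb) ≤ H := by
    rintro x ⟨τ, hτ, e⟩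
    rw [e]
    exact hH τ hτ
  have hk0 : (0 : ℝ) < k := by exact_mod_cast hk
  -- lower bound from the hypothesis
  have hlow : ∀ (n : ℕ) (u : Fin n → Qbˣ), n ≤ k → (∀ i, u i ∈ Subgroup.closure (ratS F β)) →
      IndepN (fun i => (u i : Qb)) → c / (N : ℝ) ^ (1 + ε) ≤ ∏ i, ht (u i : Qb) := by
    intro n u hn hu hi
    refine le_trans ?_ (hyp n u hn hu hi)
    obtain ⟨h2, h3⟩ := horb n u hu
    have h4 := orbN_pos _ h2
    rw [← hNd] at h3
    have h4' : (1 : ℝ) ≤ ((orbN F (fun i => (u i : Qb))).ncard : ℝ) := by exact_mod_cast h4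
    have h3' : ((orbN F (fun i => (u i : Qb))).ncard : ℝ) ≤ N := by exact_mod_cast h3
    apply div_le_div_of_nonneg_left hc.le (Real.rpow_pos_of_pos (by linarith) _)
    exact Real.rpow_le_rpow (by linarith) h3' (by linarith)
  by_contra hlt
  rw [not_le] at hlt
  have hDe : ∀ e : ℝ, e ≤ max ε ((1 + ε) / k) → 0 ≤ e → c' / (D : ℝ) ^ max ε ((1 + ε) / k) ≤ c' / (D : ℝ) ^ e := by
    intro e he he0
    exact div_le_div_of_nonneg_left hc'0.le (Real.rpow_pos_of_pos (by linarith) _)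
      (Real.rpow_le_rpow_of_exponent_le hDr he)
  rcases le_or_gt ρ k with hρk | hρk
  · obtain ⟨r, w, hr, hw, hli, hprod⟩ := hgeo ρ hRf.toFinset (by rw [Set.Finite.coe_toFinset]; exact hRs)
    have hx : ∀ j, ∃ x ∈ ratS F β, v x = r j := fun j => by
      have := hr j
      rw [Set.Finite.mem_toFinset] at this
      exact this
    choose x hx hxr using hx
    have hu : ∀ i, ∃ y ∈ Subgroup.closure (ratS F β), v y = ∑ j, w i j • r j := fun i => by
      have := hw i
      rw [Set.Finite.coe_toFinset] at this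
      exact lift_gen hadd this
    choose u hu huv using hu
    have hI : IndepN (fun i => (u i : Qb)) := by
      apply hind ρ u hu
      simp only [huv]
      exact hli
    have h2 := hlow ρ u hρk hu hI
    have h3 : ∏ i, ht (u i : Qb) ≤ ∏ i, ((∑ j, |(w i j : ℝ)|) * H) := by
      apply Finset.prod_le_prod
      · intro i _
        exact Pool.Agent.H58R.ht_nonneg _
      · intro i _
        refine hht ρ x (w i) (u i) H (fun j => hsub _ (hx j)) (hu i) (fun j => hxht _ (hx j)) ?_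
        rw [huv]
        exact Finset.sum_congr rfl fun j _ => by rw [hxr]
    rw [Finset.prod_mul_distrib, Finset.prod_const, Finset.card_univ, Fintype.card_fin] at h3
    have hcard : (hRf.toFinset.card : ℝ) = N := by
      rw [hNd, Set.ncard_eq_toFinset_card _ hRf]
    rw [hcard] at hprod
    have h4 : (∏ i, ∑ j, |(w i j : ℝ)|) ≤ C / N := by
      rw [le_div_iff₀ (by linarith)]
      exact hprod.trans (hCle ρ hρk)
    have hH1 : H ≤ 1 := by
      refine hlt.le.trans ?_
      rw [div_le_one (Real.rpow_pos_of_pos (by linarith) _)]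
      exact hc'1.trans (Real.one_le_rpow hDr (le_trans hε.le (le_max_left _ _)))
    have h5 : H ^ ρ ≤ H := by
      calc H ^ ρ ≤ H ^ 1 := pow_le_pow_of_le_one hH0 hH1 hρ
        _ = H := pow_one H
    have h6 : c / (N : ℝ) ^ (1 + ε) ≤ C / N * H := by
      calc c / (N : ℝ) ^ (1 + ε) ≤ (∏ i, ∑ j, |(w i j : ℝ)|) * H ^ ρ := h2.trans h3
        _ ≤ C / N * H ^ ρ := mul_le_mul_of_nonneg_right h4 (pow_nonneg hH0 _)
        _ ≤ C / N * H := mul_le_mul_of_nonneg_left h5 (by positivity)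
    have h7 : H < (c / C) / (N : ℝ) ^ ε := by
      calc H < c' / (D : ℝ) ^ max ε ((1 + ε) / k) := hlt
        _ ≤ c' / (D : ℝ) ^ ε := hDe ε (le_max_left _ _) hε.le
        _ ≤ c' / (N : ℝ) ^ ε := div_le_div_of_nonneg_left hc'0.le (Real.rpow_pos_of_pos (by linarith) _)
            (Real.rpow_le_rpow (by linarith) hNDr hε.le)
        _ ≤ (c / C) / (N : ℝ) ^ ε := div_le_div_of_nonneg_right hc'3 (Real.rpow_nonneg (by linarith) _)
    have hN0 : (0 : ℝ) < N := by linarith
    have hNe : (0 : ℝ) < (N : ℝ) ^ ε := Real.rpow_pos_of_pos hN0 _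
    have h8 : C / N * H < C / N * ((c / C) / (N : ℝ) ^ ε) :=
      mul_lt_mul_of_pos_left h7 (by positivity)
    have h9 : C / N * ((c / C) / (N : ℝ) ^ ε) = c / (N : ℝ) ^ (1 + ε) := by
      rw [Real.rpow_add hN0, Real.rpow_one]
      field_simp
    rw [h9] at h8
    exact absurd h8 (not_lt.2 h6)
  · obtain ⟨r, hr, hli⟩ := indep_sub hρk.le hRs
    choose x hx hxr using hr
    have hI : IndepN (fun i => (x i : Qb)) := by
      apply hind k x (fun i => hsub _ (hx i))
      simp only [hxr]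
      exact hli
    have h2 := hlow k x le_rfl (fun i => hsub _ (hx i)) hI
    have h3 : ∏ i, ht (x i : Qb) ≤ H ^ k := by
      calc ∏ i, ht (x i : Qb) ≤ ∏ _i : Fin k, H := by
            apply Finset.prod_le_prod
            · intro i _
              exact Pool.Agent.H58R.ht_nonneg _
            · intro i _
              exact hxht _ (hx i)
        _ = H ^ k := by rw [Finset.prod_const, Finset.card_univ, Fintype.card_fin]
    have h4 : H < c' / (D : ℝ) ^ ((1 + ε) / k) :=
      lt_of_lt_of_le hlt (hDe _ (le_max_right _ _) (by positivity))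
    have h5 : H ^ k < (c' / (D : ℝ) ^ ((1 + ε) / k)) ^ k := pow_lt_pow_left₀ h4 hH0 hk.ne'
    have h6 : (c' / (D : ℝ) ^ ((1 + ε) / k)) ^ k = c' ^ k / (D : ℝ) ^ (1 + ε) := by
      rw [div_pow, ← Real.rpow_natCast ((D : ℝ) ^ ((1 + ε) / k)) k, ← Real.rpow_mul (by linarith)]
      congr 2
      field_simp
    have h7 : c' ^ k ≤ c := by
      calc c' ^ k ≤ c' ^ 1 := pow_le_pow_of_le_one hc'0.le hc'1 hk
        _ = c' := pow_one _
        _ ≤ c := hc'2
    have h8 : c' ^ k / (D : ℝ) ^ (1 + ε) ≤ c / (N : ℝ) ^ (1 + ε) := by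
      apply div_le_div₀ hc.le h7 (Real.rpow_pos_of_pos (by linarith) _)
      exact Real.rpow_le_rpow (by linarith) hNDr (by linarith)
    rw [h6] at h5
    linarith

end Pool.Agent.H54.AV
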