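import Pool.Agent.H54.AV.Stm

set_option autoImplicit false
set_option linter.unusedVariables false

/-! # AV-VEC: coordinates of a finitely generated group -/

namespace Pool.Agent.H54.AV

open Pool.Agent.W237.RK
open Pool.Agent.H58P (Qb ht)
open Pool.Agent.H54.AM

/-- `x ^ m = ∏ g i ^ k i` -/
def PV {r : ℕ} (g : Fin r → Qbˣ) (x : Qbˣ) (m : ℕ) (k : Fin r → ℤ) : Prop :=
  0 < m ∧ (x : Qb) ^ m = ∏ i, (g i : Qb) ^ k i

theorem PV.uniq {r : ℕ} {g : Fin r → Qbˣ} (hg : IndepN (fun i => (g i : Qb))) {x : Qbˣ} {m m' : ℕ}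
    {k k' : Fin r → ℤ} (h : PV g x m k) (h' : PV g x m' k') (i : Fin r) :
    (k i : ℚ) / m = (k' i : ℚ) / m' := by
  have h1 : (fun i => k i * m' - k' i * m) = 0 := by
    apply hg
    have h2 : ∏ i, ((fun i => (g i : Qb)) i) ^ (k i * m' - k' i * m) = 1 := by
      have h3 : ∀ i, ((g i : Qb)) ^ (k i * (m' : ℤ) - k' i * m) =
          ((g i : Qb) ^ k i) ^ m' * (((g i : Qb) ^ k' i) ^ m)⁻¹ := by
        intro i
        rw [zpow_sub₀ (Units.ne_zero (g i)), zpow_mul, zpow_mul, zpow_natCast, zpow_natCast,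
          div_eq_mul_inv]
      simp only [h3]
      rw [Finset.prod_mul_distrib, Finset.prod_inv_distrib, Finset.prod_pow, Finset.prod_pow, ← h.2,
        ← h'.2, ← pow_mul, ← pow_mul, mul_comm m' m]
      exact mul_inv_cancel₀ (pow_ne_zero _ (Units.ne_zero x))
    rw [h2]
    exact tor_one
  have h4 : k i * m' - k' i * m = 0 := congrFun h1 i
  have h5 : (k i : ℚ) * m' - k' i * m = 0 := by exact_mod_cast h4
  have hm : (m : ℚ) ≠ 0 := by exact_mod_cast h.1.ne'
  have hm' : (m' : ℚ) ≠ 0 := by exact_mod_cast h'.1.ne'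
  rw [div_eq_div_iff hm hm']
  linarith

theorem vec : AM.S_FGB → S_VEC := by
  classical
  intro hFGB G hG
  obtain ⟨r, g, hgG, hind, hdiv⟩ := hFGB G hG
  have hex : ∀ x ∈ G, ∃ (m : ℕ) (k : Fin r → ℤ), PV g x m k := by
    intro x hx
    obtain ⟨m, k, hm, h⟩ := hdiv (x : Qb) ⟨1, one_pos, x, hx, pow_one _⟩
    exact ⟨m, k, hm, h⟩
  choose! mm kk hPV using hex
  have key : ∀ x ∈ G, ∀ (m : ℕ) (k : Fin r → ℤ), PV g x m k →
      (fun i => (kk x i : ℚ) / mm x) = fun i => (k i : ℚ) / m := by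
    intro x hx m k h
    funext i
    exact (hPV x hx).uniq hind h i
  refine ⟨r, fun x i => (kk x i : ℚ) / mm x, ?_, ?_, ?_⟩
  · intro x hx y hy
    have h1 := hPV x hx
    have h2 := hPV y hy
    have h3 : PV g (x * y) (mm x * mm y) (fun i => kk x i * mm y + kk y i * mm x) := by
      refine ⟨Nat.mul_pos h1.1 h2.1, ?_⟩
      have h4 : ∀ i, (g i : Qb) ^ (kk x i * (mm y : ℤ) + kk y i * mm x) =
          ((g i : Qb) ^ kk x i) ^ mm y * ((g i : Qb) ^ kk y i) ^ mm x := by
        intro i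
        rw [zpow_add₀ (Units.ne_zero (g i)), zpow_mul, zpow_mul, zpow_natCast, zpow_natCast]
      simp only [h4]
      rw [Finset.prod_mul_distrib, Finset.prod_pow, Finset.prod_pow, ← h1.2, ← h2.2, Units.val_mul,
        mul_pow, ← pow_mul, ← pow_mul, mul_comm (mm y) (mm x)]
    show (fun i => (kk (x * y) i : ℚ) / mm (x * y)) = _
    rw [key (x * y) (mul_mem hx hy) _ _ h3]
    funext i
    have hm : (mm x : ℚ) ≠ 0 := by exact_mod_cast h1.1.ne'
    have hm' : (mm y : ℚ) ≠ 0 := by exact_mod_cast h2.1.ne'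
    simp only [Pi.add_apply]
    push_cast
    field_simp
  · intro x hx
    have h1 := hPV x hx
    have hm : (mm x : ℚ) ≠ 0 := by exact_mod_cast h1.1.ne'
    constructor
    · intro h
      have h2 : ∀ i, kk x i = 0 := by
        intro i
        have h3 : (kk x i : ℚ) / mm x = 0 := congrFun h i
        rw [div_eq_zero_iff] at h3
        rcases h3 with h3 | h3
        · exact_mod_cast h3
        · exact absurd h3 hm
      refine ⟨mm x, h1.1, ?_⟩
      rw [h1.2]
      simp [h2]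
    · rintro ⟨n, hn, hxn⟩
      show (fun i => (kk x i : ℚ) / mm x) = 0
      rw [key x hx n (fun _ => 0) ⟨hn, by simp [hxn]⟩]
      funext i
      simp
  · rw [eq_top_iff, ← (Pi.basisFun ℚ (Fin r)).span_eq]
    apply Submodule.span_mono
    rintro _ ⟨i, rfl⟩
    refine ⟨g i, hgG i, ?_⟩
    show (fun j => (kk (g i) j : ℚ) / mm (g i)) = _
    rw [key (g i) (hgG i) 1 (Pi.single i 1) ⟨one_pos, ?_⟩]
    · funext j
      rw [Pi.basisFun_apply]
      by_cases hj : j = i
      · subst hj; simp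
      · simp [hj]
    · rw [pow_one, Finset.prod_eq_single i]
      · simp
      · intro j _ hj
        simp [hj]
      · intro h; exact absurd (Finset.mem_univ i) h

end Pool.Agent.H54.AV
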