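import Mathlib
import Pool.Agent.H54.AM.Fin
import Pool.Agent.H54.AV.Mainp
import Pool.Agent.H54.AV.COM
import Pool.Agent.H54.AV.Clm
import Pool.Agent.H54.AV.Divl
import Pool.Agent.H54.AV.Fldb
import Pool.Agent.H54.AV.Frobg
import Pool.Agent.H54.AV.GLU
import Pool.Agent.H54.AV.Geo
import Pool.Agent.H54.AV.Htl
import Pool.Agent.H54.AV.Int
import Pool.Agent.H54.AV.Kum
import Pool.Agent.H54.AV.Locm
import Pool.Agent.H54.AV.Lvl
import Pool.Agent.H54.AV.Nrm
import Pool.Agent.H54.AV.Padm
import Pool.Agent.H54.AV.Rat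
import Pool.Agent.H54.AV.Redb
import Pool.Agent.H54.AV.Redp
import Pool.Agent.H54.AV.Rnk
import Pool.Agent.H54.AV.VEC

set_option autoImplicit false
set_option linter.unusedVariables false

/-!
# Small heights in the division field: all the pieces together
-/

namespace Pool.Agent.H54.AV

open Pool.Agent.W237.RK
open Pool.Agent.H54.RX (cs3' ks3')
open Pool.Agent.H54.AD (detl)
open Pool.Agent.H54.AM

theorem locm' : S_LOCM := locm padm detl clm embn

theorem adm' : S_ADM := adm locm' zen' gen AD.min

theorem rnk' : S_RNK := rnk (geo mkn) (vec fgb) rat htl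

theorem mainp' : S_MAINP :=
  mainp adm' frobg' (redp cs3' ks3' divl) (redb cs3') divl rnk' (kum Pool.Agent.W402.RK.kd.2)
    fldb intt glu com main5'

theorem mainw' : S_MAINW := mainw mainp' nrm

end Pool.Agent.H54.AV
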