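import Pool.Agent.H54.AV.Stm3
import Pool.Agent.H54.AV.Frobg

/-!
# AV-FROBD: Frobenius elements on radicals of `p`-adic units and elements of bounded degree
-/

set_option autoImplicit false

open Polynomial Pool.Agent.W237.RK Pool.Agent.W327.RK
open Pool.Agent.H58P (Qb ht)

namespace Pool.Agent.H54.AV

/-- Frobenius elements on fields of radicals and elements of bounded degree -/
theorem frobd : S_RES → S_STRUCT → S_REST → S_TAME → S_FROBD := by
  classical
  intro hR hS hRest hTame p _ φ K Γ D hK hΓK hΓ hD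
  have hp : p.Prime := Fact.out
  have hp1 : (1 : ℝ) < p := by exact_mod_cast hp.one_lt
  have hp0 : (0 : ℝ) < p := zero_lt_one.trans hp1
  obtain ⟨T, hTK, hT⟩ := exists_finset φ K hK
  set k0 : LF p := IntermediateField.adjoin ℚ_[p] (T : Set (Om p)) with hk0
  set k : LF p := kur p ⊔ k0 with hk
  have hfin : FinOver (kur p) k := ⟨T, rfl⟩
  obtain ⟨k₁, N, hkk₁, hk₁D, hk₁N, hk₁s⟩ := hTame p k D hfin hD
  obtain ⟨M₀, hM₀, hM₀mem, hM₀max⟩ := exists_order T
  refine ⟨max N (nres T), fun M' R hM' hRp B₀ hB₀ => ?_⟩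
  have hR0 : R ≠ 0 := by
    rintro rfl
    exact hRp (dvd_zero p)
  have hMM : ¬ p ∣ M' * (R * M₀) := by
    intro h
    rcases hp.dvd_mul.1 h with h | h
    · exact hM' h
    · rcases hp.dvd_mul.1 h with h | h
      · exact hRp h
      · exact hM₀ h
  set M₁ := M' * (R * M₀) with hM₁def
  have hM₁0 : M₁ ≠ 0 := by
    intro h
    rw [h] at hMM
    exact hMM (dvd_zero p)
  have : NeZero M₁ := ⟨hM₁0⟩
  -- the field `L'`
  obtain ⟨ζ', hζ'⟩ := HasEnoughRootsOfUnity.exists_primitiveRoot (Om p) M₁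
  set L₀ : LF p := IntermediateField.adjoin ℚ_[p] ((insert ζ' T : Finset (Om p)) : Set (Om p))
    with hL₀
  obtain ⟨M, hM, hMmem, hMmax⟩ := exists_order (insert ζ' T ∪ B₀.image φ)
  set L : LF p := IntermediateField.adjoin ℚ_[p]
    ((insert ζ' T ∪ B₀.image φ : Finset (Om p)) : Set (Om p)) with hL
  have hL₀L : L₀ ≤ L := by
    rw [hL₀, hL]
    refine IntermediateField.adjoin.mono _ _ _ ?_
    intro x hx
    exact Finset.mem_coe.2 (Finset.mem_union_left _ (Finset.mem_coe.1 hx))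
  have hM0 : M ≠ 0 := by
    rintro rfl
    exact hM (dvd_zero p)
  have : NeZero M := ⟨hM0⟩
  have hk0L₀ : k0 ≤ L₀ := by
    rw [hk0, hL₀]
    refine IntermediateField.adjoin.mono _ _ _ ?_
    intro x hx
    exact Finset.mem_coe.2 (Finset.mem_insert_of_mem (Finset.mem_coe.1 hx))
  have hk0L : k0 ≤ L := hk0L₀.trans hL₀L
  have hζ'L₀ : ζ' ∈ L₀ := IntermediateField.subset_adjoin _ _
    (Finset.mem_coe.2 (Finset.mem_insert_self _ _))
  have hζ'L : ζ' ∈ L := hL₀L hζ'L₀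
  have hM₁M : M₁ ∣ M := hζ'.dvd_of_pow_eq_one _ (hMmax M₁ ζ' hMM hζ'.pow_eq_one hζ'L)
  have hM'M : M' ∣ M := (Dvd.intro _ rfl).trans hM₁M
  obtain ⟨ζ, hζ⟩ := HasEnoughRootsOfUnity.exists_primitiveRoot (Om p) M
  obtain ⟨Φ, hΦ⟩ := exists_frob hM hζ.pow_eq_one
  obtain ⟨a, ha0, ha, haT⟩ := pigeon T Φ
  have hΦζ : ∀ z : Om p, z ^ M = 1 → (Φ ^ a) z = z ^ (p ^ a) := by
    intro z hz
    obtain ⟨i, -, rfl⟩ := hζ.eq_pow_of_pow_eq_one hz
    rw [map_pow, frob_iter hΦ, ← pow_mul, ← pow_mul, mul_comm]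
  have hΦk0 : LFix k0 (Φ ^ a) := by
    have h6 : k0 ≤ fixF (Φ ^ a) := IntermediateField.adjoin_le_iff.2 haT
    exact h6
  obtain ⟨σ, hσ⟩ := hRest p φ (Φ ^ a)
  -- the radicals
  have hrad : ∀ (y : Qb) (g : Qbˣ), g ∈ Γ → y ^ R = (g : Qb) → φ y ∈ L₀ := by
    intro y g hg hy
    have hyR : (φ y) ^ R = φ (g : Qb) := by rw [← map_pow, hy]
    have hyn : ‖φ y‖ = 1 := by
      have h6 : ‖φ y‖ ^ R = 1 := by rw [← norm_pow, hyR, hΓ g hg]
      exact (pow_eq_one_iff_of_nonneg (norm_nonneg _) hR0).1 h6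
    obtain ⟨c, hc, hyc⟩ := hR p (φ y) hyn.le
    have hcn1 : ‖c‖ ≤ 1 := by
      have h7 := um_sub (φ y) (φ y - c) hyn.le hyc.le
      rwa [sub_sub_cancel] at h7
    rcases hc with rfl | ⟨N', hN', hcN'⟩
    · rw [sub_zero, hyn] at hyc
      exact absurd hyc (lt_irrefl _)
    have hN'0 : N' ≠ 0 := by
      rintro rfl
      exact hN' (dvd_zero p)
    have hcn : ‖c‖ = 1 := norm_root hN'0 hcN'
    have hc0 : c ≠ 0 := by
      rintro rfl
      rw [norm_zero] at hcn
      exact zero_ne_one hcn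
    have hcR : c ^ R ∈ k0 := by
      refine mem_of_close (x := φ (g : Qb)) (hTK _ (hΓK g hg)) hN'
        (by rw [← pow_mul, mul_comm, pow_mul, hcN', one_pow]) ?_
      rw [← hyR]
      exact (pow_sub_pow_norm _ _ _ hyn.le hcn1).trans_lt hyc
    have hcRM : (c ^ R) ^ M₀ = 1 := hM₀max N' (c ^ R) hN'
      (by rw [← pow_mul, mul_comm, pow_mul, hcN', one_pow]) hcR
    have hcL : c ∈ L₀ := by
      have h8 : c ^ M₁ = 1 := by
        rw [hM₁def, mul_comm M', pow_mul, pow_mul, hcRM, one_pow]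
      obtain ⟨i, -, rfl⟩ := hζ'.eq_pow_of_pow_eq_one h8
      exact pow_mem hζ'L₀ i
    have hw : φ y / c ∈ L₀ := by
      have hy0 : φ y ≠ 0 := by
        intro h
        rw [h, norm_zero] at hyn
        exact zero_ne_one hyn
      refine mem_of_pow_mem hRp (div_ne_zero hy0 hc0) ?_ ?_
      · rw [div_pow, hyR]
        exact div_mem (hk0L₀ (hTK _ (hΓK g hg))) (pow_mem hcL _)
      · have h9 : φ y / c - 1 = (φ y - c) / c := by rw [sub_div, div_self hc0]
        rw [h9, norm_div, hcn, div_one]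
        exact hyc
    have h10 := mul_mem hw hcL
    rwa [div_mul_cancel₀ _ hc0] at h10
  -- the field `k₁` contains `L`
  have hL₀k : L₀ ≤ k := by
    rw [hL₀, IntermediateField.adjoin_le_iff]
    intro y hy
    rw [Finset.mem_coe, Finset.mem_insert] at hy
    rcases hy with rfl | hy
    · exact (le_sup_left : kur p ≤ k)
        (IntermediateField.subset_adjoin _ _ ⟨M₁, hMM, hζ'.pow_eq_one⟩)
    · exact (le_sup_right : k0 ≤ k) (IntermediateField.subset_adjoin _ _ (Finset.mem_coe.2 hy))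
  have hlevk : ∀ x ∈ lev K Γ M' R, φ x ∈ k :=
    mem_lev_comap (fun y hy => (le_sup_right : k0 ≤ k) (hTK y hy))
      (fun z hz => (le_sup_left : kur p ≤ k) (IntermediateField.subset_adjoin _ _ ⟨M', hM', hz⟩))
      (fun y g hg hy => hL₀k (hrad y g hg hy))
  have hB₀k : ∀ b ∈ B₀, φ b ∈ k₁ := by
    intro b hb
    refine hk₁D _ (le_trans ?_ (hB₀ b hb))
    have hsub : lorb k (φ b) ⊆ (fun x => φ x) '' Pool.Agent.W237.RK.orb (lev K Γ M' R) b := by
      rintro _ ⟨s, hs, rfl⟩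
      obtain ⟨τ, hτ⟩ := hRest p φ s
      refine ⟨τ b, ⟨τ, fun x hx => ?_, rfl⟩, hτ b⟩
      refine φ.injective ?_
      rw [hτ]
      exact hs _ (hlevk x hx)
    exact (Set.ncard_le_ncard hsub ((Pool.Agent.W237.RK.orb_finite _ b).image _)).trans
      (Set.ncard_image_le (Pool.Agent.W237.RK.orb_finite _ b))
  have hLk₁ : L ≤ k₁ := by
    rw [hL, IntermediateField.adjoin_le_iff]
    intro y hy
    rw [Finset.mem_coe, Finset.mem_union] at hy
    rcases hy with hy | hy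
    · exact hkk₁ (hL₀k (IntermediateField.subset_adjoin _ _ (Finset.mem_coe.2 hy)))
    · obtain ⟨b, hb, rfl⟩ := Finset.mem_image.1 hy
      exact hB₀k b hb
  have hΦk : ∀ x ∈ k, (Φ ^ a) x ∈ k := by
    have h9 : k ≤ IntermediateField.comap (Φ ^ a).toAlgHom k := by
      refine sup_le (IntermediateField.adjoin_le_iff.2 ?_) (fun y hy => ?_)
      · rintro y ⟨N', hN', hy⟩
        show (Φ ^ a) y ∈ k
        refine (le_sup_left : kur p ≤ k) (IntermediateField.subset_adjoin _ _ ⟨N', hN', ?_⟩)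
        rw [← map_pow, hy, map_one]
      · show (Φ ^ a) y ∈ k
        rw [hΦk0 y hy]
        exact (le_sup_right : k0 ≤ k) hy
    exact fun x hx => h9 hx
  refine ⟨M, σ, a, hM, hM'M, ?_, ha0, le_max_of_le_right ha, ?_⟩
  · intro x hx
    refine φ.injective ?_
    rw [hσ]
    exact hΦk0 _ (hTK x hx)
  · intro x hx hx1
    have hxL : φ x ∈ L := by
      have h1 : lev K Γ M R ⊔ IntermediateField.adjoin ℚ (B₀ : Set Qb) ≤ comapF φ L := by
        refine sup_le ?_ (IntermediateField.adjoin_le_iff.2 ?_)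
        · exact fun y hy => mem_lev_comap (fun y hy => hk0L (hTK y hy)) hMmem
            (fun y g hg hy => hL₀L (hrad y g hg hy)) y hy
        · intro b hb
          show φ b ∈ L
          exact IntermediateField.subset_adjoin _ _ (Finset.mem_coe.2
            (Finset.mem_union_right _ (Finset.mem_image_of_mem φ (Finset.mem_coe.1 hb))))
      exact h1 hx
    obtain ⟨c, hc, hxc⟩ := hR p (φ x) hx1
    have hc' : (Φ ^ a) c = c ^ (p ^ a) := by
      rcases hc with rfl | ⟨N', hN', hcN'⟩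
      · rw [map_zero, zero_pow (pow_ne_zero _ hp.ne_zero)]
      · exact hΦζ c (hMmax N' c hN' hcN' (mem_of_close hxL hN' hcN' hxc))
    set z : Om p := φ (σ x - x ^ (p ^ a)) with hz
    have hzeq : z = (Φ ^ a) (φ x) - (φ x) ^ (p ^ a) := by
      rw [hz, map_sub, hσ, map_pow]
    have hcn : ‖c‖ ≤ 1 := by
      have h7 := um_sub (φ x) (φ x - c) hx1 hxc.le
      rwa [sub_sub_cancel] at h7
    have hz1 : ‖z‖ < 1 := by
      have h8 : z = (Φ ^ a) (φ x - c) - ((φ x) ^ (p ^ a) - c ^ (p ^ a)) := by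
        rw [hzeq, map_sub, hc']
        ring
      rw [h8]
      refine um_sub_lt _ _ ?_ ?_
      · rw [norm_aut]
        exact hxc
      · exact (pow_sub_pow_norm _ _ _ hx1 hcn).trans_lt hxc
    have hzk : z ∈ k₁ := by
      rw [hzeq]
      exact sub_mem (hk₁s _ hΦk _ (hLk₁ hxL)) (pow_mem (hLk₁ hxL) _)
    have hzN : ‖z‖ ^ N ≤ (p : ℝ)⁻¹ := hk₁N z hzk hz1
    calc ‖z‖ ^ (max N (nres T)) ≤ ‖z‖ ^ N :=
          pow_le_pow_of_le_one (norm_nonneg _) hz1.le (le_max_left _ _)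
      _ ≤ _ := hzN

/-- `S_FROBD` from `S_TAME` -/
theorem frobd' : S_TAME → S_FROBD :=
  frobd Pool.Agent.W237.RK.res Pool.Agent.W237.RK.struct Pool.Agent.W237.RK.rest

end Pool.Agent.H54.AV
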