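import Mathlib
import Pool.Agent.H54.AV.Stm3

set_option autoImplicit false
set_option linter.unusedVariables false

/-!
# Small heights in bounded extensions of the division field: the assembly
-/

namespace Pool.Agent.H54.AV

open Pool.Agent.W237.RK
open Pool.Agent.H58P (Qb ht)
open Pool.Agent.H58R (ht_nonneg ht_mul_le ht_inv)
open Pool.Agent.H58B (ht_conj ht_pow)
open Pool.Agent.H54.RX
open Pool.Agent.H54.AD (pt exists_emb)
open Pool.Agent.H54.AM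
open Pool.Agent.Q246.FD (divF)

lemma lev_le_divF (K : GF) (Γ : Subgroup Qbˣ) {N R : ℕ} (hN : 0 < N) (hR : 0 < R) :
    lev K Γ N R ≤ divF K Γ := by
  refine lev_le (fun x hx => IntermediateField.subset_adjoin _ _ (Or.inl hx)) ?_ ?_
  · intro x hx
    exact IntermediateField.subset_adjoin _ _ (Or.inr (divG_tor Γ ⟨N, hN, hx⟩))
  · intro y hy
    exact IntermediateField.subset_adjoin _ _ (Or.inr ⟨R, hR, hy⟩)

lemma normal_sup {K A B : GF} (hA : NormalOver K A) (hB : NormalOver K B) :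
    NormalOver K (A ⊔ B) := by
  intro σ hσ x hx
  have h1 : (A ⊔ B).map (σ : Qb →ₐ[ℚ] Qb) ≤ A ⊔ B := by
    rw [IntermediateField.map_sup]
    refine sup_le ?_ ?_
    · rintro _ ⟨y, hy, rfl⟩
      exact (le_sup_left : A ≤ A ⊔ B) (hA σ hσ y hy)
    · rintro _ ⟨y, hy, rfl⟩
      exact (le_sup_right : B ≤ A ⊔ B) (hB σ hσ y hy)
  exact h1 ⟨x, hx, rfl⟩

lemma normal_adjoin_set {K : GF} (s : Set Qb) (hs : ∀ σ : Aut, Fix K σ → ∀ x ∈ s, σ x ∈ s) :
    NormalOver K (IntermediateField.adjoin ℚ s) := by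
  intro σ hσ x hx
  have h1 : (IntermediateField.adjoin ℚ s).map (σ : Qb →ₐ[ℚ] Qb) ≤
      IntermediateField.adjoin ℚ s := by
    rw [IntermediateField.adjoin_map]
    refine IntermediateField.adjoin.mono _ _ _ ?_
    rintro _ ⟨y, hy, rfl⟩
    exact hs σ hσ y hy
  exact h1 ⟨x, hx, rfl⟩

set_option maxHeartbeats 1000000 in
theorem maind : S_ADM → S_FROBD → S_DSC → S_REDC → S_DIVL → S_RNKD → S_KUM → S_FLDB → S_INT →
    S_GLU → S_COM → S_COMD → S_UNITP → S_MAIN5 → S_MAIND := by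
  classical
  intro hADM hFROB hDSC hREDC hDIVL hRNK hKUM hFLD hINT hGLU hCOM hCOMD hUNIT hM5 K Γ hK hΓfg hΓ
    P₀ hP₀ D ε hε
  -- the prime
  obtain ⟨r, gg, hgΓ, hgen⟩ := exists_gens Γ hΓfg
  obtain ⟨p, hpf, hDp, hφ⟩ := hUNIT D r (fun i => (gg i : Qb)) (fun i => (gg i).ne_zero)
  have hp : p.Prime := hpf.out
  obtain ⟨φ⟩ := exists_emb p
  have hφΓ : ∀ x ∈ Γ, ‖φ (x : Qb)‖ = 1 := by
    intro x hx
    obtain ⟨e, rfl⟩ := hgen x hx
    exact norm_prod_zpow φ gg (hφ φ) e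
  set P : Finset ℕ := insert p P₀ with hPdef
  have hP : ∀ q ∈ P, q.Prime := by
    intro q hq
    rw [hPdef, Finset.mem_insert] at hq
    rcases hq with rfl | hq
    · exact hp
    · exact hP₀ q hq
  have hpP : p ∈ P := Finset.mem_insert_self _ _
  obtain ⟨R₀, cA, hR₀s, hcA, hA⟩ := hDSC K Γ P D hK hΓfg hΓ hP
  have hR₀pos : 0 < R₀ := hR₀s.1
  obtain ⟨n₀, R₁, hR₁, hR₀eq⟩ := Nat.exists_eq_pow_mul_and_not_dvd hR₀pos.ne' p hp.ne_one
  obtain ⟨i₀, cB, hcB, hni, hB⟩ := hREDC p K Γ D hp hK hΓfg hΓ n₀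
  set K' := lev K Γ (p ^ i₀) R₀ with hK'
  have hK'fd : FiniteDimensional ℚ K' :=
    finiteDimensional_lev K hK Γ hΓfg _ _ (pow_pos hp.pos _) hR₀pos
  have hKK' : K ≤ K' := le_lev K Γ _ _
  set Γ' := radS Γ R₀ with hΓ'def
  have hΓ' : ∀ g ∈ Γ', (g : Qb) ∈ K' := fun g hg => rad_mem_lev K Γ ((radS_iff g).mp hg)
  have hφΓ' : ∀ g ∈ Γ', ‖φ (g : Qb)‖ = 1 := by
    intro g hg
    obtain ⟨x, hx, h⟩ := (radS_iff g).mp hg
    have h1 := hφΓ x hx
    rw [← h, map_pow, norm_pow] at h1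
    exact (pow_eq_one_iff_of_nonneg (norm_nonneg _) hR₀pos.ne').mp h1
  obtain ⟨n₁, hF⟩ := hFROB p φ K' Γ' D hK'fd hΓ' hφΓ' hDp
  -- the constants
  set ε' : ℝ := min ε 1 with hε'
  have hε'0 : 0 < ε' := lt_min hε one_pos
  have hε'1 : ε' ≤ 1 := min_le_right _ _
  have hε'ε : ε' ≤ ε := min_le_left _ _
  obtain ⟨k, hk⟩ := exists_nat_gt (2 / ε)
  have hkR : (0 : ℝ) < k := lt_trans (by positivity) hk
  have hk0 : 0 < k := by exact_mod_cast hkR
  choose cn hcn hcn' using fun n => hADM p φ (Module.finrank ℚ K') n₁ n ε' hε'0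
  set cM : ℝ := (1 + ∑ n ∈ Finset.range (k + 1), (cn n)⁻¹)⁻¹ with hcM
  have hsum0 : 0 ≤ ∑ n ∈ Finset.range (k + 1), (cn n)⁻¹ :=
    Finset.sum_nonneg fun n _ => (inv_pos.mpr (hcn n)).le
  have hcMpos : 0 < cM := by
    rw [hcM]
    positivity
  have hcMle : ∀ n ≤ k, cM ≤ cn n := by
    intro n hn
    have h1 : (cn n)⁻¹ ≤ ∑ n ∈ Finset.range (k + 1), (cn n)⁻¹ :=
      Finset.single_le_sum (f := fun n => (cn n)⁻¹) (fun n _ => (inv_pos.mpr (hcn n)).le)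
        (Finset.mem_range.mpr (by omega))
    rw [hcM, ← inv_inv (cn n)]
    apply inv_anti₀ (inv_pos.mpr (hcn n))
    linarith
  obtain ⟨cR, hcR, hR⟩ := hRNK k D ε' cM hk0 hε'0 hcMpos
  obtain ⟨cS, hcS, hSt⟩ := hM5 K Γ hK hΓfg hΓ P hP 1 one_pos
  set C₀ : ℝ := min (min (cA / 4) (cB / 4)) (min (cR / 4) (cS / 2)) with hC₀
  have hC₀pos : 0 < C₀ := lt_min (lt_min (by positivity) (by positivity))
    (lt_min (by positivity) (by positivity))
  have hC1 : C₀ ≤ cA / 4 := (min_le_left _ _).trans (min_le_left _ _)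
  have hC2 : C₀ ≤ cB / 4 := (min_le_left _ _).trans (min_le_right _ _)
  have hC3 : C₀ ≤ cR / 4 := (min_le_right _ _).trans (min_le_left _ _)
  have hC4 : C₀ ≤ cS / 2 := (min_le_right _ _).trans (min_le_right _ _)
  set Dn : ℝ := (D : ℝ) + 1 with hDn
  have hDn0 : 0 < Dn := by positivity
  refine ⟨C₀ / Dn, by positivity, fun α hα0 hαD hαd γ hγ => ?_⟩
  by_contra hlt
  push Not at hlt
  have hγ0 : γ ≠ 0 := Pool.Agent.TH53.RP.DivG.ne_zero hγ
  set Finf : GF := divF K Γ with hFinf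
  set F : GF := fullField K Γ P with hFdef
  have hFFinf : F ≤ Finf := fullField_le_divF K Γ P
  have hF₀F : fullField K Γ P₀ ≤ F := fullField_mono K Γ (Finset.subset_insert p P₀)
  have hkinfF : kinf K ≤ F := kinf_le_fullField K Γ P
  have htorF : ∀ x : Qb, Tor x → x ∈ F := fun x hx => hkinfF (tor_mem_kinf K hx)
  have htorI : ∀ x : Qb, Tor x → x ∈ Finf := fun x hx => hFFinf (htorF x hx)
  have hKF : K ≤ F := le_fullField K Γ P
  have hnormI : NormalOver K Finf := normal_divF K Γ hΓ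
  set DP : ℕ := (orb (fullField K Γ P₀) α).ncard with hDP
  have hDPpos : 0 < DP := orb_ncard_pos _ _
  have hDPR : (1 : ℝ) ≤ DP := by exact_mod_cast hDPpos
  have hDP0 : (0 : ℝ) < DP := by linarith
  have hDPε : (1 : ℝ) ≤ (DP : ℝ) ^ ε := Real.one_le_rpow hDPR hε.le
  -- torsion rigidity
  obtain ⟨e, he0, heT, heD⟩ := torRigid_split (Finf := Finf) htorI hα0
  have heR : (0 : ℝ) < e := by exact_mod_cast he0
  set α₁ := α ^ e with hα₁
  have hα₁0 : α₁ ≠ 0 := pow_ne_zero _ hα0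
  set g₁ := γ ^ e with hg₁
  have hg₁0 : g₁ ≠ 0 := pow_ne_zero _ hγ0
  have hg₁d : DivG Γ g₁ := divG_pow hγ e
  have hα₁D : (orb Finf α₁).ncard ≤ D :=
    ((Nat.le_mul_of_pos_left _ he0).trans heD).trans hαD
  have heD' : (e : ℝ) ≤ Dn := by
    have h1 : e ≤ D := by
      calc e = e * 1 := (mul_one e).symm
        _ ≤ e * (orb Finf α₁).ncard := Nat.mul_le_mul_left _ (orb_ncard_pos _ _)
        _ ≤ D := heD.trans hαD
    have h2 : (e : ℝ) ≤ D := by exact_mod_cast h1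
    rw [hDn]
    linarith
  set η : ℝ := ht (α₁ / g₁) with hη
  have hηe : η = e * ht (α / γ) := by
    rw [hη, hα₁, hg₁, ← div_pow, ht_pow]
  have hη0 : 0 ≤ η := ht_nonneg _
  have hηlt : η < C₀ / (DP : ℝ) ^ ε := by
    have h1 : (0 : ℝ) < (DP : ℝ) ^ ε := by linarith
    calc η = e * ht (α / γ) := hηe
      _ < e * (C₀ / Dn / (DP : ℝ) ^ ε) := mul_lt_mul_of_pos_left hlt heR
      _ ≤ Dn * (C₀ / Dn / (DP : ℝ) ^ ε) := mul_le_mul_of_nonneg_right heD' (by positivity)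
      _ = C₀ / (DP : ℝ) ^ ε := by field_simp
  have hηC : η < C₀ := hηlt.trans_le (div_le_self hC₀pos.le hDPε)
  have hq0 : α₁ / g₁ ≠ 0 := div_ne_zero hα₁0 hg₁0
  have hhσ : ∀ σ : Aut, Fix K σ → ht (σ α₁ / α₁) ≤ 2 * η := by
    intro σ hσ
    rw [← ht_div hg₁0 (tor_ratio hΓ hg₁0 hg₁d hσ)]
    have h1 := ht_mul_le (σ (α₁ / g₁)) (α₁ / g₁)⁻¹
    rw [ht_inv _ hq0, ht_conj, ← div_eq_mul_inv] at h1
    linarith
  -- the descent
  obtain ⟨γ₁, M, hγ₁0, hγ₁d, hMpos, hMP, hrig1⟩ :=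
    hA α₁ hα₁0 hα₁D heT (fun σ hσ => (hhσ σ hσ).trans (by linarith))
  have hγ₁F : γ₁ ∈ Finf := IntermediateField.subset_adjoin _ _ (Or.inr hγ₁d)
  have hMp : ¬ p ∣ M := hMP p hpP
  have e0 : R₀ * M = p ^ n₀ * (R₁ * M) := by rw [hR₀eq, mul_assoc]
  rw [e0] at hrig1
  obtain ⟨ω, M', hω, hM', hrig2⟩ := hB (R₁ * M) (α₁ / γ₁)
    (fun h => (hp.dvd_mul.mp h).elim hR₁ hMp) (div_ne_zero hα₁0 hγ₁0)
    (by rw [orb_div_ncard hγ₁0 hγ₁F]; exact hα₁D) (torRigid_div heT hγ₁0 hγ₁F) hrig1 (by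
    intro σ hσ
    rw [ht_div hγ₁0 (tor_ratio hΓ hγ₁0 hγ₁d hσ)]
    exact (hhσ σ hσ).trans (by linarith))
  rw [← e0, div_div] at hrig2
  set γ₂ : Qb := γ₁ * ω with hγ₂
  have hγ₂0 : γ₂ ≠ 0 := mul_ne_zero hγ₁0 hω.ne_zero
  have hγ₂d : DivG Γ γ₂ := hγ₁d.mul (divG_tor Γ hω)
  have hγ₂F : γ₂ ∈ Finf := IntermediateField.subset_adjoin _ _ (Or.inr hγ₂d)
  set β : Qb := α₁ / γ₂ with hβ
  have hβ0 : β ≠ 0 := div_ne_zero hα₁0 hγ₂0
  have hβD : (orb Finf β).ncard ≤ D := by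
    rw [hβ, orb_div_ncard hγ₂0 hγ₂F]
    exact hα₁D
  have hβT : TorRigid Finf β := torRigid_div heT hγ₂0 hγ₂F
  have hM'pos : 0 < M' := Nat.pos_of_ne_zero (by rintro rfl; exact hM' (dvd_zero p))
  have hcop : Nat.Coprime (p ^ i₀) M' :=
    Nat.Coprime.pow_left _ ((Nat.Prime.coprime_iff_not_dvd hp).mpr hM')
  -- the lower field
  obtain ⟨hl1, hl2⟩ := hFLD K Γ (p ^ i₀) R₀ M M' M' hΓ (pow_pos hp.pos _) hR₀pos hMpos hM'pos
    hcop dvd_rfl
  have hLI : lev K' Γ' M' M ≤ Finf := hl2.trans (lev_le_divF K Γ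
    (Nat.mul_pos (pow_pos hp.pos _) hM'pos) (Nat.mul_pos hR₀pos hMpos))
  have hrigL : Rigid Finf (lev K' Γ' M' M) β := rigid_mono hl1 hrig2
  have horbL : (orb (lev K' Γ' M' M) β).ncard ≤ D := by
    rw [orb_eq_of_rigid hLI hrigL]
    exact hβD
  set B₀ : Finset Qb := (orb_finite K' β).toFinset with hB₀
  have hB₀mem : ∀ b, b ∈ B₀ ↔ b ∈ orb K' β := by
    intro b
    rw [hB₀, Set.Finite.mem_toFinset]
  have hB₀D : ∀ b ∈ B₀, (orb (lev K' Γ' M' M) b).ncard ≤ D := by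
    intro b hb
    obtain ⟨τ, hτ, rfl⟩ := (hB₀mem b).mp hb
    exact (orb_conj_ncard (normal_lev K' Γ' hΓ' M' M) hτ β).trans horbL
  -- the fields
  obtain ⟨M'', σ, a, hM'', hdvd, hσ, ha0, ha1, hfrob⟩ := hF M' M hM' hMp B₀ hB₀D
  have hM''pos : 0 < M'' := Nat.pos_of_ne_zero (by rintro rfl; exact hM'' (dvd_zero p))
  obtain ⟨hle1, hle2⟩ := hFLD K Γ (p ^ i₀) R₀ M M' M'' hΓ (pow_pos hp.pos _) hR₀pos hMpos hM''pos
    hcop hdvd
  set M₀ : GF := lev K' Γ' M'' M with hM₀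
  have htop : FiniteDimensional ℚ (lev K Γ (p ^ i₀ * M'') (R₀ * M)) :=
    finiteDimensional_lev K hK Γ hΓfg _ _ (Nat.mul_pos (pow_pos hp.pos _) hM''pos)
      (Nat.mul_pos hR₀pos hMpos)
  have hM₀fd : FiniteDimensional ℚ M₀ :=
    Module.Finite.of_injective (IntermediateField.inclusion hle2).toLinearMap
      (IntermediateField.inclusion hle2).injective
  set M₁ : GF := M₀ ⊔ IntermediateField.adjoin ℚ (B₀ : Set Qb) with hM₁
  have hadfd : FiniteDimensional ℚ (IntermediateField.adjoin ℚ (B₀ : Set Qb)) := by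
    have : Finite (B₀ : Set Qb) := B₀.finite_toSet
    exact IntermediateField.finiteDimensional_adjoin fun x _ => Pool.Agent.H58P.qb_isIntegral x
  have hM₁fd : FiniteDimensional ℚ M₁ :=
    IntermediateField.finiteDimensional_sup M₀ (IntermediateField.adjoin ℚ (B₀ : Set Qb))
  have hβM₁ : β ∈ M₁ := (le_sup_right : IntermediateField.adjoin ℚ (B₀ : Set Qb) ≤ M₁)
    (IntermediateField.subset_adjoin _ _ (Finset.mem_coe.mpr ((hB₀mem β).mpr (self_mem_orb K' β))))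
  have hnM₀ : NormalOver K' M₀ := normal_lev K' Γ' hΓ' M'' M
  have hnM : NormalOver K' M₁ := by
    refine normal_sup hnM₀ (normal_adjoin_set _ ?_)
    intro τ hτ x hx
    rw [Finset.mem_coe, hB₀mem] at hx ⊢
    obtain ⟨τ', hτ', rfl⟩ := hx
    exact ⟨τ * τ', fix_mul hτ hτ', rfl⟩
  have hK'F : K' ≤ F := by
    refine (lev_le_levInf K Γ (pow_pos hp.pos _)).trans ?_
    exact levInf_le_fullField K Γ hR₀s
  set F' : GF := kinf K' with hF'def
  have hF'F : F' ≤ F := by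
    refine sup_le hK'F ?_
    rw [IntermediateField.adjoin_le_iff]
    exact fun x hx => htorF x hx
  have hK'F' : K' ≤ F' := le_kinf K'
  have hKF' : K ≤ F' := hKK'.trans hK'F'
  have htorF' : ∀ x : Qb, Tor x → x ∈ F' := fun x hx => tor_mem_kinf K' hx
  have hkF' : kinf K ≤ F' := kinf_mono hKK'
  have hF'I : F' ≤ Finf := hF'F.trans hFFinf
  have hnF' : NormalOver K' F' := normal_kinf K'
  have hK'E : K' ≤ M₁ ⊓ F' := le_inf ((le_lev K' Γ' _ _).trans le_sup_left) hK'F'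
  have hnE : NormalOver K' (M₁ ⊓ F') := fun τ hτ x hx => ⟨hnM τ hτ x hx.1, hnF' τ hτ x hx.2⟩
  have hcomm : ∀ τ : Aut, Fix K' τ → ∀ x ∈ M₁ ⊓ F', τ (σ x) = σ (τ x) := fun τ hτ x hx =>
    hCOM.2 K' σ τ hσ hτ x hx.2
  have hFM : ∀ ρ : Aut, Fix F' ρ → ∀ x ∈ M₁, ρ x ∈ M₁ := fun ρ hρ x hx =>
    hnM ρ (fix_mono hK'F' hρ) x hx
  have hnI' : NormalOver F' Finf := fun τ hτ x hx => hnormI τ (fix_mono hKF' hτ) x hx
  -- the conjugates over `F'` are conjugates over `F`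
  have hrigM : Rigid Finf M₀ β := rigid_mono hle1 hrig2
  have hEk : M₀ ⊓ F ≤ F' := by
    refine le_trans ?_ (hINT K K' Γ Γ' P M hKK' hΓ hΓ' hP hMpos hMP)
    exact inf_le_inf_right _ (lev_le_levInf K' Γ' hM''pos)
  have hsame : ∀ τ : Aut, Fix F' τ → ∃ τ₁ : Aut, Fix F τ₁ ∧ τ₁ β = τ β := by
    intro τ hτ
    obtain ⟨τ₁, hτ₁, hag⟩ := hGLU F M₀ hM₀fd (fun ρ hρ x hx => hnM₀ ρ (fix_mono hK'F hρ) x hx) τ
      (fix_mono hEk hτ)
    have hκ : Fix M₀ (τ₁⁻¹ * τ) := by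
      intro x hx
      show τ₁⁻¹ (τ x) = x
      rw [hag x hx, inv_apply_self]
    obtain ⟨ρ, hρ, h1⟩ := hrigM _ hκ
    refine ⟨τ₁ * ρ, fix_mul hτ₁ (fix_mono hFFinf hρ), ?_⟩
    show τ₁ (ρ β) = τ β
    rw [← h1]
    show τ₁ (τ₁⁻¹ (τ β)) = τ β
    rw [apply_inv_self]
  -- the ratios
  have hratio : ∀ τ : Aut, Fix K τ → Tor ((τ β / β) / (τ α₁ / α₁)) := by
    intro τ hτ
    have h1 : Tor (τ γ₂ / γ₂) := tor_ratio hΓ hγ₂0 hγ₂d hτ
    have e1 : (τ β / β) / (τ α₁ / α₁) = (τ γ₂ / γ₂)⁻¹ := by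
      have h2 : τ γ₂ ≠ 0 := (map_ne_zero τ).mpr hγ₂0
      have h3 : τ α₁ ≠ 0 := (map_ne_zero τ).mpr hα₁0
      rw [hβ, map_div₀]
      field_simp
    rw [e1]
    exact h1.inv
  by_cases hex : ∃ τ : Aut, Fix F' τ ∧ ¬ Tor (τ β / β)
  · -- some ratio is not torsion
    set S : Finset Qbˣ := (orb_finite F α).toFinset.image
      (fun y => if h : (y / α) ^ e ≠ 0 then Units.mk0 ((y / α) ^ e) h else 1) with hS
    have hScard : S.card ≤ (orb F α).ncard := by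
      rw [Set.ncard_eq_toFinset_card _ (orb_finite F α)]
      exact Finset.card_image_le
    have hmain := hR F' Finf β (2 * η) (orb F α).ncard S htorF' hF'I hnI'
      (fun τ τ' hτ hτ' x hx => hCOMD K Γ hΓ τ τ' (fix_mono hkF' hτ) (fix_mono hkF' hτ') x hx)
      hβ0 hβT hβD hScard
      (by
        intro x hx
        obtain ⟨τ, hτ, hxτ⟩ := hx
        obtain ⟨τ₁, hτ₁, h1⟩ := hsame τ hτ
        have h2 : τ₁ α ≠ 0 := (map_ne_zero τ₁).mpr hα0
        have h3 : (τ₁ α / α) ^ e ≠ 0 := pow_ne_zero _ (div_ne_zero h2 hα0)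
        refine ⟨Units.mk0 ((τ₁ α / α) ^ e) h3, ?_, ?_⟩
        · rw [hS, Finset.mem_image]
          refine ⟨τ₁ α, ?_, ?_⟩
          · rw [Set.Finite.mem_toFinset]
            exact ⟨τ₁, hτ₁, rfl⟩
          · rw [dif_pos h3]
        · rw [Units.val_div_eq_div_val, Units.val_mk0, hxτ, ← h1]
          have h4 := hratio τ₁ (fix_mono hKF hτ₁)
          have e1 : (τ₁ α / α) ^ e = τ₁ α₁ / α₁ := by
            rw [hα₁, map_pow, div_pow]
          rw [e1]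
          exact h4)
      (by
        intro τ hτ
        rw [hβ, ht_div hγ₂0 (tor_ratio hΓ hγ₂0 hγ₂d (fix_mono hKF' hτ))]
        exact hhσ τ (fix_mono hKF' hτ))
      hex
      (by
        intro n u hn hu hind
        have huM : ∀ i, (u i : Qb) ∈ M₁ := fun i =>
          closure_mem hβM₁ (fun τ hτ => hFM τ hτ β hβM₁) (hu i)
        have h1 := hcn' n K' (M₁ ⊓ F') M₁ σ a (fun i => (u i : Qb)) hK'fd le_rfl hM₁fd hK'E
          inf_le_left hnE hnM hσ hcomm ha0 ha1 hfrob (fun i => (u i).ne_zero) huM hind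
        refine le_trans ?_ h1
        have hsub : orbN (M₁ ⊓ F') (fun i => (u i : Qb)) ⊆ orbN F' (fun i => (u i : Qb)) := by
          rintro _ ⟨ρ, hρ, rfl⟩
          obtain ⟨ρ', hρ', hag⟩ := hGLU F' M₁ hM₁fd hFM ρ hρ
          refine ⟨ρ', hρ', ?_⟩
          funext i
          exact (hag _ (huM i)).symm
        have hle : ((orbN (M₁ ⊓ F') (fun i => (u i : Qb))).ncard : ℝ) ≤
            ((orbN F' (fun i => (u i : Qb))).ncard : ℝ) := by
          exact_mod_cast Set.ncard_le_ncard hsub (orbN_finite' F' _)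
        have hpos : (0 : ℝ) < ((orbN (M₁ ⊓ F') (fun i => (u i : Qb))).ncard : ℝ) := by
          exact_mod_cast orbN_pos _ _
        calc cM / ((orbN F' (fun i => (u i : Qb))).ncard : ℝ) ^ (1 + ε')
            ≤ cM / ((orbN (M₁ ⊓ F') (fun i => (u i : Qb))).ncard : ℝ) ^ (1 + ε') := by
              apply div_le_div_of_nonneg_left hcMpos.le (by positivity)
              exact Real.rpow_le_rpow hpos.le hle (by linarith)
          _ ≤ cn n / ((orbN (M₁ ⊓ F') (fun i => (u i : Qb))).ncard : ℝ) ^ (1 + ε') :=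
              div_le_div_of_nonneg_right (hcMle n hn) (by positivity))
    have hDα : ((orb F α).ncard : ℝ) ≤ DP := by
      exact_mod_cast Set.ncard_le_ncard (orb_mono hF₀F α) (orb_finite _ _)
    have hDα1 : (1 : ℝ) ≤ ((orb F α).ncard : ℝ) := by exact_mod_cast orb_ncard_pos F α
    have hexp : max ε' ((1 + ε') / k) ≤ ε := by
      refine max_le hε'ε ?_
      rw [div_le_iff₀ hkR]
      have h1 : 2 < k * ε := by rwa [div_lt_iff₀ hε] at hk
      linarith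
    have h2 : ((orb F α).ncard : ℝ) ^ (max ε' ((1 + ε') / k)) ≤ (DP : ℝ) ^ ε := by
      calc ((orb F α).ncard : ℝ) ^ (max ε' ((1 + ε') / k))
          ≤ ((orb F α).ncard : ℝ) ^ ε := Real.rpow_le_rpow_of_exponent_le hDα1 hexp
        _ ≤ (DP : ℝ) ^ ε := Real.rpow_le_rpow (by linarith) hDα hε.le
    have h3 : cR / (DP : ℝ) ^ ε ≤ 2 * η := by
      refine le_trans ?_ hmain
      apply div_le_div_of_nonneg_left hcR.le _ h2
      exact Real.rpow_pos_of_pos (by linarith) _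
    have h4 : C₀ / (DP : ℝ) ^ ε ≤ (cR / 4) / (DP : ℝ) ^ ε :=
      div_le_div_of_nonneg_right hC3 (by positivity)
    have h5 : (cR / 4) / (DP : ℝ) ^ ε = (cR / (DP : ℝ) ^ ε) / 4 := by ring
    have h6 : 0 < cR / (DP : ℝ) ^ ε := by positivity
    linarith
  · -- all the ratios are torsion
    push Not at hex
    have hβI : β ∈ Finf := by
      apply mem_of_fix
      intro τ hτ
      exact hβT τ hτ (hex τ (fix_mono hF'I hτ))
    have hα₁I : α₁ ∈ Finf := by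
      have e1 : α₁ = β * γ₂ := by rw [hβ, div_mul_cancel₀ _ hγ₂0]
      rw [e1]
      exact mul_mem hβI hγ₂F
    have hαtor : ∀ τ : Aut, Fix F τ → Tor (τ α₁ / α₁) := by
      intro τ hτ
      have h1 := hex τ (fix_mono hF'F hτ)
      have h2 := hratio τ (fix_mono hKF hτ)
      have e1 : τ α₁ / α₁ = (τ β / β) / ((τ β / β) / (τ α₁ / α₁)) := by
        have h3 : τ α₁ ≠ 0 := (map_ne_zero τ).mpr hα₁0
        have h4 : τ β ≠ 0 := (map_ne_zero τ).mpr hβ0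
        field_simp
      rw [e1]
      exact h1.div h2
    obtain ⟨R, hR0, hαR⟩ := hDIVL K Γ α₁ hα₁I
    obtain ⟨γ₃, hγ₃0, hγ₃d, hmem3⟩ := hKUM K F Γ R α₁ hΓfg hR0 hKF hΓ htorF hα₁0 hαR hαtor
    have horb1 : (orb F (α₁ / γ₃)).ncard ≤ 1 := by
      rw [orb_of_mem hmem3, Set.ncard_singleton]
    have h1 := hSt 1 1 1 one_pos one_pos one_pos (α₁ / γ₃) (div_ne_zero hα₁0 hγ₃0) horb1
      (by rw [pow_one]; exact horb1)
      (by
        intro h
        apply hαd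
        apply Pool.Agent.TH53.RP.DivG.of_pow he0
        have e1 : α ^ e = (α₁ / γ₃) * γ₃ := by rw [div_mul_cancel₀ _ hγ₃0]
        rw [e1]
        exact h.mul hγ₃d)
      (g₁ / γ₃)
      (by
        rw [div_eq_mul_inv]
        exact hg₁d.mul (divG_inv hγ₃d))
    have e1 : α₁ / γ₃ / (g₁ / γ₃) = α₁ / g₁ := by field_simp
    rw [e1] at h1
    simp only [Nat.cast_one, Real.one_rpow, mul_one, div_one] at h1
    linarith

end Pool.Agent.H54.AV
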