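import Pool.Agent.H54.AV.Stm

set_option autoImplicit false
set_option linter.unusedVariables false

namespace Pool.Agent.H54.AV

open Pool.Agent.W237.RK
open Pool.Agent.H58P (Qb ht)
open Pool.Agent.H54.AM

namespace RAT

/-- the ratio as a unit -/
noncomputable def ru (β : Qb) (hβ : β ≠ 0) (τ : Aut) : Qbˣ :=
  Units.mk0 (τ β / β) (div_ne_zero ((map_ne_zero τ).2 hβ) hβ)

theorem ru_val (β : Qb) (hβ : β ≠ 0) (τ : Aut) : (ru β hβ τ : Qb) = τ β / β := rfl

theorem mem_ratS {F : GF} {β : Qb} (hβ : β ≠ 0) {τ : Aut} (h : Fix F τ) : ru β hβ τ ∈ ratS F β :=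
  ⟨τ, h, rfl⟩

theorem eq_ru {F : GF} {β : Qb} (hβ : β ≠ 0) {x : Qbˣ} (hx : x ∈ ratS F β) :
    ∃ τ, Fix F τ ∧ x = ru β hβ τ := by
  obtain ⟨τ, h, e⟩ := hx
  exact ⟨τ, h, Units.ext e⟩

theorem ratS_finite (F : GF) (β : Qb) : (ratS F β).Finite := by
  have h1 : ((fun x : Qbˣ => (x : Qb)) '' ratS F β).Finite := by
    refine ((orb_finite F β).image (fun z => z / β)).subset ?_
    rintro _ ⟨x, ⟨τ, hτ, e⟩, rfl⟩
    exact ⟨τ β, ⟨τ, hτ, rfl⟩, e.symm⟩
  exact h1.of_finite_image (fun x _ y _ h => Units.ext h)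

end RAT

open RAT in
theorem rat : S_RAT := by
  classical
  intro F α β htor hα hβ h1 hcomm V v hv
  have hfin := ratS_finite F β
  have hvv : ∀ τ τ' : Aut, Fix F τ → Fix F τ' → (v (ru β hβ τ) = v (ru β hβ τ') ↔ Tor (τ β / τ' β)) := by
    intro τ τ' hτ hτ'
    rw [hv _ (mem_ratS hβ hτ) _ (mem_ratS hβ hτ'), Units.val_div_eq_div_val, ru_val, ru_val]
    have h0 : τ' β ≠ 0 := (map_ne_zero τ').2 hβ
    have e : τ β / β / (τ' β / β) = τ β / τ' β := by
      field_simp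
    rw [e]
  refine ⟨hfin, ?_, ?_⟩
  · have h2 : v '' ratS F β ⊆ (fun a : Qb => if h : ∃ τ : Aut, Fix F τ ∧ τ α = a then
        v (ru β hβ h.choose) else v 1) '' orb F α := by
      rintro _ ⟨x, hx, rfl⟩
      obtain ⟨τ, hτ, rfl⟩ := eq_ru hβ hx
      have hex : ∃ τ' : Aut, Fix F τ' ∧ τ' α = τ α := ⟨τ, hτ, rfl⟩
      refine ⟨τ α, ⟨τ, hτ, rfl⟩, ?_⟩
      simp only
      rw [dif_pos hex]
      obtain ⟨h3, h4⟩ := hex.choose_spec
      rw [hvv _ _ h3 hτ]
      have h5 := (h1 _ h3).div (h1 τ hτ)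
      have h0 : τ β ≠ 0 := (map_ne_zero τ).2 hβ
      have h0' : τ α ≠ 0 := (map_ne_zero τ).2 hα
      have e : hex.choose β / β / (hex.choose α / α) / (τ β / β / (τ α / α)) =
          hex.choose β / τ β := by
        rw [h4]
        field_simp
      rw [e] at h5
      exact h5
    exact (Set.ncard_le_ncard h2 ((orb_finite F α).image _)).trans (Set.ncard_image_le (orb_finite F α))
  · intro n u hu
    have key : ∀ τ τ' : Aut, Fix F τ → Fix F τ' → v (ru β hβ τ) = v (ru β hβ τ') →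
        ∀ x ∈ Subgroup.closure (ratS F β), τ (x : Qb) = τ' (x : Qb) := by
      intro τ τ' hτ hτ' he x hx
      have hz := (hvv τ τ' hτ hτ').1 he
      have h0 : τ' β ≠ 0 := (map_ne_zero τ').2 hβ
      have h0' : τ β ≠ 0 := (map_ne_zero τ).2 hβ
      have e1 : τ β = (τ β / τ' β) * τ' β := by field_simp
      induction hx using Subgroup.closure_induction with
      | mem x hx =>
        obtain ⟨κ, hκ, rfl⟩ := eq_ru hβ hx
        rw [ru_val, map_div₀, map_div₀, hcomm τ κ hτ hκ, hcomm τ' κ hτ' hκ]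
        have e2 : κ (τ β) = (τ β / τ' β) * κ (τ' β) := by
          conv_lhs => rw [e1]
          rw [map_mul, hκ _ (htor _ hz)]
        rw [e2]
        have h3 : κ (τ' β) ≠ 0 := (map_ne_zero κ).2 h0
        field_simp
      | one => rw [Units.val_one, map_one, map_one]
      | mul x y hx hy h1 h2 =>
        rw [Units.val_mul, map_mul, map_mul, h1, h2]
      | inv x hx h1 =>
        rw [Units.val_inv_eq_inv_val, map_inv₀, map_inv₀, h1]
    have h2 : orbN F (fun i => (u i : Qb)) ⊆ (fun a : V => fun i => if h : ∃ τ : Aut, Fix F τ ∧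
        v (ru β hβ τ) = a then h.choose (u i : Qb) else 0) '' (v '' ratS F β) := by
      rintro _ ⟨τ, hτ, rfl⟩
      have hex : ∃ τ' : Aut, Fix F τ' ∧ v (ru β hβ τ') = v (ru β hβ τ) := ⟨τ, hτ, rfl⟩
      refine ⟨v (ru β hβ τ), ⟨_, mem_ratS hβ hτ, rfl⟩, ?_⟩
      funext i
      beta_reduce
      rw [dif_pos hex]
      obtain ⟨h3, h4⟩ := hex.choose_spec
      exact key _ _ h3 hτ h4 _ (hu i)
    have h3 : (v '' ratS F β).Finite := hfin.image v
    exact ⟨(h3.image _).subset h2, (Set.ncard_le_ncard h2 (h3.image _)).trans (Set.ncard_image_le h3)⟩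

end Pool.Agent.H54.AV
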