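import Pool.Agent.H54.AV.Stm3
import Pool.Agent.H54.AV.Rat

set_option autoImplicit false
set_option linter.unusedVariables false

/-!
# Counting conjugates, bounded degree (stub AV-RATD)
-/

namespace Pool.Agent.H54.AV

open Pool.Agent.W237.RK
open Pool.Agent.H58P (Qb ht)
open Pool.Agent.H54.AM

namespace RATD

open RAT

/-- an automorphism over `F` which multiplies `β` by a root of unity -/
def G1 (F : GF) (β : Qb) (κ : Aut) : Prop := Fix F κ ∧ Tor (κ β / β)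

variable {F F₁ : GF} {β : Qb}

theorem g1_eq (hβ : β ≠ 0) {κ : Aut} : κ β = (κ β / β) * β := by field_simp

theorem g1_inv_apply (htor : ∀ x : Qb, Tor x → x ∈ F) (hβ : β ≠ 0) {κ : Aut} (hκ : G1 F β κ) :
    κ⁻¹ β = (κ β / β)⁻¹ * β := by
  obtain ⟨hκF, hζ⟩ := hκ
  have e := congrArg (κ⁻¹ : Aut) (g1_eq hβ (κ := κ))
  rw [inv_apply_self, map_mul, fix_inv hκF _ (htor _ hζ)] at e
  rw [eq_inv_mul_iff_mul_eq₀ hζ.ne_zero]
  exact e.symm

theorem g1_mul (htor : ∀ x : Qb, Tor x → x ∈ F) (hβ : β ≠ 0) {κ κ' : Aut} (hκ : G1 F β κ)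
    (hκ' : G1 F β κ') : G1 F β (κ * κ') := by
  refine ⟨fix_mul hκ.1 hκ'.1, ?_⟩
  have e : (κ * κ') β = κ (κ' β) := rfl
  rw [e, g1_eq hβ (κ := κ'), map_mul, hκ.1 _ (htor _ hκ'.2), mul_div_assoc]
  exact hκ'.2.mul hκ.2

theorem g1_inv (htor : ∀ x : Qb, Tor x → x ∈ F) (hβ : β ≠ 0) {κ : Aut} (hκ : G1 F β κ) :
    G1 F β κ⁻¹ := by
  refine ⟨fix_inv hκ.1, ?_⟩
  rw [g1_inv_apply htor hβ hκ, mul_div_assoc, div_self hβ, mul_one]
  exact hκ.2.inv

/-- key fact (1) -/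
theorem conj1 (htor : ∀ x : Qb, Tor x → x ∈ F) (hn : NormalOver F F₁)
    (hab : ∀ τ τ' : Aut, Fix F τ → Fix F τ' → ∀ x ∈ F₁, τ (τ' x) = τ' (τ x)) (hβ : β ≠ 0)
    {κ τ : Aut} (hκ : G1 F β κ) (hτ : Fix F τ) :
    ∃ c : Aut, Fix F₁ c ∧ κ (τ β) = (κ β / β) * c (τ β) := by
  have hζ0 : κ β / β ≠ 0 := hκ.2.ne_zero
  refine ⟨κ * τ * κ⁻¹ * τ⁻¹, ?_, ?_⟩
  · intro x hx
    show κ (τ (κ⁻¹ (τ⁻¹ x))) = x
    rw [hab κ⁻¹ τ⁻¹ (fix_inv hκ.1) (fix_inv hτ) x hx, apply_inv_self, apply_inv_self]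
  · show κ (τ β) = (κ β / β) * κ (τ (κ⁻¹ (τ⁻¹ (τ β))))
    rw [inv_apply_self, g1_inv_apply htor hβ hκ, map_mul, hτ _ (htor _ hκ.2.inv), map_mul,
      hκ.1 _ (htor _ hκ.2.inv), ← mul_assoc, mul_inv_cancel₀ hζ0, one_mul]

/-- the values on the ratios -/
theorem conj2 (htor : ∀ x : Qb, Tor x → x ∈ F) (hn : NormalOver F F₁)
    (hab : ∀ τ τ' : Aut, Fix F τ → Fix F τ' → ∀ x ∈ F₁, τ (τ' x) = τ' (τ x)) (hβ : β ≠ 0)
    {κ τ : Aut} (hκ : G1 F β κ) (hτ : Fix F τ) :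
    ∃ c : Aut, Fix F₁ c ∧ κ (τ β / β) = c (τ β) / β := by
  obtain ⟨c, hc, h⟩ := conj1 htor hn hab hβ hκ hτ
  refine ⟨c, hc, ?_⟩
  have hζ0 : κ β / β ≠ 0 := hκ.2.ne_zero
  have h0 : κ β ≠ 0 := (map_ne_zero κ).2 hβ
  rw [map_div₀, h]
  field_simp

theorem orb_le (hn : NormalOver F F₁) {τ : Aut} (hτ : Fix F τ) {D : ℕ}
    (hD : (orb F₁ β).ncard ≤ D) : (orb F₁ (τ β)).ncard ≤ D := by
  have h : orb F₁ (τ β) ⊆ (τ : Qb → Qb) '' orb F₁ β := by
    rintro _ ⟨c, hc, rfl⟩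
    refine ⟨(τ⁻¹ * c * τ) β, ⟨_, fix_conj' hn hτ hc, rfl⟩, ?_⟩
    show τ (τ⁻¹ (c (τ β))) = c (τ β)
    rw [apply_inv_self]
  exact ((Set.ncard_le_ncard h ((orb_finite F₁ β).image _)).trans
    (Set.ncard_image_le (orb_finite F₁ β))).trans hD

/-- an automorphism in `G1` which changes a ratio by a root of unity fixes it -/
theorem fix_ratio (htor : ∀ x : Qb, Tor x → x ∈ F) (hn : NormalOver F F₁)
    (hab : ∀ τ τ' : Aut, Fix F τ → Fix F τ' → ∀ x ∈ F₁, τ (τ' x) = τ' (τ x)) (hβ : β ≠ 0)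
    (hrig : TorRigid F₁ β) {κ τ : Aut} (hκ : G1 F β κ) (hτ : Fix F τ)
    (ht : Tor (κ (τ β / β) / (τ β / β))) : κ (τ β / β) = τ β / β := by
  obtain ⟨c, hc, h⟩ := conj2 htor hn hab hβ hκ hτ
  have h0 : τ β ≠ 0 := (map_ne_zero τ).2 hβ
  rw [h] at ht ⊢
  have e1 : c (τ β) / β / (τ β / β) = c (τ β) / τ β := by field_simp
  rw [e1] at ht
  have h1 := hrig (τ⁻¹ * c * τ) (fix_conj' hn hτ hc) (by
    have h2 := ht.map τ⁻¹
    rw [map_div₀, inv_apply_self] at h2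
    exact h2)
  have h3 : τ⁻¹ (c (τ β)) = β := h1
  have h4 : c (τ β) = τ β := by
    rw [← apply_inv_self τ (c (τ β)), h3]
  rw [h4]

theorem exists_den {m : ℕ} (c : Fin m → ℚ) :
    ∃ q : ℕ, 0 < q ∧ ∃ a : Fin m → ℤ, ∀ i, (q : ℚ) * c i = a i := by
  refine ⟨∏ l, (c l).den, Finset.prod_pos fun l _ => (c l).den_pos, ?_⟩
  have h : ∀ i, ∃ a : ℤ, ((∏ l, (c l).den : ℕ) : ℚ) * c i = a := by
    intro i
    obtain ⟨k, hk⟩ := Finset.dvd_prod_of_mem (fun l => (c l).den) (Finset.mem_univ i)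
    refine ⟨k * (c i).num, ?_⟩
    rw [hk]
    push_cast
    have := Rat.mul_den_eq_num (c i)
    calc ((c i).den : ℚ) * k * c i = k * (c i * (c i).den) := by ring
      _ = k * (c i).num := by rw [this]
  choose a ha using h
  exact ⟨a, ha⟩

/-- elements of the group are, up to torsion and roots, products of the `r j` -/
theorem tor_of_span {ρ : ℕ} {G : Subgroup Qbˣ} (v : Qbˣ → Fin ρ → ℚ)
    (hv : ∀ x ∈ G, ∀ y ∈ G, v (x * y) = v x + v y) (hv0 : ∀ x ∈ G, v x = 0 ↔ Tor (x : Qb))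
    {m : ℕ} (r : Fin m → Qbˣ) (hr : ∀ j, r j ∈ G)
    (hs : Submodule.span ℚ (Set.range fun j => v (r j)) = ⊤) (x : Qbˣ) (hx : x ∈ G) :
    ∃ (q : ℕ) (a : Fin m → ℤ), 0 < q ∧ Tor ((x ^ q * (∏ j, r j ^ a j)⁻¹ : Qbˣ) : Qb) := by
  let φ : G →* Multiplicative (Fin ρ → ℚ) :=
    MonoidHom.mk' (fun y => Multiplicative.ofAdd (v (y : Qbˣ))) (by
      intro y z
      rw [← ofAdd_add, ← hv _ y.2 _ z.2]
      rfl)
  have hφ : ∀ y : G, (φ y).toAdd = v (y : Qbˣ) := fun y => rfl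
  have hmem : v x ∈ Submodule.span ℚ (Set.range fun j => v (r j)) := by rw [hs]; trivial
  rw [Submodule.mem_span_range_iff_exists_fun] at hmem
  obtain ⟨c, hc⟩ := hmem
  obtain ⟨q, hq, a, ha⟩ := exists_den c
  refine ⟨q, a, hq, ?_⟩
  let xG : G := ⟨x, hx⟩
  let rG : Fin m → G := fun j => ⟨r j, hr j⟩
  have hy : ((xG ^ q * (∏ j, rG j ^ a j)⁻¹ : G) : Qbˣ) = x ^ q * (∏ j, r j ^ a j)⁻¹ := by
    simp [xG, rG]
  rw [← hy]
  refine (hv0 _ (xG ^ q * (∏ j, rG j ^ a j)⁻¹ : G).2).1 ?_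
  rw [← hφ, map_mul, map_inv, map_pow, map_prod]
  simp only [map_zpow, toAdd_mul, toAdd_inv, toAdd_pow, toAdd_prod, toAdd_zpow, hφ]
  have e1 : v (xG : Qbˣ) = v x := rfl
  have e2 : ∀ j, v (rG j : Qbˣ) = v (r j) := fun j => rfl
  simp only [e1, e2]
  rw [← hc, Finset.smul_sum, ← sub_eq_add_neg, sub_eq_zero]
  refine Finset.sum_congr rfl fun j _ => ?_
  funext l
  simp only [Pi.smul_apply, smul_eq_mul, nsmul_eq_mul, zsmul_eq_mul]
  rw [← mul_assoc, ha j]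

/-- key fact (3) -/
theorem fix_all (htor : ∀ x : Qb, Tor x → x ∈ F) (hn : NormalOver F F₁)
    (hab : ∀ τ τ' : Aut, Fix F τ → Fix F τ' → ∀ x ∈ F₁, τ (τ' x) = τ' (τ x)) (hβ : β ≠ 0)
    (hrig : TorRigid F₁ β) {ρ : ℕ} (v : Qbˣ → Fin ρ → ℚ)
    (hv : ∀ x ∈ Subgroup.closure (ratS F β), ∀ y ∈ Subgroup.closure (ratS F β),
      v (x * y) = v x + v y)
    (hv0 : ∀ x ∈ Subgroup.closure (ratS F β), v x = 0 ↔ Tor (x : Qb))
    {m : ℕ} (r : Fin m → Qbˣ) (hr : ∀ j, r j ∈ ratS F β)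
    (hs : Submodule.span ℚ (Set.range fun j => v (r j)) = ⊤) {κ : Aut} (hκ : G1 F β κ)
    (hfix : ∀ j, κ (r j : Qb) = (r j : Qb)) (x : Qbˣ) (hx : x ∈ Subgroup.closure (ratS F β)) :
    κ (x : Qb) = (x : Qb) := by
  induction hx using Subgroup.closure_induction with
  | mem x hx =>
    obtain ⟨τ, hτ, rfl⟩ := eq_ru hβ hx
    rw [ru_val]
    refine fix_ratio htor hn hab hβ hrig hκ hτ ?_
    obtain ⟨q, a, hq, h⟩ := tor_of_span v hv hv0 r (fun j => Subgroup.subset_closure (hr j)) hs _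
      (Subgroup.subset_closure hx)
    -- apply `κ` to the units
    have hL : Units.map (κ : Qb →* Qb) (ru β hβ τ ^ q * (∏ j, r j ^ a j)⁻¹) =
        ru β hβ τ ^ q * (∏ j, r j ^ a j)⁻¹ := by
      refine Units.ext ?_
      rw [Units.coe_map]
      exact hκ.1 _ (htor _ h)
    have hrL : ∀ j, Units.map (κ : Qb →* Qb) (r j) = r j := fun j =>
      Units.ext (by rw [Units.coe_map]; exact hfix j)
    rw [map_mul, map_pow, map_inv, map_prod] at hL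
    simp only [map_zpow, hrL] at hL
    have h1 := mul_right_cancel hL
    have h2 : (κ (τ β / β)) ^ q = (τ β / β) ^ q := by
      have := congrArg (fun u : Qbˣ => (u : Qb)) h1
      simpa [Units.coe_map, ru_val] using this
    have h0 : τ β / β ≠ 0 := div_ne_zero ((map_ne_zero τ).2 hβ) hβ
    exact ⟨q, hq, by rw [div_pow, h2, div_self (pow_ne_zero _ h0)]⟩
  | one => rw [Units.val_one, map_one]
  | mul x y hx hy h1 h2 => rw [Units.val_mul, map_mul, h1, h2]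
  | inv x hx h1 => rw [Units.val_inv_eq_inv_val, map_inv₀, h1]

/-- the count -/
theorem count (htor : ∀ x : Qb, Tor x → x ∈ F) (hn : NormalOver F F₁)
    (hab : ∀ τ τ' : Aut, Fix F τ → Fix F τ' → ∀ x ∈ F₁, τ (τ' x) = τ' (τ x)) (hβ : β ≠ 0)
    {D : ℕ} (hD : (orb F₁ β).ncard ≤ D) {ρ : ℕ} (v : Qbˣ → Fin ρ → ℚ)
    (hv : ∀ x ∈ Subgroup.closure (ratS F β), ∀ y ∈ Subgroup.closure (ratS F β),
      v (x * y) = v x + v y)
    (hv0 : ∀ x ∈ Subgroup.closure (ratS F β), v x = 0 ↔ Tor (x : Qb))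
    {m : ℕ} (r : Fin m → Qbˣ) (hr : ∀ j, r j ∈ ratS F β) {n : ℕ} (u : Fin n → Qbˣ)
    (hdet : ∀ κ κ' : Aut, G1 F β κ → G1 F β κ' → (∀ j, κ (r j : Qb) = κ' (r j : Qb)) →
      ∀ i, κ (u i : Qb) = κ' (u i : Qb)) :
    (orbN F (fun i => (u i : Qb))).ncard ≤ D ^ m * (v '' ratS F β).ncard := by
  classical
  have hfin := ratS_finite F β
  choose t ht1 ht2 using fun j => eq_ru hβ (hr j)
  let O : Fin m → Finset Qb := fun j => ((orb_finite F₁ (t j β)).toFinset).image (fun z => z / β)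
  have hO : ∀ j, (O j).card ≤ D := by
    intro j
    refine Finset.card_image_le.trans ?_
    rw [← Set.ncard_eq_toFinset_card (orb F₁ (t j β)) (orb_finite F₁ (t j β))]
    exact orb_le hn (ht1 j) hD
  let S : Finset (Fin ρ → ℚ) := (hfin.image v).toFinset
  have hS : S.card = (v '' ratS F β).ncard := (Set.ncard_eq_toFinset_card _ _).symm
  let T : (Fin ρ → ℚ) → Aut := fun a => if h : ∃ τ : Aut, Fix F τ ∧ v (ru β hβ τ) = a then h.choose else 1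
  let Φ : (Fin m → Qb) × (Fin ρ → ℚ) → Fin n → Qb := fun aw i =>
    T aw.2 (if h : ∃ κ : Aut, G1 F β κ ∧ ∀ j, κ (r j : Qb) = aw.1 j then h.choose (u i : Qb) else 0)
  have hsub : orbN F (fun i => (u i : Qb)) ⊆ ((Fintype.piFinset O ×ˢ S).image Φ : Finset (Fin n → Qb)) := by
    rintro _ ⟨τ', hτ', rfl⟩
    have hex : ∃ τ : Aut, Fix F τ ∧ v (ru β hβ τ) = v (ru β hβ τ') := ⟨τ', hτ', rfl⟩
    have hT : T (v (ru β hβ τ')) = hex.choose := dif_pos hex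
    obtain ⟨h1, h2⟩ := hex.choose_spec
    rw [← hT] at h1 h2
    set T' := T (v (ru β hβ τ')) with hT'
    -- the quotient
    have hcl : ∀ τ : Aut, Fix F τ → ru β hβ τ ∈ Subgroup.closure (ratS F β) := fun τ hτ =>
      Subgroup.subset_closure (mem_ratS hβ hτ)
    have h3 : Tor ((ru β hβ τ' * (ru β hβ T')⁻¹ : Qbˣ) : Qb) := by
      have hm : ru β hβ τ' * (ru β hβ T')⁻¹ ∈ Subgroup.closure (ratS F β) :=
        mul_mem (hcl _ hτ') (inv_mem (hcl _ h1))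
      refine (hv0 _ hm).1 ?_
      have h4 := hv _ hm _ (hcl _ h1)
      rw [inv_mul_cancel_right, h2] at h4
      exact add_eq_right.1 h4.symm
    have h5 : Tor (τ' β / T' β) := by
      have e : ((ru β hβ τ' * (ru β hβ T')⁻¹ : Qbˣ) : Qb) = τ' β / T' β := by
        rw [Units.val_mul, Units.val_inv_eq_inv_val, ru_val, ru_val]
        have h0 : T' β ≠ 0 := (map_ne_zero T').2 hβ
        field_simp
      rwa [e] at h3
    have hκ : G1 F β (T'⁻¹ * τ') := by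
      refine ⟨fix_mul (fix_inv h1) hτ', ?_⟩
      have e : (T'⁻¹ * τ') β / β = T'⁻¹ (τ' β / T' β) := by
        rw [map_div₀, inv_apply_self]; rfl
      rw [e]
      exact h5.map _
    have hex2 : ∃ κ : Aut, G1 F β κ ∧ ∀ j, κ (r j : Qb) = (T'⁻¹ * τ') (r j : Qb) :=
      ⟨_, hκ, fun _ => rfl⟩
    rw [Finset.coe_image, Set.mem_image]
    refine ⟨(fun j => (T'⁻¹ * τ') (r j : Qb), v (ru β hβ τ')), ?_, ?_⟩
    · rw [Finset.mem_coe, Finset.mem_product]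
      refine ⟨Fintype.mem_piFinset.2 fun j => ?_, ?_⟩
      · obtain ⟨c, hc, hcc⟩ := conj2 htor hn hab hβ hκ (ht1 j)
        refine Finset.mem_image.2 ⟨c (t j β), ?_, ?_⟩
        · rw [Set.Finite.mem_toFinset]
          exact ⟨c, hc, rfl⟩
        · show c (t j β) / β = (T'⁻¹ * τ') (r j : Qb)
          rw [ht2 j, ru_val, hcc]
      · rw [Set.Finite.mem_toFinset]
        exact ⟨_, mem_ratS hβ hτ', rfl⟩
    · funext i
      show T' (if h : ∃ κ : Aut, G1 F β κ ∧ ∀ j, κ (r j : Qb) = (T'⁻¹ * τ') (r j : Qb) then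
        h.choose (u i : Qb) else 0) = τ' (u i : Qb)
      rw [dif_pos hex2]
      obtain ⟨g1, g2⟩ := hex2.choose_spec
      rw [hdet _ _ g1 hκ g2 i]
      show T' (T'⁻¹ (τ' (u i : Qb))) = τ' (u i : Qb)
      rw [apply_inv_self]
  calc (orbN F (fun i => (u i : Qb))).ncard
      ≤ (((Fintype.piFinset O ×ˢ S).image Φ : Finset (Fin n → Qb)) : Set (Fin n → Qb)).ncard :=
        Set.ncard_le_ncard hsub (Finset.finite_toSet _)
    _ = ((Fintype.piFinset O ×ˢ S).image Φ).card := Set.ncard_coe_finset _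
    _ ≤ (Fintype.piFinset O ×ˢ S).card := Finset.card_image_le
    _ = (∏ j, (O j).card) * S.card := by rw [Finset.card_product, Fintype.card_piFinset]
    _ ≤ D ^ m * (v '' ratS F β).ncard := by
        rw [hS]
        refine Nat.mul_le_mul_right _ ?_
        refine (Finset.prod_le_pow_card Finset.univ (fun j => (O j).card) D fun j _ => hO j).trans ?_
        rw [Finset.card_univ, Fintype.card_fin]

end RATD

open RAT RATD in
theorem ratd : S_RATD := by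
  intro F F₁ D β htor hF hn hab hβ hrig hD ρ v hv hv0
  refine ⟨ratS_finite F β, fun m r hr => ⟨?_, fun hs n u hu => ?_⟩⟩
  · exact count htor hn hab hβ hD v hv hv0 r hr r (fun κ κ' _ _ h i => h i)
  · refine count htor hn hab hβ hD v hv hv0 r hr u (fun κ κ' hκ hκ' h i => ?_)
    have h1 : G1 F β (κ⁻¹ * κ') := g1_mul htor hβ (g1_inv htor hβ hκ) hκ'
    have h2 := fix_all htor hn hab hβ hrig v hv hv0 r hr hs h1 (fun j => by
      show κ⁻¹ (κ' (r j : Qb)) = (r j : Qb)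
      rw [← h j, inv_apply_self]) (u i) (hu i)
    have h3 : κ⁻¹ (κ' (u i : Qb)) = (u i : Qb) := h2
    rw [← h3, apply_inv_self, h3]

end Pool.Agent.H54.AV
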