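import Pool.Agent.H54.AV.Stm3

set_option autoImplicit false
set_option linter.unusedVariables false

/-! # AV-REDC: cyclotomic descent at `p` for elements of bounded degree over the division field (helper96) -/

namespace Pool.Agent.H54.AV

open Pool.Agent.W237.RK
open Pool.Agent.H58P (Qb ht)
open Pool.Agent.H54.AD (pt)
open Pool.Agent.H54.AM
open Pool.Agent.H54.RX (lowr lowr_mono lowr_pos S_CS3)
open Pool.Agent.Q246.FD (divF)

namespace RedcAux

lemma divG_mem_divF (K : GF) (Γ : Subgroup Qbˣ) {x : Qb} (h : DivG Γ x) : x ∈ divF K Γ :=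
  IntermediateField.subset_adjoin _ _ (Or.inr h)

lemma le_divF (K : GF) (Γ : Subgroup Qbˣ) : K ≤ divF K Γ := fun x hx =>
  IntermediateField.subset_adjoin _ _ (Or.inl hx)

lemma levInf_le_divF (K : GF) (Γ : Subgroup Qbˣ) {R : ℕ} (hR : 0 < R) :
    levInf K Γ R ≤ divF K Γ := by
  refine levInf_le (le_divF K Γ) (fun x hx => divG_mem_divF K Γ (divG_tor Γ hx)) ?_
  rintro y ⟨g, hg, hy⟩
  exact divG_mem_divF K Γ ⟨R, hR, g, hg, hy⟩

end RedcAux

open RedcAux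

theorem redc : Pool.Agent.H54.RX.S_CS3 → S_REDC := by
  intro hCS p K Γ D hp hKfd hΓfg hΓ n₀
  have : Fact p.Prime := ⟨hp⟩
  have hex : Nonempty (Qb →+* PadicAlgCl p) := by
    have : CharZero (PadicAlgCl p) := inferInstance
    let _ : Algebra ℚ (PadicAlgCl p) := DivisionRing.toRatAlgebra
    exact ⟨((IsAlgClosed.lift : Qb →ₐ[ℚ] PadicAlgCl p) : Qb →+* PadicAlgCl p)⟩
  obtain ⟨φ⟩ := hex
  obtain ⟨B, A₁, hA₁, hB'⟩ := hCS p φ K Γ 1 one_pos hKfd hΓfg hΓ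
  have hB := hB' (D + 1) (Nat.succ_pos D)
  refine ⟨n₀ + B, lowr A₁ 1 (D + 1), lowr_pos hA₁ (Nat.succ_pos D), by omega, ?_⟩
  intro M β hM hβ horb htor hrig hht
  have hMpos : 0 < M := Nat.pos_of_ne_zero (by rintro rfl; exact hM (dvd_zero p))
  have hRpos : 0 < p ^ n₀ * M := Nat.mul_pos (pow_pos hp.pos n₀) hMpos
  obtain ⟨Finf, hFinf⟩ : ∃ Finf : GF, Finf = divF K Γ := ⟨_, rfl⟩
  rw [← hFinf] at horb htor hrig ⊢
  have hlevInf : levInf K Γ (p ^ n₀ * M) ≤ Finf := hFinf ▸ levInf_le_divF K Γ hRpos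
  have hkinf : kinf K ≤ Finf := (kinf_le_levInf K Γ _).trans hlevInf
  have hnorm : NormalOver K Finf := hFinf ▸ normal_divF K Γ hΓ
  obtain ⟨N, hN, hrigN⟩ := exists_rigid_lev Finf K Γ (p ^ n₀ * M) β hrig
  obtain ⟨v, M', hM', hNv⟩ := Nat.exists_eq_pow_mul_and_not_dvd hN.ne' p hp.ne_one
  have hM'pos : 0 < M' := Nat.pos_of_ne_zero (by rintro rfl; exact hM' (dvd_zero p))
  have hgood : Good K Finf (D + 1) (lowr A₁ 1 (D + 1)) β :=
    ⟨hβ, horb.trans (Nat.le_succ D), htor, hht⟩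
  -- rigid at a high level
  have hhigh : Rigid Finf (lev K Γ (p ^ (n₀ + B + v) * M') (p ^ n₀ * M)) β := by
    refine rigid_mono (lev_mono K Γ ?_ hRpos dvd_rfl) hrigN
    rw [hNv]
    exact Nat.mul_dvd_mul_right (pow_dvd_pow p (by omega)) M'
  have hlevF : ∀ i, lev K Γ (p ^ i * M') (p ^ n₀ * M) ≤ Finf := fun i =>
    (lev_le_levInf K Γ (Nat.mul_pos (pow_pos hp.pos i) hM'pos)).trans hlevInf
  -- cyclotomic descent
  have hdown : ∀ j, j ≤ v → ∃ γ : Qb, Tor γ ∧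
      Rigid Finf (lev K Γ (p ^ (n₀ + B + (v - j)) * M') (p ^ n₀ * M)) (β / γ) := by
    intro j
    induction j with
    | zero =>
      intro _
      exact ⟨1, tor_one, by rw [div_one, Nat.sub_zero]; exact hhigh⟩
    | succ j ih =>
      intro hj
      obtain ⟨γ, hγ, hr⟩ := ih (by omega)
      have hg : Good K Finf (D + 1) (lowr A₁ 1 (D + 1)) (β / γ) :=
        hgood.div hΓ hγ.ne_zero (hkinf (tor_mem_kinf K hγ)) (divG_tor Γ hγ)
      obtain ⟨γ', hγ', hr'⟩ := hB Finf (n₀ + B + (v - j)) n₀ M M' (β / γ) (by omega) hM hM' hkinf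
        (hlevF _) hnorm hg.ne hg.orb hg.tor hr hg.ht
      refine ⟨γ * γ', hγ.mul hγ', ?_⟩
      rw [← div_div]
      have e : n₀ + B + (v - j) - 1 = n₀ + B + (v - (j + 1)) := by omega
      rw [e] at hr'
      exact hr'
  obtain ⟨γ, hγ, hr⟩ := hdown v le_rfl
  rw [Nat.sub_self, Nat.add_zero] at hr
  exact ⟨γ, M', hγ, hM', hr⟩

end Pool.Agent.H54.AV
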