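import Pool.Agent.H54.AV.Stm3
import Pool.Agent.H54.AV.Rnk
import Pool.Agent.H54.G.W237.RK.Gal

set_option autoImplicit false
set_option linter.unusedVariables false

namespace Pool.Agent.H54.AV

open Pool.Agent.W237.RK
open Pool.Agent.H58P (Qb ht)
open Pool.Agent.H54.AM

namespace RNKD

theorem orbNf (F : GF) {n : ℕ} (u : Fin n → Qb) : (orbN F u).Finite := by
  refine (Set.Finite.pi' fun i => orb_finite F (u i)).subset ?_
  rintro _ ⟨τ, hτ, rfl⟩
  exact fun i => ⟨τ, hτ, rfl⟩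

theorem ratSf (F : GF) (β : Qb) : (ratS F β).Finite := by
  have h := (orb_finite F β).image (fun y => y / β)
  refine (h.preimage (Units.val_injective.injOn)).subset ?_
  rintro x ⟨τ, hτ, e⟩
  exact ⟨τ β, ⟨τ, hτ, rfl⟩, e.symm⟩

/-- the number of the classes -/
theorem classes_le {R : Set Qbˣ} {ρ : ℕ} {v : Qbˣ → Fin ρ → ℚ}
    (hadd : ∀ x ∈ Subgroup.closure R, ∀ y ∈ Subgroup.closure R, v (x * y) = v x + v y)
    (hker : ∀ x ∈ Subgroup.closure R, v x = 0 ↔ Tor (x : Qb)) (S : Finset Qbˣ)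
    (hS : ∀ x ∈ R, ∃ y ∈ S, Tor ((x / y : Qbˣ) : Qb)) : (v '' R).ncard ≤ S.card := by
  classical
  have h1 : ∀ z ∈ v '' R, ∃ y ∈ S, ∃ x ∈ R, v x = z ∧ Tor ((x / y : Qbˣ) : Qb) := by
    rintro _ ⟨x, hx, rfl⟩
    obtain ⟨y, hy, h⟩ := hS x hx
    exact ⟨y, hy, x, hx, rfl, h⟩
  choose! f hf g hg hg1 hg2 using h1
  have h2 : (v '' R).ncard ≤ (S : Set Qbˣ).ncard := by
    refine Set.ncard_le_ncard_of_injOn f hf ?_ (Finset.finite_toSet S)
    intro z hz z' hz' e
    have h3 := hg2 z hz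
    have h4 := hg2 z' hz'
    rw [← e] at h4
    have h5 : Tor ((g z / g z' : Qbˣ) : Qb) := by
      have h6 := h3.div h4
      have e6 : ((g z / f z : Qbˣ) : Qb) / ((g z' / f z : Qbˣ) : Qb) = ((g z / g z' : Qbˣ) : Qb) := by
        simp only [Units.val_div_eq_div_val]
        have := (g z).ne_zero
        have := (g z').ne_zero
        have := (f z).ne_zero
        field_simp
      rwa [e6] at h6
    have hm := Subgroup.subset_closure (hg z hz)
    have hm' := Subgroup.subset_closure (hg z' hz')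
    have h7 := (hker _ (Subgroup.div_mem _ hm hm')).2 h5
    rw [RNK.v_div hadd hm hm', sub_eq_zero, hg1 z hz, hg1 z' hz'] at h7
    exact h7
  rwa [Set.ncard_coe_finset] at h2

end RNKD

open RNK RNKD in
theorem rnkd : S_GEO → S_VEC → S_RATD → S_HTL → S_RNKD := by
  classical
  intro hgeo hvec hrat hhtl k D ε c hk hε hc
  choose Cg hCg hgeo using hgeo
  obtain ⟨C, hC⟩ : ∃ C : ℝ, C = ∑ ρ ∈ Finset.range (k + 1), Cg ρ := ⟨_, rfl⟩
  have hCle : ∀ ρ, ρ ≤ k → Cg ρ ≤ C := fun ρ hρ => by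
    rw [hC]
    exact Finset.single_le_sum (f := Cg) (fun i _ => (hCg i).le) (Finset.mem_range.2 (by omega))
  have hC0 : 0 < C := lt_of_lt_of_le (hCg 0) (hCle 0 (Nat.zero_le _))
  -- the constant of the degree
  obtain ⟨E, hE⟩ : ∃ E : ℝ, E = (((D : ℝ) + 1) ^ k) ^ (1 + ε) := ⟨_, rfl⟩
  have hD1r : (1 : ℝ) ≤ (D : ℝ) + 1 := by
    have : (0 : ℝ) ≤ D := Nat.cast_nonneg _
    linarith
  have hDk : (1 : ℝ) ≤ ((D : ℝ) + 1) ^ k := one_le_pow₀ hD1r
  have hE1 : 1 ≤ E := by rw [hE]; exact Real.one_le_rpow hDk (by linarith)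
  have hE0 : 0 < E := by linarith
  obtain ⟨c', hc'⟩ : ∃ c' : ℝ, c' = min 1 (min (c / E) (c / E / C)) := ⟨_, rfl⟩
  have hcE : 0 < c / E := div_pos hc hE0
  have hc'0 : 0 < c' := by
    rw [hc']
    exact lt_min one_pos (lt_min hcE (div_pos hcE hC0))
  have hc'1 : c' ≤ 1 := by rw [hc']; exact min_le_left _ _
  have hc'2 : c' ≤ c / E := by rw [hc']; exact (min_le_right _ _).trans (min_le_left _ _)
  have hc'3 : c' ≤ c / E / C := by rw [hc']; exact (min_le_right _ _).trans (min_le_right _ _)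
  refine ⟨c', hc'0, ?_⟩
  intro F F₁ β H B S htor hFF hnorm hcomm hβ hrig hdeg hSB hS hH hex hyp
  have hfin : (ratS F β).Finite := ratSf F β
  have hFG : (Subgroup.closure (ratS F β)).FG := ⟨hfin.toFinset, by rw [Set.Finite.coe_toFinset]⟩
  obtain ⟨ρ, v, hadd, hker, hspan⟩ := hvec _ hFG
  have hsub : ∀ x ∈ ratS F β, x ∈ Subgroup.closure (ratS F β) := fun x hx => Subgroup.subset_closure hx
  obtain ⟨-, horb⟩ := hrat F F₁ D β htor hFF hnorm hcomm hβ hrig hdeg ρ v hadd hker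
  have hN : (v '' ratS F β).ncard ≤ B := (classes_le hadd hker S hS).trans hSB
  obtain ⟨hht, hind⟩ := hhtl _ ρ v hadd hker
  have hRs := span_gen hadd hspan
  have hRf : (v '' ratS F β).Finite := hfin.image v
  obtain ⟨τ₀, hτ₀, hnt⟩ := hex
  have hH0 : 0 ≤ H := by
    refine le_trans ?_ (hH τ₀ hτ₀)
    exact Pool.Agent.H58R.ht_nonneg _
  -- `ρ` is positive
  have hρ : 0 < ρ := by
    rcases Nat.eq_zero_or_pos ρ with h0 | h0
    · exfalso
      subst h0
      apply hnt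
      have hne : τ₀ β / β ≠ 0 := div_ne_zero ((map_ne_zero τ₀).2 hβ) hβ
      exact (hker (Units.mk0 _ hne) (hsub _ ⟨τ₀, hτ₀, rfl⟩)).1 (Subsingleton.elim _ _)
    · exact h0
  obtain ⟨N, hNd⟩ : ∃ N : ℕ, N = (v '' ratS F β).ncard := ⟨_, rfl⟩
  have hN1 : 1 ≤ N := by
    rw [hNd]
    refine (Set.ncard_pos hRf).2 ?_
    have hne : τ₀ β / β ≠ 0 := div_ne_zero ((map_ne_zero τ₀).2 hβ) hβ
    exact ⟨_, Units.mk0 _ hne, ⟨τ₀, hτ₀, rfl⟩, rfl⟩
  rw [← hNd] at hN
  have hB1 : 1 ≤ B := hN1.trans hN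
  have hNr : (1 : ℝ) ≤ N := by exact_mod_cast hN1
  have hBr : (1 : ℝ) ≤ B := by exact_mod_cast hB1
  have hNBr : (N : ℝ) ≤ B := by exact_mod_cast hN
  have hN0 : (0 : ℝ) < N := by linarith
  have hxht : ∀ x ∈ ratS F β, ht (x : Qb) ≤ H := by
    rintro x ⟨τ, hτ, e⟩
    rw [e]
    exact hH τ hτ
  have hk0 : (0 : ℝ) < k := by exact_mod_cast hk
  -- lower bound from the hypothesis
  have hlow : ∀ (m : ℕ), m ≤ k → ∀ (n : ℕ) (u : Fin n → Qbˣ), n ≤ k →
      (∀ i, u i ∈ Subgroup.closure (ratS F β)) → IndepN (fun i => (u i : Qb)) →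
      (orbN F (fun i => (u i : Qb))).ncard ≤ D ^ m * (v '' ratS F β).ncard →
      c / E / (N : ℝ) ^ (1 + ε) ≤ ∏ i, ht (u i : Qb) := by
    intro m hm n u hn hu hi h3
    refine le_trans ?_ (hyp n u hn hu hi)
    have h4 := RNK.orbN_pos (F := F) (fun i => (u i : Qb)) (orbNf F _)
    rw [← hNd] at h3
    have h4' : (1 : ℝ) ≤ ((orbN F (fun i => (u i : Qb))).ncard : ℝ) := by exact_mod_cast h4
    have h3' : ((orbN F (fun i => (u i : Qb))).ncard : ℝ) ≤ (D : ℝ) ^ m * N := by exact_mod_cast h3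
    have h5 : (D : ℝ) ^ m ≤ ((D : ℝ) + 1) ^ k := by
      calc (D : ℝ) ^ m ≤ ((D : ℝ) + 1) ^ m := pow_le_pow_left₀ (Nat.cast_nonneg _) (by linarith) m
        _ ≤ ((D : ℝ) + 1) ^ k := pow_le_pow_right₀ hD1r hm
    have h6 : ((orbN F (fun i => (u i : Qb))).ncard : ℝ) ≤ ((D : ℝ) + 1) ^ k * N :=
      h3'.trans (mul_le_mul_of_nonneg_right h5 hN0.le)
    have h7 : ((orbN F (fun i => (u i : Qb))).ncard : ℝ) ^ (1 + ε) ≤ E * (N : ℝ) ^ (1 + ε) := by
      rw [hE, ← Real.mul_rpow (by linarith) hN0.le]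
      exact Real.rpow_le_rpow (by linarith) h6 (by linarith)
    rw [div_div]
    apply div_le_div_of_nonneg_left hc.le (Real.rpow_pos_of_pos (by linarith) _)
    exact h7
  by_contra hlt
  rw [not_le] at hlt
  have hDe : ∀ e : ℝ, e ≤ max ε ((1 + ε) / k) → 0 ≤ e → c' / (B : ℝ) ^ max ε ((1 + ε) / k) ≤ c' / (B : ℝ) ^ e := by
    intro e he he0
    exact div_le_div_of_nonneg_left hc'0.le (Real.rpow_pos_of_pos (by linarith) _)
      (Real.rpow_le_rpow_of_exponent_le hBr he)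
  rcases le_or_gt ρ k with hρk | hρk
  · obtain ⟨r, w, hr, hw, hli, hprod⟩ := hgeo ρ hRf.toFinset (by rw [Set.Finite.coe_toFinset]; exact hRs)
    have hx : ∀ j, ∃ x ∈ ratS F β, v x = r j := fun j => by
      have := hr j
      rw [Set.Finite.mem_toFinset] at this
      exact this
    choose x hx hxr using hx
    have hu : ∀ i, ∃ y ∈ Subgroup.closure (ratS F β), v y = ∑ j, w i j • r j := fun i => by
      have := hw i
      rw [Set.Finite.coe_toFinset] at this
      exact lift_gen hadd this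
    choose u hu huv using hu
    have hI : IndepN (fun i => (u i : Qb)) := by
      apply hind ρ u hu
      simp only [huv]
      exact hli
    have hne : Nonempty (Fin ρ) := ⟨⟨0, hρ⟩⟩
    have hsp : Submodule.span ℚ (Set.range fun j => v (x j)) = ⊤ := by
      have h1 : Submodule.span ℚ (Set.range fun i => ∑ j, w i j • r j) = ⊤ :=
        hli.span_eq_top_of_card_eq_finrank (by rw [Fintype.card_fin, Module.finrank_fin_fun])
      rw [eq_top_iff, ← h1, Submodule.span_le]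
      rintro _ ⟨i, rfl⟩
      refine Submodule.sum_mem _ fun j _ => Submodule.smul_mem _ _ ?_
      rw [← hxr j]
      exact Submodule.subset_span ⟨j, rfl⟩
    have h2 := hlow ρ hρk ρ u hρk hu hI (((horb ρ x hx).2 hsp) ρ u hu)
    have h3 : ∏ i, ht (u i : Qb) ≤ ∏ i, ((∑ j, |(w i j : ℝ)|) * H) := by
      apply Finset.prod_le_prod
      · intro i _
        exact Pool.Agent.H58R.ht_nonneg _
      · intro i _
        refine hht ρ x (w i) (u i) H (fun j => hsub _ (hx j)) (hu i) (fun j => hxht _ (hx j)) ?_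
        rw [huv]
        exact Finset.sum_congr rfl fun j _ => by rw [hxr]
    rw [Finset.prod_mul_distrib, Finset.prod_const, Finset.card_univ, Fintype.card_fin] at h3
    have hcard : (hRf.toFinset.card : ℝ) = N := by
      rw [hNd, Set.ncard_eq_toFinset_card _ hRf]
    rw [hcard] at hprod
    have h4 : (∏ i, ∑ j, |(w i j : ℝ)|) ≤ C / N := by
      rw [le_div_iff₀ (by linarith)]
      exact hprod.trans (hCle ρ hρk)
    have hH1 : H ≤ 1 := by
      refine hlt.le.trans ?_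
      rw [div_le_one (Real.rpow_pos_of_pos (by linarith) _)]
      exact hc'1.trans (Real.one_le_rpow hBr (le_trans hε.le (le_max_left _ _)))
    have h5 : H ^ ρ ≤ H := by
      calc H ^ ρ ≤ H ^ 1 := pow_le_pow_of_le_one hH0 hH1 hρ
        _ = H := pow_one H
    have h6 : c / E / (N : ℝ) ^ (1 + ε) ≤ C / N * H := by
      calc c / E / (N : ℝ) ^ (1 + ε) ≤ (∏ i, ∑ j, |(w i j : ℝ)|) * H ^ ρ := h2.trans h3
        _ ≤ C / N * H ^ ρ := mul_le_mul_of_nonneg_right h4 (pow_nonneg hH0 _)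
        _ ≤ C / N * H := mul_le_mul_of_nonneg_left h5 (by positivity)
    have h7 : H < (c / E / C) / (N : ℝ) ^ ε := by
      calc H < c' / (B : ℝ) ^ max ε ((1 + ε) / k) := hlt
        _ ≤ c' / (B : ℝ) ^ ε := hDe ε (le_max_left _ _) hε.le
        _ ≤ c' / (N : ℝ) ^ ε := div_le_div_of_nonneg_left hc'0.le (Real.rpow_pos_of_pos (by linarith) _)
            (Real.rpow_le_rpow (by linarith) hNBr hε.le)
        _ ≤ (c / E / C) / (N : ℝ) ^ ε := div_le_div_of_nonneg_right hc'3 (Real.rpow_nonneg (by linarith) _)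
    have hNe : (0 : ℝ) < (N : ℝ) ^ ε := Real.rpow_pos_of_pos hN0 _
    have h8 : C / N * H < C / N * ((c / E / C) / (N : ℝ) ^ ε) :=
      mul_lt_mul_of_pos_left h7 (by positivity)
    have h9 : C / N * ((c / E / C) / (N : ℝ) ^ ε) = c / E / (N : ℝ) ^ (1 + ε) := by
      rw [Real.rpow_add hN0, Real.rpow_one]
      field_simp
    rw [h9] at h8
    exact absurd h8 (not_lt.2 h6)
  · obtain ⟨r, hr, hli⟩ := indep_sub hρk.le hRs
    choose x hx hxr using hr
    have hI : IndepN (fun i => (x i : Qb)) := by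
      apply hind k x (fun i => hsub _ (hx i))
      simp only [hxr]
      exact hli
    have h2 := hlow k le_rfl k x le_rfl (fun i => hsub _ (hx i)) hI (horb k x hx).1
    have h3 : ∏ i, ht (x i : Qb) ≤ H ^ k := by
      calc ∏ i, ht (x i : Qb) ≤ ∏ _i : Fin k, H := by
            apply Finset.prod_le_prod
            · intro i _
              exact Pool.Agent.H58R.ht_nonneg _
            · intro i _
              exact hxht _ (hx i)
        _ = H ^ k := by rw [Finset.prod_const, Finset.card_univ, Fintype.card_fin]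
    have h4 : H < c' / (B : ℝ) ^ ((1 + ε) / k) :=
      lt_of_lt_of_le hlt (hDe _ (le_max_right _ _) (by positivity))
    have h5 : H ^ k < (c' / (B : ℝ) ^ ((1 + ε) / k)) ^ k := pow_lt_pow_left₀ h4 hH0 hk.ne'
    have h6 : (c' / (B : ℝ) ^ ((1 + ε) / k)) ^ k = c' ^ k / (B : ℝ) ^ (1 + ε) := by
      rw [div_pow, ← Real.rpow_natCast ((B : ℝ) ^ ((1 + ε) / k)) k, ← Real.rpow_mul (by linarith)]
      congr 2
      field_simp
    have h7 : c' ^ k ≤ c / E := by
      calc c' ^ k ≤ c' ^ 1 := pow_le_pow_of_le_one hc'0.le hc'1 hk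
        _ = c' := pow_one _
        _ ≤ c / E := hc'2
    have h8 : c' ^ k / (B : ℝ) ^ (1 + ε) ≤ c / E / (N : ℝ) ^ (1 + ε) := by
      apply div_le_div₀ hcE.le h7 (Real.rpow_pos_of_pos (by linarith) _)
      exact Real.rpow_le_rpow (by linarith) hNBr (by linarith)
    rw [h6] at h5
    linarith

end Pool.Agent.H54.AV
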