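import Pool.Agent.H54.AV.Stm3
import Pool.Agent.H54.AV.Frobg

/-!
# AV-TAME: extensions of degree less than `p` are tame
-/

set_option autoImplicit false

open Polynomial Pool.Agent.W237.RK Pool.Agent.W327.RK

namespace Pool.Agent.H54.AV

section
variable {p : ℕ} [Fact p.Prime]

/-- units have roots of order prime to `p` -/
theorem unit_root (hR : S_RES) {k : LF p} (hk : kur p ≤ k) {u : Om p} (hu : u ∈ k)
    (hu1 : ‖u‖ = 1) {d : ℕ} (hd : ¬ p ∣ d) : ∃ v ∈ k, v ^ d = u := by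
  have hp : p.Prime := Fact.out
  have hd0 : d ≠ 0 := by
    rintro rfl
    exact hd (dvd_zero p)
  obtain ⟨c, hc, huc⟩ := hR p u hu1.le
  rcases hc with rfl | ⟨M, hM, hcM⟩
  · rw [sub_zero, hu1] at huc
    exact absurd huc (lt_irrefl _)
  have hM0 : M ≠ 0 := by
    rintro rfl
    exact hM (dvd_zero p)
  have hcn : ‖c‖ = 1 := norm_root hM0 hcM
  have hc0 : c ≠ 0 := by
    rintro rfl
    rw [norm_zero] at hcn
    exact zero_ne_one hcn
  have hck : c ∈ k := hk (root_mem_kur hM hcM)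
  obtain ⟨c', hc'⟩ := IsAlgClosed.exists_pow_nat_eq c (Nat.pos_of_ne_zero hd0)
  have hc'k : c' ∈ k := by
    refine hk (root_mem_kur (M := d * M) ?_ ?_)
    · intro h
      rcases hp.dvd_mul.1 h with h | h
      · exact hd h
      · exact hM h
    · rw [pow_mul, hc', hcM]
  set w : Om p := u / c with hw
  have hwk : w ∈ k := div_mem hu hck
  have hw1 : ‖w - 1‖ < 1 := by
    have h9 : w - 1 = (u - c) / c := by rw [hw, sub_div, div_self hc0]
    rw [h9, norm_div, hcn, div_one]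
    exact huc
  have hwn : ‖w‖ = 1 := by rw [hw, norm_div, hu1, hcn, div_one]
  obtain ⟨v₀, hv₀⟩ := IsAlgClosed.exists_pow_nat_eq w (Nat.pos_of_ne_zero hd0)
  have hv₀n : ‖v₀‖ = 1 := by
    have h1 : ‖v₀‖ ^ d = 1 := by rw [← norm_pow, hv₀, hwn]
    exact (pow_eq_one_iff_of_nonneg (norm_nonneg _) hd0).1 h1
  have hv₀0 : v₀ ≠ 0 := by
    rintro rfl
    rw [norm_zero] at hv₀n
    exact zero_ne_one hv₀n
  obtain ⟨c₀, hc₀, hvc⟩ := hR p v₀ hv₀n.le
  rcases hc₀ with rfl | ⟨M', hM', hcM'⟩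
  · rw [sub_zero, hv₀n] at hvc
    exact absurd hvc (lt_irrefl _)
  have hM'0 : M' ≠ 0 := by
    rintro rfl
    exact hM' (dvd_zero p)
  have hc₀n : ‖c₀‖ = 1 := norm_root hM'0 hcM'
  have hc₀0 : c₀ ≠ 0 := by
    rintro rfl
    rw [norm_zero] at hc₀n
    exact zero_ne_one hc₀n
  have h1 : c₀ ^ d = 1 := by
    by_contra hne
    have h2 : ‖c₀ ^ d - 1‖ = 1 := norm_sub_root hM'
      (by rw [← pow_mul, mul_comm, pow_mul, hcM', one_pow]) (one_pow _) hne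
    have h3 : ‖v₀ ^ d - c₀ ^ d‖ < 1 := (pow_sub_pow_norm _ _ _ hv₀n.le hc₀n.le).trans_lt hvc
    have h4 : c₀ ^ d - 1 = (w - 1) - (v₀ ^ d - c₀ ^ d) := by
      rw [hv₀]
      ring
    rw [h4] at h2
    exact (um_sub_lt _ _ hw1 h3).ne h2
  have hvw : (v₀ / c₀) ^ d = w := by rw [div_pow, h1, div_one, hv₀]
  have hvk : v₀ / c₀ ∈ k := by
    refine mem_of_pow_mem hd (div_ne_zero hv₀0 hc₀0) (by rw [hvw]; exact hwk) ?_
    have h9 : v₀ / c₀ - 1 = (v₀ - c₀) / c₀ := by rw [sub_div, div_self hc₀0]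
    rw [h9, norm_div, hc₀n, div_one]
    exact hvc
  refine ⟨v₀ / c₀ * c', mul_mem hvk hc'k, ?_⟩
  rw [mul_pow, hvw, hc', hw]
  exact div_mul_cancel₀ u hc0

/-- an element of `k(x)` has at most as many conjugates as `x` -/
theorem lorb_adjoin_le {k : LF p} {x y : Om p}
    (hy : y ∈ k ⊔ IntermediateField.adjoin ℚ_[p] {x}) :
    (lorb k y).ncard ≤ (lorb k x).ncard := by
  classical
  set g : Om p → Om p := fun z =>
    if h : ∃ σ : LAut p, LFix k σ ∧ σ x = z then h.choose y else 0 with hg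
  have hsub : lorb k y ⊆ g '' lorb k x := by
    rintro _ ⟨σ, hσ, rfl⟩
    refine ⟨σ x, ⟨σ, hσ, rfl⟩, ?_⟩
    have hex : ∃ τ : LAut p, LFix k τ ∧ τ x = σ x := ⟨σ, hσ, rfl⟩
    have e : g (σ x) = hex.choose y := by
      simp only [hg]
      rw [dif_pos hex]
    rw [e]
    obtain ⟨hτ, hτx⟩ := hex.choose_spec
    set τ := hex.choose
    have h1 : LFix (k ⊔ IntermediateField.adjoin ℚ_[p] {x}) (σ⁻¹ * τ) := by
      refine LFix_sup_adjoin (LFix.mul (LFix.inv hσ) hτ) ?_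
      intro z hz
      rw [Set.mem_singleton_iff.1 hz]
      show σ⁻¹ (τ x) = x
      rw [hτx]
      exact σ.symm_apply_apply x
    have h2 : σ⁻¹ (τ y) = y := h1 y hy
    have h4 : σ (σ⁻¹ (τ y)) = τ y := σ.apply_symm_apply _
    rw [← h4, h2]
  exact (Set.ncard_le_ncard hsub ((Pool.Agent.W327.RK.lorb_finite k x).image _)).trans
    (Set.ncard_image_le (Pool.Agent.W327.RK.lorb_finite k x))

theorem finOver_adjoin {F L : LF p} (h : FinOver F L) (x : Om p) :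
    FinOver F (L ⊔ IntermediateField.adjoin ℚ_[p] {x}) := by
  classical
  obtain ⟨s, rfl⟩ := h
  refine ⟨insert x s, ?_⟩
  rw [Finset.coe_insert, Set.insert_eq, Set.union_comm, IntermediateField.adjoin_union, sup_assoc]

end

/-- extensions of degree less than `p` are tame -/
theorem tame : S_RES → S_STRUCT → S_TAME := by
  classical
  intro hR hS p _ k D hfin hD
  have hp : p.Prime := Fact.out
  have hp1 : (1 : ℝ) < p := by exact_mod_cast hp.one_lt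
  have hp0 : (0 : ℝ) < p := zero_lt_one.trans hp1
  have hkur : kur p ≤ k := by
    obtain ⟨s, rfl⟩ := hfin
    exact le_sup_left
  obtain ⟨⟨π, hπ⟩, -, -⟩ := hS p k hfin
  have hπ0 : π ≠ 0 := hπ.2.1
  set Λ := D.factorial with hΛdef
  have hΛ : ¬ p ∣ Λ := by
    rw [hΛdef, hp.dvd_factorial]
    omega
  have hΛ0 : 0 < Λ := Nat.factorial_pos D
  obtain ⟨ϖ, hϖ⟩ := IsAlgClosed.exists_pow_nat_eq π hΛ0
  have hϖ0 : ϖ ≠ 0 := by
    rintro rfl
    rw [zero_pow hΛ0.ne'] at hϖ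
    exact hπ0 hϖ.symm
  set k₁ : LF p := k ⊔ IntermediateField.adjoin ℚ_[p] {ϖ} with hk₁
  have hkk₁ : k ≤ k₁ := le_sup_left
  have hϖ1 : ϖ ∈ k₁ := (le_sup_right : _ ≤ k₁)
    (IntermediateField.subset_adjoin _ _ (Set.mem_singleton ϖ))
  have hfin₁ : FinOver (kur p) k₁ := finOver_adjoin hfin ϖ
  obtain ⟨⟨π₁, hπ₁⟩, -, h3₁⟩ := hS p k₁ hfin₁
  obtain ⟨-, h4⟩ := h3₁ (kur p) le_rfl (hkur.trans hkk₁)
  have h5 := h4 (p : Om p) π₁ (unif_kur l2) hπ₁
  set N := (lorb (kur p) π₁).ncard with hN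
  have hpn : ‖(p : Om p)‖ = (p : ℝ)⁻¹ := by
    have := norm_p_pow (p := p) 1
    rwa [pow_one, pow_one] at this
  rw [hpn] at h5
  refine ⟨k₁, N, hkk₁, ?_, ?_, ?_⟩
  · intro x hx
    set k' : LF p := k ⊔ IntermediateField.adjoin ℚ_[p] {x} with hk'
    have hfin' : FinOver (kur p) k' := finOver_adjoin hfin x
    obtain ⟨⟨π', hπ'⟩, h2', h3'⟩ := hS p k' hfin'
    have hkk' : k ≤ k' := le_sup_left
    obtain ⟨-, h6⟩ := h3' k hkur hkk'
    have h7 := h6 π π' hπ hπ'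
    set e := (lorb k π').ncard with he
    have he0 : 0 < e := (Set.ncard_pos (Pool.Agent.W327.RK.lorb_finite _ _)).2
      ⟨π', Pool.Agent.W327.RK.self_mem_lorb _ _⟩
    have heD : e ≤ D := (lorb_adjoin_le hπ'.1).trans hx
    have hep : ¬ p ∣ e := fun h => absurd (Nat.le_of_dvd he0 h) (by omega)
    have heΛ : e ∣ Λ := Nat.dvd_factorial he0 heD
    have hu : π' ^ e / π ∈ k' := div_mem (pow_mem hπ'.1 _) (hkk' hπ.1)
    have hun : ‖π' ^ e / π‖ = 1 := by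
      rw [norm_div, norm_pow, h7, div_self (norm_ne_zero_iff.2 hπ0)]
    obtain ⟨v, hv, hve⟩ := unit_root hR (hkur.trans hkk') hu hun hep
    have hvn : ‖v‖ = 1 := by
      have h1 : ‖v‖ ^ e = 1 := by rw [← norm_pow, hve, hun]
      exact (pow_eq_one_iff_of_nonneg (norm_nonneg _) he0.ne').1 h1
    have hv0 : v ≠ 0 := by
      rintro rfl
      rw [norm_zero] at hvn
      exact zero_ne_one hvn
    have hπ'0 : π' ≠ 0 := hπ'.2.1
    set ϖ' : Om p := π' / v with hϖ'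
    have hϖ'k : ϖ' ∈ k' := div_mem hπ'.1 hv
    have hϖ'n : ‖ϖ'‖ = ‖π'‖ := by rw [hϖ', norm_div, hvn, div_one]
    have hϖ'e : ϖ' ^ e = π := by
      rw [hϖ', div_pow, hve, div_div_cancel₀ (pow_ne_zero _ hπ'0)]
    have hϖ'U : Unif k' ϖ' := by
      refine ⟨hϖ'k, div_ne_zero hπ'0 hv0, by rw [hϖ'n]; exact hπ'.2.2.1, fun z hz hz0 => ?_⟩
      obtain ⟨n, hn⟩ := hπ'.2.2.2 z hz hz0
      exact ⟨n, by rw [hn, hϖ'n]⟩
    obtain ⟨q, hq⟩ := heΛ
    have hϖq : ϖ ^ q ≠ 0 := pow_ne_zero _ hϖ0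
    have hω : (ϖ' / ϖ ^ q) ^ e = 1 := by
      rw [div_pow, hϖ'e, ← pow_mul, mul_comm q e, ← hq, hϖ, div_self hπ0]
    have hωk : ϖ' / ϖ ^ q ∈ kur p := root_mem_kur hep hω
    have hϖ'1 : ϖ' ∈ k₁ := by
      have h8 : ϖ' = (ϖ' / ϖ ^ q) * ϖ ^ q := (div_mul_cancel₀ _ hϖq).symm
      rw [h8]
      exact mul_mem (hkk₁ (hkur hωk)) (pow_mem hϖ1 _)
    have key : ∀ z ∈ k', ‖z‖ ≤ 1 → z ∈ k₁ := by
      intro z hz hz1
      obtain ⟨P, hP, hPz⟩ := h2' ϖ' hϖ'U z hz hz1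
      rw [← hPz, eval_eq_sum_range]
      exact sum_mem fun i _ => mul_mem (hkk₁ (hkur (hP i).1)) (pow_mem hϖ'1 _)
    have hxk' : x ∈ k' := (le_sup_right : _ ≤ k')
      (IntermediateField.subset_adjoin _ _ (Set.mem_singleton x))
    by_cases hx1 : ‖x‖ ≤ 1
    · exact key x hxk' hx1
    · rw [not_le] at hx1
      have h8 := key x⁻¹ (inv_mem hxk') (by
        rw [_root_.norm_inv]
        exact inv_le_one_of_one_le₀ hx1.le)
      have h9 := inv_mem h8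
      rwa [inv_inv] at h9
  · intro z hzk hz1
    have hN0 : 0 < N := (Set.ncard_pos (Pool.Agent.W327.RK.lorb_finite _ _)).2
      ⟨π₁, Pool.Agent.W327.RK.self_mem_lorb _ _⟩
    by_cases hz0 : z = 0
    · rw [hz0, norm_zero, zero_pow hN0.ne']
      exact (inv_pos.2 hp0).le
    · obtain ⟨-, hπ0, hπ1, hπval⟩ := hπ₁
      obtain ⟨w, hw⟩ := hπval z hzk hz0
      have hπpos : 0 < ‖π₁‖ := norm_pos_iff.2 hπ0
      have hw1 : 0 < w := by
        by_contra hw0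
        rw [not_lt] at hw0
        have h11 : ‖π₁‖ ^ (0 : ℤ) ≤ ‖π₁‖ ^ w :=
          zpow_le_zpow_right_of_le_one₀ hπpos hπ1.le hw0
        rw [zpow_zero, ← hw] at h11
        exact absurd hz1 (not_lt.2 h11)
      have h12 : ‖z‖ ≤ ‖π₁‖ := by
        rw [hw]
        calc ‖π₁‖ ^ w ≤ ‖π₁‖ ^ (1 : ℤ) :=
              zpow_le_zpow_right_of_le_one₀ hπpos hπ1.le (by omega)
          _ = ‖π₁‖ := zpow_one _
      rw [← h5]
      exact pow_le_pow_left₀ (norm_nonneg _) h12 _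
  · intro s hs x hx
    have hsπ : s π ∈ k := hs π hπ.1
    have hun : ‖s π / π‖ = 1 := by
      rw [norm_div, norm_aut, div_self (norm_ne_zero_iff.2 hπ0)]
    obtain ⟨v, hv, hvΛ⟩ := unit_root hR hkur (div_mem hsπ hπ.1) hun hΛ
    have hsπ0 : s π ≠ 0 := (map_ne_zero s).2 hπ0
    have hv0 : v ≠ 0 := by
      rintro rfl
      rw [zero_pow hΛ0.ne'] at hvΛ
      exact div_ne_zero hsπ0 hπ0 hvΛ.symm
    have hω : (s ϖ / (v * ϖ)) ^ Λ = 1 := by
      rw [div_pow, mul_pow, ← map_pow, hϖ, hvΛ, div_mul_cancel₀ _ hπ0, div_self hsπ0]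
    have hωk : s ϖ / (v * ϖ) ∈ kur p := root_mem_kur hΛ hω
    have hsϖ : s ϖ ∈ k₁ := by
      have h8 : s ϖ = (s ϖ / (v * ϖ)) * (v * ϖ) :=
        (div_mul_cancel₀ _ (mul_ne_zero hv0 hϖ0)).symm
      rw [h8]
      exact mul_mem (hkk₁ (hkur hωk)) (mul_mem (hkk₁ hv) hϖ1)
    have h9 : k₁ ≤ IntermediateField.comap s.toAlgHom k₁ := by
      refine sup_le (fun y hy => ?_) (IntermediateField.adjoin_le_iff.2 ?_)
      · show s y ∈ k₁
        exact hkk₁ (hs y hy)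
      · intro y hy
        rw [Set.mem_singleton_iff.1 hy]
        show s ϖ ∈ k₁
        exact hsϖ
    exact h9 hx

/-- `S_TAME` without hypotheses -/
theorem tame' : S_TAME := tame Pool.Agent.W237.RK.res Pool.Agent.W237.RK.struct

end Pool.Agent.H54.AV
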