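import Pool.Agent.H54.AV.Stm3
import Pool.Agent.H54.AM.Starn

/-!
# AV-UNITP: a large prime at which finitely many numbers are units
-/

set_option autoImplicit false

namespace Pool.Agent.H54.AV

open Pool.Agent.W237.RK
open Pool.Agent.H58P (Qb ht)
open Pool.Agent.H54.AM Pool.Agent.H54.AD

/-- a prime `p > D` at which finitely many numbers are units -/
theorem unitp : S_UNITP := by
  intro D r g hg
  have hD0 : ((D.factorial : ℕ) : Qb) ≠ 0 := Nat.cast_ne_zero.2 D.factorial_ne_zero
  obtain ⟨p, hpf, hφ⟩ := exists_unit_prime' (r := r + 1)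
    (Fin.cons ((D.factorial : ℕ) : Qb) g : Fin (r + 1) → Qb) (by
      intro i
      refine Fin.cases ?_ (fun i => ?_) i
      · rw [Fin.cons_zero]
        exact hD0
      · rw [Fin.cons_succ]
        exact hg i)
  refine ⟨p, hpf, ?_, fun φ i => ?_⟩
  · obtain ⟨φ⟩ := exists_emb p
    have h1 := hφ φ 0
    rw [Fin.cons_zero, map_natCast] at h1
    by_contra hlt
    rw [not_lt] at hlt
    have h2 : ((D.factorial : ℕ) : PadicAlgCl p) =
        algebraMap ℚ_[p] (PadicAlgCl p) ((D.factorial : ℕ) : ℚ_[p]) := by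
      rw [map_natCast]
    rw [h2, PadicAlgCl.norm_extends] at h1
    have h3 : ‖(((D.factorial : ℕ) : ℤ) : ℚ_[p])‖ < 1 := by
      rw [Padic.norm_intCast_lt_one_iff]
      exact Int.natCast_dvd_natCast.2 ((hpf.out.dvd_factorial).2 hlt)
    rw [Int.cast_natCast, h1] at h3
    exact lt_irrefl _ h3
  · have h1 := hφ φ i.succ
    rwa [Fin.cons_succ] at h1

end Pool.Agent.H54.AV
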