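import Mathlib
import Pool.Agent.H54.AV.Fin
import Pool.Agent.H54.AV.Maind
import Pool.Agent.H54.AV.Comd
import Pool.Agent.H54.AV.Dsc
import Pool.Agent.H54.AV.Frobd
import Pool.Agent.H54.AV.Ratd
import Pool.Agent.H54.AV.Redc
import Pool.Agent.H54.AV.Rnkd
import Pool.Agent.H54.AV.Tame
import Pool.Agent.H54.AV.Unitp

set_option autoImplicit false
set_option linter.unusedVariables false

/-!
# Bounded extensions of the division field: all the pieces together
-/

namespace Pool.Agent.H54.AV

open Pool.Agent.W237.RK
open Pool.Agent.H54.RX (cs3' ks3')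
open Pool.Agent.H54.AM

theorem rnkd' : S_RNKD := rnkd (geo mkn) (vec fgb) ratd htl

theorem maind' : S_MAIND :=
  maind adm' (frobd' tame') (dsc cs3' ks3' divl) (redc cs3') divl rnkd'
    (kum Pool.Agent.W402.RK.kd.2) fldb intt glu com comd unitp main5'

end Pool.Agent.H54.AV
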