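import Pool.Agent.H54.AV.Stm4

set_option autoImplicit false
set_option linter.unusedVariables false

/-! # Stub LOCME of the project AV: the local estimate of the determinant (helper62) -/

namespace Pool.Agent.H54.AV

open Pool.Agent.W237.RK
open Pool.Agent.H58P (Qb ht)
open Pool.Agent.H54.AD (pt max_pow_le)
open Pool.Agent.H54.AM
open Pool.Agent.Q246.FD (divF)

theorem locme_orbN_finite (E : GF) {n : ℕ} (u : Fin n → Qb) : (orbN E u).Finite := by
  apply Set.Finite.subset (Set.Finite.pi (t := fun i => orb E (u i)) fun i => orb_finite E (u i))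
  rintro _ ⟨ρ, hρ, rfl⟩
  intro i _
  exact ⟨ρ, hρ, rfl⟩

theorem locme : S_PADM → Pool.Agent.H54.AD.S_DETL → S_CLME → S_EMBN → S_LOCME := by
  classical
  intro hPAD hDETL hCLM hEMB p hp ψ E 𝒰 σ Φ a n₂ ℓ ha hn₂ hn₂ℓ h𝒰inv h𝒰 hE hEρ hfrob n u hu0 huM
    e M T NN h hh hhe ι _ _ j y c hj hy
  have hpp : p.Prime := hp.out
  have hp1 : (1 : ℝ) < p := by exact_mod_cast hpp.one_lt
  have hp0 : (0 : ℝ) < p := by linarith
  set q := p ^ a with hq
  set ρ : ℝ := ((p : ℝ) ^ M)⁻¹ with hρ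
  have hρ0 : 0 < ρ := by positivity
  have hρ1 : ρ ≤ 1 := inv_le_one_of_one_le₀ (one_le_pow₀ hp1.le)
  have hfin := locme_orbN_finite E u
  set Y := hfin.toFinset with hY
  have hYmem : ∀ y, y ∈ Y ↔ y ∈ orbN E u := by
    intro y
    rw [hY, Set.Finite.mem_toFinset]
  have hne : ∀ y ∈ orbN E u, ∀ (k : ℕ) (i : Fin n), ψ (ptN σ q e y k i) ≠ 0 := by
    rintro _ ⟨τ, -, rfl⟩ k i
    unfold ptN pt
    exact (_root_.map_ne_zero ψ).mpr
      (pow_ne_zero _ ((_root_.map_ne_zero (σ ^ (e - k))).mpr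
        ((_root_.map_ne_zero τ).mpr (hu0 i))))
  -- the space of the center
  obtain ⟨U, hU1, hU2⟩ := hPAD p (Fin n → Qb) n T NN Y (fun y i => ψ (ptN σ q e y h i)) ρ hρ0 hρ1
    (fun l hl i => hne l ((hYmem l).mp hl) h i)
  set r := rkN NN (fun y : Fin n → Qb => ptN σ q e y h) (orbN E u) with hr
  have hUr : Module.finrank (PadicAlgCl p) U ≤ (2 * T) ^ n * r := by
    refine hU1.trans (Nat.mul_le_mul_left _ ?_)
    have h1 := hEMB Qb (PadicAlgCl p) ψ (Fin n → Qb) n NN (fun y : Fin n → Qb => ptN σ q e y h)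
      (orbN E u) hfin
    have hYc : (Y : Set (Fin n → Qb)) = orbN E u := Set.Finite.coe_toFinset _
    rw [hYc]
    exact h1
  -- the matrix
  set A : Matrix ι ι (PadicAlgCl p) := Matrix.of (fun i l => rowN NN
    (fun l' => ψ (ptN σ q e (y i) (j i) l')) (c l)) with hA
  have hdet : ψ (Matrix.of (fun i l => rowN NN (ptN σ q e (y i) (j i)) (c l))).det = A.det := by
    rw [RingHom.map_det]
    congr 1
    ext i l
    rw [RingHom.mapMatrix_apply, Matrix.map_apply, hA, Matrix.of_apply, Matrix.of_apply]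
    unfold rowN
    rw [map_prod]
    refine Finset.prod_congr rfl fun l' _ => ?_
    rw [map_pow]
  rw [hdet]
  set s : ι → ℝ := fun i => ∏ l, (max 1 ‖ψ (ptN σ q e (y i) (j i) l)‖) ^ NN l with hs
  have hs0 : ∀ i, 0 ≤ s i := fun i => Finset.prod_nonneg fun l _ => by positivity
  -- restriction to the columns
  let res : ((∀ i, Fin (NN i)) → PadicAlgCl p) →ₗ[PadicAlgCl p] (ι → PadicAlgCl p) :=
    { toFun := fun f i => f (c i)
      map_add' := fun _ _ => rfl
      map_smul' := fun _ _ => rfl }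
  refine hDETL p ι A s ρ T ((2 * T) ^ n * r) (U.map res) hρ0 hρ1 hs0
    ((Submodule.finrank_map_le res U).trans hUr) ?_ ?_
  · intro i l
    rw [hA, Matrix.of_apply]
    unfold rowN
    rw [norm_prod]
    refine Finset.prod_le_prod (fun _ _ => norm_nonneg _) fun l' _ => ?_
    rw [norm_pow]
    exact max_pow_le (norm_nonneg _) (c l l').2.le
  · intro i
    obtain ⟨y', hy', hclose⟩ := hCLM p ψ E 𝒰 σ Φ a n₂ ℓ ha hn₂ hn₂ℓ h𝒰inv h𝒰 hE hEρ hfrob n u huM
      e M (j i) h (y i) (hy i) (hj i).1 hh (hj i).2 hhe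
    obtain ⟨w, hwU, hw⟩ := hU2 (fun l => ψ (ptN σ q e (y i) (j i) l)) (fun l => hne _ (hy i) _ l)
      ⟨y', (hYmem y').mpr hy', hclose⟩
    refine ⟨res w, Submodule.mem_map_of_mem hwU, fun l => ?_⟩
    exact hw (c l)

end Pool.Agent.H54.AV
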