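import Pool.Agent.H54.AV.Stm4
import Pool.Agent.H54.AV.Ratd

set_option autoImplicit false
set_option linter.unusedVariables false

/-!
# Degrees over `M₀` of the elements of the group generated by the ratios (stub AV-RATE, helper62)
-/

namespace Pool.Agent.H54.AV

open Pool.Agent.W237.RK
open Pool.Agent.H58P (Qb ht)
open Pool.Agent.H54.AM

namespace RATE

open RAT RATD

variable {F M₀ : GF} {β : Qb}

/-- an automorphism over `M₀` which fixes `β` and changes a ratio by a root of unity fixes it -/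
theorem fix_one (hn : NormalOver F M₀) (hβ : β ≠ 0) (hrig : TorRigid M₀ β) {κ τ : Aut}
    (hκ : Fix M₀ κ) (hκβ : κ β = β) (hτ : Fix F τ) (ht : Tor (κ (τ β / β) / (τ β / β))) :
    κ (τ β / β) = τ β / β := by
  have h0 : τ β ≠ 0 := (map_ne_zero τ).2 hβ
  have e1 : κ (τ β / β) / (τ β / β) = κ (τ β) / τ β := by
    rw [map_div₀, hκβ]
    field_simp
  rw [e1] at ht
  have h1 := hrig (τ⁻¹ * κ * τ) (fix_conj' hn hτ hκ) (by
    have h2 := ht.map τ⁻¹
    rw [map_div₀, inv_apply_self] at h2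
    exact h2)
  have h3 : τ⁻¹ (κ (τ β)) = β := h1
  have h4 : κ (τ β) = τ β := by
    rw [← apply_inv_self τ (κ (τ β)), h3]
  rw [map_div₀, hκβ, h4]

/-- an automorphism over `M₀` which fixes `β` and the `r j` fixes the group -/
theorem fix_grp (hn : NormalOver F M₀) (hβ : β ≠ 0) (hrig : TorRigid M₀ β) {ρ : ℕ}
    (v : Qbˣ → Fin ρ → ℚ)
    (hv : ∀ x ∈ Subgroup.closure (ratS F β), ∀ y ∈ Subgroup.closure (ratS F β),
      v (x * y) = v x + v y)
    (hv0 : ∀ x ∈ Subgroup.closure (ratS F β), v x = 0 ↔ Tor (x : Qb))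
    {m : ℕ} (r : Fin m → Qbˣ) (hr : ∀ j, r j ∈ ratS F β)
    (hs : Submodule.span ℚ (Set.range fun j => v (r j)) = ⊤) {κ : Aut} (hκ : Fix M₀ κ)
    (hκβ : κ β = β) (hfix : ∀ j, κ (r j : Qb) = (r j : Qb)) (x : Qbˣ)
    (hx : x ∈ Subgroup.closure (ratS F β)) : κ (x : Qb) = (x : Qb) := by
  induction hx using Subgroup.closure_induction with
  | mem x hx =>
    obtain ⟨τ, hτ, rfl⟩ := eq_ru hβ hx
    rw [ru_val]
    refine fix_one hn hβ hrig hκ hκβ hτ ?_
    obtain ⟨q, a, hq, h⟩ := tor_of_span v hv hv0 r (fun j => Subgroup.subset_closure (hr j)) hs _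
      (Subgroup.subset_closure hx)
    have h0 : τ β / β ≠ 0 := div_ne_zero ((map_ne_zero τ).2 hβ) hβ
    -- the product of the powers of the `r j` is fixed
    set w : Qbˣ := (∏ j, r j ^ a j)⁻¹ with hw
    have hwκ : κ (w : Qb) = (w : Qb) := by
      have hrL : ∀ j, Units.map (κ : Qb →* Qb) (r j) = r j := fun j =>
        Units.ext (by rw [Units.coe_map]; exact hfix j)
      have h1 : Units.map (κ : Qb →* Qb) w = w := by
        rw [hw, map_inv, map_prod]
        simp only [map_zpow, hrL]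
      have h2 := congrArg (fun u : Qbˣ => (u : Qb)) h1
      simpa [Units.coe_map] using h2
    have e1 : ((ru β hβ τ ^ q * w : Qbˣ) : Qb) = (τ β / β) ^ q * (w : Qb) := by
      rw [Units.val_mul, Units.val_pow_eq_pow_val, ru_val]
    rw [e1] at h
    have h1 := (h.map κ).div h
    rw [map_mul, map_pow, hwκ, mul_div_mul_right _ _ w.ne_zero, ← div_pow] at h1
    obtain ⟨N, hN, h2⟩ := h1
    exact ⟨q * N, Nat.mul_pos hq hN, by rw [pow_mul]; exact h2⟩
  | one => rw [Units.val_one, map_one]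
  | mul x y hx hy h1 h2 => rw [Units.val_mul, map_mul, h1, h2]
  | inv x hx h1 => rw [Units.val_inv_eq_inv_val, map_inv₀, h1]

/-- the orbit of a ratio -/
theorem orb_ratio (hn : NormalOver F M₀) {D : ℕ} (hD : (orb M₀ β).ncard ≤ D) {τ : Aut}
    (hτ : Fix F τ) : (orb M₀ (τ β / β)).ncard ≤ D ^ 2 := by
  have hsub : orb M₀ (τ β / β) ⊆ (fun z : Qb × Qb => z.1 / z.2) '' (orb M₀ (τ β) ×ˢ orb M₀ β) := by
    rintro _ ⟨κ, hκ, rfl⟩
    exact ⟨(κ (τ β), κ β), ⟨⟨κ, hκ, rfl⟩, ⟨κ, hκ, rfl⟩⟩, (map_div₀ κ _ _).symm⟩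
  have hfin : (orb M₀ (τ β) ×ˢ orb M₀ β).Finite := (orb_finite M₀ _).prod (orb_finite M₀ _)
  refine ((Set.ncard_le_ncard hsub (hfin.image _)).trans (Set.ncard_image_le hfin)).trans ?_
  rw [Set.ncard_prod, pow_two]
  exact Nat.mul_le_mul (orb_le hn hτ hD) hD

end RATE

open RAT RATD RATE in
theorem rate : S_RATE := by
  classical
  intro F M₀ D β hn hβ hrig hD ρ v hv hv0 m r hr
  choose t ht1 ht2 using fun j => eq_ru hβ (hr j)
  refine ⟨fun j => ?_, fun hs x hx => ?_⟩
  · rw [ht2 j, ru_val]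
    exact orb_ratio hn hD (ht1 j)
  · let O : Option (Fin m) → Finset Qb := fun j =>
      (orb_finite M₀ (match j with | none => β | some j => t j β)).toFinset
    have hO : ∀ j, (O j).card ≤ D := by
      rintro (_ | j)
      · show ((orb_finite M₀ β).toFinset).card ≤ D
        rw [← Set.ncard_eq_toFinset_card (orb M₀ β) (orb_finite M₀ β)]
        exact hD
      · show ((orb_finite M₀ (t j β)).toFinset).card ≤ D
        rw [← Set.ncard_eq_toFinset_card (orb M₀ (t j β)) (orb_finite M₀ (t j β))]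
        exact orb_le hn (ht1 j) hD
    let b : Option (Fin m) → Qb := fun j => match j with | none => β | some j => t j β
    let Φ : (Option (Fin m) → Qb) → Qb := fun aw =>
      if h : ∃ κ : Aut, Fix M₀ κ ∧ ∀ j, κ (b j) = aw j then h.choose (x : Qb) else 0
    have hsub : orb M₀ (x : Qb) ⊆ ((Fintype.piFinset O).image Φ : Finset Qb) := by
      rintro _ ⟨κ, hκ, rfl⟩
      have hex : ∃ κ' : Aut, Fix M₀ κ' ∧ ∀ j, κ' (b j) = κ (b j) := ⟨κ, hκ, fun _ => rfl⟩
      rw [Finset.coe_image, Set.mem_image]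
      refine ⟨fun j => κ (b j), ?_, ?_⟩
      · rw [Finset.mem_coe, Fintype.mem_piFinset]
        rintro (_ | j)
        · show κ β ∈ (orb_finite M₀ β).toFinset
          rw [Set.Finite.mem_toFinset]
          exact ⟨κ, hκ, rfl⟩
        · show κ (t j β) ∈ (orb_finite M₀ (t j β)).toFinset
          rw [Set.Finite.mem_toFinset]
          exact ⟨κ, hκ, rfl⟩
      · show (if h : ∃ κ' : Aut, Fix M₀ κ' ∧ ∀ j, κ' (b j) = κ (b j) then h.choose (x : Qb) else 0) =
          κ (x : Qb)
        rw [dif_pos hex]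
        obtain ⟨h1, h2⟩ := hex.choose_spec
        set κ' := hex.choose with hκ'
        -- `κ⁻¹ κ'` fixes `β` and the `r j`
        have hf : Fix M₀ (κ⁻¹ * κ') := fix_mul (fix_inv hκ) h1
        have hb : ∀ j, (κ⁻¹ * κ') (b j) = b j := by
          intro j
          show κ⁻¹ (κ' (b j)) = b j
          rw [h2 j, inv_apply_self]
        have hbβ : (κ⁻¹ * κ') β = β := hb none
        have hbr : ∀ j, (κ⁻¹ * κ') (r j : Qb) = (r j : Qb) := by
          intro j
          rw [ht2 j, ru_val, map_div₀, hbβ]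
          have h3 : (κ⁻¹ * κ') (t j β) = t j β := hb (some j)
          rw [h3]
        have h4 := fix_grp hn hβ hrig v hv hv0 r hr hs hf hbβ hbr x hx
        have h5 : κ⁻¹ (κ' (x : Qb)) = (x : Qb) := h4
        rw [← apply_inv_self κ (κ' (x : Qb)), h5]
    calc (orb M₀ (x : Qb)).ncard
        ≤ (((Fintype.piFinset O).image Φ : Finset Qb) : Set Qb).ncard :=
          Set.ncard_le_ncard hsub (Finset.finite_toSet _)
      _ = ((Fintype.piFinset O).image Φ).card := Set.ncard_coe_finset _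
      _ ≤ (Fintype.piFinset O).card := Finset.card_image_le
      _ = ∏ j, (O j).card := Fintype.card_piFinset _
      _ ≤ D ^ (m + 1) := by
          refine (Finset.prod_le_pow_card Finset.univ (fun j => (O j).card) D fun j _ => hO j).trans
            ?_
          rw [Finset.card_univ, Fintype.card_option, Fintype.card_fin]

end Pool.Agent.H54.AV
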