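import Mathlib
import Pool.Agent.H54.AV.Find
import Pool.Agent.H54.AV.Adme
import Pool.Agent.H54.AV.Maine
import Pool.Agent.H54.AV.Clme
import Pool.Agent.H54.AV.Locme
import Pool.Agent.H54.AV.Frobe
import Pool.Agent.H54.AV.Rate
import Pool.Agent.H54.AV.Rnke
import Pool.Agent.H54.AV.Dscu
import Pool.Agent.H54.AV.Redu

set_option autoImplicit false
set_option linter.unusedVariables false

/-!
# All algebraic numbers, polynomial dependence on the degree: all the pieces together
-/

namespace Pool.Agent.H54.AV

open Pool.Agent.W237.RK
open Pool.Agent.H54.RX (cs3' ks3')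
open Pool.Agent.H54.AD (detl)
open Pool.Agent.H54.AM

theorem locme' : S_LOCME := locme padm detl clme embn

theorem adme' : S_ADME := adme locme' zen' gen AD.min

theorem rnke' : S_RNKE := rnke (geo mkn) (vec fgb) ratd rate htl

theorem maine' : S_MAINE :=
  maine adme' frobe' (dscu cs3' ks3' divl) (redu cs3') divl rnke'
    (kum Pool.Agent.W402.RK.kd.2) fldb intt glu com comd main5'

end Pool.Agent.H54.AV
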