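import Mathlib
import Pool.Agent.H54.AV.Fine
import Pool.Agent.H54.AV.Mainf

set_option autoImplicit false
set_option linter.unusedVariables false

/-!
# All algebraic numbers, degrees of powers: all the pieces together, and the theorem with the norm
-/

namespace Pool.Agent.H54.AV

open Pool.Agent.W237.RK
open Pool.Agent.H58P (Qb ht)
open Pool.Agent.H54.RX
open Pool.Agent.H54.AM
open Pool.Agent.Q246.FD (divF)

theorem mainf' : S_MAINF :=
  mainf adme' frobe' (dscu cs3' ks3' divl) (redu cs3') divl rnke'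
    (kum Pool.Agent.W402.RK.kd.2) fldb intt glu com comd main5'

/-- `ht (α / γ) ≥ c / (D_Γ(α) * [F_P(N ^ m) : F_P] ^ ε)`, `N` the norm of `α` to the division
field -/
def S_MAING : Prop := ∀ (K : GF) (Γ : Subgroup Qbˣ), FiniteDimensional ℚ K → Γ.FG →
  (∀ g ∈ Γ, (g : Qb) ∈ K) → ∀ (P : Finset ℕ), (∀ p ∈ P, p.Prime) → ∀ ε : ℝ, 0 < ε →
  ∃ c : ℝ, 0 < c ∧
  ∀ α : Qb, α ≠ 0 → ¬ DivG Γ (((minpoly (divF K Γ) α).coeff 0 : divF K Γ) : Qb) →
    ∀ γ : Qb, DivG Γ γ → ∀ m : ℕ, 0 < m →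
    c / ((orb (divF K Γ) α).ncard *
      ((orb (fullField K Γ P)
        ((((minpoly (divF K Γ) α).coeff 0 : divF K Γ) : Qb) ^ m)).ncard : ℝ) ^ ε) ≤ ht (α / γ)

theorem maing : S_MAINF → S_NRM → S_MAING := by
  intro hP hNRM K Γ hK hΓfg hΓ P hPp ε hε
  obtain ⟨c, A, hc, h⟩ := hP K Γ hK hΓfg hΓ P hPp ε hε
  refine ⟨c, hc, fun α hα0 hN γ hγ m hm => ?_⟩
  have hγ0 : γ ≠ 0 := Pool.Agent.TH53.RP.DivG.ne_zero hγ
  have hFd : fullField K Γ P ≤ divF K Γ := fullField_le_divF K Γ P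
  have hγF : γ ∈ divF K Γ := IntermediateField.subset_adjoin _ _ (Or.inr hγ)
  obtain ⟨h0, h1, h2⟩ := hNRM (fullField K Γ P) (divF K Γ) α hFd
    (fun τ hτ x hx => normal_divF K Γ hΓ τ (fix_mono (le_fullField K Γ P) hτ) x hx) hα0
  set d : ℕ := (orb (divF K Γ) α).ncard with hd
  have hdpos : (0 : ℝ) < d := by exact_mod_cast orb_ncard_pos _ _
  set N : Qb := (((minpoly (divF K Γ) α).coeff 0 : divF K Γ) : Qb) with hNdef
  have hNmem : N ∈ divF K Γ := SetLike.coe_mem _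
  have h3 := h N h0 hN (γ ^ d) (divG_pow hγ d) m hm
  rw [orb_of_mem hNmem, Set.ncard_singleton, Nat.cast_one, one_pow, one_mul] at h3
  have h4 := h2 γ hγF hγ0
  have h7 : c / ((orb (fullField K Γ P) (N ^ m)).ncard : ℝ) ^ ε ≤ d * ht (α / γ) := h3.trans h4
  rw [mul_comm, ← div_div, div_le_iff₀ hdpos, mul_comm]
  exact h7

theorem maing' : S_MAING := maing mainf' nrm

end Pool.Agent.H54.AV
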