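import Mathlib
import Pool.Agent.H54.AV.Stm4
import Pool.Agent.H54.AV.Rnkd
import Pool.Agent.H54.AV.Admf

set_option autoImplicit false
set_option linter.unusedVariables false

/-!
# From products of heights to the ratios, explicit dependence on the degree
-/

namespace Pool.Agent.H54.AV

open Pool.Agent.W237.RK
open Pool.Agent.H58P (Qb ht)
open Pool.Agent.H54.AM

/-- `S_RNKE` with explicit exponents -/
def S_RNKF : Prop := ∀ (k b : ℕ) (ε c : ℝ), 2 ≤ k → 0 < ε → ε ≤ 1 → 0 < c →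
  ∃ c' : ℝ, 0 < c' ∧
  ∀ (D : ℕ) (F F₁ M₀ : GF) (β : Qb) (H : ℝ) (B : ℕ) (S : Finset Qbˣ),
  (∀ x : Qb, Tor x → x ∈ F) → F ≤ F₁ → NormalOver F F₁ →
  (∀ τ τ' : Aut, Fix F τ → Fix F τ' → ∀ x ∈ F₁, τ (τ' x) = τ' (τ x)) → β ≠ 0 →
  TorRigid F₁ β → (orb F₁ β).ncard ≤ D →
  NormalOver F M₀ → TorRigid M₀ β → (orb M₀ β).ncard ≤ D →
  S.card ≤ B → (∀ x ∈ ratS F β, ∃ y ∈ S, Tor ((x / y : Qbˣ) : Qb)) →
  (∀ τ : Aut, Fix F τ → ht (τ β / β) ≤ H) →
  (∃ τ : Aut, Fix F τ ∧ ¬ Tor (τ β / β)) →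
  (∀ (n : ℕ) (u : Fin n → Qbˣ), n ≤ k → (∀ i, u i ∈ Subgroup.closure (ratS F β)) →
    IndepN (fun i => (u i : Qb)) → (∀ i, (orb M₀ (u i : Qb)).ncard ≤ D ^ k) →
    c / ((D : ℝ) ^ (b * n) * ((orbN F (fun i => (u i : Qb))).ncard : ℝ) ^ (1 + ε)) ≤
      ∏ i, ht (u i : Qb)) →
  c' / ((D : ℝ) ^ (b + 2) * (B : ℝ) ^ (max ε ((1 + ε) / k))) ≤ H

open RNK RNKD in
theorem rnkf : S_GEO → S_VEC → S_RATD → S_RATE → S_HTL → S_RNKF := by
  classical
  intro hgeo hvec hrat hrate hhtl k b ε c hk2 hε hε1 hc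
  have hk : 0 < k := by omega
  choose Cg hCg hgeo using hgeo
  obtain ⟨C, hC⟩ : ∃ C : ℝ, C = ∑ ρ ∈ Finset.range (k + 1), Cg ρ := ⟨_, rfl⟩
  have hCle : ∀ ρ, ρ ≤ k → Cg ρ ≤ C := fun ρ hρ => by
    rw [hC]
    exact Finset.single_le_sum (f := Cg) (fun i _ => (hCg i).le) (Finset.mem_range.2 (by omega))
  have hC0 : 0 < C := lt_of_lt_of_le (hCg 0) (hCle 0 (Nat.zero_le _))
  obtain ⟨c₀, hc₀⟩ : ∃ c₀ : ℝ, c₀ = min 1 (min c (c / C)) := ⟨_, rfl⟩
  have hc₀0 : 0 < c₀ := by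
    rw [hc₀]
    exact lt_min one_pos (lt_min hc (div_pos hc hC0))
  have hc₀1 : c₀ ≤ 1 := by rw [hc₀]; exact min_le_left _ _
  have hc₀2 : c₀ ≤ c := by rw [hc₀]; exact (min_le_right _ _).trans (min_le_left _ _)
  have hc₀3 : c₀ ≤ c / C := by rw [hc₀]; exact (min_le_right _ _).trans (min_le_right _ _)
  refine ⟨c₀, hc₀0, ?_⟩
  intro D F F₁ M₀ β H B S htor hFF hnorm hcomm hβ hrig hdeg hnM₀ hrigM hdegM hSB hS hH hex hyp
  have hD1 : 1 ≤ D := (orb_ncard_pos F₁ β).trans_le hdeg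
  have hDr : (1 : ℝ) ≤ D := by exact_mod_cast hD1
  have hD0 : (0 : ℝ) < D := by linarith
  have hH0' : 0 ≤ H := by
    obtain ⟨τ₀, hτ₀, -⟩ := hex
    exact (Pool.Agent.H58R.ht_nonneg _).trans (hH τ₀ hτ₀)
  have hEpos : ∀ m : ℕ, 0 < (D : ℝ) ^ ((b + 2) * m) := fun m => pow_pos hD0 _
  have hfin : (ratS F β).Finite := ratSf F β
  have hFG : (Subgroup.closure (ratS F β)).FG := ⟨hfin.toFinset, by rw [Set.Finite.coe_toFinset]⟩
  obtain ⟨ρ, v, hadd, hker, hspan⟩ := hvec _ hFG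
  have hsub : ∀ x ∈ ratS F β, x ∈ Subgroup.closure (ratS F β) := fun x hx => Subgroup.subset_closure hx
  obtain ⟨-, horb⟩ := hrat F F₁ D β htor hFF hnorm hcomm hβ hrig hdeg ρ v hadd hker
  have horbM := hrate F M₀ D β hnM₀ hβ hrigM hdegM ρ v hadd hker
  have hN : (v '' ratS F β).ncard ≤ B := (classes_le hadd hker S hS).trans hSB
  obtain ⟨hht, hind⟩ := hhtl _ ρ v hadd hker
  have hRs := span_gen hadd hspan
  have hRf : (v '' ratS F β).Finite := hfin.image v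
  obtain ⟨τ₀, hτ₀, hnt⟩ := hex
  have hH0 : 0 ≤ H := by
    refine le_trans ?_ (hH τ₀ hτ₀)
    exact Pool.Agent.H58R.ht_nonneg _
  -- `ρ` is positive
  have hρ : 0 < ρ := by
    rcases Nat.eq_zero_or_pos ρ with h0 | h0
    · exfalso
      subst h0
      apply hnt
      have hne : τ₀ β / β ≠ 0 := div_ne_zero ((map_ne_zero τ₀).2 hβ) hβ
      exact (hker (Units.mk0 _ hne) (hsub _ ⟨τ₀, hτ₀, rfl⟩)).1 (Subsingleton.elim _ _)
    · exact h0
  obtain ⟨N, hNd⟩ : ∃ N : ℕ, N = (v '' ratS F β).ncard := ⟨_, rfl⟩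
  have hN1 : 1 ≤ N := by
    rw [hNd]
    refine (Set.ncard_pos hRf).2 ?_
    have hne : τ₀ β / β ≠ 0 := div_ne_zero ((map_ne_zero τ₀).2 hβ) hβ
    exact ⟨_, Units.mk0 _ hne, ⟨τ₀, hτ₀, rfl⟩, rfl⟩
  rw [← hNd] at hN
  have hB1 : 1 ≤ B := hN1.trans hN
  have hNr : (1 : ℝ) ≤ N := by exact_mod_cast hN1
  have hBr : (1 : ℝ) ≤ B := by exact_mod_cast hB1
  have hNBr : (N : ℝ) ≤ B := by exact_mod_cast hN
  have hN0 : (0 : ℝ) < N := by linarith
  have hxht : ∀ x ∈ ratS F β, ht (x : Qb) ≤ H := by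
    rintro x ⟨τ, hτ, e⟩
    rw [e]
    exact hH τ hτ
  have hk0 : (0 : ℝ) < k := by exact_mod_cast hk
  -- lower bound from the hypothesis
  have hlow : ∀ (m : ℕ), m ≤ k → ∀ (u : Fin m → Qbˣ),
      (∀ i, u i ∈ Subgroup.closure (ratS F β)) → IndepN (fun i => (u i : Qb)) →
      (∀ i, (orb M₀ (u i : Qb)).ncard ≤ D ^ k) →
      (orbN F (fun i => (u i : Qb))).ncard ≤ D ^ m * (v '' ratS F β).ncard →
      c / (D : ℝ) ^ ((b + 2) * m) / (N : ℝ) ^ (1 + ε) ≤ ∏ i, ht (u i : Qb) := by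
    intro m hm u hu hi hM h3
    refine le_trans ?_ (hyp m u hm hu hi hM)
    have h4 := RNK.orbN_pos (F := F) (fun i => (u i : Qb)) (orbNf F _)
    rw [← hNd] at h3
    have h4' : (1 : ℝ) ≤ ((orbN F (fun i => (u i : Qb))).ncard : ℝ) := by exact_mod_cast h4
    have h3' : ((orbN F (fun i => (u i : Qb))).ncard : ℝ) ≤ (D : ℝ) ^ m * N := by exact_mod_cast h3
    have h7 : ((orbN F (fun i => (u i : Qb))).ncard : ℝ) ^ (1 + ε) ≤
        (D : ℝ) ^ (2 * m) * (N : ℝ) ^ (1 + ε) := by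
      calc ((orbN F (fun i => (u i : Qb))).ncard : ℝ) ^ (1 + ε)
          ≤ ((D : ℝ) ^ m * N) ^ (1 + ε) := Real.rpow_le_rpow (by linarith) h3' (by linarith)
        _ = ((D : ℝ) ^ m) ^ (1 + ε) * (N : ℝ) ^ (1 + ε) :=
            Real.mul_rpow (by positivity) hN0.le
        _ ≤ (D : ℝ) ^ (2 * m) * (N : ℝ) ^ (1 + ε) := by
            apply mul_le_mul_of_nonneg_right _ (Real.rpow_nonneg hN0.le _)
            have h8 : (1 : ℝ) ≤ (D : ℝ) ^ m := one_le_pow₀ hDr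
            calc ((D : ℝ) ^ m) ^ (1 + ε) ≤ ((D : ℝ) ^ m) ^ (2 : ℝ) :=
                  Real.rpow_le_rpow_of_exponent_le h8 (by linarith)
              _ = (D : ℝ) ^ (2 * m) := by
                  rw [show (2 : ℝ) = ((2 : ℕ) : ℝ) by norm_num, Real.rpow_natCast, ← pow_mul,
                    mul_comm]
    have h8 : (D : ℝ) ^ (b * m) * ((orbN F (fun i => (u i : Qb))).ncard : ℝ) ^ (1 + ε) ≤
        (D : ℝ) ^ ((b + 2) * m) * (N : ℝ) ^ (1 + ε) := by
      calc (D : ℝ) ^ (b * m) * ((orbN F (fun i => (u i : Qb))).ncard : ℝ) ^ (1 + ε)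
          ≤ (D : ℝ) ^ (b * m) * ((D : ℝ) ^ (2 * m) * (N : ℝ) ^ (1 + ε)) :=
            mul_le_mul_of_nonneg_left h7 (by positivity)
        _ = (D : ℝ) ^ ((b + 2) * m) * (N : ℝ) ^ (1 + ε) := by rw [add_mul, pow_add]; ring
    rw [div_div]
    apply div_le_div_of_nonneg_left hc.le _ h8
    exact mul_pos (by positivity) (Real.rpow_pos_of_pos (by linarith) _)
  -- the assumption, to a power
  have hpowlt : ∀ (m : ℕ) (δ : ℝ), 1 ≤ m → m ≤ k → 0 ≤ δ → δ ≤ m * max ε ((1 + ε) / k) →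
      H < c₀ / ((D : ℝ) ^ (b + 2) * (B : ℝ) ^ (max ε ((1 + ε) / k))) →
      H ^ m < c₀ / (D : ℝ) ^ ((b + 2) * m) / (N : ℝ) ^ δ := by
    intro m δ hm hmk hδ0 hδ hlt
    have hBm : (0 : ℝ) < (B : ℝ) ^ (max ε ((1 + ε) / k)) := Real.rpow_pos_of_pos (by linarith) _
    have h5 : H ^ m < (c₀ / ((D : ℝ) ^ (b + 2) * (B : ℝ) ^ (max ε ((1 + ε) / k)))) ^ m :=
      pow_lt_pow_left₀ hlt hH0' (by omega)
    refine h5.trans_le ?_
    rw [div_pow, mul_pow, ← pow_mul, div_div]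
    apply div_le_div₀ hc₀0.le
    · calc c₀ ^ m ≤ c₀ ^ 1 := pow_le_pow_of_le_one hc₀0.le hc₀1 hm
        _ = c₀ := pow_one _
    · exact mul_pos (hEpos m) (Real.rpow_pos_of_pos hN0 _)
    · apply mul_le_mul_of_nonneg_left _ (hEpos m).le
      calc (N : ℝ) ^ δ ≤ (B : ℝ) ^ δ := Real.rpow_le_rpow (by linarith) hNBr hδ0
        _ ≤ (B : ℝ) ^ ((m : ℝ) * max ε ((1 + ε) / k)) :=
            Real.rpow_le_rpow_of_exponent_le hBr hδ
        _ = ((B : ℝ) ^ (max ε ((1 + ε) / k))) ^ m := by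
            rw [mul_comm, Real.rpow_mul (by linarith), Real.rpow_natCast]
  by_contra hlt
  rw [not_le] at hlt
  rcases lt_or_ge ρ k with hρk | hρk
  · obtain ⟨r, w, hr, hw, hli, hprod⟩ := hgeo ρ hRf.toFinset (by rw [Set.Finite.coe_toFinset]; exact hRs)
    have hx : ∀ j, ∃ x ∈ ratS F β, v x = r j := fun j => by
      have := hr j
      rw [Set.Finite.mem_toFinset] at this
      exact this
    choose x hx hxr using hx
    have hu : ∀ i, ∃ y ∈ Subgroup.closure (ratS F β), v y = ∑ j, w i j • r j := fun i => by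
      have := hw i
      rw [Set.Finite.coe_toFinset] at this
      exact lift_gen hadd this
    choose u hu huv using hu
    have hI : IndepN (fun i => (u i : Qb)) := by
      apply hind ρ u hu
      simp only [huv]
      exact hli
    have hne : Nonempty (Fin ρ) := ⟨⟨0, hρ⟩⟩
    have hsp : Submodule.span ℚ (Set.range fun j => v (x j)) = ⊤ := by
      have h1 : Submodule.span ℚ (Set.range fun i => ∑ j, w i j • r j) = ⊤ :=
        hli.span_eq_top_of_card_eq_finrank (by rw [Fintype.card_fin, Module.finrank_fin_fun])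
      rw [eq_top_iff, ← h1, Submodule.span_le]
      rintro _ ⟨i, rfl⟩
      refine Submodule.sum_mem _ fun j _ => Submodule.smul_mem _ _ ?_
      rw [← hxr j]
      exact Submodule.subset_span ⟨j, rfl⟩
    have h2 := hlow ρ hρk.le u hu hI (fun i =>
      (((horbM ρ x hx).2 hsp) (u i) (hu i)).trans (Nat.pow_le_pow_right hD1 (by omega)))
      (((horb ρ x hx).2 hsp) ρ u hu)
    have h3 : ∏ i, ht (u i : Qb) ≤ ∏ i, ((∑ j, |(w i j : ℝ)|) * H) := by
      apply Finset.prod_le_prod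
      · intro i _
        exact Pool.Agent.H58R.ht_nonneg _
      · intro i _
        refine hht ρ x (w i) (u i) H (fun j => hsub _ (hx j)) (hu i) (fun j => hxht _ (hx j)) ?_
        rw [huv]
        exact Finset.sum_congr rfl fun j _ => by rw [hxr]
    rw [Finset.prod_mul_distrib, Finset.prod_const, Finset.card_univ, Fintype.card_fin] at h3
    have hcard : (hRf.toFinset.card : ℝ) = N := by
      rw [hNd, Set.ncard_eq_toFinset_card _ hRf]
    rw [hcard] at hprod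
    have h4 : (∏ i, ∑ j, |(w i j : ℝ)|) ≤ C / N := by
      rw [le_div_iff₀ (by linarith)]
      exact hprod.trans (hCle ρ hρk.le)
    have hρ1 : (1 : ℝ) ≤ ρ := by exact_mod_cast hρ
    have h5 := hpowlt ρ ε hρ hρk.le hε.le (by
      calc ε ≤ max ε ((1 + ε) / k) := le_max_left _ _
        _ = 1 * max ε ((1 + ε) / k) := (one_mul _).symm
        _ ≤ ρ * max ε ((1 + ε) / k) :=
            mul_le_mul_of_nonneg_right hρ1 (hε.le.trans (le_max_left _ _))) hlt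
    have h6 : c / (D : ℝ) ^ ((b + 2) * ρ) / (N : ℝ) ^ (1 + ε) ≤ C / N * H ^ ρ := by
      calc c / (D : ℝ) ^ ((b + 2) * ρ) / (N : ℝ) ^ (1 + ε)
          ≤ (∏ i, ∑ j, |(w i j : ℝ)|) * H ^ ρ := h2.trans h3
        _ ≤ C / N * H ^ ρ := mul_le_mul_of_nonneg_right h4 (pow_nonneg hH0 _)
    have hNe : (0 : ℝ) < (N : ℝ) ^ ε := Real.rpow_pos_of_pos hN0 _
    have h8 : C / N * H ^ ρ < C / N * (c₀ / (D : ℝ) ^ ((b + 2) * ρ) / (N : ℝ) ^ ε) :=
      mul_lt_mul_of_pos_left h5 (by positivity)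
    have h9 : C / N * (c₀ / (D : ℝ) ^ ((b + 2) * ρ) / (N : ℝ) ^ ε) ≤
        c / (D : ℝ) ^ ((b + 2) * ρ) / (N : ℝ) ^ (1 + ε) := by
      have h10 : C * c₀ ≤ c := by
        have := hc₀3
        rwa [le_div_iff₀ hC0, mul_comm] at this
      have e1 : C / N * (c₀ / (D : ℝ) ^ ((b + 2) * ρ) / (N : ℝ) ^ ε) =
          (C * c₀) / (D : ℝ) ^ ((b + 2) * ρ) / (N : ℝ) ^ (1 + ε) := by
        rw [Real.rpow_add hN0, Real.rpow_one]
        field_simp
      rw [e1]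
      apply div_le_div_of_nonneg_right _ (Real.rpow_nonneg hN0.le _)
      exact div_le_div_of_nonneg_right h10 (hEpos ρ).le
    linarith
  · obtain ⟨r, hr, hli⟩ := indep_sub hρk hRs
    choose x hx hxr using hr
    have hI : IndepN (fun i => (x i : Qb)) := by
      apply hind k x (fun i => hsub _ (hx i))
      simp only [hxr]
      exact hli
    have h2 := hlow k le_rfl x (fun i => hsub _ (hx i)) hI (fun i =>
      ((horbM k x hx).1 i).trans (Nat.pow_le_pow_right hD1 (by omega))) (horb k x hx).1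
    have h3 : ∏ i, ht (x i : Qb) ≤ H ^ k := by
      calc ∏ i, ht (x i : Qb) ≤ ∏ _i : Fin k, H := by
            apply Finset.prod_le_prod
            · intro i _
              exact Pool.Agent.H58R.ht_nonneg _
            · intro i _
              exact hxht _ (hx i)
        _ = H ^ k := by rw [Finset.prod_const, Finset.card_univ, Fintype.card_fin]
    have h5 := hpowlt k (1 + ε) hk le_rfl (by linarith) (by
      have h6 : 1 + ε = k * ((1 + ε) / k) := by field_simp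
      calc 1 + ε = k * ((1 + ε) / k) := h6
        _ ≤ k * max ε ((1 + ε) / k) := mul_le_mul_of_nonneg_left (le_max_right _ _) hk0.le) hlt
    have h8 : c₀ / (D : ℝ) ^ ((b + 2) * k) / (N : ℝ) ^ (1 + ε) ≤
        c / (D : ℝ) ^ ((b + 2) * k) / (N : ℝ) ^ (1 + ε) := by
      apply div_le_div_of_nonneg_right _ (Real.rpow_nonneg hN0.le _)
      exact div_le_div_of_nonneg_right hc₀2 (hEpos k).le
    linarith

end Pool.Agent.H54.AV
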