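import Mathlib
import Pool.Agent.H54.AV.Fine
import Pool.Agent.H54.AV.Mainh

set_option autoImplicit false
set_option linter.unusedVariables false

/-!
# All algebraic numbers, explicit exponent: all the pieces together
-/

namespace Pool.Agent.H54.AV

open Pool.Agent.H54.RX (cs3' ks3')
open Pool.Agent.H54.AM

theorem mainh' : S_MAINH :=
  mainh (admf adme') frobe' (dscu cs3' ks3' divl) (redu cs3') divl
    (rnkf (geo mkn) (vec fgb) ratd rate htl)
    (kum Pool.Agent.W402.RK.kd.2) fldb intt glu com comd main5'

end Pool.Agent.H54.AV
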