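import Pool.Agent.H54.AV.Stm

/-! # Project AV, stub FLD (helper44): two descriptions of a level -/

set_option autoImplicit false

namespace Pool.Agent.H54.AV

open Pool.Agent.W237.RK
open Pool.Agent.H58P (Qb ht)

namespace Fldaux

/-- a field is above a level if it contains the generators -/
theorem level_le {K F : GF} {Γ : Subgroup Qbˣ} {N R : ℕ} (hK : K ≤ F) (h1 : ∀ x : Qb, x ^ N = 1 → x ∈ F)
    (h2 : ∀ y : Qb, (∃ g ∈ Γ, y ^ R = (g : Qb)) → y ∈ F) : lev K Γ N R ≤ F := by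
  refine sup_le hK (IntermediateField.adjoin_le_iff.2 ?_)
  rintro x (hx | hx)
  · exact h1 x hx
  · exact h2 x hx

theorem base_le_level (K : GF) (Γ : Subgroup Qbˣ) (N R : ℕ) : K ≤ lev K Γ N R := le_sup_left

theorem root_mem_level (K : GF) (Γ : Subgroup Qbˣ) {N R : ℕ} {x : Qb} (hx : x ^ N = 1) : x ∈ lev K Γ N R :=
  (le_sup_right : _ ≤ lev K Γ N R) (IntermediateField.subset_adjoin ℚ _ (Or.inl hx))

theorem rad_mem_level (K : GF) (Γ : Subgroup Qbˣ) {N R : ℕ} {y : Qb} (hy : ∃ g ∈ Γ, y ^ R = (g : Qb)) :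
    y ∈ lev K Γ N R :=
  (le_sup_right : _ ≤ lev K Γ N R) (IntermediateField.subset_adjoin ℚ _ (Or.inr hy))

/-- an `a b`-th root of unity lies in a field which contains the `a`-th and the `b`-th roots of unity,
if `a` and `b` are coprime -/
theorem mul_root_level {F : GF} {a b : ℕ} (hab : Nat.Coprime a b) (ha : ∀ x : Qb, x ^ a = 1 → x ∈ F)
    (hb : ∀ x : Qb, x ^ b = 1 → x ∈ F) {x : Qb} (hx0 : x ≠ 0) (hx : x ^ (a * b) = 1) : x ∈ F := by
  have e : x = (x ^ b) ^ (Nat.gcdB a b) * (x ^ a) ^ (Nat.gcdA a b) := by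
    have h1 : ((Nat.gcd a b : ℕ) : ℤ) = a * Nat.gcdA a b + b * Nat.gcdB a b := Nat.gcd_eq_gcd_ab a b
    rw [hab.gcd_eq_one] at h1
    calc x = x ^ ((1 : ℕ) : ℤ) := by simp
      _ = x ^ ((b : ℤ) * Nat.gcdB a b + a * Nat.gcdA a b) := by
          rw [h1]
          congr 1
          ring
      _ = (x ^ b) ^ (Nat.gcdB a b) * (x ^ a) ^ (Nat.gcdA a b) := by
          rw [zpow_add₀ hx0, zpow_mul, zpow_mul, zpow_natCast, zpow_natCast]
  rw [e]
  refine mul_mem (zpow_mem (ha _ ?_) _) (zpow_mem (hb _ ?_) _)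
  · rw [← pow_mul, mul_comm, hx]
  · rw [← pow_mul, hx]

end Fldaux

open Fldaux

theorem fld : S_FLD := by
  intro p K Γ i₀ n₀ M M' M'' hp hΓ hM hM'' hdvd
  have hM''0 : M'' ≠ 0 := by
    rintro rfl
    exact hM'' (dvd_zero _)
  have hM0 : M ≠ 0 := by
    rintro rfl
    exact hM (dvd_zero _)
  have hM'0 : M' ≠ 0 := by
    rintro rfl
    exact hM''0 (Nat.eq_zero_of_zero_dvd hdvd)
  have hcop : Nat.Coprime (p ^ i₀) M' :=
    Nat.Coprime.pow_left _ ((Nat.Prime.coprime_iff_not_dvd hp).2 (fun h => hM'' (h.trans hdvd)))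
  constructor
  · have hF : lev K Γ (p ^ i₀) (p ^ n₀) ≤
        lev (lev K Γ (p ^ i₀) (p ^ n₀)) (radS Γ (p ^ n₀)) M'' M := base_le_level _ _ _ _
    refine level_le ((base_le_level _ _ _ _).trans hF) ?_ ?_
    · intro x hx
      have hx0 : x ≠ 0 := by
        rintro rfl
        rw [zero_pow (Nat.mul_ne_zero (pow_ne_zero _ hp.ne_zero) hM'0)] at hx
        exact zero_ne_one hx
      refine mul_root_level hcop (fun y hy => hF (root_mem_level _ _ hy)) (fun y hy => root_mem_level _ _ ?_) hx0 hx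
      obtain ⟨k, rfl⟩ := hdvd
      rw [pow_mul, hy, one_pow]
    · rintro y ⟨g, hg, hy⟩
      have hy0 : y ≠ 0 := rad_ne_zero (Nat.pos_of_ne_zero (Nat.mul_ne_zero (pow_ne_zero _ hp.ne_zero) hM0))
        ⟨g, hg, hy⟩
      refine rad_mem_level _ _ ⟨(Units.mk0 y hy0) ^ M, ?_, ?_⟩
      · rw [mem_radS]
        have : ((Units.mk0 y hy0) ^ M) ^ (p ^ n₀) = g := by
          ext
          rw [← pow_mul, Units.val_pow_eq_pow_val, Units.val_mk0, mul_comm M, hy]
        rwa [this]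
      · rw [Units.val_pow_eq_pow_val, Units.val_mk0]
  · refine level_le (level_le (base_le_level _ _ _ _) ?_ ?_) ?_ ?_
    · intro x hx
      refine root_mem_level _ _ ?_
      rw [pow_mul, hx, one_pow]
    · rintro y ⟨g, hg, hy⟩
      obtain ⟨z, hz⟩ := IsAlgClosed.exists_pow_nat_eq y (Nat.pos_of_ne_zero hM0)
      rw [← hz]
      refine pow_mem (rad_mem_level _ _ ⟨g, hg, ?_⟩) _
      rw [mul_comm, pow_mul, hz, hy]
    · intro x hx
      refine root_mem_level _ _ ?_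
      rw [mul_comm, pow_mul, hx, one_pow]
    · rintro y ⟨h, hh, hy⟩
      refine rad_mem_level _ _ ⟨h ^ (p ^ n₀), mem_radS.1 hh, ?_⟩
      rw [mul_comm, pow_mul, hy, Units.val_pow_eq_pow_val]

end Pool.Agent.H54.AV
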