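import Mathlib
import Pool.Agent.H54.AV.Fin

set_option autoImplicit false
set_option linter.unusedVariables false

/-!
# The theorem with the norm, with the degree of the norm
-/

namespace Pool.Agent.H54.AV

open Pool.Agent.W237.RK
open Pool.Agent.H58P (Qb ht)
open Pool.Agent.H54.RX
open Pool.Agent.H54.AM
open Pool.Agent.Q246.FD (divF)

/-- `ht (α / γ) ≥ c / (D_Γ(α) * [F_P(N) : F_P] ^ ε)`, `N` the norm of `α` to the division field,
and `[F_P(N) : F_P] ≤ [F_P(α) : F_P]` -/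
def S_MAINN : Prop := ∀ (K : GF) (Γ : Subgroup Qbˣ), FiniteDimensional ℚ K → Γ.FG →
  (∀ g ∈ Γ, (g : Qb) ∈ K) → ∀ (P : Finset ℕ), (∀ p ∈ P, p.Prime) → ∀ ε : ℝ, 0 < ε →
  ∃ c : ℝ, 0 < c ∧
  ∀ α : Qb, α ≠ 0 → ¬ DivG Γ (((minpoly (divF K Γ) α).coeff 0 : divF K Γ) : Qb) →
    ∀ γ : Qb, DivG Γ γ →
    c / ((orb (divF K Γ) α).ncard *
      ((orb (fullField K Γ P) (((minpoly (divF K Γ) α).coeff 0 : divF K Γ) : Qb)).ncard : ℝ) ^ ε) ≤
      ht (α / γ)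

theorem mainn : S_MAINP → S_NRM → S_MAINN := by
  intro hP hNRM K Γ hK hΓfg hΓ P hPp ε hε
  obtain ⟨c, hc, h⟩ := hP K Γ hK hΓfg hΓ P hPp ε hε
  refine ⟨c, hc, fun α hα0 hN γ hγ => ?_⟩
  have hγ0 : γ ≠ 0 := Pool.Agent.TH53.RP.DivG.ne_zero hγ
  have hFd : fullField K Γ P ≤ divF K Γ := Pool.Agent.H54.AV.fullField_le_divF K Γ P
  have hγF : γ ∈ divF K Γ := IntermediateField.subset_adjoin _ _ (Or.inr hγ)
  obtain ⟨h0, h1, h2⟩ := hNRM (fullField K Γ P) (divF K Γ) α hFd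
    (fun τ hτ x hx => normal_divF K Γ hΓ τ (fix_mono (le_fullField K Γ P) hτ) x hx) hα0
  set d : ℕ := (orb (divF K Γ) α).ncard with hd
  have hdpos : (0 : ℝ) < d := by exact_mod_cast orb_ncard_pos _ _
  set N : Qb := (((minpoly (divF K Γ) α).coeff 0 : divF K Γ) : Qb) with hNdef
  have h3 := h N (SetLike.coe_mem _) h0 hN (γ ^ d) (divG_pow hγ d)
  have h4 := h2 γ hγF hγ0
  have h7 : c / ((orb (fullField K Γ P) N).ncard : ℝ) ^ ε ≤ d * ht (α / γ) := h3.trans h4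
  rw [mul_comm, ← div_div, div_le_iff₀ hdpos, mul_comm]
  exact h7

theorem mainn' : S_MAINN := mainn mainp' nrm

end Pool.Agent.H54.AV
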