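import Mathlib
import Pool.Agent.H54.AV.Stm2

set_option autoImplicit false

/-!
# From the base field `K` to the field `ℚ`
-/

namespace Pool.Agent.H54.AV

open Pool.Agent.H58P (Qb ht)
open Pool.Agent.W237.RK
open Pool.Agent.Q246.FD (divF)

/-- `ℚ(Γ)` -/
noncomputable def gF (Γ : Subgroup Qbˣ) : GF :=
  IntermediateField.adjoin ℚ ((fun u : Qbˣ => (u : Qb)) '' (Γ : Set Qbˣ))

lemma mem_gF (Γ : Subgroup Qbˣ) : ∀ g ∈ Γ, (g : Qb) ∈ gF Γ := fun g hg =>
  IntermediateField.subset_adjoin _ _ ⟨g, hg, rfl⟩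

lemma gF_fd (Γ : Subgroup Qbˣ) (hΓ : Γ.FG) : FiniteDimensional ℚ (gF Γ) := by
  obtain ⟨S, hS⟩ := hΓ
  set T : Set Qb := (fun u : Qbˣ => (u : Qb)) '' (S : Set Qbˣ) with hT
  have hTf : Finite T := (S.finite_toSet.image _)
  have hTfd : FiniteDimensional ℚ (IntermediateField.adjoin ℚ T) :=
    IntermediateField.finiteDimensional_adjoin fun x _ => Pool.Agent.H58P.qb_isIntegral x
  have hle : gF Γ ≤ IntermediateField.adjoin ℚ T := by
    unfold gF
    rw [IntermediateField.adjoin_le_iff]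
    rintro _ ⟨g, hg, rfl⟩
    rw [SetLike.mem_coe, ← hS] at hg
    show (g : Qb) ∈ IntermediateField.adjoin ℚ T
    induction hg using Subgroup.closure_induction with
    | mem x hx => exact IntermediateField.subset_adjoin _ _ ⟨x, hx, rfl⟩
    | one => exact one_mem _
    | mul x y _ _ hx hy => rw [Units.val_mul]; exact mul_mem hx hy
    | inv x _ hx => rw [Units.val_inv_eq_inv_val]; exact inv_mem hx
  exact Module.Finite.of_injective (IntermediateField.inclusion hle).toLinearMap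
    (IntermediateField.inclusion hle).injective

lemma divF_gF (Γ : Subgroup Qbˣ) :
    divF (gF Γ) Γ = IntermediateField.adjoin ℚ {y | DivG Γ y} := by
  unfold divF
  apply le_antisymm
  · rw [IntermediateField.adjoin_le_iff]
    rintro y (hy | hy)
    · have h1 : gF Γ ≤ IntermediateField.adjoin ℚ {y | DivG Γ y} := by
        unfold gF
        refine IntermediateField.adjoin.mono _ _ _ ?_
        rintro _ ⟨g, hg, rfl⟩
        exact ⟨1, one_pos, g, hg, pow_one _⟩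
      exact h1 hy
    · exact IntermediateField.subset_adjoin _ _ hy
  · exact IntermediateField.adjoin.mono _ _ _ Set.subset_union_right

lemma smooth_filter' (P : Finset ℕ) (n : ℕ) : (0 < n ∧ ∀ q : ℕ, q.Prime → q ∣ n → q ∈ P) ↔
    Smooth (P.filter Nat.Prime) n := by
  constructor
  · rintro ⟨h1, h2⟩
    exact ⟨h1, fun q hq hd => Finset.mem_filter.2 ⟨h2 q hq hd, hq⟩⟩
  · rintro ⟨h1, h2⟩
    exact ⟨h1, fun q hq hd => (Finset.mem_filter.1 (h2 q hq hd)).1⟩

lemma fullField_gF (Γ : Subgroup Qbˣ) (P : Finset ℕ) :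
    fullField (gF Γ) Γ (P.filter Nat.Prime) = IntermediateField.adjoin ℚ
      ({y : Qb | ∃ n : ℕ, 0 < n ∧ y ^ n = 1} ∪
        {y | ∃ n : ℕ, (0 < n ∧ ∀ q : ℕ, q.Prime → q ∣ n → q ∈ P) ∧
          ∃ g ∈ Γ, y ^ n = (g : Qb)}) := by
  have h : ({y : Qb | ∃ n : ℕ, 0 < n ∧ y ^ n = 1} ∪
      {y | ∃ n : ℕ, (0 < n ∧ ∀ q : ℕ, q.Prime → q ∣ n → q ∈ P) ∧
        ∃ g ∈ Γ, y ^ n = (g : Qb)} : Set Qb) =
      ({x | Tor x} ∪ {y | ∃ n : ℕ, Smooth (P.filter Nat.Prime) n ∧ ∃ g ∈ Γ, y ^ n = (g : Qb)}) := by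
    congr 1
    ext y
    constructor
    · rintro ⟨n, hn, g, hg, h⟩
      exact ⟨n, (smooth_filter' P n).1 hn, g, hg, h⟩
    · rintro ⟨n, hn, g, hg, h⟩
      exact ⟨n, (smooth_filter' P n).2 hn, g, hg, h⟩
  rw [h]
  unfold fullField
  apply le_antisymm
  · refine sup_le ?_ le_rfl
    unfold gF
    refine IntermediateField.adjoin.mono _ _ _ ?_
    rintro _ ⟨g, hg, rfl⟩
    refine Or.inr ⟨1, ⟨one_pos, fun q hq hd => ?_⟩, g, hg, pow_one _⟩
    exact absurd (Nat.dvd_one.mp hd) hq.ne_one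
  · exact le_sup_right

end Pool.Agent.H54.AV
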