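import Pool.Agent.H54.AV.Stm

set_option autoImplicit false
set_option linter.unusedVariables false

/-! # AV-REDA: Kummer descent inside the division field -/

namespace Pool.Agent.H54.AV

open Pool.Agent.W237.RK
open Pool.Agent.H58P (Qb ht)
open Pool.Agent.Q246.FD (divF)
open Pool.Agent.H54.RX (lowr descend3 S_CS3 S_KS3)

namespace RedaAux

lemma orb_self {F : GF} {x : Qb} (hx : x ∈ F) : orb F x = {x} := by
  ext y
  constructor
  · rintro ⟨σ, hσ, rfl⟩
    exact hσ x hx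
  · intro h
    rw [Set.mem_singleton_iff] at h
    rw [h]
    exact self_mem_orb F x

lemma good_self {K F : GF} {c : ℝ} {β : Qb} (hβ : β ≠ 0) (hF : β ∈ F)
    (h : ∀ σ : Aut, Fix K σ → ht (σ β / β) ≤ c) : Good K F 1 (lowr c 1 1) β where
  ne := hβ
  orb := by rw [orb_self hF, Set.ncard_singleton]
  tor := fun ρ hρ _ => hρ β hF
  ht := fun σ hσ => by
    have e : lowr c 1 1 = c := by
      unfold lowr
      simp
    rw [e]
    exact h σ hσ

end RedaAux

open RedaAux in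
theorem reda : Pool.Agent.H54.RX.S_CS3 → Pool.Agent.H54.RX.S_KS3 → S_DIVL → S_REDA := by
  intro hCS hKS hDL p K Γ hp hKfd hΓfg hΓ
  obtain ⟨n₀, c, hc, hn₀, hstep⟩ := descend3 hCS hKS p hp K Γ 1 one_pos hKfd hΓfg hΓ
  refine ⟨n₀, c, hc, fun α hα hα0 hht => ?_⟩
  obtain ⟨R, hR, hαR⟩ := hDL K Γ α hα
  obtain ⟨n, M, hM, rfl⟩ := Nat.exists_eq_pow_mul_and_not_dvd hR.ne' p hp.ne_one
  have hMpos : 0 < M := Nat.pos_of_ne_zero (by rintro rfl; exact hM (dvd_zero p))
  set Finf := levInf K Γ (p ^ n * M) with hFinf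
  have hnorm : NormalOver K Finf := normal_levInf K Γ hΓ _
  have hgood : Good K Finf 1 (lowr c 1 1) α := good_self hα0 hαR hht
  have key : ∀ j, n₀ + j ≤ n → ∃ γ : Qb, γ ≠ 0 ∧ DivG Γ γ ∧ γ ∈ Finf ∧
      α / γ ∈ levInf K Γ (p ^ (n - j) * M) := by
    intro j
    induction j with
    | zero =>
      intro _
      exact ⟨1, one_ne_zero, divG_tor Γ tor_one, one_mem _, by rw [div_one]; exact hαR⟩
    | succ j ih =>
      intro hj
      obtain ⟨γ, hγ0, hγd, hγF, hγ⟩ := ih (by omega)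
      have hle : levInf K Γ (p ^ (n - j) * M) ≤ Finf :=
        levInf_mono K Γ hR (Nat.mul_dvd_mul_right (pow_dvd_pow p (Nat.sub_le n j)) M)
      obtain ⟨γ', h1, h2, h3, h4⟩ := hstep 1 one_pos Finf (n - j) M (α / γ) (by omega) hM hle hnorm
        (hgood.div hΓ hγ0 hγF hγd) (fun κ hκ => ⟨1, fix_one _, hκ _ hγ⟩)
      refine ⟨γ * γ', mul_ne_zero hγ0 h1, hγd.mul h2, mul_mem hγF h3, ?_⟩
      rw [← div_div]
      have e : n - (j + 1) = n - j - 1 := by omega
      rw [e]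
      apply mem_of_fix
      intro κ hκ
      obtain ⟨ρ, hρ, h5⟩ := h4 κ hκ
      rw [h5]
      exact hρ _ (div_mem (hle hγ) h3)
  by_cases hn : n₀ ≤ n
  · obtain ⟨γ, h1, h2, h3, h4⟩ := key (n - n₀) (by omega)
    refine ⟨γ, M, h1, h2, hM, ?_⟩
    rwa [show n - (n - n₀) = n₀ by omega] at h4
  · refine ⟨1, M, one_ne_zero, divG_tor Γ tor_one, hM, ?_⟩
    rw [div_one]
    exact levInf_mono K Γ (Nat.mul_pos (pow_pos hp.pos _) hMpos)
      (Nat.mul_dvd_mul_right (pow_dvd_pow p (by omega)) M) hαR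

end Pool.Agent.H54.AV
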